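import Mathlib
import Pool.Agent.TP975.LR.Ld1

/-!
The variance of the sums over short windows: the second moment of the off-diagonal part.
-/

set_option autoImplicit false

namespace Pool.Agent.TP975.LR

open Finset Filter
open Pool.Agent.H807R2.Dav
open Pool.Agent.TP975.RP

/-- the sum over a window -/
noncomputable def sm {d : ℕ} (F : ℤ → ℝ) (a : Fin (d + 1) → ℤ) (x h : ℕ) : ℝ := ∑ n ∈ Ioc x (x + h), F (ev a (n : ℤ))

/-- the sum of the squares of the sums over the windows -/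
noncomputable def Vr {d : ℕ} (F : ℤ → ℝ) (a : Fin (d + 1) → ℤ) (X h : ℕ) : ℝ := ∑ x ∈ range X, (sm F a x h) ^ 2

/-- the off-diagonal part -/
noncomputable def Od {d : ℕ} (F : ℤ → ℝ) (a : Fin (d + 1) → ℤ) (X h : ℕ) : ℝ :=
  ∑ x ∈ range X, ∑ p ∈ (Ioc x (x + h)).offDiag, F (ev a (p.1 : ℤ)) * F (ev a (p.2 : ℤ))

lemma Vr_eq {d : ℕ} (F : ℤ → ℝ) (hF1 : ∀ v, v ≠ 0 → F v = 1 ∨ F v = -1) (a : Fin (d + 1) → ℤ) (X h : ℕ)
    (hz : ∀ n : ℕ, 1 ≤ n → n ≤ X + h → ev a (n : ℤ) ≠ 0) : Vr F a X h = h * X + Od F a X h := by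
  classical
  unfold Vr Od
  have h1 : ∀ x ∈ range X, (sm F a x h) ^ 2 = h + ∑ p ∈ (Ioc x (x + h)).offDiag, F (ev a (p.1 : ℤ)) * F (ev a (p.2 : ℤ)) := by
    intro x hx
    rw [mem_range] at hx
    unfold sm
    rw [sq, sum_mul_sum, ← sum_product', ← diag_union_offDiag, sum_union (disjoint_diag_offDiag _)]
    congr 1
    rw [sum_diag]
    calc ∑ n ∈ Ioc x (x + h), F (ev a (n : ℤ)) * F (ev a (n : ℤ)) = ∑ n ∈ Ioc x (x + h), (1 : ℝ) := by
          refine sum_congr rfl fun n hn => ?_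
          rw [mem_Ioc] at hn
          rcases hF1 _ (hz n (by omega) (by omega)) with h2 | h2 <;> rw [h2] <;> norm_num
      _ = h := by rw [sum_const, Nat.card_Ioc, Nat.add_sub_cancel_left, nsmul_eq_mul, mul_one]
  rw [sum_congr rfl h1, sum_add_distrib, sum_const, card_range, nsmul_eq_mul]
  ring

/-- the correlations of two pairs -/
theorem four (F : ℤ → ℝ) (hF : WinB F) (hFb : ∀ v, |F v| ≤ 1) (d A U : ℕ) (hd : 2 ≤ d) : ∃ H0 : ℕ, ∀ H : ℕ, H0 ≤ H →
    ∀ p p' : ℕ × ℕ, p.1 ≠ p.2 → p'.1 ≠ p'.2 → (p.1 : ℝ) ≤ Real.log H ^ A → (p.2 : ℝ) ≤ Real.log H ^ A →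
    (p'.1 : ℝ) ≤ Real.log H ^ A → (p'.2 : ℝ) ≤ Real.log H ^ A → p' ≠ p → p' ≠ p.swap →
    |∑ a ∈ QQ d H, (F (ev a (p.1 : ℤ)) * F (ev a (p.2 : ℤ))) * (F (ev a (p'.1 : ℤ)) * F (ev a (p'.2 : ℤ)))| ≤
      (QQ d H).card / Real.log H ^ U := by
  obtain ⟨H0, h0⟩ := corrF F hF hFb d A U
  refine ⟨H0, fun H hH p p' hp hp' b1 b2 b3 b4 hne hsw => ?_⟩
  obtain ⟨n, m⟩ := p
  obtain ⟨n', m'⟩ := p'
  simp only at hp hp' b1 b2 b3 b4
  set t : Fin 4 → ℤ := ![(n : ℤ), m, n', m'] with ht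
  have hcast : ∀ k : ℕ, (((k : ℕ) : ℤ) : ℝ) = (k : ℝ) := fun k => by push_cast; ring
  have htb : ∀ l, |(t l : ℝ)| ≤ Real.log H ^ A := by
    intro l
    fin_cases l <;> simp [ht, abs_of_nonneg] <;> assumption
  have hprod : ∀ a : Fin (d + 1) → ℤ, (F (ev a (n : ℤ)) * F (ev a (m : ℤ))) * (F (ev a (n' : ℤ)) * F (ev a (m' : ℤ))) =
      ∏ l, F (ev a (t l)) := by
    intro a
    rw [Fin.prod_univ_four, ht]
    simp
    ring
  have key : ∀ l0 : Fin 4, (∀ l, l ≠ l0 → t l ≠ t l0) →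
      |∑ a ∈ QQ d H, (F (ev a (n : ℤ)) * F (ev a (m : ℤ))) * (F (ev a (n' : ℤ)) * F (ev a (m' : ℤ)))| ≤
      (QQ d H).card / Real.log H ^ U := by
    intro l0 hl0
    have h1 := h0 H hH (Fin 4) (by rw [Fintype.card_fin]; omega) t htb l0 hl0 (fun _ => F) (fun _ => hFb)
    refine le_trans (le_of_eq ?_) h1
    congr 1
    refine sum_congr rfl fun a _ => ?_
    rw [hprod a, mul_prod_erase univ (fun l => F (ev a (t l))) (mem_univ l0)]
  have hne' : ¬ (n' = n ∧ m' = m) := fun h => hne (by rw [h.1, h.2])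
  have hsw' : ¬ (n' = m ∧ m' = n) := fun h => hsw (by rw [h.1, h.2]; rfl)
  by_cases c1 : n ≠ n' ∧ n ≠ m'
  · apply key 0
    intro l hl
    fin_cases l
    · exact absurd rfl hl
    · simp only [ht]
      intro h
      apply hp
      have : (m : ℤ) = n := h
      exact_mod_cast this.symm
    · simp only [ht]
      intro h
      have : (n' : ℤ) = n := h
      exact c1.1 (by exact_mod_cast this.symm)
    · simp only [ht]
      intro h
      have : (m' : ℤ) = n := h
      exact c1.2 (by exact_mod_cast this.symm)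
  · have c2 : m ≠ n' ∧ m ≠ m' := by
      constructor
      · intro h
        subst h
        apply c1
        exact ⟨hp, fun h => hsw' ⟨rfl, h.symm⟩⟩
      · intro h
        subst h
        apply c1
        exact ⟨fun h => hne' ⟨h.symm, rfl⟩, hp⟩
    apply key 1
    intro l hl
    fin_cases l
    · simp only [ht]
      intro h
      apply hp
      have : (n : ℤ) = m := h
      exact_mod_cast this
    · exact absurd rfl hl
    · simp only [ht]
      intro h
      have : (n' : ℤ) = m := h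
      exact c2.1 (by exact_mod_cast this.symm)
    · simp only [ht]
      intro h
      have : (m' : ℤ) = m := h
      exact c2.2 (by exact_mod_cast this.symm)

/-- the second moment of the off-diagonal part -/
theorem Od_sq (F : ℤ → ℝ) (hF : WinB F) (hFb : ∀ v, |F v| ≤ 1) (d A U : ℕ) (hd : 2 ≤ d) : ∃ H0 : ℕ, ∀ H : ℕ, H0 ≤ H →
    ∀ X h : ℕ, ((X + h : ℕ) : ℝ) ≤ Real.log H ^ A →
    ∑ a ∈ QQ d H, (Od F a X h) ^ 2 ≤ (QQ d H).card * (2 * X * h ^ 3 + X ^ 2 * h ^ 4 / Real.log H ^ U) := by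
  classical
  obtain ⟨H0, h0⟩ := four F hF hFb d A U hd
  refine ⟨H0, fun H hH X h hX => ?_⟩
  have hfour := h0 H hH
  have hQ0 : (0 : ℝ) ≤ (QQ d H).card := Nat.cast_nonneg _
  have hLU0 : 0 ≤ Real.log H ^ U := by
    have : 0 ≤ Real.log (H : ℝ) := Real.log_natCast_nonneg H
    positivity
  set D : ℕ → Finset (ℕ × ℕ) := fun x => (Ioc x (x + h)).offDiag with hD
  have hDc : ∀ x, ((D x).card : ℝ) ≤ (h : ℝ) ^ 2 := by
    intro x
    rw [hD]
    simp only
    rw [offDiag_card, Nat.card_Ioc, Nat.add_sub_cancel_left]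
    have : h * h - h ≤ h ^ 2 := by rw [sq]; omega
    exact_mod_cast this
  -- expansion
  have hexp : ∀ a : Fin (d + 1) → ℤ, (Od F a X h) ^ 2 = ∑ x ∈ range X, ∑ p ∈ D x, ∑ x' ∈ range X, ∑ p' ∈ D x',
      (F (ev a (p.1 : ℤ)) * F (ev a (p.2 : ℤ))) * (F (ev a (p'.1 : ℤ)) * F (ev a (p'.2 : ℤ))) := by
    intro a
    unfold Od
    rw [sq, sum_mul]
    refine sum_congr rfl fun x _ => ?_
    rw [sum_mul]
    refine sum_congr rfl fun p _ => ?_
    rw [mul_sum]
    refine sum_congr rfl fun x' _ => ?_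
    rw [mul_sum]
  have hswap : ∑ a ∈ QQ d H, (Od F a X h) ^ 2 = ∑ x ∈ range X, ∑ p ∈ D x, ∑ x' ∈ range X, ∑ p' ∈ D x', ∑ a ∈ QQ d H,
      (F (ev a (p.1 : ℤ)) * F (ev a (p.2 : ℤ))) * (F (ev a (p'.1 : ℤ)) * F (ev a (p'.2 : ℤ))) := by
    rw [sum_congr rfl (fun a _ => hexp a), sum_comm]
    refine sum_congr rfl fun x _ => ?_
    rw [sum_comm]
    refine sum_congr rfl fun p _ => ?_
    rw [sum_comm]
    refine sum_congr rfl fun x' _ => ?_
    rw [sum_comm]
  rw [hswap]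
  -- one quadruple
  have hone : ∀ x ∈ range X, ∀ p ∈ D x, ∀ x' ∈ range X, ∀ p' ∈ D x', ∑ a ∈ QQ d H,
      (F (ev a (p.1 : ℤ)) * F (ev a (p.2 : ℤ))) * (F (ev a (p'.1 : ℤ)) * F (ev a (p'.2 : ℤ))) ≤
      (QQ d H).card * ((if p' = p then 1 else 0) + (if p' = p.swap then 1 else 0)) + (QQ d H).card / Real.log H ^ U := by
    intro x hx p hp x' hx' p' hp'
    rw [mem_range] at hx hx'
    rw [hD, mem_offDiag, mem_Ioc, mem_Ioc] at hp hp'
    have htriv : ∑ a ∈ QQ d H, (F (ev a (p.1 : ℤ)) * F (ev a (p.2 : ℤ))) * (F (ev a (p'.1 : ℤ)) * F (ev a (p'.2 : ℤ))) ≤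
        (QQ d H).card := by
      calc _ ≤ ∑ a ∈ QQ d H, (1 : ℝ) := by
            refine sum_le_sum fun a _ => ?_
            refine (le_abs_self _).trans ?_
            rw [abs_mul, abs_mul, abs_mul]
            have u1 := hFb (ev a (p.1 : ℤ))
            have u2 := hFb (ev a (p.2 : ℤ))
            have u3 := hFb (ev a (p'.1 : ℤ))
            have u4 := hFb (ev a (p'.2 : ℤ))
            exact mul_le_one₀ (mul_le_one₀ u1 (abs_nonneg _) u2) (mul_nonneg (abs_nonneg _) (abs_nonneg _))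
              (mul_le_one₀ u3 (abs_nonneg _) u4)
        _ = _ := by rw [sum_const, nsmul_eq_mul, mul_one]
    have hz : 0 ≤ (QQ d H).card / Real.log H ^ U := div_nonneg hQ0 hLU0
    have hn1 : (0 : ℝ) ≤ (if p' = p then 1 else 0) := by split_ifs <;> norm_num
    have hn2 : (0 : ℝ) ≤ (if p' = p.swap then 1 else 0) := by split_ifs <;> norm_num
    by_cases c1 : p' = p
    · rw [if_pos c1]
      nlinarith
    · by_cases c2 : p' = p.swap
      · rw [if_pos c2]
        nlinarith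
      · rw [if_neg c1, if_neg c2]
        have hb : ∀ n : ℕ, n ≤ X + h → (n : ℝ) ≤ Real.log H ^ A := fun n hn => le_trans (by exact_mod_cast hn) hX
        have h1 := hfour p p' hp.2.2 hp'.2.2 (hb _ (by omega)) (hb _ (by omega)) (hb _ (by omega)) (hb _ (by omega)) c1 c2
        have := (le_abs_self _).trans h1
        linarith
  -- the number of the coincidences
  have hcoin : ∀ q : ℕ × ℕ, ∑ x' ∈ range X, ∑ p' ∈ D x', (if p' = q then (1 : ℝ) else 0) ≤ h := by
    intro q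
    have h1 : ∀ x' ∈ range X, ∑ p' ∈ D x', (if p' = q then (1 : ℝ) else 0) ≤ if x' < q.1 ∧ q.1 ≤ x' + h then 1 else 0 := by
      intro x' _
      rw [sum_ite_eq' (D x') q (fun _ => (1 : ℝ))]
      by_cases hq : q ∈ D x'
      · rw [if_pos hq]
        rw [hD, mem_offDiag, mem_Ioc] at hq
        rw [if_pos hq.1]
      · rw [if_neg hq]
        split_ifs <;> norm_num
    refine (sum_le_sum h1).trans ?_
    rw [← sum_filter, sum_const, nsmul_eq_mul, mul_one]
    have h2 : (range X).filter (fun x' => x' < q.1 ∧ q.1 ≤ x' + h) ⊆ Ico (q.1 - h) q.1 := by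
      intro x' hx'
      rw [mem_filter] at hx'
      rw [mem_Ico]
      omega
    have h3 := card_le_card h2
    rw [Nat.card_Ico] at h3
    have h4 : q.1 - (q.1 - h) ≤ h := by omega
    exact_mod_cast h3.trans h4
  calc ∑ x ∈ range X, ∑ p ∈ D x, ∑ x' ∈ range X, ∑ p' ∈ D x', ∑ a ∈ QQ d H,
      (F (ev a (p.1 : ℤ)) * F (ev a (p.2 : ℤ))) * (F (ev a (p'.1 : ℤ)) * F (ev a (p'.2 : ℤ))) ≤
      ∑ x ∈ range X, ∑ p ∈ D x, ∑ x' ∈ range X, ∑ p' ∈ D x',
        ((QQ d H).card * ((if p' = p then 1 else 0) + (if p' = p.swap then 1 else 0)) + (QQ d H).card / Real.log H ^ U) :=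
      sum_le_sum fun x hx => sum_le_sum fun p hp => sum_le_sum fun x' hx' => sum_le_sum fun p' hp' => hone x hx p hp x' hx' p' hp'
    _ ≤ ∑ x ∈ range X, ∑ p ∈ D x, ((QQ d H).card * (h + h) + X * (h ^ 2 * ((QQ d H).card / Real.log H ^ U))) := by
        refine sum_le_sum fun x _ => sum_le_sum fun p _ => ?_
        have h1 : ∑ x' ∈ range X, ∑ p' ∈ D x',
            ((QQ d H).card * ((if p' = p then 1 else 0) + (if p' = p.swap then 1 else 0)) + (QQ d H).card / Real.log H ^ U) =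
            (QQ d H).card * (∑ x' ∈ range X, ∑ p' ∈ D x', (if p' = p then (1 : ℝ) else 0) +
              ∑ x' ∈ range X, ∑ p' ∈ D x', (if p' = p.swap then (1 : ℝ) else 0)) +
            ∑ x' ∈ range X, ∑ p' ∈ D x', (QQ d H).card / Real.log H ^ U := by
          rw [← sum_add_distrib, mul_sum, ← sum_add_distrib]
          refine sum_congr rfl fun x' _ => ?_
          rw [← sum_add_distrib, mul_sum, ← sum_add_distrib]
        rw [h1]
        apply add_le_add
        · exact mul_le_mul_of_nonneg_left (add_le_add (hcoin _) (hcoin _)) hQ0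
        · calc ∑ x' ∈ range X, ∑ p' ∈ D x', (QQ d H).card / Real.log H ^ U ≤
              ∑ x' ∈ range X, (h ^ 2 * ((QQ d H).card / Real.log H ^ U)) := by
                refine sum_le_sum fun x' _ => ?_
                rw [sum_const, nsmul_eq_mul]
                exact mul_le_mul_of_nonneg_right (hDc x') (div_nonneg hQ0 hLU0)
            _ = _ := by rw [sum_const, card_range, nsmul_eq_mul]
    _ ≤ ∑ x ∈ range X, h ^ 2 * ((QQ d H).card * (h + h) + X * (h ^ 2 * ((QQ d H).card / Real.log H ^ U))) := by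
        refine sum_le_sum fun x _ => ?_
        rw [sum_const, nsmul_eq_mul]
        apply mul_le_mul_of_nonneg_right (hDc x)
        have := div_nonneg hQ0 hLU0
        positivity
    _ = _ := by
        rw [sum_const, card_range, nsmul_eq_mul]
        ring

end Pool.Agent.TP975.LR
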