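import Mathlib
import Pool.Agent.TP975.LR.Lh1

/-!
The variance of the sums over short windows: from a grid to all lengths.
-/

set_option autoImplicit false

namespace Pool.Agent.TP975.LR

open Finset

/-- the sum over a window -/
noncomputable def sW (y : ℕ → ℝ) (x h : ℕ) : ℝ := ∑ n ∈ Ioc x (x + h), y n

/-- the sum of the squares of the sums over the windows -/
noncomputable def VW (y : ℕ → ℝ) (X h : ℕ) : ℝ := ∑ x ∈ range X, (sW y x h) ^ 2

lemma VW_mono (y : ℕ → ℝ) {X X' : ℕ} (h : ℕ) (hX : X ≤ X') : VW y X h ≤ VW y X' h :=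
  sum_le_sum_of_subset_of_nonneg (range_subset_range.2 hX) fun _ _ _ => sq_nonneg _

lemma VW_shift (y : ℕ → ℝ) (X o h : ℕ) : ∑ x ∈ range X, (sW y (x + o) h) ^ 2 ≤ VW y (X + o) h := by
  unfold VW
  rw [← sum_image (s := range X) (g := fun x => x + o) (f := fun x => (sW y x h) ^ 2) (by
    intro x _ x' _ h; simpa using h)]
  apply sum_le_sum_of_subset_of_nonneg
  · intro x hx
    rw [mem_image] at hx
    obtain ⟨x', hx', rfl⟩ := hx
    rw [mem_range] at hx' ⊢
    omega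
  · exact fun _ _ _ => sq_nonneg _

lemma sW_split (y : ℕ → ℝ) (x h e : ℕ) : sW y x (h + e) = sW y x h + sW y (x + h) e := by
  unfold sW
  rw [← add_assoc, sum_Ioc_consecutive _ (by omega) (by omega)]

lemma sq_add_le (a b τ : ℝ) (hτ : 0 < τ) : (a + b) ^ 2 ≤ (1 + τ) * a ^ 2 + (1 + 1 / τ) * b ^ 2 := by
  have h1 : 0 ≤ (τ * a - b) ^ 2 / τ := by positivity
  have h2 : (τ * a - b) ^ 2 / τ = τ * a ^ 2 - 2 * a * b + 1 / τ * b ^ 2 := by
    field_simp
    ring
  nlinarith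

/-- short windows of arbitrary length from dyadic ones -/
lemma dyadV (y : ℕ → ℝ) (X : ℕ) (β : ℝ) (hβ : 0 ≤ β) : ∀ k e o : ℕ, e < 2 ^ k →
    (∀ j < k, ∀ o' ≤ o + e, ∑ x ∈ range X, (sW y (x + o') (2 ^ j)) ^ 2 ≤ β * 2 ^ j) →
    ∑ x ∈ range X, (sW y (x + o) e) ^ 2 ≤ k * (β * 2 ^ k) := by
  intro k
  induction k with
  | zero =>
    intro e o he _
    have : e = 0 := by simpa using he
    subst this
    simp [sW]
  | succ k ih =>
    intro e o he h
    rcases Nat.lt_or_ge e (2 ^ k) with h1 | h1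
    · refine (ih e o h1 (fun j hj => h j (by omega))).trans ?_
      push_cast
      rw [pow_succ]
      have h2 : 0 ≤ β * 2 ^ k := by positivity
      have h3 : (0 : ℝ) ≤ k := Nat.cast_nonneg _
      nlinarith
    · obtain ⟨e', rfl⟩ : ∃ e', e = 2 ^ k + e' := ⟨e - 2 ^ k, by omega⟩
      have he' : e' < 2 ^ k := by rw [pow_succ] at he; omega
      have hA := h k (by omega) o (by omega)
      rcases Nat.eq_zero_or_pos k with h0 | h0
      · subst h0
        have : e' = 0 := by simpa using he'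
        subst this
        simp only [pow_zero, mul_one, add_zero] at hA ⊢
        push_cast
        linarith
      · have hk0 : (0 : ℝ) < k := by exact_mod_cast h0
        have hB := ih e' (o + 2 ^ k) he' (fun j hj o' ho' => h j (by omega) o' (by omega))
        have h2 : ∑ x ∈ range X, (sW y (x + o) (2 ^ k + e')) ^ 2 ≤
            (1 + k) * ∑ x ∈ range X, (sW y (x + o) (2 ^ k)) ^ 2 + (1 + 1 / k) * ∑ x ∈ range X, (sW y (x + (o + 2 ^ k)) e') ^ 2 := by
          rw [mul_sum, mul_sum, ← sum_add_distrib]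
          refine sum_le_sum fun x _ => ?_
          rw [sW_split, ← add_assoc]
          exact sq_add_le _ _ _ hk0
        refine h2.trans ?_
        have h3 : (1 + (k : ℝ)) * ∑ x ∈ range X, (sW y (x + o) (2 ^ k)) ^ 2 ≤ (1 + k) * (β * 2 ^ k) :=
          mul_le_mul_of_nonneg_left hA (by positivity)
        have h4 : (1 + 1 / (k : ℝ)) * ∑ x ∈ range X, (sW y (x + (o + 2 ^ k)) e') ^ 2 ≤ (1 + 1 / k) * (k * (β * 2 ^ k)) :=
          mul_le_mul_of_nonneg_left hB (by positivity)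
        have h5 : (1 + 1 / (k : ℝ)) * (k * (β * 2 ^ k)) = (1 + k) * (β * 2 ^ k) := by
          field_simp
          ring
        push_cast
        rw [pow_succ]
        linarith

/-- the grid -/
lemma grid (G n : ℕ) (hG : 1 ≤ G) (hn : 1 ≤ n) : ∃ m k : ℕ, 1 ≤ m ∧ m < 2 * G ∧ m * 2 ^ k ≤ n ∧ n < (m + 1) * 2 ^ k ∧
    (k = 0 ∨ G * 2 ^ k ≤ n) := by
  rcases Nat.lt_or_ge n (2 * G) with h | h
  · exact ⟨n, 0, hn, h, by simp, by simp, Or.inl rfl⟩
  · set k := Nat.log 2 (n / G) with hk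
    have h1 : n / G ≠ 0 := by
      have : 1 ≤ n / G := by rw [Nat.le_div_iff_mul_le (by omega)]; omega
      omega
    have h2 : 2 ^ k ≤ n / G := Nat.pow_log_le_self 2 h1
    have h3 : n / G < 2 ^ (k + 1) := Nat.lt_pow_succ_log_self (by norm_num) _
    have h2k : 0 < 2 ^ k := by positivity
    have h4 : G * 2 ^ k ≤ n := by
      rw [Nat.le_div_iff_mul_le (by omega)] at h2
      rw [mul_comm]
      exact h2
    have h5 : n < 2 * G * 2 ^ k := by
      rw [Nat.div_lt_iff_lt_mul (by omega)] at h3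
      rw [pow_succ] at h3
      calc n < 2 ^ k * 2 * G := h3
        _ = 2 * G * 2 ^ k := by ring
    have h6 := Nat.div_add_mod n (2 ^ k)
    have h7 := Nat.mod_lt n h2k
    refine ⟨n / 2 ^ k, k, ?_, ?_, Nat.div_mul_le_self _ _, ?_, Or.inr h4⟩
    · rw [Nat.le_div_iff_mul_le h2k]
      have : 1 * 2 ^ k ≤ G * 2 ^ k := Nat.mul_le_mul_right _ hG
      omega
    · rw [Nat.div_lt_iff_lt_mul h2k]
      exact h5
    · have : (n / 2 ^ k + 1) * 2 ^ k = 2 ^ k * (n / 2 ^ k) + 2 ^ k := by ring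
      omega

/-- the estimate on the grid -/
def GridOk (y : ℕ → ℝ) (G : ℕ) (Λ Xm : ℝ) : Prop :=
  ∀ m k m' k' : ℕ, 1 ≤ m → m ≤ 2 * G → 1 ≤ m' → m' ≤ 2 * G → ((m' * 2 ^ k' : ℕ) : ℝ) * Λ ≤ 4 * ((m * 2 ^ k : ℕ) : ℝ) →
    ((m * 2 ^ k : ℕ) : ℝ) ≤ Xm →
    |VW y (m * 2 ^ k) (m' * 2 ^ k') - ((m' * 2 ^ k' : ℕ) : ℝ) * ((m * 2 ^ k : ℕ) : ℝ)| ≤
      1 / G * (((m' * 2 ^ k' : ℕ) : ℝ) * ((m * 2 ^ k : ℕ) : ℝ))

/-- all `X`, `h` on the grid -/
lemma step_X (y : ℕ → ℝ) (G : ℕ) (Λ Xm : ℝ) (hG : 4 ≤ G) (hgr : GridOk y G Λ Xm) (X m' k' : ℕ) (hX : 1 ≤ X)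
    (h1 : 1 ≤ m') (h2 : m' ≤ 2 * G) (hc : ((m' * 2 ^ k' : ℕ) : ℝ) * Λ ≤ 2 * X) (hXm : 2 * (X : ℝ) ≤ Xm) :
    |VW y X (m' * 2 ^ k') - ((m' * 2 ^ k' : ℕ) : ℝ) * X| ≤ 3 / G * (((m' * 2 ^ k' : ℕ) : ℝ) * X) := by
  obtain ⟨m, k, g1, g2, g3, g4, g5⟩ := grid G X (by omega) hX
  have hG0 : (4 : ℝ) ≤ G := by exact_mod_cast hG
  have hGp : (0 : ℝ) < G := by linarith
  have hXr : (1 : ℝ) ≤ X := by exact_mod_cast hX
  set h : ℝ := ((m' * 2 ^ k' : ℕ) : ℝ) with hh
  have hh0 : 0 ≤ h := Nat.cast_nonneg _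
  have hG1 : 1 / (G : ℝ) ≤ 3 / G := div_le_div_of_nonneg_right (by norm_num) hGp.le
  rcases Nat.eq_zero_or_pos k with h0 | h0
  · subst h0
    have e : X = m * 2 ^ 0 := by simp at g3 g4 ⊢; omega
    have key := hgr m 0 m' k' g1 (by omega) h1 h2 (by
      rw [← e]
      linarith) (by rw [← e]; linarith)
    rw [← e] at key
    refine key.trans ?_
    exact mul_le_mul_of_nonneg_right hG1 (by positivity)
  · have hg : (G : ℝ) * 2 ^ k ≤ X := by
      rcases g5 with h3 | h3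
      · omega
      · exact_mod_cast h3
    have hstep : (2 : ℝ) ^ k ≤ X / G := by rw [le_div_iff₀ hGp]; linarith
    have hXG : (X : ℝ) / G ≤ X / 4 := div_le_div_of_nonneg_left (by linarith) (by norm_num) hG0
    have r3 : ((m * 2 ^ k : ℕ) : ℝ) ≤ X := by exact_mod_cast g3
    have r4 : (X : ℝ) ≤ ((m * 2 ^ k : ℕ) : ℝ) + 2 ^ k := by
      have : X ≤ (m + 1) * 2 ^ k := g4.le
      have e : (m + 1) * 2 ^ k = m * 2 ^ k + 2 ^ k := by ring
      rw [e] at this
      exact_mod_cast this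
    have r5 : (((m + 1) * 2 ^ k : ℕ) : ℝ) = ((m * 2 ^ k : ℕ) : ℝ) + 2 ^ k := by push_cast; ring
    set Xl : ℝ := ((m * 2 ^ k : ℕ) : ℝ) with hXl
    have kl := hgr m k m' k' g1 (by omega) h1 h2 (by rw [← hXl]; linarith) (by rw [← hXl]; linarith)
    have ku := hgr (m + 1) k m' k' (by omega) (by omega) h1 h2 (by rw [r5]; linarith) (by rw [r5]; linarith)
    rw [r5] at ku
    rw [← hXl, ← hh] at kl
    rw [← hh] at ku
    have ml := VW_mono y (m' * 2 ^ k') g3
    have mu := VW_mono y (m' * 2 ^ k') g4.le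
    have al := (abs_le.1 kl).1
    have au := (abs_le.1 ku).2
    have hX1 : Xl + 2 ^ k ≤ X + X / G := by linarith
    have hX2 : (X : ℝ) - X / G ≤ Xl := by linarith
    have hX3 : 0 ≤ Xl := Nat.cast_nonneg _
    set u : ℝ := 1 / (G : ℝ) with hu
    have hu0 : 0 < u := by positivity
    have hu4 : u ≤ 1 / 4 := one_div_le_one_div_of_le (by norm_num) hG0
    have e1 : (X : ℝ) / G = u * X := by rw [hu]; ring
    have e2 : 3 / (G : ℝ) = 3 * u := by rw [hu]; ring
    rw [e1] at hX1 hX2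
    rw [e2, abs_le]
    have hhX : 0 ≤ h * X := by positivity
    constructor
    · -- the lower bound
      have : h * Xl ≥ h * (X - u * X) := mul_le_mul_of_nonneg_left hX2 hh0
      have : u * (h * Xl) ≤ u * (h * X) := mul_le_mul_of_nonneg_left (mul_le_mul_of_nonneg_left r3 hh0) hu0.le
      nlinarith
    · have e3 : h * (Xl + 2 ^ k) ≤ h * (X + u * X) := mul_le_mul_of_nonneg_left hX1 hh0
      have e4 : u * (h * (Xl + 2 ^ k)) ≤ u * (h * (X + u * X)) := mul_le_mul_of_nonneg_left e3 hu0.le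
      have e5 : u * (h * (X + u * X)) = u * (h * X) + u * (u * (h * X)) := by ring
      have e6 : u * (u * (h * X)) ≤ u * (1 * (h * X)) := by
        apply mul_le_mul_of_nonneg_left _ hu0.le
        exact mul_le_mul_of_nonneg_right (by linarith) hhX
      nlinarith

/-- all `X` and all `h` -/
lemma step_h (y : ℕ → ℝ) (G : ℕ) (Λ Xm τ : ℝ) (K0 : ℕ) (hG : 4 ≤ G) (hΛ : 1 ≤ Λ) (hgr : GridOk y G Λ Xm)
    (hτ0 : 0 < τ) (hτ1 : τ ≤ 1) (hτG : 4 * K0 ≤ τ ^ 2 * G) (hτ2 : 1 ≤ τ * G) (hK : Xm < 2 ^ K0)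
    (X h : ℕ) (hh : 1 ≤ h) (hc : (h : ℝ) * Λ ≤ X) (hXm : 4 * (X : ℝ) ≤ Xm) :
    |VW y X h - h * X| ≤ 10 * τ * (h * X) := by
  obtain ⟨m, k, g1, g2, g3, g4, g5⟩ := grid G h (by omega) hh
  have hG0 : (4 : ℝ) ≤ G := by exact_mod_cast hG
  have hGp : (0 : ℝ) < G := by linarith
  have hhr : (1 : ℝ) ≤ h := by exact_mod_cast hh
  have hhX : (h : ℝ) ≤ X := by nlinarith
  have hXr : (1 : ℝ) ≤ X := by linarith
  have hX1 : 1 ≤ X := by exact_mod_cast hXr
  have hH0 : 0 ≤ (h : ℝ) * X := by positivity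
  have hGτ : 1 / (G : ℝ) ≤ τ := by rw [div_le_iff₀ hGp]; linarith
  have hG3 : 3 / (G : ℝ) ≤ 3 * τ := by
    have : 3 / (G : ℝ) = 3 * (1 / G) := by ring
    linarith
  rcases Nat.eq_zero_or_pos k with h0 | h0
  · subst h0
    have e : h = m * 2 ^ 0 := by simp at g3 g4 ⊢; omega
    have key := step_X y G Λ Xm hG hgr X m 0 hX1 g1 (by omega) (by rw [← e]; linarith) (by linarith)
    rw [← e] at key
    refine key.trans ?_
    apply mul_le_mul_of_nonneg_right _ hH0
    linarith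
  · have hg : (G : ℝ) * 2 ^ k ≤ h := by
      rcases g5 with h3 | h3
      · omega
      · exact_mod_cast h3
    have h2k : (0 : ℝ) < 2 ^ k := by positivity
    have hkK : k ≤ K0 := by
      by_contra hcon
      push Not at hcon
      have h3 : (2 : ℝ) ^ K0 ≤ 2 ^ k := pow_le_pow_right₀ (by norm_num) hcon.le
      nlinarith
    obtain ⟨e, he⟩ : ∃ e, h = m * 2 ^ k + e := ⟨h - m * 2 ^ k, by omega⟩
    have he2 : e < 2 ^ k := by
      have : (m + 1) * 2 ^ k = m * 2 ^ k + 2 ^ k := by ring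
      omega
    have key := step_X y G Λ Xm hG hgr X m k hX1 g1 (by omega) (by
      have : ((m * 2 ^ k : ℕ) : ℝ) ≤ h := by exact_mod_cast g3
      nlinarith) (by linarith)
    set g : ℝ := ((m * 2 ^ k : ℕ) : ℝ) with hgd
    have hg0 : 0 ≤ g := Nat.cast_nonneg _
    have hgh : g ≤ h := by rw [hgd]; exact_mod_cast g3
    have heh : (h : ℝ) = g + e := by rw [hgd]; exact_mod_cast he
    -- the short windows
    have hshort : ∀ j < k, ∀ o' ≤ m * 2 ^ k + e, ∑ x ∈ range X, (sW y (x + o') (2 ^ j)) ^ 2 ≤ (4 * X) * 2 ^ j := by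
      intro j hj o' ho'
      refine (VW_shift y X o' (2 ^ j)).trans ((VW_mono y (2 ^ j) (show X + o' ≤ X + h by omega)).trans ?_)
      have h2j : (2 : ℝ) ^ j ≤ 2 ^ k := pow_le_pow_right₀ (by norm_num) hj.le
      have h2jh : (2 : ℝ) ^ j ≤ h := by nlinarith
      have h3 := step_X y G Λ Xm hG hgr (X + h) 1 j (by omega) le_rfl (by omega) (by
        push_cast
        rw [one_mul]
        have : (2 : ℝ) ^ j * Λ ≤ h * Λ := mul_le_mul_of_nonneg_right h2jh (by linarith)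
        linarith) (by push_cast; linarith)
      rw [one_mul] at h3
      have h4 := (abs_le.1 h3).2
      have h5 : (((2 ^ j : ℕ)) : ℝ) * ((X + h : ℕ) : ℝ) ≤ 2 ^ j * (2 * X) := by
        push_cast
        apply mul_le_mul_of_nonneg_left _ (by positivity)
        linarith
      have h6 : 3 / (G : ℝ) ≤ 1 := by rw [div_le_one hGp]; linarith
      have h7 : 3 / (G : ℝ) * ((((2 ^ j : ℕ)) : ℝ) * ((X + h : ℕ) : ℝ)) ≤ 1 * ((((2 ^ j : ℕ)) : ℝ) * ((X + h : ℕ) : ℝ)) :=
        mul_le_mul_of_nonneg_right h6 (by positivity)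
      linarith
    have hN := dyadV y X (4 * X) (by positivity) k e (m * 2 ^ k) he2 hshort
    set ν : ℝ := ∑ x ∈ range X, (sW y (x + m * 2 ^ k) e) ^ 2 with hν
    have hν0 : 0 ≤ ν := sum_nonneg fun _ _ => sq_nonneg _
    have hν1 : ν ≤ τ ^ 2 * (h * X) := by
      have h3 : (k : ℝ) ≤ K0 := by exact_mod_cast hkK
      have h4 : (k : ℝ) * (4 * X * 2 ^ k) = (4 * k) * (2 ^ k * X) := by ring
      have h5 : (4 * (k : ℝ)) * (2 ^ k * X) ≤ (τ ^ 2 * G) * (2 ^ k * X) := by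
        apply mul_le_mul_of_nonneg_right _ (by positivity)
        linarith
      have h6 : (τ ^ 2 * G) * (2 ^ k * X) = τ ^ 2 * ((G * 2 ^ k) * X) := by ring
      have h7 : τ ^ 2 * (((G : ℝ) * 2 ^ k) * X) ≤ τ ^ 2 * (h * X) := by
        apply mul_le_mul_of_nonneg_left _ (by positivity)
        exact mul_le_mul_of_nonneg_right hg (by positivity)
      linarith
    -- comparison
    have hid : VW y X h - VW y X (m * 2 ^ k) =
        ∑ x ∈ range X, (2 * sW y x (m * 2 ^ k) * sW y (x + m * 2 ^ k) e + (sW y (x + m * 2 ^ k) e) ^ 2) := by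
      unfold VW
      rw [← sum_sub_distrib, he]
      refine sum_congr rfl fun x _ => ?_
      rw [sW_split]
      ring
    have hcmp : |VW y X h - VW y X (m * 2 ^ k)| ≤ τ * VW y X (m * 2 ^ k) + 1 / τ * ν + ν := by
      rw [hid]
      refine (abs_sum_le_sum_abs _ _).trans ?_
      unfold VW
      rw [hν, mul_sum, mul_sum, ← sum_add_distrib, ← sum_add_distrib]
      refine sum_le_sum fun x _ => ?_
      set α := sW y x (m * 2 ^ k)
      set b := sW y (x + m * 2 ^ k) e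
      have h3 : 0 ≤ (τ * |α| - |b|) ^ 2 / τ := by positivity
      have h4 : (τ * |α| - |b|) ^ 2 / τ = τ * |α| ^ 2 - 2 * |α| * |b| + 1 / τ * |b| ^ 2 := by
        field_simp
        ring
      rw [sq_abs, sq_abs] at h4
      calc |2 * α * b + b ^ 2| ≤ |2 * α * b| + |b ^ 2| := abs_add_le _ _
        _ = 2 * |α| * |b| + b ^ 2 := by
            rw [abs_mul, abs_mul, abs_of_pos (by norm_num : (0 : ℝ) < 2), abs_of_nonneg (sq_nonneg b)]
        _ ≤ _ := by linarith
    have hVg : VW y X (m * 2 ^ k) ≤ 2 * (h * X) := by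
      have h3 := (abs_le.1 key).2
      have h4 : g * X ≤ h * X := mul_le_mul_of_nonneg_right hgh (by linarith)
      have h5 : 3 / (G : ℝ) * (g * X) ≤ 1 * (g * X) :=
        mul_le_mul_of_nonneg_right (by rw [div_le_one hGp]; linarith) (by positivity)
      linarith
    have h1τ : 1 / τ * ν ≤ τ * (h * X) := by
      rw [one_div_mul_eq_div, div_le_iff₀ hτ0]
      calc ν ≤ τ ^ 2 * (h * X) := hν1
        _ = _ := by ring
    have hντ : ν ≤ τ * (h * X) := by
      refine hν1.trans ?_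
      apply mul_le_mul_of_nonneg_right _ hH0
      nlinarith
    have hτV : τ * VW y X (m * 2 ^ k) ≤ τ * (2 * (h * X)) := mul_le_mul_of_nonneg_left hVg hτ0.le
    have hd1 : |VW y X h - VW y X (m * 2 ^ k)| ≤ 4 * τ * (h * X) := by linarith
    have hd2 : |VW y X (m * 2 ^ k) - g * X| ≤ 3 * τ * (h * X) := by
      refine key.trans ?_
      calc 3 / (G : ℝ) * (g * X) ≤ (3 * τ) * (g * X) := mul_le_mul_of_nonneg_right hG3 (by positivity)
        _ ≤ (3 * τ) * (h * X) := by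
            apply mul_le_mul_of_nonneg_left _ (by positivity)
            exact mul_le_mul_of_nonneg_right hgh (by linarith)
    have hd3 : |g * X - h * X| ≤ τ * (h * X) := by
      have e1 : g * X - h * X = -(e * X) := by rw [heh]; ring
      rw [e1, abs_neg, abs_of_nonneg (by positivity)]
      have h3 : (e : ℝ) ≤ 2 ^ k := by exact_mod_cast he2.le
      have h4 : (2 : ℝ) ^ k ≤ τ * h := by
        have : (2 : ℝ) ^ k ≤ (τ * G) * 2 ^ k := le_mul_of_one_le_left h2k.le hτ2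
        have : τ * (G * 2 ^ k) ≤ τ * h := mul_le_mul_of_nonneg_left hg hτ0.le
        linarith
      have h5 : (e : ℝ) * X ≤ (τ * h) * X := mul_le_mul_of_nonneg_right (h3.trans h4) (by linarith)
      linarith
    have e9 : VW y X h - h * X = (VW y X h - VW y X (m * 2 ^ k)) + (VW y X (m * 2 ^ k) - g * X) + (g * X - h * X) := by ring
    rw [e9]
    refine (abs_add_three _ _ _).trans ?_
    have : 0 ≤ τ * (h * X) := by positivity
    linarith

end Pool.Agent.TP975.LR
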