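import Mathlib
import Pool.Agent.TP975.LR.Lh2

/-!
The variance of the sums over short windows: the theorem.
-/

set_option autoImplicit false

namespace Pool.Agent.TP975.LR

open Finset Filter
open Pool.Agent.H807R2.Dav
open Pool.Agent.TP975.RP

open Classical in
/-- the exceptional polynomials of a pair of lengths -/
noncomputable def EvO (d H : ℕ) (F : ℤ → ℝ) (G : ℕ) (Λ Xm : ℝ) (X h : ℕ) : Finset (Fin (d + 1) → ℤ) :=
  if (h : ℝ) * Λ ≤ 4 * X ∧ (X : ℝ) ≤ Xm then (QQ d H).filter (fun a => 1 / (G : ℝ) * (h * X) < |Od F a X h|) else ∅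

open Classical in
/-- the polynomials with a small zero -/
noncomputable def Zr (d H N0 : ℕ) : Finset (Fin (d + 1) → ℤ) :=
  (Icc 1 N0).biUnion (fun n => (QQ d H).filter (fun a => ev a (n : ℤ) = 0))

lemma Zr_card (d H N0 : ℕ) : ((Zr d H N0).card : ℝ) ≤ N0 * (2 * H + 1 : ℝ) ^ d := by
  classical
  unfold Zr
  refine (card_bU (Icc 1 N0) _ (fun _ => (2 * H + 1 : ℝ) ^ d) (fun n _ => zero_card d H n)).trans ?_
  rw [sum_const, Nat.card_Icc, Nat.add_sub_cancel, nsmul_eq_mul]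

lemma EvO_card (d H : ℕ) (F : ℤ → ℝ) (G : ℕ) (Λ Xm : ℝ) (U A : ℕ) (X h : ℕ) (hG : 1 ≤ G) (hΛ : 4 ≤ Λ) (hX : 1 ≤ X) (hh : 1 ≤ h)
    (hL : 1 ≤ Real.log H) (hXm : 2 * Xm ≤ Real.log H ^ A) (hU : Λ * Real.log H ^ (2 * A) ≤ Real.log H ^ U)
    (hmom : ∀ X h : ℕ, ((X + h : ℕ) : ℝ) ≤ Real.log H ^ A →
      ∑ a ∈ QQ d H, (Od F a X h) ^ 2 ≤ (QQ d H).card * (2 * X * h ^ 3 + X ^ 2 * h ^ 4 / Real.log H ^ U)) :
    ((EvO d H F G Λ Xm X h).card : ℝ) ≤ (QQ d H).card * (9 * G ^ 2 / Λ) := by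
  classical
  have hQ0 : (0 : ℝ) ≤ (QQ d H).card := Nat.cast_nonneg _
  have hΛ0 : 0 < Λ := by linarith
  unfold EvO
  split_ifs with hc
  swap
  · rw [card_empty, Nat.cast_zero]; positivity
  obtain ⟨h1, h2⟩ := hc
  set L := Real.log H with hLd
  have hL0 : 0 < L := by linarith
  have hXr : (1 : ℝ) ≤ X := by exact_mod_cast hX
  have hhr : (1 : ℝ) ≤ h := by exact_mod_cast hh
  have hX0 : (0 : ℝ) < X := by linarith
  have hh0 : (0 : ℝ) < h := by linarith
  have hG0 : (0 : ℝ) < G := by exact_mod_cast hG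
  have hhX : (h : ℝ) ≤ X := by nlinarith
  have hmX := hmom X h (by push_cast; linarith)
  have hLU : 0 < L ^ U := by positivity
  set S := (QQ d H).filter (fun a => 1 / (G : ℝ) * (h * X) < |Od F a X h|) with hS
  have hτ : 0 < 1 / (G : ℝ) * (h * X) := by positivity
  have h3 : (S.card : ℝ) * (1 / (G : ℝ) * (h * X)) ^ 2 ≤ (QQ d H).card * (2 * X * h ^ 3 + X ^ 2 * h ^ 4 / L ^ U) := by
    calc (S.card : ℝ) * (1 / (G : ℝ) * (h * X)) ^ 2 = ∑ a ∈ S, (1 / (G : ℝ) * (h * X)) ^ 2 := by rw [sum_const, nsmul_eq_mul]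
      _ ≤ ∑ a ∈ S, (Od F a X h) ^ 2 := by
          refine sum_le_sum fun a ha => ?_
          rw [hS, mem_filter] at ha
          rw [← sq_abs (Od F a X h)]
          exact pow_le_pow_left₀ hτ.le ha.2.le 2
      _ ≤ ∑ a ∈ QQ d H, (Od F a X h) ^ 2 := sum_le_sum_of_subset_of_nonneg (filter_subset _ _) fun _ _ _ => sq_nonneg _
      _ ≤ _ := hmX
  have hp : 0 < (1 / (G : ℝ) * (h * X)) ^ 2 := by positivity
  apply le_of_mul_le_mul_right _ hp
  refine h3.trans ?_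
  rw [mul_assoc ((QQ d H).card : ℝ)]
  apply mul_le_mul_of_nonneg_left _ hQ0
  have e1 : 9 * (G : ℝ) ^ 2 / Λ * (1 / (G : ℝ) * (h * X)) ^ 2 = 9 / Λ * (h ^ 2 * X ^ 2) := by
    field_simp
  rw [e1]
  have e2 : 2 * (X : ℝ) * h ^ 3 ≤ 8 / Λ * (h ^ 2 * X ^ 2) := by
    have h5 : (h : ℝ) ≤ 4 / Λ * X := by
      rw [div_mul_eq_mul_div, le_div_iff₀ hΛ0]
      exact h1
    have h6 : 2 * (X : ℝ) * h ^ 3 = (2 * X * h ^ 2) * h := by ring
    rw [h6]
    calc (2 * (X : ℝ) * h ^ 2) * h ≤ (2 * X * h ^ 2) * (4 / Λ * X) := mul_le_mul_of_nonneg_left h5 (by positivity)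
      _ = _ := by ring
  have e3 : (X : ℝ) ^ 2 * h ^ 4 / L ^ U ≤ 1 / Λ * (h ^ 2 * X ^ 2) := by
    rw [div_le_iff₀ hLU]
    have h5 : (h : ℝ) ^ 2 ≤ L ^ (2 * A) := by
      have : (h : ℝ) ≤ L ^ A := by linarith
      calc (h : ℝ) ^ 2 ≤ (L ^ A) ^ 2 := pow_le_pow_left₀ hh0.le this 2
        _ = _ := by rw [← pow_mul, mul_comm]
    have h6 : (h : ℝ) ^ 2 ≤ 1 / Λ * L ^ U := by
      rw [one_div_mul_eq_div, le_div_iff₀ hΛ0]
      calc (h : ℝ) ^ 2 * Λ ≤ L ^ (2 * A) * Λ := mul_le_mul_of_nonneg_right h5 hΛ0.le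
        _ ≤ L ^ U := by linarith
    calc (X : ℝ) ^ 2 * h ^ 4 = (h ^ 2 * X ^ 2) * h ^ 2 := by ring
      _ ≤ (h ^ 2 * X ^ 2) * (1 / Λ * L ^ U) := mul_le_mul_of_nonneg_left h6 (by positivity)
      _ = _ := by ring
  have e4 : 9 / Λ * ((h : ℝ) ^ 2 * X ^ 2) = 8 / Λ * (h ^ 2 * X ^ 2) + 1 / Λ * (h ^ 2 * X ^ 2) := by ring
  linarith

theorem all_var (F : ℤ → ℝ) (hF : WinB F) (hF1 : ∀ v, v ≠ 0 → F v = 1 ∨ F v = -1) (hFb : ∀ v, |F v| ≤ 1) (d A : ℕ) (hd : 2 ≤ d)
    (ε : ℝ) (hε : 0 < ε) : ∃ η : ℝ, 0 < η ∧ ∃ H0 : ℕ, ∀ H : ℕ, H0 ≤ H → ∃ Bad ⊆ QQ d H,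
    (Bad.card : ℝ) ≤ (QQ d H).card / Real.log H ^ η ∧
    ∀ a ∈ QQ d H, a ∉ Bad → ∀ X h : ℕ, 1 ≤ h → (X : ℝ) ≤ Real.log H ^ A → (h : ℝ) * Real.log H ^ ε ≤ X →
    |Vr F a X h - h * X| ≤ h * X / Real.log H ^ η := by
  classical
  set n0 : ℕ := ⌈ε⌉₊ with hn0
  have hn0ε : ε ≤ n0 := Nat.le_ceil _
  set U : ℕ := 2 * (A + 1) + n0 with hU
  obtain ⟨H1, h1⟩ := Od_sq F hF hFb d (A + 1) U hd
  refine ⟨ε / 64, by positivity, ?_⟩
  have hev : ∀ᶠ H : ℕ in atTop, H1 ≤ H ∧ (8 * (A : ℝ) + 24) * (1 + Real.log (Real.log H)) ≤ Real.log H ^ (ε / 48) ∧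
      1152 ≤ Real.log H ^ (ε / 192) ∧ 8 ≤ Real.log H ∧ 2 * Real.log H ^ (A + 1 + n0) ≤ H := by
    filter_upwards [eventually_ge_atTop H1, ev_loglog (ε / 48) (by positivity) (8 * (A : ℝ) + 24),
      ev_rpow (ε / 192) (by positivity) 1152, ev_log 8, ev_pow (A + 1 + n0) 2] with H a1 a2 a3 a4 a5
    exact ⟨a1, a2, a3, a4, a5⟩
  obtain ⟨H0, hH0⟩ := eventually_atTop.1 hev
  refine ⟨H0, fun H hH => ?_⟩
  obtain ⟨a1, a2, a3, a4, a5⟩ := hH0 H hH
  have hmom := h1 H a1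
  set L := Real.log H with hL
  have hL0 : 0 < L := by linarith
  have hL1 : 1 ≤ L := by linarith
  set LL := Real.log L with hLL
  have hLL0 : 0 ≤ LL := Real.log_nonneg hL1
  have hA0 : (0 : ℝ) ≤ A := Nat.cast_nonneg _
  have hQ0 : (0 : ℝ) ≤ (QQ d H).card := Nat.cast_nonneg _
  set Λ := L ^ ε with hΛd
  have hp : ∀ t : ℝ, 0 < L ^ t := fun t => by positivity
  have hmonoL : ∀ s t : ℝ, s ≤ t → L ^ s ≤ L ^ t := fun s t h => Real.rpow_le_rpow_of_exponent_le hL1 h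
  have hΛ4 : 4 ≤ Λ := by
    have : L ^ (ε / 192) ≤ Λ := hmonoL _ _ (by linarith)
    linarith
  set G := ⌈L ^ (ε / 16)⌉₊ with hG
  have hG1 : L ^ (ε / 16) ≤ G := Nat.le_ceil _
  have hGe : 1152 ≤ L ^ (ε / 16) := a3.trans (hmonoL _ _ (by linarith))
  have hG2 : (G : ℝ) ≤ 2 * L ^ (ε / 16) := by
    have := Nat.ceil_lt_add_one (hp (ε / 16)).le
    rw [← hG] at this
    linarith
  have hGr : (1152 : ℝ) ≤ G := hGe.trans hG1
  have hG4 : 4 ≤ G := by
    have : (4 : ℝ) ≤ G := by linarith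
    exact_mod_cast this
  set Xm : ℝ := 4 * L ^ A with hXm
  have hLA1 : 1 ≤ L ^ A := one_le_pow₀ hL1
  have hLAs : L ^ (A + 1) = L ^ A * L := pow_succ _ _
  have hXm2 : 2 * Xm ≤ L ^ (A + 1) := by rw [hXm, hLAs]; nlinarith
  set Q0 := ⌊Xm⌋₊ with hQ0'
  have hXm0 : 0 ≤ Xm := by positivity
  have hQ01 : 1 ≤ Q0 := Nat.le_floor (by rw [hXm]; push_cast; linarith)
  have hQ0r : (Q0 : ℝ) ≤ Xm := Nat.floor_le hXm0
  set K0 := Nat.log 2 Q0 + 1 with hK0
  have hXmK : Xm < 2 ^ K0 := by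
    have h3 : Q0 + 1 ≤ 2 ^ K0 := Nat.lt_pow_succ_log_self (by norm_num) Q0
    have h4 : ((Q0 + 1 : ℕ) : ℝ) ≤ ((2 ^ K0 : ℕ) : ℝ) := by exact_mod_cast h3
    have h5 := Nat.lt_floor_add_one Xm
    rw [← hQ0'] at h5
    push_cast at h4
    linarith
  have hK0b : 4 * ((K0 : ℝ) + 1) ≤ (8 * A + 24) * (1 + LL) := by
    have h3 : ((2 : ℕ) : ℝ) ^ (Nat.log 2 Q0) ≤ Q0 := by exact_mod_cast Nat.pow_log_le_self 2 (by omega)
    have h4 := Real.log_le_log (by positivity) (h3.trans hQ0r)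
    rw [Real.log_pow, hXm, Real.log_mul (by norm_num) (by positivity), Real.log_pow, ← hLL] at h4
    have h5 := Real.log_two_gt_d9
    have h6 := Real.log_two_lt_d9
    have h7 : Real.log 4 = 2 * Real.log 2 := by
      rw [show (4 : ℝ) = 2 ^ 2 by norm_num, Real.log_pow]
      push_cast
      ring
    have h8 : (0 : ℝ) ≤ (Nat.log 2 Q0 : ℕ) := Nat.cast_nonneg _
    rw [hK0]
    push_cast at h4 ⊢
    nlinarith
  have hK0c : 4 * ((K0 : ℝ) + 1) ≤ L ^ (ε / 48) := hK0b.trans a2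
  -- the exceptional set
  set N0 := ⌊L ^ (A + 1)⌋₊ with hN0
  set Bad := Zr d H N0 ∪ (Icc 1 (2 * G)).biUnion (fun m => (Icc 1 (2 * G)).biUnion (fun m' =>
    (range (K0 + 1)).biUnion (fun k => (range (K0 + 1)).biUnion (fun k' =>
      EvO d H F G Λ Xm (m * 2 ^ k) (m' * 2 ^ k'))))) with hBad
  refine ⟨Bad, ?_, ?_, ?_⟩
  · intro a ha
    rw [hBad, mem_union] at ha
    rcases ha with ha | ha
    · unfold Zr at ha
      rw [mem_biUnion] at ha
      obtain ⟨n, _, ha⟩ := ha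
      exact (mem_filter.1 ha).1
    · rw [mem_biUnion] at ha
      obtain ⟨m, _, ha⟩ := ha
      rw [mem_biUnion] at ha
      obtain ⟨m', _, ha⟩ := ha
      rw [mem_biUnion] at ha
      obtain ⟨k, _, ha⟩ := ha
      rw [mem_biUnion] at ha
      obtain ⟨k', _, ha⟩ := ha
      unfold EvO at ha
      split_ifs at ha
      · exact (mem_filter.1 ha).1
      · exact absurd ha (notMem_empty _)
  · -- the number
    have hUb : Λ * L ^ (2 * (A + 1)) ≤ L ^ U := by
      rw [hU, pow_add, mul_comm]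
      apply mul_le_mul_of_nonneg_left _ (by positivity)
      rw [hΛd, ← Real.rpow_natCast L n0]
      exact hmonoL _ _ hn0ε
    have hone : ∀ m ∈ Icc 1 (2 * G), ∀ m' ∈ Icc 1 (2 * G), ∀ k ∈ range (K0 + 1), ∀ k' ∈ range (K0 + 1),
        ((EvO d H F G Λ Xm (m * 2 ^ k) (m' * 2 ^ k')).card : ℝ) ≤ (QQ d H).card * (9 * G ^ 2 / Λ) := by
      intro m hm m' hm' k _ k' _
      rw [mem_Icc] at hm hm'
      have h2k : 0 < 2 ^ k := by positivity
      have h2k' : 0 < 2 ^ k' := by positivity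
      exact EvO_card d H F G Λ Xm U (A + 1) _ _ (by omega) hΛ4 (Nat.mul_pos (by omega) h2k) (Nat.mul_pos (by omega) h2k')
        hL1 hXm2 hUb hmom
    have hW : (((Icc 1 (2 * G)).biUnion (fun m => (Icc 1 (2 * G)).biUnion (fun m' =>
        (range (K0 + 1)).biUnion (fun k => (range (K0 + 1)).biUnion (fun k' =>
        EvO d H F G Λ Xm (m * 2 ^ k) (m' * 2 ^ k')))))).card : ℝ) ≤
        (2 * G) * ((2 * G) * ((K0 + 1) * ((K0 + 1) * ((QQ d H).card * (9 * G ^ 2 / Λ))))) := by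
      refine (card_bU _ _ (fun _ => (2 * G) * ((K0 + 1) * ((K0 + 1) * ((QQ d H).card * (9 * G ^ 2 / Λ)))))
        fun m hm => ?_).trans (le_of_eq ?_)
      · refine (card_bU _ _ (fun _ => ((K0 + 1) * ((K0 + 1) * ((QQ d H).card * (9 * G ^ 2 / Λ)))))
          fun m' hm' => ?_).trans (le_of_eq ?_)
        · refine (card_bU _ _ (fun _ => ((K0 + 1) * ((QQ d H).card * (9 * G ^ 2 / Λ)))) fun k hk => ?_).trans (le_of_eq ?_)
          · refine (card_bU _ _ (fun _ => ((QQ d H).card * (9 * G ^ 2 / Λ))) fun k' hk' =>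
              hone m hm m' hm' k hk k' hk').trans (le_of_eq ?_)
            rw [sum_const, card_range, nsmul_eq_mul]
            push_cast
            ring
          · rw [sum_const, card_range, nsmul_eq_mul]
            push_cast
            ring
        · rw [sum_const, Nat.card_Icc, Nat.add_sub_cancel, nsmul_eq_mul]
          push_cast
          ring
      · rw [sum_const, Nat.card_Icc, Nat.add_sub_cancel, nsmul_eq_mul]
        push_cast
        ring
    have hZ : ((Zr d H N0).card : ℝ) ≤ (QQ d H).card * (1 / (2 * L ^ (ε / 64))) := by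
      refine (Zr_card d H N0).trans ?_
      rw [card_QQ]
      push_cast
      rw [pow_succ, mul_assoc, mul_comm (N0 : ℝ)]
      apply mul_le_mul_of_nonneg_left _ (by positivity)
      rw [mul_one_div, le_div_iff₀ (by positivity)]
      have h3 : (N0 : ℝ) ≤ L ^ (A + 1) := Nat.floor_le (by positivity)
      have h4 : L ^ (ε / 64) ≤ L ^ n0 := by
        rw [← Real.rpow_natCast L n0]
        exact hmonoL _ _ (by linarith)
      calc (N0 : ℝ) * (2 * L ^ (ε / 64)) ≤ L ^ (A + 1) * (2 * L ^ n0) := by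
            apply mul_le_mul h3 (by linarith) (by positivity) (by positivity)
        _ = 2 * L ^ (A + 1 + n0) := by rw [pow_add L (A + 1) n0]; ring
        _ ≤ H := a5
        _ ≤ 2 * H + 1 := by
            have : (0 : ℝ) ≤ H := Nat.cast_nonneg _
            linarith
    have hW2 : (2 * (G : ℝ)) * ((2 * G) * ((K0 + 1) * ((K0 + 1) * ((QQ d H).card * (9 * G ^ 2 / Λ))))) ≤
        (QQ d H).card * (1 / (2 * L ^ (ε / 64))) := by
      have e1 : (2 * (G : ℝ)) * ((2 * G) * ((K0 + 1) * ((K0 + 1) * ((QQ d H).card * (9 * G ^ 2 / Λ))))) =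
          (QQ d H).card * (36 * G ^ 4 * (K0 + 1) ^ 2 / Λ) := by ring
      rw [e1]
      apply mul_le_mul_of_nonneg_left _ hQ0
      rw [div_le_div_iff₀ (by positivity) (by positivity), one_mul]
      have h3 : (G : ℝ) ^ 4 ≤ 16 * L ^ (ε / 4) := by
        calc (G : ℝ) ^ 4 ≤ (2 * L ^ (ε / 16)) ^ 4 := pow_le_pow_left₀ (Nat.cast_nonneg _) hG2 4
          _ = 16 * (L ^ (ε / 16)) ^ 4 := by ring
          _ = _ := by
              congr 1
              rw [← Real.rpow_natCast, ← Real.rpow_mul hL0.le]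
              congr 1
              push_cast
              ring
      have h4 : ((K0 : ℝ) + 1) ^ 2 ≤ L ^ (ε / 24) := by
        have h5 : (K0 : ℝ) + 1 ≤ L ^ (ε / 48) := by
          have : (0 : ℝ) ≤ K0 := Nat.cast_nonneg _
          linarith
        calc ((K0 : ℝ) + 1) ^ 2 ≤ (L ^ (ε / 48)) ^ 2 := pow_le_pow_left₀ (by positivity) h5 2
          _ = _ := by
              rw [← Real.rpow_natCast, ← Real.rpow_mul hL0.le]
              congr 1
              push_cast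
              ring
      calc 36 * (G : ℝ) ^ 4 * (K0 + 1) ^ 2 * (2 * L ^ (ε / 64)) ≤
          36 * (16 * L ^ (ε / 4)) * L ^ (ε / 24) * (2 * L ^ (ε / 64)) := by
            apply mul_le_mul_of_nonneg_right _ (by positivity)
            apply mul_le_mul _ h4 (by positivity) (by positivity)
            exact mul_le_mul_of_nonneg_left h3 (by norm_num)
        _ = 1152 * (L ^ (ε / 4) * L ^ (ε / 24) * L ^ (ε / 64)) := by ring
        _ ≤ L ^ (ε / 192) * (L ^ (ε / 4) * L ^ (ε / 24) * L ^ (ε / 64)) :=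
            mul_le_mul_of_nonneg_right a3 (by positivity)
        _ = L ^ (ε / 192 + (ε / 4 + ε / 24 + ε / 64)) := by
            rw [← Real.rpow_add hL0, ← Real.rpow_add hL0, ← Real.rpow_add hL0]
        _ ≤ Λ := hmonoL _ _ (by linarith)
    have h5 : (Bad.card : ℝ) ≤ ((Zr d H N0).card : ℝ) + (((Icc 1 (2 * G)).biUnion (fun m => (Icc 1 (2 * G)).biUnion (fun m' =>
        (range (K0 + 1)).biUnion (fun k => (range (K0 + 1)).biUnion (fun k' =>
        EvO d H F G Λ Xm (m * 2 ^ k) (m' * 2 ^ k')))))).card : ℝ) := by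
      exact_mod_cast card_union_le _ _
    refine h5.trans ?_
    have h6 : ((QQ d H).card : ℝ) / L ^ (ε / 64) = (QQ d H).card * (1 / (2 * L ^ (ε / 64))) +
        (QQ d H).card * (1 / (2 * L ^ (ε / 64))) := by
      field_simp
      ring
    rw [h6]
    exact add_le_add hZ (hW.trans hW2)
  · intro a ha hbad X h hh hX hc
    have hz : ∀ n : ℕ, 1 ≤ n → n ≤ N0 → ev a (n : ℤ) ≠ 0 := by
      intro n hn1 hn2 h0
      apply hbad
      rw [hBad, mem_union]
      left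
      unfold Zr
      rw [mem_biUnion]
      exact ⟨n, mem_Icc.2 ⟨hn1, hn2⟩, mem_filter.2 ⟨ha, h0⟩⟩
    have hgr : GridOk (fun n => F (ev a (n : ℤ))) G Λ Xm := by
      intro m k m' k' m1 m2 m3 m4 hcond hXm'
      set X1 := m * 2 ^ k with hX1
      set h1' := m' * 2 ^ k' with hh1
      have hX1r : (0 : ℝ) ≤ X1 := Nat.cast_nonneg _
      have h1r : (0 : ℝ) ≤ h1' := Nat.cast_nonneg _
      have hhX : (h1' : ℝ) ≤ X1 := by nlinarith
      have hkK : k ≤ K0 := by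
        by_contra hcon
        push Not at hcon
        have h3 : (2 : ℝ) ^ K0 ≤ 2 ^ k := pow_le_pow_right₀ (by norm_num) hcon.le
        have h4 : (2 : ℝ) ^ k ≤ X1 := by
          have : 2 ^ k ≤ m * 2 ^ k := Nat.le_mul_of_pos_left _ (by omega)
          exact_mod_cast this
        linarith
      have hkK' : k' ≤ K0 := by
        by_contra hcon
        push Not at hcon
        have h3 : (2 : ℝ) ^ K0 ≤ 2 ^ k' := pow_le_pow_right₀ (by norm_num) hcon.le
        have h4 : (2 : ℝ) ^ k' ≤ h1' := by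
          have : 2 ^ k' ≤ m' * 2 ^ k' := Nat.le_mul_of_pos_left _ (by omega)
          exact_mod_cast this
        linarith
      have hV : VW (fun n => F (ev a (n : ℤ))) X1 h1' = h1' * X1 + Od F a X1 h1' := by
        refine Vr_eq F hF1 a X1 h1' fun n hn1 hn2 => hz n hn1 ?_
        apply Nat.le_floor
        have : (n : ℝ) ≤ ((X1 + h1' : ℕ) : ℝ) := by exact_mod_cast hn2
        push_cast at this
        linarith
      rw [hV, add_sub_cancel_left]
      by_contra hcon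
      push Not at hcon
      apply hbad
      rw [hBad, mem_union]
      right
      rw [mem_biUnion]
      refine ⟨m, mem_Icc.2 ⟨m1, m2⟩, ?_⟩
      rw [mem_biUnion]
      refine ⟨m', mem_Icc.2 ⟨m3, m4⟩, ?_⟩
      rw [mem_biUnion]
      refine ⟨k, mem_range.2 (by omega), ?_⟩
      rw [mem_biUnion]
      refine ⟨k', mem_range.2 (by omega), ?_⟩
      unfold EvO
      rw [if_pos ⟨hcond, hXm'⟩, mem_filter]
      exact ⟨ha, hcon⟩
    set τ := L ^ (-(ε / 48)) with hτ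
    have hτ0 : 0 < τ := hp _
    have hτ1 : τ ≤ 1 := Real.rpow_le_one_of_one_le_of_nonpos hL1 (by linarith)
    have hτ2 : τ ^ 2 = L ^ (-(ε / 24)) := by
      rw [hτ, ← Real.rpow_natCast, ← Real.rpow_mul hL0.le]
      congr 1
      push_cast
      ring
    have key := step_h (fun n => F (ev a (n : ℤ))) G Λ Xm τ K0 hG4 (by linarith) hgr hτ0 hτ1 (by
      rw [hτ2]
      have h3 : L ^ (-(ε / 24)) * L ^ (ε / 16) = L ^ (ε / 48) := by
        rw [← Real.rpow_add hL0]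
        congr 1
        ring
      have h4 : L ^ (-(ε / 24)) * L ^ (ε / 16) ≤ L ^ (-(ε / 24)) * G := mul_le_mul_of_nonneg_left hG1 (hp _).le
      linarith) (by
      have h3 : τ * L ^ (ε / 16) = L ^ (ε / 24) := by
        rw [hτ, ← Real.rpow_add hL0]
        congr 1
        ring
      have h4 : τ * L ^ (ε / 16) ≤ τ * G := mul_le_mul_of_nonneg_left hG1 hτ0.le
      have h5 : 1 ≤ L ^ (ε / 24) := Real.one_le_rpow hL1 (by positivity)
      linarith) hXmK X h hh hc (by rw [hXm]; linarith)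
    refine key.trans ?_
    have h3 : 10 * τ ≤ 1 / L ^ (ε / 64) := by
      rw [le_div_iff₀ (hp _)]
      have h4 : τ * L ^ (ε / 64) = L ^ (-(ε / 192)) := by
        rw [hτ, ← Real.rpow_add hL0]
        congr 1
        ring
      have h5 : L ^ (-(ε / 192)) * L ^ (ε / 192) = 1 := by
        rw [← Real.rpow_add hL0, neg_add_cancel, Real.rpow_zero]
      have h6 : 0 < L ^ (-(ε / 192)) := hp _
      nlinarith
    have hhX0 : 0 ≤ (h : ℝ) * X := by positivity
    calc 10 * τ * (h * X) ≤ 1 / L ^ (ε / 64) * (h * X) := mul_le_mul_of_nonneg_right h3 hhX0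
      _ = _ := by ring

end Pool.Agent.TP975.LR
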