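import Mathlib
import Pool.Agent.TP975.LR.Lh3

/-!
The variance of the sums over short windows: windows in an arbitrary interval.
-/

set_option autoImplicit false

namespace Pool.Agent.TP975.LR

open Finset Filter
open Pool.Agent.H807R2.Dav
open Pool.Agent.TP975.RP

lemma Vr_mono {d : ℕ} (F : ℤ → ℝ) (a : Fin (d + 1) → ℤ) {X X' : ℕ} (h : ℕ) (hX : X ≤ X') : Vr F a X h ≤ Vr F a X' h :=
  sum_le_sum_of_subset_of_nonneg (range_subset_range.2 hX) fun _ _ _ => sq_nonneg _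

theorem all_var2 (F : ℤ → ℝ) (hF : WinB F) (hF1 : ∀ v, v ≠ 0 → F v = 1 ∨ F v = -1) (hFb : ∀ v, |F v| ≤ 1) (d A : ℕ) (hd : 2 ≤ d)
    (ε : ℝ) (hε : 0 < ε) : ∃ η : ℝ, 0 < η ∧ ∃ H0 : ℕ, ∀ H : ℕ, H0 ≤ H → ∃ Bad ⊆ QQ d H,
    (Bad.card : ℝ) ≤ (QQ d H).card / Real.log H ^ η ∧
    ∀ a ∈ QQ d H, a ∉ Bad → ∀ Y X h : ℕ, Y ≤ X → 1 ≤ h → (X : ℝ) ≤ Real.log H ^ A → (h : ℝ) * Real.log H ^ ε ≤ X →
    |∑ x ∈ Ico Y X, (sm F a x h) ^ 2 - h * ((X : ℝ) - Y)| ≤ h * X / Real.log H ^ η := by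
  obtain ⟨η0, hη0, H1, h1⟩ := all_var F hF hF1 hFb d A hd (ε / 2) (by positivity)
  set η := min η0 (ε / 2) with hη
  have hηp : 0 < η := lt_min hη0 (by positivity)
  have hη1 : η ≤ η0 := min_le_left _ _
  have hη2 : η ≤ ε / 2 := min_le_right _ _
  refine ⟨η / 2, by positivity, ?_⟩
  have hev : ∀ᶠ H : ℕ in atTop, H1 ≤ H ∧ 6 ≤ Real.log H ^ (η / 2) ∧ 1 ≤ Real.log H := by
    filter_upwards [eventually_ge_atTop H1, ev_rpow (η / 2) (by positivity) 6, ev_log 1] with H a1 a2 a3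
    exact ⟨a1, a2, a3⟩
  obtain ⟨H0, hH0⟩ := eventually_atTop.1 hev
  refine ⟨H0, fun H hH => ?_⟩
  obtain ⟨a1, a2, a3⟩ := hH0 H hH
  obtain ⟨Bad, hsub, hcard, hall⟩ := h1 H a1
  set L := Real.log H with hL
  have hL0 : 0 < L := by linarith
  have hp : ∀ t : ℝ, 0 < L ^ t := fun t => by positivity
  have hmonoL : ∀ s t : ℝ, s ≤ t → L ^ s ≤ L ^ t := fun s t h => Real.rpow_le_rpow_of_exponent_le a3 h
  refine ⟨Bad, hsub, ?_, ?_⟩
  · refine hcard.trans ?_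
    apply div_le_div_of_nonneg_left (Nat.cast_nonneg _) (hp _)
    exact hmonoL _ _ (by linarith)
  intro a ha hbad Y X h hYX hh hX hc
  have hhr : (1 : ℝ) ≤ h := by exact_mod_cast hh
  have hL2 : L ^ ε = L ^ (ε / 2) * L ^ (ε / 2) := by rw [← Real.rpow_add hL0]; congr 1; ring
  have hLe1 : 1 ≤ L ^ (ε / 2) := Real.one_le_rpow a3 (by positivity)
  have hc2 : (h : ℝ) * L ^ (ε / 2) ≤ X := by
    refine le_trans ?_ hc
    rw [hL2]
    have : 0 < (h : ℝ) * L ^ (ε / 2) := by positivity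
    nlinarith
  have hXV := hall a ha hbad X h hh hX hc2
  rw [sum_Ico_eq_sub _ hYX]
  change |Vr F a X h - Vr F a Y h - h * ((X : ℝ) - Y)| ≤ _
  have hYr : (Y : ℝ) ≤ X := by exact_mod_cast hYX
  have hY0 : (0 : ℝ) ≤ Y := Nat.cast_nonneg _
  have hX0 : (0 : ℝ) ≤ X := Nat.cast_nonneg _
  set W : ℝ := (h : ℝ) * X with hW
  have hW0 : 0 ≤ W := by positivity
  have hfin : 6 * (W / L ^ η) ≤ W / L ^ (η / 2) := by
    have e : L ^ η = L ^ (η / 2) * L ^ (η / 2) := by rw [← Real.rpow_add hL0]; congr 1; ring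
    rw [e, mul_div_assoc', div_le_div_iff₀ (by positivity) (hp _)]
    have : 0 ≤ W * L ^ (η / 2) := by positivity
    nlinarith
  have hb1 : W / L ^ η0 ≤ W / L ^ η := div_le_div_of_nonneg_left hW0 (hp _) (hmonoL _ _ hη1)
  have hb2 : W / L ^ (ε / 2) ≤ W / L ^ η := div_le_div_of_nonneg_left hW0 (hp _) (hmonoL _ _ hη2)
  have hbW : 0 ≤ W / L ^ η := by positivity
  refine le_trans ?_ hfin
  rcases le_or_gt ((h : ℝ) * L ^ (ε / 2)) Y with hY | hY
  · have hYV := hall a ha hbad Y h hh (hYr.trans hX) hY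
    have hYW : (h : ℝ) * Y / L ^ η0 ≤ W / L ^ η0 := by
      apply div_le_div_of_nonneg_right _ (hp _).le
      exact mul_le_mul_of_nonneg_left hYr (by linarith)
    have u1 := abs_le.1 hXV
    have u2 := abs_le.1 hYV
    rw [abs_le]
    constructor <;> nlinarith
  · set Y' : ℕ := ⌈(h : ℝ) * L ^ (ε / 2)⌉₊ with hY'
    have hY'1 : (h : ℝ) * L ^ (ε / 2) ≤ Y' := Nat.le_ceil _
    have hY'2 : (Y' : ℝ) ≤ 2 * (h * L ^ (ε / 2)) := by
      have h2 : (Y' : ℝ) < h * L ^ (ε / 2) + 1 := Nat.ceil_lt_add_one (by positivity)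
      have h3 : 1 ≤ (h : ℝ) * L ^ (ε / 2) := by nlinarith
      linarith
    have hY'X : Y' ≤ X := Nat.ceil_le.2 hc2
    have hYY' : Y ≤ Y' := by
      have : (Y : ℝ) ≤ Y' := hY.le.trans hY'1
      exact_mod_cast this
    have hY'V := hall a ha hbad Y' h hh (by
      have : (Y' : ℝ) ≤ X := by exact_mod_cast hY'X
      linarith) hY'1
    have hVY := Vr_mono F a h hYY'
    have hVY0 : 0 ≤ Vr F a Y h := sum_nonneg fun _ _ => sq_nonneg _
    have hLη1 : 1 ≤ L ^ η0 := Real.one_le_rpow a3 hη0.le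
    have h4 : Vr F a Y' h ≤ 2 * (h * Y') := by
      have u1 := (abs_le.1 hY'V).2
      have : (h : ℝ) * Y' / L ^ η0 ≤ h * Y' := div_le_self (by positivity) hLη1
      linarith
    have h5 : (h : ℝ) * (h * L ^ (ε / 2)) ≤ W / L ^ (ε / 2) := by
      rw [le_div_iff₀ (hp _), hW]
      calc (h : ℝ) * (h * L ^ (ε / 2)) * L ^ (ε / 2) = h * (h * L ^ ε) := by rw [hL2]; ring
        _ ≤ h * X := mul_le_mul_of_nonneg_left hc (by linarith)
    have h6 : (h : ℝ) * Y' ≤ 2 * (W / L ^ (ε / 2)) := by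
      have := mul_le_mul_of_nonneg_left hY'2 (show (0 : ℝ) ≤ h by linarith)
      linarith
    have h7 : (h : ℝ) * Y ≤ W / L ^ (ε / 2) := by
      have := mul_le_mul_of_nonneg_left hY.le (show (0 : ℝ) ≤ h by linarith)
      linarith
    have h8 : 0 ≤ (h : ℝ) * Y := by positivity
    have u1 := abs_le.1 hXV
    rw [abs_le]
    constructor <;> nlinarith

end Pool.Agent.TP975.LR
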