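import Mathlib
import Pool.Agent.TP975.LR.Lj2
import Pool.Agent.TP975.LR.Lm1

/-!
The variance over the classes of a modulus, for general families of random signs.
-/

set_option autoImplicit false

namespace Pool.Agent.TP975.LR

open Finset Filter
open Pool.Agent.H807R2.Dav
open Pool.Agent.TP975.RP

lemma W_two (h : ℕ) : W h 2 = h := by
  induction h with
  | zero => simp [W]
  | succ h ih =>
    have := W_step h 0
    rw [zero_add] at this
    rw [this, ih]
    simp [W_zero]

/-- the centred square of the sum of the signs with index in `T` -/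
noncomputable def YS (P T : Finset ℤ) (s : P → Bool) : ℝ := RS P T s ^ 2 - T.card

lemma YS_dep (P T : Finset ℤ) (s s' : P → Bool) (h : ∀ t : P, (t : ℤ) ∈ T → s t = s' t) : YS P T s = YS P T s' := by
  unfold YS
  rw [RS_dep P T s s' h]

lemma YS_mom (P T : Finset ℤ) (hT : T ⊆ P) (i : ℕ) : ES P (fun s => YS P T s ^ i) =
    ∑ l ∈ range (i + 1), ((i.choose l : ℝ) * (-(T.card : ℝ)) ^ (i - l)) * W T.card (2 * l) := by
  have e1 : (fun s : P → Bool => YS P T s ^ i) = fun s => ∑ l ∈ range (i + 1),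
      ((i.choose l : ℝ) * (-(T.card : ℝ)) ^ (i - l)) * RS P T s ^ (2 * l) := by
    funext s
    unfold YS
    rw [sub_eq_add_neg, add_pow]
    refine sum_congr rfl fun l _ => ?_
    rw [← pow_mul]
    ring
  rw [e1, ES_sum]
  refine sum_congr rfl fun l _ => ?_
  rw [ES_mul, ES_RS P T hT]

lemma YS_zero (P T : Finset ℤ) (hT : T ⊆ P) : ES P (fun s => YS P T s) = 0 := by
  have h := YS_mom P T hT 1
  simp only [pow_one] at h
  rw [h]
  simp [sum_range_succ, W_zero, W_two]

lemma YS_bound (i : ℕ) : ∃ C : ℝ, 0 ≤ C ∧ ∀ P T : Finset ℤ, T ⊆ P → ∀ N : ℝ, 1 ≤ N → (T.card : ℝ) ≤ N →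
    |ES P (fun s => YS P T s ^ i)| ≤ C * N ^ i := by
  choose B hB0 hB using fun l : ℕ => W_bound (2 * l)
  refine ⟨∑ l ∈ range (i + 1), (i.choose l : ℝ) * (B l * 2 ^ l), sum_nonneg fun l _ => by
    have := hB0 l; positivity, fun P T hT N hN hc => ?_⟩
  rw [YS_mom P T hT, sum_mul]
  refine (abs_sum_le_sum_abs _ _).trans (sum_le_sum fun l hl => ?_)
  rw [mem_range] at hl
  have hc0 : (0 : ℝ) ≤ T.card := Nat.cast_nonneg _
  rw [abs_mul, abs_mul, Nat.abs_cast, abs_pow, abs_neg, Nat.abs_cast]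
  have h1 : |W T.card (2 * l)| ≤ B l * (2 ^ l * N ^ l) := by
    refine (hB l T.card).trans ?_
    apply mul_le_mul_of_nonneg_left _ (hB0 l)
    have e : 2 * l / 2 = l := by omega
    rw [e, ← mul_pow]
    exact pow_le_pow_left₀ (by linarith) (by linarith) _
  have h2 : (T.card : ℝ) ^ (i - l) ≤ N ^ (i - l) := pow_le_pow_left₀ hc0 hc _
  calc (i.choose l : ℝ) * (T.card : ℝ) ^ (i - l) * |W T.card (2 * l)| ≤
      (i.choose l : ℝ) * N ^ (i - l) * (B l * (2 ^ l * N ^ l)) := by
        apply mul_le_mul (mul_le_mul_of_nonneg_left h2 (Nat.cast_nonneg _)) h1 (abs_nonneg _)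
        positivity
    _ = (i.choose l : ℝ) * (B l * 2 ^ l) * (N ^ (i - l) * N ^ l) := by ring
    _ = _ := by rw [← pow_add]; congr 2; omega

lemma indep_step (P : Finset ℤ) (T : ℕ → Finset ℤ) (hT : ∀ b, T b ⊆ P) (hdis : ∀ b b', b ≠ b' → Disjoint (T b) (T b'))
    (j r : ℕ) : ES P (fun s => (∑ b ∈ range (j + 1), YS P (T b) s) ^ (r + 2)) =
      ES P (fun s => (∑ b ∈ range j, YS P (T b) s) ^ (r + 2)) +
      ∑ i ∈ range (r + 1), ((r + 2).choose (i + 2) : ℝ) * ES P (fun s => YS P (T j) s ^ (i + 2)) *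
        ES P (fun s => (∑ b ∈ range j, YS P (T b) s) ^ (r - i)) := by
  classical
  have e1 : (fun s : P → Bool => (∑ b ∈ range (j + 1), YS P (T b) s) ^ (r + 2)) = fun s => ∑ i ∈ range (r + 3),
      ((r + 2).choose i : ℝ) * (YS P (T j) s ^ i * (∑ b ∈ range j, YS P (T b) s) ^ (r + 2 - i)) := by
    funext s
    rw [sum_range_succ, add_comm, add_pow]
    refine sum_congr rfl fun i _ => ?_
    ring
  have e2 : ∀ i, ES P (fun s => ((r + 2).choose i : ℝ) * (YS P (T j) s ^ i * (∑ b ∈ range j, YS P (T b) s) ^ (r + 2 - i))) =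
      ((r + 2).choose i : ℝ) * ES P (fun s => YS P (T j) s ^ i) * ES P (fun s => (∑ b ∈ range j, YS P (T b) s) ^ (r + 2 - i)) := by
    intro i
    rw [ES_mul, ES_indep P (T j) (fun s => YS P (T j) s ^ i) (fun s => (∑ b ∈ range j, YS P (T b) s) ^ (r + 2 - i))]
    · ring
    · intro s s' h
      simp only [YS_dep P (T j) s s' h]
    · intro s s' h
      have : ∀ b ∈ range j, YS P (T b) s = YS P (T b) s' := by
        intro b hb
        rw [mem_range] at hb
        apply YS_dep
        intro t ht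
        exact h t fun h3 => (Finset.disjoint_left.1 (hdis b j (by omega)) ht) h3
      simp only [sum_congr rfl this]
  rw [e1, ES_sum, sum_congr rfl fun i _ => e2 i, sum_range_succ', sum_range_succ']
  have e3 : ES P (fun s => YS P (T j) s ^ (0 + 1)) = 0 := by
    simp only [zero_add, pow_one]
    exact YS_zero P (T j) (hT j)
  rw [e3]
  simp only [pow_zero, ES_const, Nat.choose_zero_right, Nat.cast_one, mul_zero, zero_mul, add_zero, one_mul, Nat.sub_zero]
  rw [add_comm]
  congr 1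
  refine sum_congr rfl fun i hi => ?_
  rw [mem_range] at hi
  have e4 : r + 2 - (i + 1 + 1) = r - i := by omega
  rw [e4]

lemma indep_bound (r : ℕ) : ∃ C : ℝ, 0 ≤ C ∧ ∀ (P : Finset ℤ) (T : ℕ → Finset ℤ) (N : ℝ), 1 ≤ N → (∀ b, T b ⊆ P) →
    (∀ b, ((T b).card : ℝ) ≤ N) → (∀ b b', b ≠ b' → Disjoint (T b) (T b')) →
    ∀ j : ℕ, |ES P (fun s => (∑ b ∈ range j, YS P (T b) s) ^ r)| ≤ C * N ^ r * ((j : ℝ) + 1) ^ (r / 2) := by
  induction r using Nat.strong_induction_on with
  | _ r ih =>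
    match r, ih with
    | 0, _ => exact ⟨1, zero_le_one, fun P T N hN hT hc hdis j => by simp [ES_const]⟩
    | 1, _ =>
      refine ⟨1, zero_le_one, fun P T N hN hT hc hdis j => ?_⟩
      have e1 : ES P (fun s => (∑ b ∈ range j, YS P (T b) s) ^ 1) = 0 := by
        simp only [pow_one]
        rw [ES_sum]
        exact sum_eq_zero fun b _ => YS_zero P (T b) (hT b)
      rw [e1, abs_zero]
      positivity
    | r + 2, ih =>
      choose! C hC0 hC using fun j (hj : j < r + 2) => ih j hj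
      choose B hB0 hB using YS_bound
      set K := ∑ i ∈ range (r + 1), ((r + 2).choose (i + 2) : ℝ) * (B (i + 2) * C (r - i)) with hK
      have hK0 : 0 ≤ K := sum_nonneg fun j hj =>
        mul_nonneg (Nat.cast_nonneg _) (mul_nonneg (hB0 _) (hC0 _ (by omega)))
      refine ⟨K, hK0, fun P T N hN hT hc hdis => ?_⟩
      have hN0 : 0 < N := by linarith
      have hstep : ∀ h : ℕ, |ES P (fun s => (∑ b ∈ range (h + 1), YS P (T b) s) ^ (r + 2))| ≤
          |ES P (fun s => (∑ b ∈ range h, YS P (T b) s) ^ (r + 2))| + K * N ^ (r + 2) * ((h : ℝ) + 1) ^ (r / 2) := by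
        intro h
        rw [indep_step P T hT hdis]
        refine (abs_add_le _ _).trans ?_
        gcongr
        refine (abs_sum_le_sum_abs _ _).trans ?_
        rw [hK, sum_mul, sum_mul]
        refine sum_le_sum fun i hi => ?_
        rw [mem_range] at hi
        rw [abs_mul, abs_mul, Nat.abs_cast]
        have h1 := hC (r - i) (by omega) P T N hN hT hc hdis h
        have h2 : ((h : ℝ) + 1) ^ ((r - i) / 2) ≤ ((h : ℝ) + 1) ^ (r / 2) := by
          apply pow_le_pow_right₀
          · have : (0 : ℝ) ≤ h := Nat.cast_nonneg _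
            linarith
          · omega
        have h3 := hB (i + 2) P (T h) (hT h) N hN (hc h)
        have hCr := hC0 (r - i) (by omega)
        have hBr := hB0 (i + 2)
        calc ((r + 2).choose (i + 2) : ℝ) * |ES P (fun s => YS P (T h) s ^ (i + 2))| *
              |ES P (fun s => (∑ b ∈ range h, YS P (T b) s) ^ (r - i))|
            ≤ ((r + 2).choose (i + 2) : ℝ) * (B (i + 2) * N ^ (i + 2)) * (C (r - i) * N ^ (r - i) * ((h : ℝ) + 1) ^ (r / 2)) := by
              apply mul_le_mul _ _ (abs_nonneg _) (by positivity)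
              · exact mul_le_mul_of_nonneg_left h3 (by positivity)
              · exact h1.trans (mul_le_mul_of_nonneg_left h2 (by positivity))
          _ = ((r + 2).choose (i + 2) : ℝ) * (B (i + 2) * C (r - i)) * (N ^ (i + 2) * N ^ (r - i)) * ((h : ℝ) + 1) ^ (r / 2) := by ring
          _ = _ := by rw [← pow_add]; congr 3; omega
      have hall : ∀ h : ℕ, |ES P (fun s => (∑ b ∈ range h, YS P (T b) s) ^ (r + 2))| ≤
          K * N ^ (r + 2) * h * ((h : ℝ) + 1) ^ (r / 2) := by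
        intro h
        induction h with
        | zero => simp [ES_const]
        | succ n ihn =>
          refine (hstep n).trans ?_
          have h0 : (0 : ℝ) ≤ n := Nat.cast_nonneg _
          have h2 : ((n : ℝ) + 1) ^ (r / 2) ≤ (((n + 1 : ℕ) : ℝ) + 1) ^ (r / 2) := by
            apply pow_le_pow_left₀ (by linarith)
            push_cast
            linarith
          calc |ES P (fun s => (∑ b ∈ range n, YS P (T b) s) ^ (r + 2))| + K * N ^ (r + 2) * ((n : ℝ) + 1) ^ (r / 2) ≤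
              K * N ^ (r + 2) * n * ((n : ℝ) + 1) ^ (r / 2) + K * N ^ (r + 2) * ((n : ℝ) + 1) ^ (r / 2) := by
                linarith
            _ = K * N ^ (r + 2) * ((n : ℝ) + 1) * ((n : ℝ) + 1) ^ (r / 2) := by ring
            _ ≤ K * N ^ (r + 2) * ((n : ℝ) + 1) * (((n + 1 : ℕ) : ℝ) + 1) ^ (r / 2) :=
                mul_le_mul_of_nonneg_left h2 (by positivity)
            _ = _ := by push_cast; ring
      intro h
      refine (hall h).trans ?_
      have e1 : (r + 2) / 2 = r / 2 + 1 := by omega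
      rw [e1, pow_succ ((h : ℝ) + 1)]
      have h0 : (0 : ℝ) ≤ h := Nat.cast_nonneg _
      have h3 : (0 : ℝ) ≤ ((h : ℝ) + 1) ^ (r / 2) := by positivity
      calc K * N ^ (r + 2) * h * ((h : ℝ) + 1) ^ (r / 2) ≤ K * N ^ (r + 2) * (h + 1) * ((h : ℝ) + 1) ^ (r / 2) := by
            apply mul_le_mul_of_nonneg_right _ h3
            apply mul_le_mul_of_nonneg_left _ (by positivity)
            linarith
        _ = _ := by ring

/-- the sum of the squares over the classes, for the signs -/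
lemma transfer_pow (d H A R : ℕ) (G : (Fin (d + 1) → ℤ) → ℤ → ℝ) (δ : ℝ) (hG : MixG d H A R G δ)
    (P : Finset ℤ) (hP : ∀ t ∈ P, |(t : ℝ)| ≤ Real.log H ^ A) (T : ℕ → Finset ℤ) (hT : ∀ b, T b ⊆ P) (Q i : ℕ)
    (hi : i + i ≤ R) :
    |EQ d H (fun a => (∑ b ∈ range Q, SG G (T b) a ^ 2) ^ i) - ES P (fun s => (∑ b ∈ range Q, RS P (T b) s ^ 2) ^ i)| ≤
      ((Q : ℝ) * (P.card : ℝ) ^ 2) ^ i * δ := by
  classical
  have e1 : (fun a : Fin (d + 1) → ℤ => (∑ b ∈ range Q, SG G (T b) a ^ 2) ^ i) =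
      fun a => ∑ w : Fin i → Fin Q, ∏ l : Fin (i + i), SG G (T ((Fin.append w w l : Fin Q) : ℕ)) a := by
    funext a
    rw [Finset.sum_range, Fintype.sum_pow]
    refine sum_congr rfl fun w _ => ?_
    rw [Fin.prod_univ_add, ← prod_mul_distrib]
    refine prod_congr rfl fun l _ => ?_
    rw [Fin.append_left, Fin.append_right, pow_two]
  have e2 : (fun s : P → Bool => (∑ b ∈ range Q, RS P (T b) s ^ 2) ^ i) =
      fun s => ∑ w : Fin i → Fin Q, ∏ l : Fin (i + i), RS P (T ((Fin.append w w l : Fin Q) : ℕ)) s := by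
    funext s
    rw [Finset.sum_range, Fintype.sum_pow]
    refine sum_congr rfl fun w _ => ?_
    rw [Fin.prod_univ_add, ← prod_mul_distrib]
    refine prod_congr rfl fun l _ => ?_
    rw [Fin.append_left, Fin.append_right, pow_two]
  rw [e1, e2, EQ_sum, ES_sum, ← sum_sub_distrib]
  have hone : ∀ w : Fin i → Fin Q, |EQ d H (fun a => ∏ l : Fin (i + i), SG G (T ((Fin.append w w l : Fin Q) : ℕ)) a) -
      ES P (fun s => ∏ l : Fin (i + i), RS P (T ((Fin.append w w l : Fin Q) : ℕ)) s)| ≤ (P.card : ℝ) ^ (i + i) * δ := by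
    intro w
    have h := moments_G d H A R G δ hG P hP (i + i) hi
      (fun l t => if (t : ℤ) ∈ T ((Fin.append w w l : Fin Q) : ℕ) then (1 : ℝ) else 0) (fun l t => by split_ifs <;> simp)
    have e3 : (fun a : Fin (d + 1) → ℤ => ∏ l : Fin (i + i), SG G (T ((Fin.append w w l : Fin Q) : ℕ)) a) =
        fun a => ∏ l : Fin (i + i), ∑ t : P, (if (t : ℤ) ∈ T ((Fin.append w w l : Fin Q) : ℕ) then (1 : ℝ) else 0) * G a (t : ℤ) := by
      funext a
      refine prod_congr rfl fun l _ => ?_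
      rw [sum_sub P _ (hT _) (fun t => G a t)]
      rfl
    rw [e3]
    exact h
  refine (abs_sum_le_sum_abs _ _).trans ((sum_le_sum fun w _ => hone w).trans (le_of_eq ?_))
  rw [sum_const, card_univ, Fintype.card_fun, Fintype.card_fin, Fintype.card_fin, nsmul_eq_mul]
  push_cast
  ring

/-- the centred sum of the squares over the classes -/
lemma transfer_var (d H A R : ℕ) (G : (Fin (d + 1) → ℤ) → ℤ → ℝ) (δ : ℝ) (hG : MixG d H A R G δ)
    (P : Finset ℤ) (hP : ∀ t ∈ P, |(t : ℝ)| ≤ Real.log H ^ A) (T : ℕ → Finset ℤ) (hT : ∀ b, T b ⊆ P) (Q r : ℕ)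
    (hr : r + r ≤ R) (X : ℝ) (hX : 0 ≤ X) :
    |EQ d H (fun a => (∑ b ∈ range Q, SG G (T b) a ^ 2 - X) ^ r) - ES P (fun s => (∑ b ∈ range Q, RS P (T b) s ^ 2 - X) ^ r)| ≤
      ((Q : ℝ) * (P.card : ℝ) ^ 2 + X) ^ r * δ := by
  have e1 : (fun a : Fin (d + 1) → ℤ => (∑ b ∈ range Q, SG G (T b) a ^ 2 - X) ^ r) =
      fun a => ∑ i ∈ range (r + 1), ((r.choose i : ℝ) * (-X) ^ (r - i)) * (∑ b ∈ range Q, SG G (T b) a ^ 2) ^ i := by
    funext a
    rw [sub_eq_add_neg, add_pow]
    exact sum_congr rfl fun i _ => by ring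
  have e2 : (fun s : P → Bool => (∑ b ∈ range Q, RS P (T b) s ^ 2 - X) ^ r) =
      fun s => ∑ i ∈ range (r + 1), ((r.choose i : ℝ) * (-X) ^ (r - i)) * (∑ b ∈ range Q, RS P (T b) s ^ 2) ^ i := by
    funext s
    rw [sub_eq_add_neg, add_pow]
    exact sum_congr rfl fun i _ => by ring
  rw [e1, e2, EQ_sum, ES_sum, ← sum_sub_distrib, add_pow, sum_mul]
  refine (abs_sum_le_sum_abs _ _).trans (sum_le_sum fun i hi => ?_)
  rw [mem_range] at hi
  rw [EQ_mul, ES_mul, ← mul_sub, abs_mul, abs_mul, Nat.abs_cast, abs_pow, abs_neg, abs_of_nonneg hX]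
  have h := transfer_pow d H A R G δ hG P hP T hT Q i (by omega)
  calc (r.choose i : ℝ) * X ^ (r - i) * |EQ d H (fun a => (∑ b ∈ range Q, SG G (T b) a ^ 2) ^ i) -
        ES P (fun s => (∑ b ∈ range Q, RS P (T b) s ^ 2) ^ i)| ≤
      (r.choose i : ℝ) * X ^ (r - i) * (((Q : ℝ) * (P.card : ℝ) ^ 2) ^ i * δ) :=
        mul_le_mul_of_nonneg_left h (by positivity)
    _ = _ := by ring

end Pool.Agent.TP975.LR
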