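import Mathlib
import Pool.Agent.TP975.LR.Lo1

/-!
The logarithmic mean square of the initial sums: covariances.
-/

set_option autoImplicit false

namespace Pool.Agent.TP975.LR

open Finset Filter
open Pool.Agent.H807R2.Dav
open Pool.Agent.TP975.RP

/-- the integers from `1` to `u` -/
def Tn (u : ℕ) : Finset ℤ := (Icc 1 u).image (fun n : ℕ => (n : ℤ))

lemma Tn_card (u : ℕ) : (Tn u).card = u := by
  unfold Tn
  rw [card_image_of_injective _ (fun a b h => Int.ofNat_inj.1 h), Nat.card_Icc, Nat.add_sub_cancel]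

lemma Tn_mono (u v : ℕ) (h : u ≤ v) : Tn u ⊆ Tn v := image_subset_image (Icc_subset_Icc_right h)

lemma Tn_bd (u : ℕ) (B : ℝ) (h : (u : ℝ) ≤ B) : ∀ t ∈ Tn u, |(t : ℝ)| ≤ B := by
  intro t ht
  unfold Tn at ht
  obtain ⟨n, hn, rfl⟩ := mem_image.1 ht
  rw [mem_Icc] at hn
  rw [Int.cast_natCast, abs_of_nonneg (Nat.cast_nonneg _)]
  exact le_trans (by exact_mod_cast hn.2) h

lemma RS_split (P T T' : Finset ℤ) (h : T ⊆ T') (s : P → Bool) : RS P T' s = RS P T s + RS P (T' \ T) s := by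
  unfold RS
  rw [← sum_add_distrib]
  refine sum_congr rfl fun t _ => ?_
  rw [← add_mul]
  congr 1
  by_cases h1 : (t : ℤ) ∈ T
  · simp [h1, h h1]
  · by_cases h2 : (t : ℤ) ∈ T'
    · simp [h1, h2]
    · simp [h1, h2]

lemma ES_four (P : Finset ℤ) (u v : ℕ) (huv : u ≤ v) (hP : Tn v ⊆ P) :
    ES P (fun s => RS P (Tn u) s ^ 2 * RS P (Tn v) s ^ 2) = W u 4 + (u : ℝ) * ((v : ℝ) - u) := by
  have hsub := Tn_mono u v huv
  have hTu : Tn u ⊆ P := hsub.trans hP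
  have hTd : Tn v \ Tn u ⊆ P := sdiff_subset.trans hP
  have hdis : Disjoint (Tn u) (Tn v \ Tn u) := disjoint_sdiff
  have hc : (Tn v \ Tn u).card = v - u := by
    rw [card_sdiff_of_subset hsub, Tn_card, Tn_card]
  have e1 : (fun s : P → Bool => RS P (Tn u) s ^ 2 * RS P (Tn v) s ^ 2) = fun s =>
      (RS P (Tn u) s ^ 4 + 2 * (RS P (Tn u) s ^ 3 * RS P (Tn v \ Tn u) s ^ 1)) +
        RS P (Tn u) s ^ 2 * RS P (Tn v \ Tn u) s ^ 2 := by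
    funext s
    rw [RS_split P (Tn u) (Tn v) hsub s]
    ring
  have hadd : ∀ X Y : (P → Bool) → ℝ, ES P (fun s => X s + Y s) = ES P X + ES P Y := by
    intro X Y
    unfold ES
    rw [sum_add_distrib, add_div]
  rw [e1, hadd, hadd, ES_mul, ES_RS P (Tn u) hTu, ES_disj P (Tn u) _ hTu hTd hdis, ES_disj P (Tn u) _ hTu hTd hdis,
    W_odd _ 3 (by decide), hc, Tn_card, W_two, W_two, Nat.cast_sub huv]
  ring

/-- the initial sum -/
noncomputable def Mf {d : ℕ} (F : ℤ → ℝ) (a : Fin (d + 1) → ℤ) (u : ℕ) : ℝ := ∑ n ∈ Icc 1 u, F (ev a (n : ℤ))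

lemma Mf_eq {d : ℕ} (F : ℤ → ℝ) (a : Fin (d + 1) → ℤ) (u : ℕ) : Mf F a u = Sf F (Tn u) a := by
  unfold Mf Sf Tn
  rw [sum_image (fun a _ b _ h => Int.ofNat_inj.1 h)]

/-- the covariances of the squares of the initial sums -/
theorem cov_M : ∃ C : ℝ, 0 < C ∧ ∀ (F : ℤ → ℝ), WinB F → (∀ v, v ≠ 0 → F v = 1 ∨ F v = -1) → F 0 = 0 → ∀ d A : ℕ, 2 ≤ d →
    ∃ H0 : ℕ, ∀ H : ℕ, H0 ≤ H → ∀ u v : ℕ, 1 ≤ u → u ≤ v → (v : ℝ) ≤ Real.log H ^ A →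
    |EQ d H (fun a => (Mf F a u ^ 2 - u) * (Mf F a v ^ 2 - v))| ≤ C * (u : ℝ) ^ 2 := by
  obtain ⟨C0, hC0, hC⟩ := W_bound 4
  refine ⟨4 * C0 + 4, by linarith, fun F hF hF1 hF0 d A hd => ?_⟩
  obtain ⟨H1, h1⟩ := pair_mom F hF hF1 hF0 d A (A + 1)
  obtain ⟨H2, h2⟩ := pair_disj F hF hF1 hF0 d A (A + 1)
  obtain ⟨H3, h3⟩ := eventually_atTop.1 (ev_log 3)
  refine ⟨max H1 (max H2 H3), fun H hH u v hu huv hv => ?_⟩
  have a1 := h1 H ((le_max_left _ _).trans hH)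
  have a2 := h2 H (((le_max_left _ _).trans (le_max_right _ _)).trans hH)
  have a3 := h3 H (((le_max_right _ _).trans (le_max_right _ _)).trans hH)
  set L := Real.log H with hL
  have hL0 : 0 < L := by linarith
  have hL1 : 1 ≤ L := by linarith
  have hur : (u : ℝ) ≤ v := by exact_mod_cast huv
  have hu1 : (1 : ℝ) ≤ u := by exact_mod_cast hu
  have bu := Tn_bd u (L ^ A) (hur.trans hv)
  have bv := Tn_bd v (L ^ A) hv
  have b1 := a1 (Tn u) (Tn v) bu bv 2 2 (by omega)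
  have b2 := (a2 (Tn u) (Tn v) bu bv 2 2 (by omega)).2
  have b3 := (a2 (Tn v) (Tn u) bv bu 2 2 (by omega)).2
  have hP : Tn v ⊆ Tn u ∪ Tn v := subset_union_right
  rw [ES_four (Tn u ∪ Tn v) u v huv hP] at b1
  rw [Tn_card, W_two] at b2 b3
  simp only [← Mf_eq] at b1 b2 b3
  have e1 : (fun a : Fin (d + 1) → ℤ => (Mf F a u ^ 2 - u) * (Mf F a v ^ 2 - v)) = fun a =>
      (Mf F a u ^ 2 * Mf F a v ^ 2 + (-(v : ℝ)) * Mf F a u ^ 2) + ((-(u : ℝ)) * Mf F a v ^ 2 + (u : ℝ) * v) := by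
    funext a
    ring
  rw [e1, EQ_add d H (fun a => Mf F a u ^ 2 * Mf F a v ^ 2 + (-(v : ℝ)) * Mf F a u ^ 2)
    (fun a => (-(u : ℝ)) * Mf F a v ^ 2 + (u : ℝ) * v), EQ_add d H (fun a => Mf F a u ^ 2 * Mf F a v ^ 2)
    (fun a => (-(v : ℝ)) * Mf F a u ^ 2), EQ_add d H (fun a => (-(u : ℝ)) * Mf F a v ^ 2) (fun _ => (u : ℝ) * v),
    EQ_mul, EQ_mul, EQ_const]
  set X4 := EQ d H (fun a => Mf F a u ^ 2 * Mf F a v ^ 2) with hX4
  set Xu := EQ d H (fun a => Mf F a u ^ 2) with hXu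
  set Xv := EQ d H (fun a => Mf F a v ^ 2) with hXv
  have hW4 : |W u 4| ≤ 4 * C0 * (u : ℝ) ^ 2 := by
    refine (hC u).trans ?_
    have : ((u : ℝ) + 1) ^ (4 / 2) ≤ 4 * (u : ℝ) ^ 2 := by
      norm_num
      nlinarith
    nlinarith
  have hB : (v : ℝ) * (1 / L ^ (A + 1)) ≤ 1 := by
    rw [mul_one_div, div_le_one (by positivity)]
    calc (v : ℝ) ≤ L ^ A := hv
      _ ≤ L ^ (A + 1) := pow_le_pow_right₀ hL1 (by omega)
  have hB0 : 0 ≤ 1 / L ^ (A + 1) := by positivity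
  have hB1 : 1 / L ^ (A + 1) ≤ 1 := by
    rw [div_le_one (by positivity)]
    exact one_le_pow₀ hL1
  have hBu : (u : ℝ) * (1 / L ^ (A + 1)) ≤ 1 := (mul_le_mul_of_nonneg_right hur hB0).trans hB
  have e2 : X4 + -(v : ℝ) * Xu + (-(u : ℝ) * Xv + (u : ℝ) * v) =
      (W u 4 - (u : ℝ) ^ 2) + (X4 - (W u 4 + (u : ℝ) * ((v : ℝ) - u))) - (v : ℝ) * (Xu - u) - (u : ℝ) * (Xv - v) := by
    ring
  rw [e2]
  have c1 := abs_le.1 b1
  have c2 := abs_le.1 b2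
  have c3 := abs_le.1 b3
  have c4 := abs_le.1 hW4
  have hv0 : (0 : ℝ) ≤ v := Nat.cast_nonneg _
  have hu0 : (0 : ℝ) ≤ u := Nat.cast_nonneg _
  have d1 : |(v : ℝ) * (Xu - u)| ≤ 1 := by
    rw [abs_mul, abs_of_nonneg hv0]
    exact (mul_le_mul_of_nonneg_left b2 hv0).trans hB
  have d2 : |(u : ℝ) * (Xv - v)| ≤ 1 := by
    rw [abs_mul, abs_of_nonneg hu0]
    exact (mul_le_mul_of_nonneg_left b3 hu0).trans hBu
  have f1 := abs_le.1 d1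
  have f2 := abs_le.1 d2
  have hu2 : (1 : ℝ) ≤ (u : ℝ) ^ 2 := one_le_pow₀ hu1
  rw [abs_le]
  constructor <;> nlinarith

/-- the centred logarithmic mean square -/
noncomputable def VM {d : ℕ} (F : ℤ → ℝ) (a : Fin (d + 1) → ℤ) (x : ℕ) : ℝ :=
  ∑ u ∈ Icc 1 x, (1 / ((u : ℝ) * (u + 1))) * (Mf F a u ^ 2 - u)

lemma max_sum (x : ℕ) : ∑ u ∈ Icc 1 x, ∑ v ∈ Icc 1 x, (if v ≤ u then 1 / (u : ℝ) ^ 2 else 0) ≤ 1 + Real.log x := by
  refine le_trans (sum_le_sum fun u hu => ?_) (sum_inv_le x)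
  rw [mem_Icc] at hu
  have hu1 : (1 : ℝ) ≤ u := by exact_mod_cast hu.1
  rw [← sum_filter, sum_const, nsmul_eq_mul]
  have h1 : ((Icc 1 x).filter (fun v => v ≤ u)).card ≤ u := by
    calc ((Icc 1 x).filter (fun v => v ≤ u)).card ≤ (Icc 1 u).card := by
          apply card_le_card
          intro v hv
          rw [mem_filter, mem_Icc] at hv
          rw [mem_Icc]
          exact ⟨hv.1.1, hv.2⟩
      _ = u := by rw [Nat.card_Icc, Nat.add_sub_cancel]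
  have h2 : (((Icc 1 x).filter (fun v => v ≤ u)).card : ℝ) ≤ u := by exact_mod_cast h1
  calc (((Icc 1 x).filter (fun v => v ≤ u)).card : ℝ) * (1 / (u : ℝ) ^ 2) ≤ u * (1 / (u : ℝ) ^ 2) :=
        mul_le_mul_of_nonneg_right h2 (by positivity)
    _ = 1 / (u : ℝ) := by field_simp

/-- the second moment -/
theorem sec_VM : ∃ C : ℝ, 0 < C ∧ ∀ (F : ℤ → ℝ), WinB F → (∀ v, v ≠ 0 → F v = 1 ∨ F v = -1) → F 0 = 0 → ∀ d A : ℕ, 2 ≤ d →
    ∃ H0 : ℕ, ∀ H : ℕ, H0 ≤ H → ∀ x : ℕ, (x : ℝ) ≤ Real.log H ^ A →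
    EQ d H (fun a => VM F a x ^ 2) ≤ C * (1 + Real.log x) := by
  classical
  obtain ⟨C, hC, h0⟩ := cov_M
  refine ⟨2 * C, by linarith, fun F hF hF1 hF0 d A hd => ?_⟩
  obtain ⟨H0, h1⟩ := h0 F hF hF1 hF0 d A hd
  refine ⟨H0, fun H hH x hx => ?_⟩
  have h2 := h1 H hH
  have e1 : (fun a : Fin (d + 1) → ℤ => VM F a x ^ 2) = fun a => ∑ u ∈ Icc 1 x, ∑ v ∈ Icc 1 x,
      ((1 / ((u : ℝ) * (u + 1))) * (1 / ((v : ℝ) * (v + 1)))) * ((Mf F a u ^ 2 - u) * (Mf F a v ^ 2 - v)) := by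
    funext a
    unfold VM
    rw [pow_two, sum_mul_sum]
    refine sum_congr rfl fun u _ => sum_congr rfl fun v _ => ?_
    ring
  rw [e1, EQ_sum]
  have hterm : ∀ u ∈ Icc 1 x, ∀ v ∈ Icc 1 x, EQ d H (fun a => ((1 / ((u : ℝ) * (u + 1))) * (1 / ((v : ℝ) * (v + 1)))) *
      ((Mf F a u ^ 2 - u) * (Mf F a v ^ 2 - v))) ≤
      C * (if v ≤ u then 1 / (u : ℝ) ^ 2 else 0) + C * (if u ≤ v then 1 / (v : ℝ) ^ 2 else 0) := by
    intro u hu v hv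
    rw [mem_Icc] at hu hv
    have hu1 : (1 : ℝ) ≤ u := by exact_mod_cast hu.1
    have hv1 : (1 : ℝ) ≤ v := by exact_mod_cast hv.1
    rw [EQ_mul]
    have hcu : 1 / ((u : ℝ) * (u + 1)) ≤ 1 / (u : ℝ) ^ 2 := by
      apply div_le_div_of_nonneg_left zero_le_one (by positivity)
      nlinarith
    have hcv : 1 / ((v : ℝ) * (v + 1)) ≤ 1 / (v : ℝ) ^ 2 := by
      apply div_le_div_of_nonneg_left zero_le_one (by positivity)
      nlinarith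
    have hcc : (1 / ((u : ℝ) * (u + 1))) * (1 / ((v : ℝ) * (v + 1))) ≤ (1 / (u : ℝ) ^ 2) * (1 / (v : ℝ) ^ 2) :=
      mul_le_mul hcu hcv (by positivity) (by positivity)
    have hcc0 : 0 ≤ (1 / ((u : ℝ) * (u + 1))) * (1 / ((v : ℝ) * (v + 1))) := by positivity
    rcases le_total u v with huv | hvu
    · have h3 := (abs_le.1 (h2 u v hu.1 huv (le_trans (by exact_mod_cast hv.2) hx))).2
      rw [if_pos huv]
      have h4 : (1 / ((u : ℝ) * (u + 1))) * (1 / ((v : ℝ) * (v + 1))) *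
          EQ d H (fun a => (Mf F a u ^ 2 - u) * (Mf F a v ^ 2 - v)) ≤ (1 / (u : ℝ) ^ 2) * (1 / (v : ℝ) ^ 2) * (C * (u : ℝ) ^ 2) :=
        (mul_le_mul_of_nonneg_left h3 hcc0).trans (mul_le_mul_of_nonneg_right hcc (by positivity))
      have h5 : (1 / (u : ℝ) ^ 2) * (1 / (v : ℝ) ^ 2) * (C * (u : ℝ) ^ 2) = C * (1 / (v : ℝ) ^ 2) := by field_simp
      have h6 : 0 ≤ C * (if v ≤ u then 1 / (u : ℝ) ^ 2 else 0) := by
        apply mul_nonneg hC.le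
        split_ifs <;> positivity
      linarith
    · have h3 := (abs_le.1 (h2 v u hv.1 hvu (le_trans (by exact_mod_cast hu.2) hx))).2
      rw [if_pos hvu]
      have e3 : (fun a : Fin (d + 1) → ℤ => (Mf F a u ^ 2 - (u : ℝ)) * (Mf F a v ^ 2 - v)) =
          fun a => (Mf F a v ^ 2 - (v : ℝ)) * (Mf F a u ^ 2 - u) := by
        funext a
        ring
      rw [e3]
      have h4 : (1 / ((u : ℝ) * (u + 1))) * (1 / ((v : ℝ) * (v + 1))) *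
          EQ d H (fun a => (Mf F a v ^ 2 - v) * (Mf F a u ^ 2 - u)) ≤ (1 / (u : ℝ) ^ 2) * (1 / (v : ℝ) ^ 2) * (C * (v : ℝ) ^ 2) :=
        (mul_le_mul_of_nonneg_left h3 hcc0).trans (mul_le_mul_of_nonneg_right hcc (by positivity))
      have h5 : (1 / (u : ℝ) ^ 2) * (1 / (v : ℝ) ^ 2) * (C * (v : ℝ) ^ 2) = C * (1 / (u : ℝ) ^ 2) := by field_simp
      have h6 : 0 ≤ C * (if u ≤ v then 1 / (v : ℝ) ^ 2 else 0) := by
        apply mul_nonneg hC.le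
        split_ifs <;> positivity
      linarith
  have hsum : ∑ u ∈ Icc 1 x, EQ d H (fun a => ∑ v ∈ Icc 1 x, ((1 / ((u : ℝ) * (u + 1))) * (1 / ((v : ℝ) * (v + 1)))) *
      ((Mf F a u ^ 2 - u) * (Mf F a v ^ 2 - v))) ≤
      ∑ u ∈ Icc 1 x, ∑ v ∈ Icc 1 x, (C * (if v ≤ u then 1 / (u : ℝ) ^ 2 else 0) + C * (if u ≤ v then 1 / (v : ℝ) ^ 2 else 0)) := by
    refine sum_le_sum fun u hu => ?_
    rw [EQ_sum]
    exact sum_le_sum fun v hv => hterm u hu v hv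
  refine hsum.trans ?_
  have e4 : ∑ u ∈ Icc 1 x, ∑ v ∈ Icc 1 x, (C * (if v ≤ u then 1 / (u : ℝ) ^ 2 else 0) + C * (if u ≤ v then 1 / (v : ℝ) ^ 2 else 0)) =
      C * ∑ u ∈ Icc 1 x, ∑ v ∈ Icc 1 x, (if v ≤ u then 1 / (u : ℝ) ^ 2 else 0) +
      C * ∑ v ∈ Icc 1 x, ∑ u ∈ Icc 1 x, (if u ≤ v then 1 / (v : ℝ) ^ 2 else 0) := by
    simp only [sum_add_distrib, ← mul_sum]
    congr 1
    congr 1
    exact sum_comm
  rw [e4]
  have h7 := max_sum x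
  nlinarith

end Pool.Agent.TP975.LR
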