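import Mathlib
import Pool.Agent.TP975.LR.Lq1

/-!
The logarithmic mean square of the initial sums, for all `x` at once.
-/

set_option autoImplicit false

namespace Pool.Agent.TP975.LR

open Finset Filter
open Pool.Agent.H807R2.Dav
open Pool.Agent.TP975.RP

/-- the logarithmic mean square of the initial sums -/
noncomputable def IM {d : ℕ} (F : ℤ → ℝ) (a : Fin (d + 1) → ℤ) (x : ℕ) : ℝ :=
  ∑ u ∈ Icc 1 x, Mf F a u ^ 2 / ((u : ℝ) * (u + 1))

lemma IM_mono {d : ℕ} (F : ℤ → ℝ) (a : Fin (d + 1) → ℤ) (x y : ℕ) (h : x ≤ y) : IM F a x ≤ IM F a y := by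
  unfold IM
  apply sum_le_sum_of_subset_of_nonneg (Icc_subset_Icc_right h)
  intro u _ _
  positivity

lemma harm_sum (x : ℕ) (hx : 1 ≤ x) : |∑ u ∈ Icc 1 x, 1 / ((u : ℝ) + 1) - Real.log x| ≤ 1 := by
  have hx1 : (1 : ℝ) ≤ x := by exact_mod_cast hx
  have e1 : ((harmonic (x + 1) : ℚ) : ℝ) = 1 + ∑ u ∈ Icc 1 x, 1 / ((u : ℝ) + 1) := by
    unfold harmonic
    push_cast
    rw [sum_range_succ', add_comm]
    congr 1
    · norm_num
    · rw [range_eq_Ico, sum_Ico_add' (fun j : ℕ => (((j : ℝ)) + 1)⁻¹) 0 x 1]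
      have : Ico (0 + 1) (x + 1) = Icc 1 x := by
        ext j; simp only [mem_Ico, mem_Icc]; omega
      rw [this]
      refine sum_congr rfl fun u _ => ?_
      rw [one_div]
  have h1 := log_add_one_le_harmonic (x + 1)
  have h2 := harmonic_le_one_add_log (x + 1)
  rw [e1] at h1 h2
  push_cast at h1 h2
  have h3 : Real.log x ≤ Real.log ((x : ℝ) + 1 + 1) := Real.log_le_log (by linarith) (by linarith)
  have h4 : Real.log ((x : ℝ) + 1) ≤ 1 + Real.log x := by
    have h5 : Real.log ((x : ℝ) + 1) ≤ Real.log (Real.exp 1 * x) := by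
      apply Real.log_le_log (by linarith)
      have := Real.add_one_le_exp (1 : ℝ)
      nlinarith
    rw [Real.log_mul (Real.exp_pos 1).ne' (by linarith), Real.log_exp] at h5
    exact h5
  rw [abs_le]
  constructor <;> linarith

lemma IM_VM {d : ℕ} (F : ℤ → ℝ) (a : Fin (d + 1) → ℤ) (x : ℕ) (hx : 1 ≤ x) : |IM F a x - Real.log x| ≤ |VM F a x| + 1 := by
  have e1 : IM F a x = VM F a x + ∑ u ∈ Icc 1 x, 1 / ((u : ℝ) + 1) := by
    unfold IM VM
    rw [← sum_add_distrib]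
    refine sum_congr rfl fun u hu => ?_
    rw [mem_Icc] at hu
    have hu1 : (1 : ℝ) ≤ u := by exact_mod_cast hu.1
    have h0 : (u : ℝ) ≠ 0 := by linarith
    have h1 : (u : ℝ) + 1 ≠ 0 := by linarith
    field_simp
    ring
  rw [e1]
  calc |VM F a x + ∑ u ∈ Icc 1 x, 1 / ((u : ℝ) + 1) - Real.log x| =
      |VM F a x + (∑ u ∈ Icc 1 x, 1 / ((u : ℝ) + 1) - Real.log x)| := by rw [add_sub_assoc]
    _ ≤ |VM F a x| + |∑ u ∈ Icc 1 x, 1 / ((u : ℝ) + 1) - Real.log x| := abs_add_le _ _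
    _ ≤ _ := by linarith [harm_sum x hx]

/-- the grid -/
noncomputable def grid (ρ : ℝ) (j : ℕ) : ℕ := ⌈Real.exp (ρ ^ j)⌉₊

lemma grid_one (ρ : ℝ) (j : ℕ) : 1 ≤ grid ρ j := Nat.one_le_iff_ne_zero.2 (Nat.ceil_pos.2 (Real.exp_pos _)).ne'

lemma grid_lo (ρ : ℝ) (j : ℕ) : ρ ^ j ≤ Real.log (grid ρ j) := by
  rw [Real.le_log_iff_exp_le (by exact_mod_cast grid_one ρ j)]
  exact Nat.le_ceil _

lemma grid_hi' (ρ : ℝ) (hρ : 1 ≤ ρ) (j : ℕ) : (grid ρ j : ℝ) ≤ 2 * Real.exp (ρ ^ j) := by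
  have h1 : (grid ρ j : ℝ) < Real.exp (ρ ^ j) + 1 := Nat.ceil_lt_add_one (Real.exp_pos _).le
  have h2 : 1 ≤ Real.exp (ρ ^ j) := Real.one_le_exp (by positivity)
  linarith

lemma grid_hi (ρ : ℝ) (hρ : 1 ≤ ρ) (j : ℕ) : Real.log (grid ρ j) ≤ ρ ^ j + 1 := by
  rw [Real.log_le_iff_le_exp (by exact_mod_cast grid_one ρ j), Real.exp_add]
  refine (grid_hi' ρ hρ j).trans ?_
  have h2 : 2 ≤ Real.exp 1 := by
    have := Real.add_one_le_exp (1 : ℝ)
    linarith
  have h3 := Real.exp_pos (ρ ^ j)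
  nlinarith

/-- the weak Mertens hypothesis, in the form of an asymptotic formula, for almost all polynomials -/
theorem mertens_all (δ : ℝ) (hδ : 0 < δ) : ∃ C : ℝ, 0 < C ∧ ∀ (F : ℤ → ℝ), WinB F → (∀ v, v ≠ 0 → F v = 1 ∨ F v = -1) →
    F 0 = 0 → ∀ d A : ℕ, 2 ≤ d → ∃ H0 : ℕ, ∀ H : ℕ, H0 ≤ H → ∀ x0 : ℝ, 2 ≤ x0 →
    ∃ Bad ⊆ QQ d H, (Bad.card : ℝ) ≤ C * (QQ d H).card / Real.log x0 ∧
    ∀ a ∈ QQ d H, a ∉ Bad → ∀ x : ℕ, x0 ≤ x → (x : ℝ) ≤ Real.log H ^ A →
    |IM F a x - Real.log x| ≤ δ * Real.log x := by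
  classical
  obtain ⟨C0, hC0, h0⟩ := sec_VM
  set δ1 : ℝ := min δ 1 / 8 with hδ1
  have hδ10 : 0 < δ1 := by positivity
  have hδ1a : δ1 ≤ δ / 8 := div_le_div_of_nonneg_right (min_le_left _ _) (by norm_num)
  have hδ1b : δ1 ≤ 1 / 8 := div_le_div_of_nonneg_right (min_le_right _ _) (by norm_num)
  set ρ : ℝ := 1 + δ1 with hρ
  have hρ1 : 1 < ρ := by linarith
  have hρ2 : ρ ≤ 2 := by linarith
  have hρ0 : 0 < ρ := by linarith
  set D : ℝ := 2 * C0 / δ1 ^ 2 with hD
  have hD0 : 0 < D := by positivity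
  refine ⟨1 / δ1 + D * (2 / δ1) * 2, by positivity, fun F hF hF1 hF0 d A hd => ?_⟩
  obtain ⟨H1, h1⟩ := h0 F hF hF1 hF0 d (2 * A + 1) hd
  obtain ⟨H2, h2⟩ := eventually_atTop.1 (ev_log 2)
  refine ⟨max H1 H2, fun H hH x0 hx0 => ?_⟩
  have a1 := h1 H ((le_max_left _ _).trans hH)
  have a2 := h2 H ((le_max_right _ _).trans hH)
  set L := Real.log H with hL
  have hL0 : 0 < L := by linarith
  have hL1 : 1 ≤ L := by linarith
  have hQc0 : (0 : ℝ) ≤ (QQ d H).card := Nat.cast_nonneg _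
  have hQpos : (0 : ℝ) < (QQ d H).card := by rw [card_QQ]; positivity
  have hlx0 : 0 < Real.log x0 := Real.log_pos (by linarith)
  rcases le_or_gt (Real.log x0) (1 / δ1) with hsmall | hbig
  · refine ⟨QQ d H, subset_rfl, ?_, fun a ha hna => absurd ha hna⟩
    rw [le_div_iff₀ hlx0, mul_comm]
    apply mul_le_mul_of_nonneg_right _ hQc0
    have : 0 ≤ D * (2 / δ1) * 2 := by positivity
    linarith
  have hlx1 : 1 ≤ Real.log x0 := by
    have : 1 ≤ 1 / δ1 := by rw [le_div_iff₀ hδ10]; linarith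
    linarith
  obtain ⟨j1, hj1, hj1'⟩ := exists_nat_pow_near hlx1 hρ1
  set N0 : ℕ := ⌈(A : ℝ) * Real.log L / δ1⌉₊ + 2 with hN0
  set Ev : ℕ → Finset (Fin (d + 1) → ℤ) := fun i =>
    if (grid ρ (j1 + i) : ℝ) ≤ L ^ (2 * A + 1) then
      (QQ d H).filter (fun a => (δ1 * Real.log (grid ρ (j1 + i))) ^ 2 < VM F a (grid ρ (j1 + i)) ^ 2)
    else ∅ with hEv
  have hEvc : ∀ i, ((Ev i).card : ℝ) ≤ ((QQ d H).card * D * (1 / ρ ^ j1)) * (1 / ρ) ^ i * 1 := by
    intro i
    rw [hEv]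
    simp only
    split_ifs with hc
    swap
    · rw [card_empty, Nat.cast_zero]
      positivity
    set X := grid ρ (j1 + i) with hX
    have hlX : ρ ^ (j1 + i) ≤ Real.log X := grid_lo ρ _
    have hρj : 1 ≤ ρ ^ (j1 + i) := one_le_pow₀ hρ1.le
    have hlX1 : 1 ≤ Real.log X := hρj.trans hlX
    have hlX0 : 0 < Real.log X := by linarith
    have hsec := a1 X hc
    set S := (QQ d H).filter (fun a => (δ1 * Real.log X) ^ 2 < VM F a X ^ 2) with hS
    have hR : 0 < (δ1 * Real.log X) ^ 2 := by positivity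
    have e2 : ((QQ d H).card : ℝ) * EQ d H (fun a => VM F a X ^ 2) = ∑ a ∈ QQ d H, VM F a X ^ 2 := by
      unfold EQ
      field_simp
    have h5 : (S.card : ℝ) * (δ1 * Real.log X) ^ 2 ≤ (QQ d H).card * EQ d H (fun a => VM F a X ^ 2) := by
      rw [e2]
      calc (S.card : ℝ) * (δ1 * Real.log X) ^ 2 = ∑ _a ∈ S, (δ1 * Real.log X) ^ 2 := by rw [sum_const, nsmul_eq_mul]
        _ ≤ ∑ a ∈ S, VM F a X ^ 2 := sum_le_sum fun a ha => (mem_filter.1 ha).2.le
        _ ≤ _ := sum_le_sum_of_subset_of_nonneg (filter_subset _ _) fun a _ _ => sq_nonneg _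
    have h6 : (S.card : ℝ) * (δ1 * Real.log X) ^ 2 ≤ (QQ d H).card * (C0 * (2 * Real.log X)) :=
      h5.trans (mul_le_mul_of_nonneg_left (hsec.trans (mul_le_mul_of_nonneg_left (by linarith) hC0.le)) hQc0)
    have h7 : (S.card : ℝ) ≤ (QQ d H).card * D * (1 / Real.log X) := by
      have e3 : ((QQ d H).card : ℝ) * D * (1 / Real.log X) = (QQ d H).card * (C0 * (2 * Real.log X)) / (δ1 * Real.log X) ^ 2 := by
        rw [hD]
        field_simp
      rw [e3, le_div_iff₀ hR]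
      exact h6
    refine h7.trans ?_
    have e4 : ((QQ d H).card : ℝ) * D * (1 / ρ ^ j1) * (1 / ρ) ^ i * 1 = (QQ d H).card * D * (1 / ρ ^ (j1 + i)) := by
      rw [pow_add, div_pow, one_pow]
      field_simp
    rw [e4]
    apply mul_le_mul_of_nonneg_left _ (by positivity)
    exact one_div_le_one_div_of_le (by positivity) hlX
  refine ⟨(range N0).biUnion Ev, ?_, ?_, ?_⟩
  · intro a ha
    obtain ⟨i, _, ha⟩ := mem_biUnion.1 ha
    rw [hEv] at ha
    simp only at ha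
    split_ifs at ha
    · exact (mem_filter.1 ha).1
    · exact absurd ha (notMem_empty _)
  · refine (card_bU (range N0) Ev _ (fun i _ => hEvc i)).trans ?_
    have e5 : ∑ i ∈ range N0, ((QQ d H).card * D * (1 / ρ ^ j1)) * (1 / ρ) ^ i * 1 =
        ((QQ d H).card * D * (1 / ρ ^ j1)) * ∑ i ∈ range N0, (1 / ρ) ^ i := by
      rw [mul_sum]
      exact sum_congr rfl fun i _ => by ring
    rw [e5]
    have hgeo : ∑ i ∈ range N0, (1 / ρ) ^ i ≤ 2 / δ1 := by
      have hne : 1 / ρ ≠ 1 := by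
        rw [Ne, div_eq_one_iff_eq hρ0.ne']
        exact (ne_of_gt hρ1).symm
      rw [geom_sum_eq hne]
      have h8 : ((1 / ρ) ^ N0 - 1) / (1 / ρ - 1) = (1 - (1 / ρ) ^ N0) * (ρ / δ1) := by
        have h9 : 1 / ρ - 1 = -(δ1 / ρ) := by
          rw [hρ]
          field_simp
          ring
        rw [h9]
        field_simp
        ring
      rw [h8]
      have h9 : 0 ≤ (1 / ρ) ^ N0 := by positivity
      calc (1 - (1 / ρ) ^ N0) * (ρ / δ1) ≤ 1 * (ρ / δ1) := mul_le_mul_of_nonneg_right (by linarith) (by positivity)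
        _ ≤ 2 / δ1 := by rw [one_mul]; exact div_le_div_of_nonneg_right hρ2 hδ10.le
    have hj : 1 / ρ ^ j1 ≤ 2 / Real.log x0 := by
      rw [div_le_div_iff₀ (by positivity) hlx0, one_mul]
      calc Real.log x0 ≤ ρ ^ (j1 + 1) := hj1'.le
        _ = ρ * ρ ^ j1 := pow_succ' _ _
        _ ≤ 2 * ρ ^ j1 := mul_le_mul_of_nonneg_right hρ2 (by positivity)
    calc (QQ d H).card * D * (1 / ρ ^ j1) * ∑ i ∈ range N0, (1 / ρ) ^ i ≤
        (QQ d H).card * D * (2 / Real.log x0) * (2 / δ1) := by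
          apply mul_le_mul _ hgeo (sum_nonneg fun i _ => by positivity) (by positivity)
          exact mul_le_mul_of_nonneg_left hj (by positivity)
      _ = (D * (2 / δ1) * 2) * (QQ d H).card / Real.log x0 := by ring
      _ ≤ _ := by
          apply div_le_div_of_nonneg_right _ hlx0.le
          apply mul_le_mul_of_nonneg_right _ hQc0
          have : 0 < 1 / δ1 := by positivity
          linarith
  · intro a ha hbad x hxx0 hxL
    have hx2 : (2 : ℝ) ≤ x := hx0.trans hxx0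
    have hx1 : 1 ≤ x := by
      have : (1 : ℝ) ≤ x := by linarith
      exact_mod_cast this
    have hxp : (0 : ℝ) < x := by linarith
    have hlx : Real.log x0 ≤ Real.log x := Real.log_le_log (by linarith) hxx0
    have hlxb : 1 / δ1 < Real.log x := by linarith
    have hδlx : 1 ≤ δ1 * Real.log x := by
      rw [div_lt_iff₀ hδ10] at hlxb
      linarith
    have hlx1' : 1 ≤ Real.log x := hlx1.trans hlx
    obtain ⟨j, hj, hj'⟩ := exists_nat_pow_near hlx1' hρ1
    have hj1j : j1 ≤ j := by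
      by_contra hcon
      push Not at hcon
      have h3 : ρ ^ (j + 1) ≤ ρ ^ j1 := pow_le_pow_right₀ hρ1.le (by omega)
      linarith
    obtain ⟨i, rfl⟩ : ∃ i, j = j1 + i := ⟨j - j1, by omega⟩
    have hlL : Real.log x ≤ A * Real.log L := by
      rw [← Real.log_pow]
      exact Real.log_le_log hxp hxL
    have hiN : i + 1 < N0 := by
      have h3 : 1 + ((j1 + i : ℕ) : ℝ) * δ1 ≤ ρ ^ (j1 + i) := by
        rw [hρ]
        exact one_add_mul_le_pow (by linarith) _
      have h4 : (i : ℝ) ≤ (A : ℝ) * Real.log L / δ1 := by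
        rw [le_div_iff₀ hδ10]
        push_cast at h3
        have : 0 ≤ (j1 : ℝ) * δ1 := by positivity
        nlinarith
      have h5 : i ≤ ⌈(A : ℝ) * Real.log L / δ1⌉₊ := by
        have := h4.trans (Nat.le_ceil _)
        exact_mod_cast this
      omega
    have hgood : ∀ i', i' < N0 → (grid ρ (j1 + i') : ℝ) ≤ L ^ (2 * A + 1) →
        |IM F a (grid ρ (j1 + i')) - Real.log (grid ρ (j1 + i'))| ≤ δ1 * Real.log (grid ρ (j1 + i')) + 1 := by
      intro i' hi' hc
      have h3 : ¬ (δ1 * Real.log (grid ρ (j1 + i'))) ^ 2 < VM F a (grid ρ (j1 + i')) ^ 2 := by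
        intro hlt
        apply hbad
        refine mem_biUnion.2 ⟨i', mem_range.2 hi', ?_⟩
        rw [hEv]
        simp only
        rw [if_pos hc, mem_filter]
        exact ⟨ha, hlt⟩
      push Not at h3
      have hl0 : 0 ≤ Real.log (grid ρ (j1 + i')) := Real.log_natCast_nonneg _
      have h5 : |VM F a (grid ρ (j1 + i'))| ≤ δ1 * Real.log (grid ρ (j1 + i')) :=
        abs_le_of_sq_le_sq h3 (mul_nonneg hδ10.le hl0)
      have := IM_VM F a (grid ρ (j1 + i')) (grid_one ρ _)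
      linarith
    -- the lower end
    have hlo : grid ρ (j1 + i) ≤ x := by
      apply Nat.ceil_le.2
      rw [← Real.le_log_iff_exp_le hxp]
      exact hj
    have hhi : x ≤ grid ρ (j1 + (i + 1)) := by
      have h3 : (x : ℝ) ≤ Real.exp (ρ ^ (j1 + i + 1)) := by
        rw [← Real.log_le_iff_le_exp hxp]
        exact hj'.le
      have h4 : (x : ℝ) ≤ (grid ρ (j1 + (i + 1)) : ℝ) := by
        refine h3.trans ?_
        rw [add_assoc]
        exact Nat.le_ceil _
      exact_mod_cast h4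
    have hLA : 1 ≤ L ^ A := one_le_pow₀ hL1
    have hc1 : (grid ρ (j1 + i) : ℝ) ≤ L ^ (2 * A + 1) := by
      calc (grid ρ (j1 + i) : ℝ) ≤ x := by exact_mod_cast hlo
        _ ≤ L ^ A := hxL
        _ ≤ L ^ (2 * A + 1) := pow_le_pow_right₀ hL1 (by omega)
    have hc2 : (grid ρ (j1 + (i + 1)) : ℝ) ≤ L ^ (2 * A + 1) := by
      calc (grid ρ (j1 + (i + 1)) : ℝ) ≤ 2 * Real.exp (ρ ^ (j1 + (i + 1))) := grid_hi' ρ hρ1.le _
        _ ≤ 2 * Real.exp (2 * Real.log x) := by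
            apply mul_le_mul_of_nonneg_left _ (by norm_num)
            apply Real.exp_le_exp.2
            rw [← add_assoc, pow_succ']
            exact mul_le_mul hρ2 hj (by positivity) (by norm_num)
        _ = 2 * (x : ℝ) ^ 2 := by
            rw [two_mul (Real.log x), Real.exp_add, Real.exp_log hxp]
            ring
        _ ≤ L * (L ^ A) ^ 2 := by
            apply mul_le_mul a2 (pow_le_pow_left₀ hxp.le hxL 2) (by positivity) hL0.le
        _ = _ := by rw [← pow_mul, pow_succ']; congr 2; ring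
    have g1 := hgood i (by omega) hc1
    have g2 := hgood (i + 1) hiN hc2
    have m1 := IM_mono F a _ _ hlo
    have m2 := IM_mono F a _ _ hhi
    have l1 : ρ ^ (j1 + i) ≤ Real.log (grid ρ (j1 + i)) := grid_lo ρ _
    have l2 : Real.log (grid ρ (j1 + (i + 1))) ≤ ρ ^ (j1 + (i + 1)) + 1 := grid_hi ρ hρ1.le _
    have p1 : Real.log x ≤ ρ * ρ ^ (j1 + i) := by
      rw [← pow_succ']
      exact hj'.le
    have p2 : ρ ^ (j1 + (i + 1)) ≤ ρ * Real.log x := by
      rw [← add_assoc, pow_succ']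
      exact mul_le_mul_of_nonneg_left hj hρ0.le
    set ℓ := Real.log x with hℓ
    have q1 := (abs_le.1 g1).1
    have q2 := (abs_le.1 g2).2
    set P1 := ρ ^ (j1 + i) with hP1
    set G1 := Real.log (grid ρ (j1 + i)) with hG1
    set G2 := Real.log (grid ρ (j1 + (i + 1))) with hG2
    have hP10 : 0 < P1 := by positivity
    -- lower bound
    have hlow : (1 - 3 * δ1) * ℓ ≤ IM F a x := by
      have r1 : (1 - δ1) * G1 - 1 ≤ IM F a x := by linarith
      have r2 : (1 - δ1) * P1 ≤ (1 - δ1) * G1 := mul_le_mul_of_nonneg_left l1 (by linarith)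
      have r3 : (1 - 2 * δ1) * ℓ ≤ (1 - δ1) * P1 := by
        have r4 : (1 - 2 * δ1) * ℓ ≤ (1 - 2 * δ1) * (ρ * P1) := mul_le_mul_of_nonneg_left p1 (by linarith)
        have r5 : (1 - 2 * δ1) * ρ ≤ 1 - δ1 := by rw [hρ]; nlinarith
        have r6 := mul_le_mul_of_nonneg_right r5 hP10.le
        linarith
      linarith
    have hupp : IM F a x ≤ (1 + 6 * δ1) * ℓ := by
      have r1 : IM F a x ≤ (1 + δ1) * G2 + 1 := by linarith
      have r2 : (1 + δ1) * G2 ≤ (1 + δ1) * (ρ * ℓ + 1) := mul_le_mul_of_nonneg_left (by linarith) (by linarith)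
      have r3 : (1 + δ1) * (ρ * ℓ) ≤ (1 + 3 * δ1) * ℓ := by
        rw [← mul_assoc]
        apply mul_le_mul_of_nonneg_right _ (by linarith)
        rw [hρ]
        nlinarith
      linarith
    rw [abs_le]
    have hd1 : 3 * δ1 ≤ δ := by linarith
    have hd2 : 6 * δ1 ≤ δ := by linarith
    have hℓ0 : 0 ≤ ℓ := by linarith
    have s1 := mul_le_mul_of_nonneg_right hd1 hℓ0
    have s2 := mul_le_mul_of_nonneg_right hd2 hℓ0
    constructor <;> linarith

end Pool.Agent.TP975.LR
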