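import Mathlib
import Pool.Agent.TP975.LR.Lq2

/-!
The integral form of the logarithmic mean square.
-/

set_option autoImplicit false

namespace Pool.Agent.TP975.LR

open Finset Filter MeasureTheory
open Pool.Agent.H807R2.Dav
open Pool.Agent.TP975.RP

lemma piece (c : ℝ) (u : ℕ) (hu : 1 ≤ u) :
    IntervalIntegrable (fun t : ℝ => (c / t) ^ 2) volume u ((u + 1 : ℕ) : ℝ) ∧
    ∫ t in (u : ℝ)..((u + 1 : ℕ) : ℝ), (c / t) ^ 2 = c ^ 2 / ((u : ℝ) * (u + 1)) := by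
  have hu1 : (1 : ℝ) ≤ u := by exact_mod_cast hu
  have hle : (u : ℝ) ≤ ((u + 1 : ℕ) : ℝ) := by push_cast; linarith
  have hcont : ContinuousOn (fun t : ℝ => (c / t) ^ 2) (Set.uIcc (u : ℝ) ((u + 1 : ℕ) : ℝ)) := by
    rw [Set.uIcc_of_le hle]
    apply ContinuousOn.pow
    apply ContinuousOn.div continuousOn_const continuousOn_id
    intro t ht
    have : (u : ℝ) ≤ t := ht.1
    simp only [id]
    linarith
  refine ⟨hcont.intervalIntegrable, ?_⟩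
  have hder : ∀ t ∈ Set.uIcc (u : ℝ) ((u + 1 : ℕ) : ℝ), HasDerivAt (fun t : ℝ => -(c ^ 2) * t⁻¹) ((c / t) ^ 2) t := by
    intro t ht
    rw [Set.uIcc_of_le hle] at ht
    have ht0 : t ≠ 0 := by
      have : (u : ℝ) ≤ t := ht.1
      linarith
    have h := (hasDerivAt_inv ht0).const_mul (-(c ^ 2))
    refine h.congr_deriv ?_
    field_simp
  rw [intervalIntegral.integral_eq_sub_of_hasDerivAt hder hcont.intervalIntegrable]
  push_cast
  field_simp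
  ring

/-- the integral over `[1, x + 1]` is the sum up to `x` -/
lemma step_integral (M : ℕ → ℝ) (x : ℕ) :
    IntervalIntegrable (fun t : ℝ => (M ⌊t⌋₊ / t) ^ 2) volume (1 : ℝ) ((x + 1 : ℕ) : ℝ) ∧
    ∫ t in (1 : ℝ)..((x + 1 : ℕ) : ℝ), (M ⌊t⌋₊ / t) ^ 2 = ∑ u ∈ Icc 1 x, M u ^ 2 / ((u : ℝ) * (u + 1)) := by
  induction x with
  | zero => simp
  | succ x ih =>
    obtain ⟨ih1, ih2⟩ := ih
    obtain ⟨p1, p2⟩ := piece (M (x + 1)) (x + 1) (by omega)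
    have hle : ((x + 1 : ℕ) : ℝ) ≤ ((x + 1 + 1 : ℕ) : ℝ) := by push_cast; linarith
    have hae : ∀ᵐ t : ℝ, t ∈ Set.uIoc ((x + 1 : ℕ) : ℝ) ((x + 1 + 1 : ℕ) : ℝ) → (M (x + 1) / t) ^ 2 = (M ⌊t⌋₊ / t) ^ 2 := by
      have h0 : ∀ᵐ t : ℝ, t ≠ ((x + 1 + 1 : ℕ) : ℝ) := by
        have := (measure_singleton (μ := (volume : Measure ℝ)) (((x + 1 + 1 : ℕ) : ℝ)))
        rw [ae_iff]
        simpa using this
      filter_upwards [h0] with t ht htm
      rw [Set.uIoc_of_le hle] at htm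
      have h1 : ⌊t⌋₊ = x + 1 := by
        rw [Nat.floor_eq_iff (by linarith [htm.1, (Nat.cast_nonneg (x + 1) : (0 : ℝ) ≤ ((x + 1 : ℕ) : ℝ))])]
        refine ⟨htm.1.le, ?_⟩
        have h2 := lt_of_le_of_ne htm.2 ht
        push_cast at h2 ⊢
        exact h2
      rw [h1]
    have q1 : IntervalIntegrable (fun t : ℝ => (M ⌊t⌋₊ / t) ^ 2) volume ((x + 1 : ℕ) : ℝ) ((x + 1 + 1 : ℕ) : ℝ) := by
      rw [intervalIntegrable_iff] at p1 ⊢
      refine p1.congr ?_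
      rw [Filter.EventuallyEq, ae_restrict_iff' measurableSet_uIoc]
      exact hae
    have q2 : ∫ t in ((x + 1 : ℕ) : ℝ)..((x + 1 + 1 : ℕ) : ℝ), (M ⌊t⌋₊ / t) ^ 2 =
        M (x + 1) ^ 2 / (((x + 1 : ℕ) : ℝ) * (((x + 1 : ℕ) : ℝ) + 1)) := by
      rw [← p2]
      exact (intervalIntegral.integral_congr_ae hae).symm
    refine ⟨ih1.trans q1, ?_⟩
    rw [← intervalIntegral.integral_add_adjacent_intervals ih1 q1, ih2, q2, sum_Icc_succ_top (by omega)]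

/-- the integral form of the logarithmic mean square -/
noncomputable def II {d : ℕ} (F : ℤ → ℝ) (a : Fin (d + 1) → ℤ) (y : ℝ) : ℝ := ∫ t in (1 : ℝ)..y, (Mf F a ⌊t⌋₊ / t) ^ 2

lemma Mf_le {d : ℕ} (F : ℤ → ℝ) (hFb : ∀ v, |F v| ≤ 1) (a : Fin (d + 1) → ℤ) (u : ℕ) : |Mf F a u| ≤ u := by
  unfold Mf
  refine (abs_sum_le_sum_abs _ _).trans ((sum_le_sum fun n _ => hFb _).trans ?_)
  rw [sum_const, Nat.card_Icc, Nat.add_sub_cancel, nsmul_eq_mul, mul_one]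

lemma II_IM {d : ℕ} (F : ℤ → ℝ) (hFb : ∀ v, |F v| ≤ 1) (a : Fin (d + 1) → ℤ) (y : ℝ) (hy : 1 ≤ y) :
    IM F a ⌊y⌋₊ - 1 ≤ II F a y ∧ II F a y ≤ IM F a ⌊y⌋₊ := by
  have hy0 : 0 ≤ y := by linarith
  have hx1 : 1 ≤ ⌊y⌋₊ := by
    rw [Nat.one_le_floor_iff]
    exact hy
  obtain ⟨x, hx⟩ : ∃ x, ⌊y⌋₊ = x + 1 := ⟨⌊y⌋₊ - 1, by omega⟩
  have hlo : ((x + 1 : ℕ) : ℝ) ≤ y := by rw [← hx]; exact Nat.floor_le hy0
  have hhi : y ≤ ((x + 1 + 1 : ℕ) : ℝ) := by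
    have := Nat.lt_floor_add_one y
    rw [hx] at this
    push_cast at this ⊢
    exact this.le
  obtain ⟨i1, e1⟩ := step_integral (Mf F a) x
  obtain ⟨i2, e2⟩ := step_integral (Mf F a) (x + 1)
  have hx0 : (1 : ℝ) ≤ ((x + 1 : ℕ) : ℝ) := by push_cast; linarith [(Nat.cast_nonneg x : (0 : ℝ) ≤ x)]
  have i3 : IntervalIntegrable (fun t : ℝ => (Mf F a ⌊t⌋₊ / t) ^ 2) volume ((x + 1 : ℕ) : ℝ) ((x + 1 + 1 : ℕ) : ℝ) :=
    i1.symm.trans i2
  have j1 : IntervalIntegrable (fun t : ℝ => (Mf F a ⌊t⌋₊ / t) ^ 2) volume ((x + 1 : ℕ) : ℝ) y :=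
    i3.mono_set (by
      rw [Set.uIcc_of_le hlo, Set.uIcc_of_le (hlo.trans hhi)]
      exact Set.Icc_subset_Icc_right hhi)
  have j2 : IntervalIntegrable (fun t : ℝ => (Mf F a ⌊t⌋₊ / t) ^ 2) volume y ((x + 1 + 1 : ℕ) : ℝ) :=
    i3.mono_set (by
      rw [Set.uIcc_of_le hhi, Set.uIcc_of_le (hlo.trans hhi)]
      exact Set.Icc_subset_Icc_left hlo)
  have s1 : II F a y = IM F a x + ∫ t in ((x + 1 : ℕ) : ℝ)..y, (Mf F a ⌊t⌋₊ / t) ^ 2 := by
    unfold II IM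
    rw [← intervalIntegral.integral_add_adjacent_intervals i1 j1, e1]
  have s2 : IM F a (x + 1) = II F a y + ∫ t in y..((x + 1 + 1 : ℕ) : ℝ), (Mf F a ⌊t⌋₊ / t) ^ 2 := by
    unfold II IM
    rw [← e2, ← intervalIntegral.integral_add_adjacent_intervals (i1.trans j1) j2]
  have n1 : 0 ≤ ∫ t in ((x + 1 : ℕ) : ℝ)..y, (Mf F a ⌊t⌋₊ / t) ^ 2 :=
    intervalIntegral.integral_nonneg hlo fun t _ => sq_nonneg _
  have n2 : 0 ≤ ∫ t in y..((x + 1 + 1 : ℕ) : ℝ), (Mf F a ⌊t⌋₊ / t) ^ 2 :=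
    intervalIntegral.integral_nonneg hhi fun t _ => sq_nonneg _
  have s3 : IM F a (x + 1) ≤ IM F a x + 1 := by
    unfold IM
    rw [sum_Icc_succ_top (by omega)]
    have h1 := Mf_le F hFb a (x + 1)
    have h2 : Mf F a (x + 1) ^ 2 ≤ ((x + 1 : ℕ) : ℝ) ^ 2 := by
      rw [← sq_abs]
      exact pow_le_pow_left₀ (abs_nonneg _) h1 2
    have h3 : Mf F a (x + 1) ^ 2 / (((x + 1 : ℕ) : ℝ) * (((x + 1 : ℕ) : ℝ) + 1)) ≤ 1 := by
      rw [div_le_one (by positivity)]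
      nlinarith
    linarith
  rw [hx]
  constructor <;> linarith

/-- the weak Mertens hypothesis, in the form of an asymptotic formula, for almost all polynomials: real variables -/
theorem mertens_real (δ : ℝ) (hδ : 0 < δ) : ∃ C : ℝ, 0 < C ∧ ∀ (F : ℤ → ℝ), WinB F → (∀ v, v ≠ 0 → F v = 1 ∨ F v = -1) →
    F 0 = 0 → ∀ d A : ℕ, 2 ≤ d → ∃ H0 : ℕ, ∀ H : ℕ, H0 ≤ H → ∀ y0 : ℝ, 2 ≤ y0 →
    ∃ Bad ⊆ QQ d H, (Bad.card : ℝ) ≤ C * (QQ d H).card / Real.log y0 ∧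
    ∀ a ∈ QQ d H, a ∉ Bad → ∀ y : ℝ, y0 ≤ y → y ≤ Real.log H ^ A →
    |II F a y - Real.log y| ≤ δ * Real.log y := by
  obtain ⟨C1, hC1, h1⟩ := mertens_all (δ / 2) (by positivity)
  refine ⟨4 / δ + 2 * C1, by positivity, fun F hF hF1 hF0 d A hd => ?_⟩
  obtain ⟨H0, h2⟩ := h1 F hF hF1 hF0 d A hd
  refine ⟨H0, fun H hH y0 hy0 => ?_⟩
  have hQc0 : (0 : ℝ) ≤ (QQ d H).card := Nat.cast_nonneg _
  have hly0 : 0 < Real.log y0 := Real.log_pos (by linarith)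
  have hFb : ∀ v, |F v| ≤ 1 := by
    intro v
    by_cases hv : v = 0
    · rw [hv, hF0]; simp
    · rcases hF1 v hv with h | h <;> rw [h] <;> simp
  rcases le_or_gt (Real.log y0) (4 / δ) with hsmall | hbig
  · refine ⟨QQ d H, subset_rfl, ?_, fun a ha hna => absurd ha hna⟩
    rw [le_div_iff₀ hly0, mul_comm]
    apply mul_le_mul_of_nonneg_right _ hQc0
    linarith
  set x0 : ℝ := ((⌊y0⌋₊ : ℕ) : ℝ) with hx0
  have hf2 : 2 ≤ ⌊y0⌋₊ := Nat.le_floor (by exact_mod_cast hy0)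
  have hx02 : 2 ≤ x0 := by rw [hx0]; exact_mod_cast hf2
  obtain ⟨Bad, hB1, hB2, hB3⟩ := h2 H hH x0 hx02
  refine ⟨Bad, hB1, hB2.trans ?_, fun a ha hna y hy hyL => ?_⟩
  · have hlx0 : 0 < Real.log x0 := Real.log_pos (by linarith)
    have h3 : Real.log y0 ≤ 2 * Real.log x0 := by
      have h4 : y0 ≤ x0 ^ 2 := by
        have h5 : y0 < x0 + 1 := Nat.lt_floor_add_one y0
        nlinarith
      calc Real.log y0 ≤ Real.log (x0 ^ 2) := Real.log_le_log (by linarith) h4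
        _ = 2 * Real.log x0 := by rw [Real.log_pow]; push_cast; ring
    rw [div_le_div_iff₀ hlx0 hly0]
    have h6 : C1 * (QQ d H).card * Real.log y0 ≤ C1 * (QQ d H).card * (2 * Real.log x0) :=
      mul_le_mul_of_nonneg_left h3 (by positivity)
    have h7 : 0 ≤ 4 / δ * (QQ d H).card * Real.log x0 := by positivity
    calc C1 * (QQ d H).card * Real.log y0 ≤ C1 * (QQ d H).card * (2 * Real.log x0) := h6
      _ ≤ (4 / δ * (QQ d H).card * Real.log x0) + C1 * (QQ d H).card * (2 * Real.log x0) := by linarith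
      _ = _ := by ring
  · have hy2 : 2 ≤ y := hy0.trans hy
    have hyp : 0 < y := by linarith
    set x := ⌊y⌋₊ with hx
    have hx0x : x0 ≤ x := by
      rw [hx0]
      exact_mod_cast Nat.floor_le_floor hy
    have hxy : (x : ℝ) ≤ y := Nat.floor_le hyp.le
    have hxp : (0 : ℝ) < x := by linarith
    have h3 := abs_le.1 (hB3 a ha hna x hx0x (hxy.trans hyL))
    obtain ⟨h4, h5⟩ := II_IM F hFb a y (by linarith)
    have h6 : Real.log x ≤ Real.log y := Real.log_le_log hxp hxy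
    have h7 : Real.log y ≤ Real.log x + 1 := by
      have h8 : y < x + 1 := Nat.lt_floor_add_one y
      have h9 : y ≤ x * Real.exp 1 := by
        have := Real.add_one_le_exp (1 : ℝ)
        nlinarith
      calc Real.log y ≤ Real.log (x * Real.exp 1) := Real.log_le_log hyp h9
        _ = Real.log x + 1 := by rw [Real.log_mul hxp.ne' (Real.exp_pos 1).ne', Real.log_exp]
    have h8 : 4 / δ < Real.log y := lt_of_lt_of_le hbig (Real.log_le_log (by linarith) hy)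
    have h9 : 4 < δ * Real.log y := by
      rw [div_lt_iff₀ hδ] at h8
      linarith
    have h10 : δ / 2 * Real.log x ≤ δ / 2 * Real.log y := mul_le_mul_of_nonneg_left h6 (by positivity)
    rw [abs_le]
    constructor <;> linarith

end Pool.Agent.TP975.LR
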