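import Mathlib
import Pool.Agent.TP975.LR.Lj2
import Pool.Agent.TP975.LR.Lb3

/-!
Block complexity of the signs at the values of almost all polynomials.
-/

set_option autoImplicit false

namespace Pool.Agent.TP975.LR

open Finset Filter
open Pool.Agent.H807R2.Dav
open Pool.Agent.TP975.RP

open Classical in
/-- two words are seldom equal -/
theorem coin (F : ℤ → ℝ) (hF : WinB F) (hF1 : ∀ v, v ≠ 0 → F v = 1 ∨ F v = -1) (hF0 : F 0 = 0) (d A r : ℕ)
    (hr : 2 * r ≤ d) : ∃ C : ℝ, 0 ≤ C ∧ ∃ H0 : ℕ, ∀ H : ℕ, H0 ≤ H → ∀ n m l : ℕ, n < m → (m : ℝ) ≤ Real.log H ^ A →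
    1 ≤ l → (l : ℝ) ≤ Real.log H ^ A →
    (((QQ d H).filter (fun a => ∀ j : ℕ, j < l → F (ev a ((n : ℤ) + 1 + j)) * F (ev a ((m : ℤ) + 1 + j)) = 1)).card : ℝ) *
      (l : ℝ) ^ r ≤ C * (QQ d H).card := by
  obtain ⟨C1, hC10, hC1⟩ := W_bound (2 * r)
  obtain ⟨H1, h1⟩ := mixG_J F hF hF1 hF0 d (A + 2) (2 * r) 2 ((A + 2) * (2 * r)) (by norm_num) (by omega)
  obtain ⟨H3, h3⟩ := eventually_atTop.1 (ev_log 3)
  refine ⟨C1 * 2 ^ r + 1, by positivity, max H1 H3, fun H hH n m l hnm hm hl hlA => ?_⟩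
  have a3 := h3 H ((le_max_right _ _).trans hH)
  set L := Real.log H with hL
  have hL0 : 0 < L := by linarith
  have hL1 : 1 ≤ L := by linarith
  have hLA : 1 ≤ L ^ A := one_le_pow₀ hL1
  have hl1 : (1 : ℝ) ≤ l := by exact_mod_cast hl
  have h9 : 9 ≤ L ^ 2 := by nlinarith
  have hLA2 : 9 * L ^ A ≤ L ^ (A + 2) := by
    rw [pow_add]
    nlinarith
  set J : Finset ℤ := {0, (m : ℤ) - n} with hJ
  have hne : (0 : ℤ) ≠ (m : ℤ) - n := by
    have : (n : ℤ) < m := by exact_mod_cast hnm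
    omega
  have hJc : J.card = 2 := by
    rw [hJ, card_pair hne]
  have hJb : ∀ j ∈ J, |(j : ℝ)| ≤ L ^ (A + 2) := by
    intro j hj
    rw [hJ, mem_insert, mem_singleton] at hj
    rcases hj with rfl | rfl
    · simp
      positivity
    · push_cast
      have q1 : (n : ℝ) < m := by exact_mod_cast hnm
      have q2 : (0 : ℝ) ≤ n := Nat.cast_nonneg _
      rw [abs_of_nonneg (by linarith)]
      linarith
  set T : Finset ℤ := (range l).image (fun j : ℕ => (n : ℤ) + 1 + j) with hT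
  have hinj : Set.InjOn (fun j : ℕ => (n : ℤ) + 1 + j) (range l : Set ℕ) := by
    intro x _ y _ hxy
    simp only at hxy
    omega
  have hTc : T.card = l := by
    rw [hT, card_image_of_injOn hinj, card_range]
  have hTb : ∀ t ∈ T, |(t : ℝ)| ≤ L ^ (A + 2) := by
    intro t ht
    obtain ⟨j, hj, rfl⟩ := mem_image.1 ht
    rw [mem_range] at hj
    push_cast
    have q1 : (n : ℝ) < m := by exact_mod_cast hnm
    have q2 : (0 : ℝ) ≤ n := Nat.cast_nonneg _
    have q3 : (0 : ℝ) ≤ j := Nat.cast_nonneg _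
    have q4 : (j : ℝ) < l := by exact_mod_cast hj
    rw [abs_of_nonneg (by linarith)]
    linarith
  have hG := h1 H ((le_max_left _ _).trans hH) J hJc hJb
  have key := (pair_disjG d H (A + 2) (2 * r) (GJ F J) _ (by positivity) hG l hl T T hTc hTc hTb hTb (2 * r) 0 (by omega)).2
  have herr : (2 * (l : ℝ)) ^ (2 * r) * (1 / L ^ ((A + 2) * (2 * r))) ≤ 1 := by
    rw [pow_mul L, mul_one_div, ← div_pow]
    apply pow_le_one₀ (by positivity)
    rw [div_le_one (by positivity)]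
    linarith
  have hW : |W l (2 * r)| ≤ C1 * 2 ^ r * (l : ℝ) ^ r := by
    refine (hC1 l).trans ?_
    rw [mul_assoc, ← mul_pow]
    apply mul_le_mul_of_nonneg_left _ hC10
    have e : 2 * r / 2 = r := by omega
    rw [e]
    exact pow_le_pow_left₀ (by linarith) (by linarith) _
  have hEQ : EQ d H (fun a => SG (GJ F J) T a ^ (2 * r)) ≤ (C1 * 2 ^ r + 1) * (l : ℝ) ^ r := by
    have q1 := (abs_le.1 (key.trans herr)).2
    have q2 := le_abs_self (W l (2 * r))
    have q3 : (1 : ℝ) ≤ (l : ℝ) ^ r := one_le_pow₀ hl1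
    nlinarith
  have hQpos : (0 : ℝ) < (QQ d H).card := by rw [card_QQ]; positivity
  set S := (QQ d H).filter (fun a => ∀ j : ℕ, j < l → F (ev a ((n : ℤ) + 1 + j)) * F (ev a ((m : ℤ) + 1 + j)) = 1) with hS
  have hval : ∀ a ∈ S, SG (GJ F J) T a = l := by
    intro a ha
    have h4 := (mem_filter.1 ha).2
    unfold SG
    rw [hT, sum_image hinj]
    have h5 : ∀ j ∈ range l, GJ F J a ((n : ℤ) + 1 + j) = 1 := by
      intro j hj
      rw [mem_range] at hj
      unfold GJ
      rw [hJ, prod_pair hne, add_zero]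
      have e : (n : ℤ) + 1 + j + ((m : ℤ) - n) = (m : ℤ) + 1 + j := by ring
      rw [e]
      exact h4 j hj
    rw [sum_congr rfl h5]
    simp
  have hlow : (S.card : ℝ) * (l : ℝ) ^ (2 * r) ≤ (QQ d H).card * EQ d H (fun a => SG (GJ F J) T a ^ (2 * r)) := by
    have e1 : ((QQ d H).card : ℝ) * EQ d H (fun a => SG (GJ F J) T a ^ (2 * r)) = ∑ a ∈ QQ d H, SG (GJ F J) T a ^ (2 * r) := by
      unfold EQ
      field_simp
    rw [e1]
    calc (S.card : ℝ) * (l : ℝ) ^ (2 * r) = ∑ a ∈ S, SG (GJ F J) T a ^ (2 * r) := by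
          rw [sum_congr rfl (fun a ha => by rw [hval a ha]), sum_const, nsmul_eq_mul]
      _ ≤ _ := sum_le_sum_of_subset_of_nonneg (filter_subset _ _) fun a _ _ => (even_two_mul r).pow_nonneg _
  have hlr : (0 : ℝ) < (l : ℝ) ^ r := by positivity
  have hfin : ((S.card : ℝ) * (l : ℝ) ^ r) * (l : ℝ) ^ r ≤ ((C1 * 2 ^ r + 1) * (QQ d H).card) * (l : ℝ) ^ r := by
    calc ((S.card : ℝ) * (l : ℝ) ^ r) * (l : ℝ) ^ r = (S.card : ℝ) * (l : ℝ) ^ (2 * r) := by
          rw [two_mul, pow_add]; ring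
      _ ≤ (QQ d H).card * EQ d H (fun a => SG (GJ F J) T a ^ (2 * r)) := hlow
      _ ≤ (QQ d H).card * ((C1 * 2 ^ r + 1) * (l : ℝ) ^ r) := mul_le_mul_of_nonneg_left hEQ hQpos.le
      _ = _ := by ring
  exact le_of_mul_le_mul_right hfin hlr

/-- the word of length `l` after the place `n` -/
def word {d : ℕ} (F : ℤ → ℝ) (a : Fin (d + 1) → ℤ) (l n : ℕ) : Fin l → ℝ := fun j => F (ev a ((n : ℤ) + 1 + (j : ℕ)))

open Classical in
/-- the number of words of length `l` after the places `n < X` -/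
noncomputable def nw {d : ℕ} (F : ℤ → ℝ) (a : Fin (d + 1) → ℤ) (l X : ℕ) : ℕ := ((range X).image (word F a l)).card

lemma nw_mono_X {d : ℕ} (F : ℤ → ℝ) (a : Fin (d + 1) → ℤ) (l X X' : ℕ) (h : X' ≤ X) : nw F a l X' ≤ nw F a l X :=
  card_le_card (image_subset_image (range_subset_range.2 h))

open Classical in
lemma nw_mono_l {d : ℕ} (F : ℤ → ℝ) (a : Fin (d + 1) → ℤ) (l l' X : ℕ) (h : l' ≤ l) : nw F a l' X ≤ nw F a l X := by
  unfold nw
  have e : (range X).image (word F a l') = ((range X).image (word F a l)).image (fun w => fun j : Fin l' => w (Fin.castLE h j)) := by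
    rw [image_image]
    rfl
  rw [e]
  exact card_image_le

open Classical in
/-- Cauchy-Schwarz -/
lemma nw_cs {d : ℕ} (F : ℤ → ℝ) (a : Fin (d + 1) → ℤ) (l X : ℕ) :
    (X : ℝ) ^ 2 ≤ nw F a l X * ∑ n ∈ range X, (((range X).filter (fun m => word F a l m = word F a l n)).card : ℝ) := by
  set g := word F a l with hg
  set c : (Fin l → ℝ) → ℝ := fun w => (((range X).filter (fun m => g m = w)).card : ℝ) with hc
  have h1 : ∑ n ∈ range X, c (g n) = ∑ w ∈ (range X).image g, c w * c w := by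
    have := Finset.sum_comp (s := range X) c g
    rw [this]
    refine sum_congr rfl fun w _ => ?_
    rw [nsmul_eq_mul]
  have h2 : (X : ℝ) = ∑ w ∈ (range X).image g, c w := by
    have := Finset.sum_comp (s := range X) (fun _ : Fin l → ℝ => (1 : ℝ)) g
    rw [sum_const, card_range, nsmul_eq_mul, mul_one] at this
    rw [this]
    refine sum_congr rfl fun w _ => ?_
    rw [nsmul_eq_mul, mul_one]
  have h3 := sq_sum_le_card_mul_sum_sq (s := (range X).image g) (f := c)
  rw [← h2] at h3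
  calc (X : ℝ) ^ 2 ≤ (((range X).image g).card : ℝ) * ∑ w ∈ (range X).image g, c w ^ 2 := h3
    _ = nw F a l X * ∑ n ∈ range X, c (g n) := by
        rw [h1]
        congr 1
        exact sum_congr rfl fun w _ => sq _

end Pool.Agent.TP975.LR
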