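import Mathlib
import Pool.Agent.TP975.LR.Lk1

/-!
Block complexity for almost all polynomials.
-/

set_option autoImplicit false

namespace Pool.Agent.TP975.LR

open Finset Filter
open Pool.Agent.H807R2.Dav
open Pool.Agent.TP975.RP

/-- the indicator of two equal words -/
noncomputable def eqw {d : ℕ} (F : ℤ → ℝ) (a : Fin (d + 1) → ℤ) (l n m : ℕ) : Prop :=
  ∀ j : ℕ, j < l → F (ev a ((n : ℤ) + 1 + j)) * F (ev a ((m : ℤ) + 1 + j)) = 1

open Classical in
/-- the number of pairs of places with equal words -/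
noncomputable def co {d : ℕ} (F : ℤ → ℝ) (l X : ℕ) (a : Fin (d + 1) → ℤ) : ℝ :=
  ∑ n ∈ range X, ∑ m ∈ (range X).erase n, if eqw F a l n m then (1 : ℝ) else 0

lemma co_nonneg {d : ℕ} (F : ℤ → ℝ) (l X : ℕ) (a : Fin (d + 1) → ℤ) : 0 ≤ co F l X a :=
  sum_nonneg fun _ _ => sum_nonneg fun _ _ => by split_ifs <;> norm_num

open Classical in
/-- the average number of pairs with equal words -/
theorem co_mean (F : ℤ → ℝ) (hF : WinB F) (hF1 : ∀ v, v ≠ 0 → F v = 1 ∨ F v = -1) (hF0 : F 0 = 0) (d A r : ℕ)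
    (hr : 2 * r ≤ d) : ∃ C : ℝ, 0 ≤ C ∧ ∃ H0 : ℕ, ∀ H : ℕ, H0 ≤ H → ∀ l X : ℕ, (X : ℝ) ≤ Real.log H ^ A →
    1 ≤ l → (l : ℝ) ≤ Real.log H ^ A →
    (∑ a ∈ QQ d H, co F l X a) * (l : ℝ) ^ r ≤ C * (QQ d H).card * (X : ℝ) ^ 2 := by
  obtain ⟨C, hC0, H0, h0⟩ := coin F hF hF1 hF0 d A r hr
  refine ⟨C, hC0, H0, fun H hH l X hX hl hlA => ?_⟩
  have hone : ∀ n ∈ range X, ∀ m ∈ (range X).erase n,
      (∑ a ∈ QQ d H, if eqw F a l n m then (1 : ℝ) else 0) * (l : ℝ) ^ r ≤ C * (QQ d H).card := by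
    intro n hn m hm
    rw [mem_range] at hn
    have hm1 : m < X := mem_range.1 (mem_of_mem_erase hm)
    have hm2 : m ≠ n := ne_of_mem_erase hm
    rw [← sum_filter, sum_const, nsmul_eq_mul, mul_one]
    rcases lt_or_gt_of_ne hm2 with h | h
    · have h1 := h0 H hH m n l h (le_trans (by exact_mod_cast hn.le) hX) hl hlA
      have e : (QQ d H).filter (fun a => eqw F a l n m) =
          (QQ d H).filter (fun a => ∀ j : ℕ, j < l → F (ev a ((m : ℤ) + 1 + j)) * F (ev a ((n : ℤ) + 1 + j)) = 1) := by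
        apply filter_congr
        intro a _
        unfold eqw
        constructor <;> intro h j hj <;> rw [mul_comm] <;> exact h j hj
      rw [e]
      exact h1
    · have h1 := h0 H hH n m l h (le_trans (by exact_mod_cast hm1.le) hX) hl hlA
      have e : (QQ d H).filter (fun a => eqw F a l n m) =
          (QQ d H).filter (fun a => ∀ j : ℕ, j < l → F (ev a ((n : ℤ) + 1 + j)) * F (ev a ((m : ℤ) + 1 + j)) = 1) := by
        apply filter_congr
        intro a _
        unfold eqw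
        exact Iff.rfl
      rw [e]
      exact h1
  have hX2 : ∀ n ∈ range X, (∑ a ∈ QQ d H, ∑ m ∈ (range X).erase n, if eqw F a l n m then (1 : ℝ) else 0) * (l : ℝ) ^ r ≤
      X * (C * (QQ d H).card) := by
    intro n hn
    rw [sum_comm, sum_mul]
    refine (sum_le_sum fun m hm => hone n hn m hm).trans ?_
    rw [sum_const, nsmul_eq_mul]
    apply mul_le_mul_of_nonneg_right _ (by positivity)
    have := card_le_card (erase_subset n (range X))
    rw [card_range] at this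
    exact_mod_cast this
  unfold co
  rw [sum_comm, sum_mul]
  refine (sum_le_sum fun n hn => hX2 n hn).trans ?_
  rw [sum_const, card_range, nsmul_eq_mul]
  apply le_of_eq
  ring

open Classical in
/-- the number of words from the number of pairs -/
lemma nw_low {d : ℕ} (F : ℤ → ℝ) (hF1 : ∀ v, v ≠ 0 → F v = 1 ∨ F v = -1) (a : Fin (d + 1) → ℤ) (l X : ℕ)
    (hnz : ∀ n : ℕ, 1 ≤ n → n ≤ X + l → ev a (n : ℤ) ≠ 0) :
    (X : ℝ) ^ 2 ≤ nw F a l X * (X + co F l X a) := by
  refine (nw_cs F a l X).trans ?_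
  apply mul_le_mul_of_nonneg_left _ (Nat.cast_nonneg _)
  have h1 : ∀ n ∈ range X, (((range X).filter (fun m => word F a l m = word F a l n)).card : ℝ) ≤
      1 + ∑ m ∈ (range X).erase n, if eqw F a l n m then (1 : ℝ) else 0 := by
    intro n hn
    have h2 : (range X).filter (fun m => word F a l m = word F a l n) ⊆
        insert n (((range X).erase n).filter (fun m => eqw F a l n m)) := by
      intro m hm
      rw [mem_filter] at hm
      rw [mem_insert]
      by_cases hmn : m = n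
      · exact Or.inl hmn
      · right
        rw [mem_filter, mem_erase]
        refine ⟨⟨hmn, hm.1⟩, fun j hj => ?_⟩
        have h3 : word F a l m ⟨j, hj⟩ = word F a l n ⟨j, hj⟩ := by rw [hm.2]
        unfold word at h3
        simp only at h3
        rw [h3]
        have hn' := mem_range.1 hn
        have h4 : ev a ((n : ℤ) + 1 + (j : ℕ)) ≠ 0 := by
          have h5 := hnz (n + 1 + j) (by omega) (by omega)
          push_cast at h5
          exact h5
        rcases hF1 _ h4 with h | h <;> rw [h] <;> norm_num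
    have h3 := (card_le_card h2).trans (card_insert_le _ _)
    have h4 : (((range X).filter (fun m => word F a l m = word F a l n)).card : ℝ) ≤
        ((((range X).erase n).filter (fun m => eqw F a l n m)).card : ℝ) + 1 := by exact_mod_cast h3
    rw [← sum_filter, sum_const, nsmul_eq_mul, mul_one]
    linarith
  refine (sum_le_sum h1).trans ?_
  rw [sum_add_distrib, sum_const, card_range, nsmul_eq_mul, mul_one]
  exact le_rfl

open Classical in
/-- block complexity -/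
theorem complexity (F : ℤ → ℝ) (hF : WinB F) (hF1 : ∀ v, v ≠ 0 → F v = 1 ∨ F v = -1) (hF0 : F 0 = 0) (d A r : ℕ)
    (hr1 : 1 ≤ r) (hr : 2 * r ≤ d) (ε : ℝ) (hε : 0 < ε) : ∃ η : ℝ, 0 < η ∧ ∃ H0 : ℕ, ∀ H : ℕ, H0 ≤ H →
    (((QQ d H).filter (fun a => ∃ l X : ℕ, 1 ≤ l ∧ (X : ℝ) ≤ Real.log H ^ A ∧
      (nw F a l X : ℝ) < min (X : ℝ) ((l : ℝ) ^ r) / Real.log H ^ ε)).card : ℝ) ≤ (QQ d H).card / Real.log H ^ η := by
  obtain ⟨C, hC0, H1, h1⟩ := co_mean F hF hF1 hF0 d A r hr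
  set κ := min ε 1 / 8 with hκ
  have hκ0 : 0 < κ := by rw [hκ]; positivity
  have hκε : 8 * κ ≤ ε := by rw [hκ]; linarith [min_le_left ε 1]
  have hκ1 : 8 * κ ≤ 1 := by rw [hκ]; linarith [min_le_right ε 1]
  obtain ⟨H2, h2⟩ := eventually_atTop.1 (ev_loglog κ hκ0 (2 * A + 2))
  obtain ⟨H3, h3⟩ := eventually_atTop.1 (ev_log (max 3 ((C + 2 ^ (r + 3) + 1) ^ (1 / κ))))
  obtain ⟨H4, h4⟩ := eventually_atTop.1 (ev_pow (A + 2) 3)
  refine ⟨κ, hκ0, max (max H1 H2) (max H3 H4), fun H hH => ?_⟩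
  have a1 := h1 H (((le_max_left _ _).trans (le_max_left _ _)).trans hH)
  have a2 := h2 H (((le_max_right _ _).trans (le_max_left _ _)).trans hH)
  have a3 := h3 H (((le_max_left _ _).trans (le_max_right _ _)).trans hH)
  have a4 := h4 H (((le_max_right _ _).trans (le_max_right _ _)).trans hH)
  set L := Real.log H with hL
  have hL3 : 3 ≤ L := (le_max_left _ _).trans a3
  have hL0 : 0 < L := by linarith
  have hL1 : 1 ≤ L := by linarith
  have hLA : 1 ≤ L ^ A := one_le_pow₀ hL1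
  set y := L ^ κ with hy
  have hy0 : 0 < y := Real.rpow_pos_of_pos hL0 _
  have hyK : C + 2 ^ (r + 3) + 1 ≤ y := by
    have h4 : (C + 2 ^ (r + 3) + 1) ^ (1 / κ) ≤ L := (le_max_right _ _).trans a3
    have h5 := Real.rpow_le_rpow (Real.rpow_nonneg (by positivity) _) h4 hκ0.le
    rwa [← Real.rpow_mul (by positivity), one_div, inv_mul_cancel₀ hκ0.ne', Real.rpow_one] at h5
  have hy8 : y ^ 8 = L ^ (8 * κ) := by
    rw [hy, ← Real.rpow_natCast, ← Real.rpow_mul hL0.le]
    congr 1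
    push_cast
    ring
  have hLε : y ^ 8 ≤ L ^ ε := by
    rw [hy8]
    exact Real.rpow_le_rpow_of_exponent_le hL1 hκε
  have hLL : y ^ 8 ≤ L := by
    rw [hy8]
    calc L ^ (8 * κ) ≤ L ^ (1 : ℝ) := Real.rpow_le_rpow_of_exponent_le hL1 hκ1
      _ = L := Real.rpow_one L
  have h2r : (0 : ℝ) < 2 ^ (r + 3) := by positivity
  have hy1 : 1 ≤ y := by linarith
  have hyC : C ≤ y := by linarith
  -- the grid
  set K := ⌊L ^ A⌋₊ with hK
  have hK1 : (K : ℝ) ≤ L ^ A := Nat.floor_le (by positivity)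
  have hKpos : 1 ≤ K := Nat.le_floor (by simpa using hLA)
  set I := range (Nat.log 2 K + 1) with hI
  have hIc : (I.card : ℝ) ≤ y := by
    rw [hI, card_range]
    have q1 : (2 : ℝ) ^ Nat.log 2 K ≤ L ^ A := by
      have : 2 ^ Nat.log 2 K ≤ K := Nat.pow_log_le_self 2 (by omega)
      calc (2 : ℝ) ^ Nat.log 2 K = ((2 ^ Nat.log 2 K : ℕ) : ℝ) := by push_cast; ring
        _ ≤ K := by exact_mod_cast this
        _ ≤ _ := hK1
    have q2 := Real.log_le_log (by positivity) q1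
    rw [Real.log_pow, Real.log_pow] at q2
    have q3 : (1 : ℝ) / 2 ≤ Real.log 2 := by
      have := Real.log_two_gt_d9
      linarith
    have q4 : (0 : ℝ) ≤ Nat.log 2 K := Nat.cast_nonneg _
    have q5 : 0 ≤ Real.log L := Real.log_nonneg hL1
    have q6 : (Nat.log 2 K : ℝ) ≤ 2 * (A * Real.log L) := by nlinarith
    have q7 : (0 : ℝ) ≤ A := Nat.cast_nonneg _
    push_cast
    nlinarith
  have hIpow : ∀ i ∈ I, ((2 ^ i : ℕ) : ℝ) ≤ L ^ A := by
    intro i hi
    rw [hI, mem_range] at hi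
    have : 2 ^ i ≤ K := (Nat.pow_le_pow_right (by norm_num) (by omega)).trans (Nat.pow_log_le_self 2 (by omega))
    exact le_trans (by exact_mod_cast this) hK1
  -- the exceptional sets
  set B : ℕ → ℕ → Finset (Fin (d + 1) → ℤ) := fun i j =>
    (QQ d H).filter (fun a => y ^ 5 * ((2 ^ j : ℕ) : ℝ) ^ 2 < co F (2 ^ i) (2 ^ j) a * ((2 ^ i : ℕ) : ℝ) ^ r) with hB
  set Z : Finset (Fin (d + 1) → ℤ) := (Icc 1 (2 * K)).biUnion (fun t : ℕ => (QQ d H).filter (fun a => ev a (t : ℤ) = 0)) with hZ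
  have hQpos : (0 : ℝ) < (QQ d H).card := by rw [card_QQ]; positivity
  have hBc : ∀ i ∈ I, ∀ j ∈ I, ((B i j).card : ℝ) ≤ (QQ d H).card / y ^ 4 := by
    intro i hi j hj
    have q1 := a1 (2 ^ i) (2 ^ j) (hIpow j hj) Nat.one_le_two_pow (hIpow i hi)
    set X := (((2 ^ j : ℕ) : ℝ)) with hX
    set l := (((2 ^ i : ℕ) : ℝ)) with hl
    have hX0 : 0 < X := by rw [hX]; positivity
    have hl0 : 0 < l := by rw [hl]; positivity
    have q2 : ((B i j).card : ℝ) * (y ^ 5 * X ^ 2) ≤ (∑ a ∈ QQ d H, co F (2 ^ i) (2 ^ j) a) * l ^ r := by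
      calc ((B i j).card : ℝ) * (y ^ 5 * X ^ 2) = ∑ _a ∈ B i j, y ^ 5 * X ^ 2 := by rw [sum_const, nsmul_eq_mul]
        _ ≤ ∑ a ∈ B i j, co F (2 ^ i) (2 ^ j) a * l ^ r := sum_le_sum fun a ha => (mem_filter.1 ha).2.le
        _ ≤ ∑ a ∈ QQ d H, co F (2 ^ i) (2 ^ j) a * l ^ r :=
            sum_le_sum_of_subset_of_nonneg (filter_subset _ _) fun a _ _ => mul_nonneg (co_nonneg _ _ _ _) (by positivity)
        _ = _ := by rw [sum_mul]
    have q3 : ((B i j).card : ℝ) * y ^ 5 ≤ C * (QQ d H).card := by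
      have : ((B i j).card : ℝ) * y ^ 5 * X ^ 2 ≤ C * (QQ d H).card * X ^ 2 := by
        calc ((B i j).card : ℝ) * y ^ 5 * X ^ 2 = ((B i j).card : ℝ) * (y ^ 5 * X ^ 2) := by ring
          _ ≤ _ := q2.trans q1
      exact le_of_mul_le_mul_right this (by positivity)
    rw [le_div_iff₀ (by positivity)]
    have q4 : C * (QQ d H).card ≤ y * (QQ d H).card := mul_le_mul_of_nonneg_right hyC hQpos.le
    have q5 : (((B i j).card : ℝ) * y ^ 4) * y ≤ (QQ d H).card * y := by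
      calc (((B i j).card : ℝ) * y ^ 4) * y = ((B i j).card : ℝ) * y ^ 5 := by ring
        _ ≤ _ := q3.trans (q4.trans (le_of_eq (mul_comm _ _)))
    exact le_of_mul_le_mul_right q5 hy0
  have hZc : (Z.card : ℝ) ≤ (QQ d H).card / y ^ 4 := by
    have q1 : (Z.card : ℝ) ≤ 2 * K * (2 * H + 1 : ℝ) ^ d := by
      have q2 : (Z.card : ℝ) ≤ ∑ t ∈ Icc 1 (2 * K), (((QQ d H).filter (fun a => ev a ((t : ℕ) : ℤ) = 0)).card : ℝ) := by
        rw [hZ]
        exact_mod_cast card_biUnion_le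
      have q3 : ∀ t ∈ Icc 1 (2 * K), (((QQ d H).filter (fun a => ev a ((t : ℕ) : ℤ) = 0)).card : ℝ) ≤ (2 * H + 1 : ℝ) ^ d :=
        fun t _ => zero_card d H ((t : ℕ) : ℤ)
      refine q2.trans ((sum_le_sum q3).trans ?_)
      rw [sum_const, Nat.card_Icc, nsmul_eq_mul]
      push_cast
      simp
    rw [le_div_iff₀ (by positivity)]
    have q3 : y ^ 4 ≤ L := (pow_le_pow_right₀ hy1 (by norm_num)).trans hLL
    have q4 : (0 : ℝ) ≤ (2 * H + 1 : ℝ) ^ d := by positivity
    have q5 : 2 * (K : ℝ) * L ≤ 2 * H + 1 := by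
      have q6 : (K : ℝ) * L ≤ L ^ (A + 1) := by
        calc (K : ℝ) * L ≤ L ^ A * L := mul_le_mul_of_nonneg_right hK1 hL0.le
          _ = _ := by ring
      have q7 : L ^ (A + 1) ≤ L ^ (A + 2) := pow_le_pow_right₀ hL1 (by omega)
      have q8 : (0 : ℝ) ≤ L ^ (A + 2) := by positivity
      linarith
    calc (Z.card : ℝ) * y ^ 4 ≤ (2 * K * (2 * H + 1 : ℝ) ^ d) * L := mul_le_mul q1 q3 (by positivity) (by positivity)
      _ = (2 * (K : ℝ) * L) * (2 * H + 1 : ℝ) ^ d := by ring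
      _ ≤ (2 * H + 1) * (2 * H + 1 : ℝ) ^ d := mul_le_mul_of_nonneg_right q5 q4
      _ = (QQ d H).card := by rw [card_QQ]; push_cast; ring
  -- the union of the exceptional sets
  set Bad := Z ∪ (I ×ˢ I).biUnion (fun p => B p.1 p.2) with hBad
  have hBadc : (Bad.card : ℝ) ≤ (QQ d H).card / y := by
    have q1 : (Bad.card : ℝ) ≤ Z.card + ∑ p ∈ I ×ˢ I, ((B p.1 p.2).card : ℝ) := by
      have q2 := card_union_le Z ((I ×ˢ I).biUnion (fun p => B p.1 p.2))
      have q3 := card_biUnion_le (s := I ×ˢ I) (t := fun p => B p.1 p.2)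
      have q4 : (Bad.card : ℝ) ≤ ((Z.card + ∑ p ∈ I ×ˢ I, (B p.1 p.2).card : ℕ) : ℝ) := by
        exact_mod_cast q2.trans (Nat.add_le_add_left q3 _)
      push_cast at q4
      exact q4
    have q5 : ∑ p ∈ I ×ˢ I, ((B p.1 p.2).card : ℝ) ≤ y ^ 2 * ((QQ d H).card / y ^ 4) := by
      calc ∑ p ∈ I ×ˢ I, ((B p.1 p.2).card : ℝ) ≤ ∑ _p ∈ I ×ˢ I, (QQ d H).card / y ^ 4 := by
            refine sum_le_sum fun p hp => ?_
            rw [mem_product] at hp
            exact hBc p.1 hp.1 p.2 hp.2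
        _ = (I.card : ℝ) * I.card * ((QQ d H).card / y ^ 4) := by
            rw [sum_const, card_product, nsmul_eq_mul]
            push_cast
            ring
        _ ≤ y ^ 2 * ((QQ d H).card / y ^ 4) := by
            apply mul_le_mul_of_nonneg_right _ (by positivity)
            rw [sq]
            exact mul_le_mul hIc hIc (Nat.cast_nonneg _) hy0.le
    have q6 : y ^ 2 * ((QQ d H).card / y ^ 4) = (QQ d H).card / y ^ 2 := by
      field_simp
    have hy8' : (8 : ℝ) ≤ y := by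
      have : (2 : ℝ) ^ 3 ≤ 2 ^ (r + 3) := pow_le_pow_right₀ (by norm_num) (by omega)
      linarith
    have q7 : ((QQ d H).card : ℝ) / y ^ 4 ≤ (QQ d H).card / y ^ 2 := by
      apply div_le_div_of_nonneg_left hQpos.le (by positivity)
      exact pow_le_pow_right₀ hy1 (by norm_num)
    have q8 : ((QQ d H).card : ℝ) / y ^ 2 + (QQ d H).card / y ^ 2 ≤ (QQ d H).card / y := by
      rw [← add_div, div_le_div_iff₀ (by positivity) hy0]
      nlinarith [mul_pos hQpos hy0]
    linarith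
  have hsub : (QQ d H).filter (fun a => ∃ l X : ℕ, 1 ≤ l ∧ (X : ℝ) ≤ L ^ A ∧
      (nw F a l X : ℝ) < min (X : ℝ) ((l : ℝ) ^ r) / L ^ ε) ⊆ Bad := by
    intro a ha
    rw [mem_filter] at ha
    obtain ⟨haQ, l, X, hl, hX, hlt⟩ := ha
    by_contra hbad
    rw [hBad, mem_union, not_or] at hbad
    obtain ⟨hz, hb⟩ := hbad
    apply absurd hlt
    rw [not_lt]
    have hXK : X ≤ K := Nat.le_floor hX
    rcases Nat.eq_zero_or_pos X with hX0 | hX0
    · rw [hX0]
      have : min ((0 : ℕ) : ℝ) ((l : ℝ) ^ r) ≤ 0 := by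
        push_cast
        exact min_le_left _ _
      calc min ((0 : ℕ) : ℝ) ((l : ℝ) ^ r) / L ^ ε ≤ 0 := div_nonpos_of_nonpos_of_nonneg this (by positivity)
        _ ≤ _ := Nat.cast_nonneg _
    -- the grid points
    set l0 := min l K with hl0
    have hl01 : 1 ≤ l0 := le_min hl hKpos
    set i := Nat.log 2 l0 with hi
    set j := Nat.log 2 X with hj
    have hiI : i ∈ I := by
      rw [hI, mem_range]
      exact Nat.lt_succ_of_le (Nat.log_mono_right (min_le_right l K))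
    have hjI : j ∈ I := by
      rw [hI, mem_range]
      exact Nat.lt_succ_of_le (Nat.log_mono_right hXK)
    have hil : 2 ^ i ≤ l0 := Nat.pow_log_le_self 2 (by omega)
    have hil' : l0 < 2 ^ (i + 1) := Nat.lt_pow_succ_log_self (by norm_num) _
    have hjX : 2 ^ j ≤ X := Nat.pow_log_le_self 2 (by omega)
    have hjX' : X < 2 ^ (j + 1) := Nat.lt_pow_succ_log_self (by norm_num) _
    have hnz : ∀ n : ℕ, 1 ≤ n → n ≤ 2 ^ j + 2 ^ i → ev a (n : ℤ) ≠ 0 := by
      intro n hn1 hn2 hn0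
      apply hz
      rw [hZ, mem_biUnion]
      refine ⟨n, ?_, mem_filter.2 ⟨haQ, hn0⟩⟩
      rw [mem_Icc]
      have h6 : 2 ^ i ≤ K := hil.trans (min_le_right _ _)
      have h7 : 2 ^ j ≤ K := hjX.trans hXK
      refine ⟨hn1, hn2.trans ?_⟩
      rw [two_mul]
      exact Nat.add_le_add h7 h6
    have hco : co F (2 ^ i) (2 ^ j) a * ((2 ^ i : ℕ) : ℝ) ^ r ≤ y ^ 5 * ((2 ^ j : ℕ) : ℝ) ^ 2 := by
      by_contra hcon
      apply hb
      rw [mem_biUnion]
      exact ⟨(i, j), mem_product.2 ⟨hiI, hjI⟩, mem_filter.2 ⟨haQ, not_le.1 hcon⟩⟩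
    have hlow := nw_low F hF1 a (2 ^ i) (2 ^ j) hnz
    have hmono : nw F a (2 ^ i) (2 ^ j) ≤ nw F a l X :=
      (nw_mono_X F a (2 ^ i) X (2 ^ j) hjX).trans (nw_mono_l F a l (2 ^ i) X (hil.trans (min_le_left _ _)))
    set x : ℝ := ((2 ^ j : ℕ) : ℝ) with hx
    set w : ℝ := ((2 ^ i : ℕ) : ℝ) with hw
    have hx0 : 1 ≤ x := by rw [hx]; exact_mod_cast Nat.one_le_two_pow
    have hw0 : 1 ≤ w := by rw [hw]; exact_mod_cast Nat.one_le_two_pow
    have hwr : 1 ≤ w ^ r := one_le_pow₀ hw0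
    have hn0 : (0 : ℝ) ≤ nw F a (2 ^ i) (2 ^ j) := Nat.cast_nonneg _
    set n0 : ℝ := (nw F a (2 ^ i) (2 ^ j) : ℝ) with hn0d
    -- x ^ 2 w ^ r ≤ n0 (x w ^ r + y ^ 5 x ^ 2)
    have hA : x * w ^ r ≤ n0 * (w ^ r + y ^ 5 * x) := by
      have q1 : x ^ 2 * w ^ r ≤ n0 * (x + co F (2 ^ i) (2 ^ j) a) * w ^ r := mul_le_mul_of_nonneg_right hlow (by positivity)
      have q2 : n0 * (x + co F (2 ^ i) (2 ^ j) a) * w ^ r ≤ n0 * (x * w ^ r + y ^ 5 * x ^ 2) := by
        have : n0 * (x + co F (2 ^ i) (2 ^ j) a) * w ^ r = n0 * (x * w ^ r + co F (2 ^ i) (2 ^ j) a * w ^ r) := by ring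
        rw [this]
        apply mul_le_mul_of_nonneg_left _ hn0
        linarith
      have q3 : (x * w ^ r) * x ≤ (n0 * (w ^ r + y ^ 5 * x)) * x := by
        calc (x * w ^ r) * x = x ^ 2 * w ^ r := by ring
          _ ≤ _ := q1.trans q2
          _ = _ := by ring
      exact le_of_mul_le_mul_right q3 (by linarith)
    -- min x (w ^ r) ≤ 2 y ^ 5 n0
    have hB' : min x (w ^ r) ≤ 2 * y ^ 5 * n0 := by
      have hy5 : 1 ≤ y ^ 5 := one_le_pow₀ hy1
      rcases le_total x (w ^ r) with h | h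
      · rw [min_eq_left h]
        have q1 : n0 * (w ^ r + y ^ 5 * x) ≤ n0 * (2 * y ^ 5 * w ^ r) := by
          apply mul_le_mul_of_nonneg_left _ hn0
          have q2 : y ^ 5 * x ≤ y ^ 5 * w ^ r := mul_le_mul_of_nonneg_left h (by linarith)
          have q3 : w ^ r ≤ y ^ 5 * w ^ r := le_mul_of_one_le_left (by linarith) hy5
          linarith
        have q2 : x * w ^ r ≤ (2 * y ^ 5 * n0) * w ^ r := by
          calc x * w ^ r ≤ n0 * (2 * y ^ 5 * w ^ r) := hA.trans q1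
            _ = _ := by ring
        exact le_of_mul_le_mul_right q2 (by linarith)
      · rw [min_eq_right h]
        have q1 : n0 * (w ^ r + y ^ 5 * x) ≤ n0 * (2 * y ^ 5 * x) := by
          apply mul_le_mul_of_nonneg_left _ hn0
          have q3 : x ≤ y ^ 5 * x := le_mul_of_one_le_left (by linarith) hy5
          linarith
        have q2 : w ^ r * x ≤ (2 * y ^ 5 * n0) * x := by
          calc w ^ r * x = x * w ^ r := by ring
            _ ≤ n0 * (2 * y ^ 5 * x) := hA.trans q1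
            _ = _ := by ring
        exact le_of_mul_le_mul_right q2 (by linarith)
    -- min X (l ^ r) ≤ 2 ^ (r + 1) min x (w ^ r)
    have hXx : (X : ℝ) ≤ 2 * x := by
      have : X ≤ 2 * 2 ^ j := by rw [← pow_succ']; exact hjX'.le
      rw [hx]
      exact_mod_cast this
    have hl0w : (l0 : ℝ) ≤ 2 * w := by
      have : l0 ≤ 2 * 2 ^ i := by rw [← pow_succ']; exact hil'.le
      rw [hw]
      exact_mod_cast this
    have hC' : min (X : ℝ) ((l : ℝ) ^ r) ≤ 2 ^ r * (2 * min x (w ^ r)) := by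
      have h2r1 : (1 : ℝ) ≤ 2 ^ r := one_le_pow₀ (by norm_num)
      rcases le_total x (w ^ r) with h | h
      · rw [min_eq_left h]
        calc min (X : ℝ) ((l : ℝ) ^ r) ≤ X := min_le_left _ _
          _ ≤ 1 * (2 * x) := by linarith
          _ ≤ 2 ^ r * (2 * x) := mul_le_mul_of_nonneg_right h2r1 (by linarith)
      · rw [min_eq_right h]
        have q1 : (l0 : ℝ) ^ r ≤ 2 ^ r * w ^ r := by
          rw [← mul_pow]
          exact pow_le_pow_left₀ (Nat.cast_nonneg _) hl0w r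
        have q2 : min (X : ℝ) ((l : ℝ) ^ r) ≤ (l0 : ℝ) ^ r := by
          rcases le_total l K with h5 | h5
          · have : l0 = l := min_eq_left h5
            rw [this]
            exact min_le_right _ _
          · have : l0 = K := min_eq_right h5
            rw [this]
            calc min (X : ℝ) ((l : ℝ) ^ r) ≤ X := min_le_left _ _
              _ ≤ K := by exact_mod_cast hXK
              _ = (K : ℝ) ^ 1 := by rw [pow_one]
              _ ≤ (K : ℝ) ^ r := pow_le_pow_right₀ (by exact_mod_cast hKpos) hr1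
        have q3 : 0 ≤ 2 ^ r * w ^ r := by positivity
        calc min (X : ℝ) ((l : ℝ) ^ r) ≤ 2 ^ r * w ^ r := q2.trans q1
          _ ≤ 2 ^ r * (2 * w ^ r) := by nlinarith
    rw [div_le_iff₀ (by positivity)]
    have hmono' : n0 ≤ (nw F a l X : ℝ) := by
      rw [hn0d]
      exact Nat.cast_le.2 hmono
    have hy6 : 2 ^ (r + 2) * y ^ 5 ≤ L ^ ε := by
      have q1 : (2 : ℝ) ^ (r + 2) ≤ 2 ^ (r + 3) := pow_le_pow_right₀ (by norm_num) (by omega)
      calc (2 : ℝ) ^ (r + 2) * y ^ 5 ≤ y * y ^ 5 := mul_le_mul_of_nonneg_right (by linarith) (by positivity)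
        _ = y ^ 6 := by ring
        _ ≤ y ^ 8 := pow_le_pow_right₀ hy1 (by norm_num)
        _ ≤ L ^ ε := hLε
    calc min (X : ℝ) ((l : ℝ) ^ r) ≤ 2 ^ r * (2 * (2 * y ^ 5 * n0)) :=
          hC'.trans (mul_le_mul_of_nonneg_left (mul_le_mul_of_nonneg_left hB' (by norm_num)) (by positivity))
      _ = (2 ^ (r + 2) * y ^ 5) * n0 := by ring
      _ ≤ L ^ ε * n0 := mul_le_mul_of_nonneg_right hy6 hn0
      _ ≤ L ^ ε * (nw F a l X : ℝ) := mul_le_mul_of_nonneg_left hmono' (by positivity)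
      _ = _ := mul_comm _ _
  calc _ ≤ (Bad.card : ℝ) := by exact_mod_cast card_le_card hsub
    _ ≤ _ := hBadc

end Pool.Agent.TP975.LR
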