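import Mathlib
import Pool.Agent.TP975.LR.Lo1

/-!
The variance over the classes of all large moduli at once.
-/

set_option autoImplicit false

namespace Pool.Agent.TP975.LR

open Finset Filter
open Pool.Agent.H807R2.Dav
open Pool.Agent.TP975.RP

/-- the class of `b` mod `Q` in `[1, X]` -/
noncomputable def Tc (X Q b : ℕ) : Finset ℤ := ((Icc 1 X).filter (fun n => n % Q = b)).image (fun n : ℕ => (n : ℤ))

lemma Tc_card (X Q b : ℕ) : (Tc X Q b).card = ((Icc 1 X).filter (fun n => n % Q = b)).card := by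
  unfold Tc
  exact card_image_of_injective _ (fun a b h => Int.ofNat_inj.1 h)

lemma Tc_card_le (X Q b : ℕ) : (Tc X Q b).card ≤ X / Q + 1 := by
  rw [Tc_card]
  calc ((Icc 1 X).filter (fun n => n % Q = b)).card ≤ (range (X / Q + 1)).card := by
        apply card_le_card_of_injOn (fun n => n / Q)
        · intro n hn
          have hn' := mem_filter.1 (mem_coe.1 hn)
          rw [mem_Icc] at hn'
          have h3 : n / Q ≤ X / Q := Nat.div_le_div_right (c := Q) hn'.1.2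
          show n / Q ∈ (range (X / Q + 1) : Set ℕ)
          exact mem_coe.2 (mem_range.2 (by omega))
        · intro n hn n' hn' h
          have h1 := (mem_filter.1 (mem_coe.1 hn)).2
          have h2 := (mem_filter.1 (mem_coe.1 hn')).2
          have h3 : n / Q = n' / Q := h
          rw [← Nat.div_add_mod n Q, ← Nat.div_add_mod n' Q, h1, h2, h3]
    _ = _ := card_range _

lemma Tc_sum (X Q : ℕ) (hQ : 1 ≤ Q) : ∑ b ∈ range Q, (Tc X Q b).card = X := by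
  have h := card_eq_sum_card_fiberwise (s := Icc 1 X) (t := range Q) (f := fun n => n % Q) (fun n _ =>
    mem_coe.2 (mem_range.2 (Nat.mod_lt _ (by omega))))
  rw [Nat.card_Icc, Nat.add_sub_cancel] at h
  refine Eq.trans ?_ h.symm
  refine sum_congr rfl fun b _ => ?_
  rw [Tc_card]

lemma Tc_disj (X Q b b' : ℕ) (h : b ≠ b') : Disjoint (Tc X Q b) (Tc X Q b') := by
  rw [Finset.disjoint_left]
  intro t ht ht'
  obtain ⟨n, hn, rfl⟩ := mem_image.1 ht
  obtain ⟨n', hn', h3⟩ := mem_image.1 ht'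
  have h4 : n' = n := Int.ofNat_inj.1 h3
  rw [h4] at hn'
  exact h ((mem_filter.1 hn).2.symm.trans (mem_filter.1 hn').2)

theorem event_V (m : ℕ) : ∃ C : ℝ, 1 ≤ C ∧ ∀ (d H A : ℕ) (G : (Fin (d + 1) → ℤ) → ℤ → ℝ), 3 ≤ Real.log H →
    MixG d H A (4 * m) G (1 / Real.log H ^ ((3 * A + 1) * (2 * m))) →
    ∀ X Q : ℕ, 1 ≤ Q → Q ≤ X → (X : ℝ) ≤ Real.log H ^ A → ∀ R : ℝ, 0 < R →
    (((QQ d H).filter (fun a => R < (∑ b ∈ range Q, SG G (Tc X Q b) a ^ 2 - X) ^ (2 * m))).card : ℝ) ≤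
      (QQ d H).card * (C * ((X : ℝ) ^ (2 * m) / (Q : ℝ) ^ m) / R) := by
  classical
  obtain ⟨C0, hC0, hC⟩ := indep_bound (2 * m)
  refine ⟨C0 * 8 ^ m + 1, by linarith [show 0 ≤ C0 * 8 ^ m by positivity], fun d H A G hL3 hG X Q hQ hQX hX R hR => ?_⟩
  set L := Real.log H with hL
  have hL0 : 0 < L := by linarith
  have hL1 : 1 ≤ L := by linarith
  have hQ1 : (1 : ℝ) ≤ Q := by exact_mod_cast hQ
  have hQX' : (Q : ℝ) ≤ X := by exact_mod_cast hQX
  have hX1 : (1 : ℝ) ≤ X := hQ1.trans hQX'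
  have hQ0 : (0 : ℝ) < Q := by linarith
  set P : Finset ℤ := (Icc 1 X).image (fun n : ℕ => (n : ℤ)) with hP
  have hPc : P.card = X := by
    rw [hP, card_image_of_injective _ (fun a b h => Int.ofNat_inj.1 h), Nat.card_Icc, Nat.add_sub_cancel]
  have hPb : ∀ t ∈ P, |(t : ℝ)| ≤ L ^ A := by
    intro t ht
    obtain ⟨n, hn, rfl⟩ := mem_image.1 ht
    rw [mem_Icc] at hn
    rw [Int.cast_natCast, abs_of_nonneg (Nat.cast_nonneg _)]
    exact le_trans (by exact_mod_cast hn.2) hX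
  have hTP : ∀ b, Tc X Q b ⊆ P := fun b => image_subset_image (filter_subset _ _)
  have h1 := transfer_var d H A (4 * m) G _ hG P hPb (fun b => Tc X Q b) hTP Q (2 * m) (by omega) X (by linarith)
  have e1 : (fun s : P → Bool => (∑ b ∈ range Q, RS P (Tc X Q b) s ^ 2 - (X : ℝ)) ^ (2 * m)) =
      fun s => (∑ b ∈ range Q, YS P (Tc X Q b) s) ^ (2 * m) := by
    funext s
    unfold YS
    rw [sum_sub_distrib, ← Nat.cast_sum, Tc_sum X Q hQ]
  set N : ℝ := (X : ℝ) / Q + 1 with hN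
  have hXQ : (1 : ℝ) ≤ (X : ℝ) / Q := by rw [le_div_iff₀ hQ0]; linarith
  have hN1 : 1 ≤ N := by rw [hN]; linarith
  have h2 := hC P (fun b => Tc X Q b) N hN1 hTP (fun b => by
    have q1 : ((Tc X Q b).card : ℝ) ≤ ((X / Q + 1 : ℕ) : ℝ) := by exact_mod_cast Tc_card_le X Q b
    refine q1.trans ?_
    push_cast
    have := Nat.cast_div_le (α := ℝ) (m := X) (n := Q)
    linarith) (fun b b' h => Tc_disj X Q b b' h) Q
  rw [e1] at h1
  have hb : 1 ≤ (X : ℝ) ^ (2 * m) / (Q : ℝ) ^ m := by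
    rw [le_div_iff₀ (by positivity), one_mul, pow_mul]
    apply pow_le_pow_left₀ hQ0.le
    nlinarith
  have h3 : C0 * N ^ (2 * m) * ((Q : ℝ) + 1) ^ (2 * m / 2) ≤ C0 * 8 ^ m * ((X : ℝ) ^ (2 * m) / (Q : ℝ) ^ m) := by
    have e : 2 * m / 2 = m := by omega
    rw [e]
    have q1 : N ^ (2 * m) ≤ (2 * ((X : ℝ) / Q)) ^ (2 * m) := pow_le_pow_left₀ (by linarith) (by rw [hN]; linarith) _
    have q2 : ((Q : ℝ) + 1) ^ m ≤ (2 * (Q : ℝ)) ^ m := pow_le_pow_left₀ (by linarith) (by linarith) _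
    calc C0 * N ^ (2 * m) * ((Q : ℝ) + 1) ^ m ≤ C0 * (2 * ((X : ℝ) / Q)) ^ (2 * m) * (2 * (Q : ℝ)) ^ m := by
          apply mul_le_mul (mul_le_mul_of_nonneg_left q1 hC0) q2 (by positivity) (by positivity)
      _ = _ := by
          rw [mul_pow, mul_pow, div_pow, pow_mul (2 : ℝ) 2 m, pow_mul (Q : ℝ) 2 m]
          have e8 : (8 : ℝ) ^ m = (2 ^ 2) ^ m * 2 ^ m := by rw [← mul_pow]; norm_num
          rw [e8, pow_two (Q : ℝ), mul_pow (Q : ℝ)]
          field_simp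
  have h4 : ((Q : ℝ) * (P.card : ℝ) ^ 2 + X) ^ (2 * m) * (1 / L ^ ((3 * A + 1) * (2 * m))) ≤ 1 := by
    rw [hPc, pow_mul L, mul_one_div, ← div_pow]
    apply pow_le_one₀ (by positivity)
    rw [div_le_one (by positivity)]
    calc (Q : ℝ) * (X : ℝ) ^ 2 + X ≤ X * (X : ℝ) ^ 2 + X * (X : ℝ) ^ 2 := by
          have : (X : ℝ) * 1 ≤ X * (X : ℝ) ^ 2 := mul_le_mul_of_nonneg_left (one_le_pow₀ hX1) (by linarith)
          have : (Q : ℝ) * (X : ℝ) ^ 2 ≤ X * (X : ℝ) ^ 2 := mul_le_mul_of_nonneg_right hQX' (by positivity)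
          linarith
      _ = 2 * (X : ℝ) ^ 3 := by ring
      _ ≤ L * (L ^ A) ^ 3 := by
          apply mul_le_mul (by linarith) (pow_le_pow_left₀ (by linarith) hX 3) (by positivity) (by positivity)
      _ = L ^ (3 * A + 1) := by rw [← pow_mul, pow_succ']; congr 2; ring
  have hEQ : EQ d H (fun a => (∑ b ∈ range Q, SG G (Tc X Q b) a ^ 2 - (X : ℝ)) ^ (2 * m)) ≤
      (C0 * 8 ^ m + 1) * ((X : ℝ) ^ (2 * m) / (Q : ℝ) ^ m) := by
    have q1 := (abs_le.1 (h1.trans h4)).2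
    have q2 := le_abs_self (ES P (fun s => (∑ b ∈ range Q, YS P (Tc X Q b) s) ^ (2 * m)))
    have q3 := h2.trans h3
    nlinarith
  have hQpos : (0 : ℝ) < (QQ d H).card := by rw [card_QQ]; positivity
  set V : (Fin (d + 1) → ℤ) → ℝ := fun a => ∑ b ∈ range Q, SG G (Tc X Q b) a ^ 2 - (X : ℝ) with hV
  set S := (QQ d H).filter (fun a => R < (V a) ^ (2 * m)) with hS
  have e2 : ((QQ d H).card : ℝ) * EQ d H (fun a => V a ^ (2 * m)) = ∑ a ∈ QQ d H, V a ^ (2 * m) := by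
    unfold EQ
    field_simp
  have h5 : (S.card : ℝ) * R ≤ (QQ d H).card * EQ d H (fun a => V a ^ (2 * m)) := by
    rw [e2]
    calc (S.card : ℝ) * R = ∑ _a ∈ S, R := by rw [sum_const, nsmul_eq_mul]
      _ ≤ ∑ a ∈ S, V a ^ (2 * m) := sum_le_sum fun a ha => (mem_filter.1 ha).2.le
      _ ≤ _ := sum_le_sum_of_subset_of_nonneg (filter_subset _ _) fun a _ _ => (even_two_mul m).pow_nonneg _
  rw [mul_div_assoc', le_div_iff₀ hR]
  exact h5.trans (mul_le_mul_of_nonneg_left hEQ hQpos.le)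

open Classical in
/-- the exceptional polynomials of one pair -/
noncomputable def EvV (d H m : ℕ) (G : (Fin (d + 1) → ℤ) → ℤ → ℝ) (Le Lη : ℝ) (X Q : ℕ) : Finset (Fin (d + 1) → ℤ) :=
  if (X : ℝ) * Le ≤ (Q : ℝ) ^ (m - 1) ∧ Q ≤ X then
    (QQ d H).filter (fun a => ((X : ℝ) / Lη) ^ (2 * m) < (∑ b ∈ range Q, SG G (Tc X Q b) a ^ 2 - X) ^ (2 * m))
  else ∅

theorem var_all (m A : ℕ) (hm : 1 ≤ m) (ε : ℝ) (hε : 0 < ε) : ∃ η : ℝ, 0 < η ∧ ∃ H0 : ℕ, ∀ H : ℕ, H0 ≤ H →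
    ∀ (d : ℕ) (G : (Fin (d + 1) → ℤ) → ℤ → ℝ), MixG d H A (4 * m) G (1 / Real.log H ^ ((3 * A + 1) * (2 * m))) →
    ∃ Bad ⊆ QQ d H, (Bad.card : ℝ) ≤ (QQ d H).card / Real.log H ^ η ∧
    ∀ a ∈ QQ d H, a ∉ Bad → ∀ X Q : ℕ, 1 ≤ Q → Q ≤ X → (X : ℝ) ≤ Real.log H ^ A →
    (X : ℝ) * Real.log H ^ ε ≤ (Q : ℝ) ^ (m - 1) →
    |∑ b ∈ range Q, SG G (Tc X Q b) a ^ 2 - X| ≤ X / Real.log H ^ η := by
  classical
  obtain ⟨C, hC, h1⟩ := event_V m
  have hm0 : (1 : ℝ) ≤ m := by exact_mod_cast hm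
  set η : ℝ := ε / (8 * m) with hη
  have hη0 : 0 < η := by positivity
  have hηε : η ≤ ε / 8 := by
    rw [hη, div_le_div_iff₀ (by positivity) (by norm_num)]
    nlinarith
  obtain ⟨H1, hH1⟩ := eventually_atTop.1 (ev_loglog (ε / 16) (by positivity) ((A : ℝ) + 1))
  obtain ⟨H2, hH2⟩ := eventually_atTop.1 (ev_rpow (ε / 16) (by positivity) C)
  obtain ⟨H3, hH3⟩ := eventually_atTop.1 (ev_log 3)
  refine ⟨η, hη0, max H1 (max H2 H3), fun H hH d G hG => ?_⟩
  have a1 := hH1 H ((le_max_left _ _).trans hH)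
  have a2 := hH2 H (((le_max_left _ _).trans (le_max_right _ _)).trans hH)
  have a3 := hH3 H (((le_max_right _ _).trans (le_max_right _ _)).trans hH)
  have h2 := h1 d H A G a3 hG
  set L := Real.log H with hL
  have hL0 : 0 < L := by linarith
  have hL1 : 1 ≤ L := by linarith
  set X0 := ⌊L ^ A⌋₊ with hX0
  have hX0r : (X0 : ℝ) ≤ L ^ A := Nat.floor_le (by positivity)
  have hX01 : 1 ≤ X0 := Nat.one_le_floor_iff _ |>.2 (one_le_pow₀ hL1)
  set LL := Real.log L with hLL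
  have hLL0 : 0 ≤ LL := Real.log_nonneg hL1
  set T : ℝ := ((A : ℝ) + 1) * (1 + LL) with hT
  have hT0 : 0 ≤ T := by positivity
  have hhar : ∑ q ∈ Icc 1 X0, (1 / (q : ℝ)) ≤ T := by
    refine (sum_inv_le X0).trans ?_
    have q1 : Real.log X0 ≤ A * LL := by
      rw [hLL, ← Real.log_pow]
      exact Real.log_le_log (by exact_mod_cast hX01) hX0r
    have hA0 : (0 : ℝ) ≤ A := Nat.cast_nonneg _
    rw [hT]
    nlinarith
  set D : ℝ := C * (L ^ η) ^ (2 * m) / L ^ ε with hD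
  have hD0 : 0 ≤ D := by positivity
  have hQc0 : (0 : ℝ) ≤ (QQ d H).card := Nat.cast_nonneg _
  refine ⟨(Icc 1 X0).biUnion (fun X => (Icc 1 X0).biUnion (fun Q => EvV d H m G (L ^ ε) (L ^ η) X Q)), ?_, ?_, ?_⟩
  · intro a ha
    obtain ⟨X, _, ha⟩ := mem_biUnion.1 ha
    obtain ⟨Q, _, ha⟩ := mem_biUnion.1 ha
    unfold EvV at ha
    split_ifs at ha
    · exact (mem_filter.1 ha).1
    · exact absurd ha (notMem_empty _)
  · have hone : ∀ X ∈ Icc 1 X0, ∀ Q ∈ Icc 1 X0, ((EvV d H m G (L ^ ε) (L ^ η) X Q).card : ℝ) ≤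
        ((QQ d H).card * D * (1 / (X : ℝ))) * (1 / (Q : ℝ)) := by
      intro X hX Q hQ
      rw [mem_Icc] at hX hQ
      have hX1 : (1 : ℝ) ≤ X := by exact_mod_cast hX.1
      have hQ1 : (1 : ℝ) ≤ Q := by exact_mod_cast hQ.1
      have hXp : (0 : ℝ) < X := by linarith
      have hQp : (0 : ℝ) < Q := by linarith
      unfold EvV
      split_ifs with hc
      swap
      · rw [card_empty, Nat.cast_zero]
        positivity
      have hR : 0 < ((X : ℝ) / L ^ η) ^ (2 * m) := by positivity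
      refine (h2 X Q hQ.1 hc.2 (le_trans (by exact_mod_cast hX.2) hX0r) _ hR).trans ?_
      rw [mul_assoc ((QQ d H).card : ℝ), mul_assoc ((QQ d H).card : ℝ)]
      apply mul_le_mul_of_nonneg_left _ hQc0
      have e1 : C * ((X : ℝ) ^ (2 * m) / (Q : ℝ) ^ m) / ((X : ℝ) / L ^ η) ^ (2 * m) = C * (L ^ η) ^ (2 * m) / (Q : ℝ) ^ m := by
        rw [div_pow]
        field_simp
      have e2 : D * (1 / (X : ℝ)) * (1 / (Q : ℝ)) = C * (L ^ η) ^ (2 * m) / ((Q : ℝ) * (X * L ^ ε)) := by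
        rw [hD]
        field_simp
      rw [e1, e2]
      apply div_le_div_of_nonneg_left (by positivity) (by positivity)
      have e3 : (Q : ℝ) ^ m = Q * (Q : ℝ) ^ (m - 1) := by
        rw [← pow_succ']; congr 1; omega
      rw [e3]
      exact mul_le_mul_of_nonneg_left hc.1 hQp.le
    have hB : (((Icc 1 X0).biUnion (fun X => (Icc 1 X0).biUnion (fun Q => EvV d H m G (L ^ ε) (L ^ η) X Q))).card : ℝ) ≤
        ∑ X ∈ Icc 1 X0, ((QQ d H).card * D * T) * (1 / (X : ℝ)) := by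
      refine card_bU _ _ _ (fun X hX => ?_)
      refine (card_bU (Icc 1 X0) _ (fun Q => ((QQ d H).card * D * (1 / (X : ℝ))) * (1 / (Q : ℝ))) (fun Q hQ => hone X hX Q hQ)).trans ?_
      rw [← mul_sum]
      calc ((QQ d H).card : ℝ) * D * (1 / (X : ℝ)) * ∑ Q ∈ Icc 1 X0, 1 / (Q : ℝ) ≤
          ((QQ d H).card : ℝ) * D * (1 / (X : ℝ)) * T := mul_le_mul_of_nonneg_left hhar (by positivity)
        _ = _ := by ring
    refine hB.trans ?_
    rw [← mul_sum]
    have h5 : ((QQ d H).card * D * T) * ∑ X ∈ Icc 1 X0, 1 / (X : ℝ) ≤ ((QQ d H).card * D * T) * T :=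
      mul_le_mul_of_nonneg_left hhar (by positivity)
    refine h5.trans ?_
    have e4 : ((QQ d H).card : ℝ) * D * T * T = (QQ d H).card * (D * T * T) := by ring
    rw [e4, div_eq_mul_one_div ((QQ d H).card : ℝ)]
    apply mul_le_mul_of_nonneg_left _ hQc0
    have hp : 0 < L ^ η := by positivity
    have hpe : 0 < L ^ ε := by positivity
    rw [le_div_iff₀ hp, hD]
    have e5 : (L ^ η) ^ (2 * m) = L ^ (ε / 4) := by
      rw [← Real.rpow_natCast, ← Real.rpow_mul hL0.le, hη]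
      congr 1
      push_cast
      field_simp
      norm_num
    rw [e5]
    calc C * L ^ (ε / 4) / L ^ ε * T * T * L ^ η = (C * L ^ (ε / 4) * (T * T) * L ^ η) / L ^ ε := by ring
      _ ≤ (L ^ (ε / 16) * L ^ (ε / 4) * (L ^ (ε / 16) * L ^ (ε / 16)) * L ^ (ε / 8)) / L ^ ε := by
          apply div_le_div_of_nonneg_right _ hpe.le
          apply mul_le_mul _ (Real.rpow_le_rpow_of_exponent_le hL1 hηε) hp.le (by positivity)
          apply mul_le_mul (mul_le_mul_of_nonneg_right a2 (by positivity)) (mul_le_mul a1 a1 hT0 (by positivity)) (by positivity) (by positivity)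
      _ ≤ 1 := by
          rw [div_le_one hpe, ← Real.rpow_add hL0, ← Real.rpow_add hL0, ← Real.rpow_add hL0, ← Real.rpow_add hL0]
          apply Real.rpow_le_rpow_of_exponent_le hL1
          linarith
  · intro a ha hbad X Q hQ hQX hX hcond
    by_contra hcon
    push Not at hcon
    apply hbad
    have hXX0 : X ≤ X0 := Nat.le_floor hX
    refine mem_biUnion.2 ⟨X, mem_Icc.2 ⟨by omega, hXX0⟩, mem_biUnion.2 ⟨Q, mem_Icc.2 ⟨hQ, by omega⟩, ?_⟩⟩
    unfold EvV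
    rw [if_pos ⟨hcond, hQX⟩, mem_filter]
    refine ⟨ha, ?_⟩
    rw [← (even_two_mul m).pow_abs (∑ b ∈ range Q, SG G (Tc X Q b) a ^ 2 - (X : ℝ))]
    exact pow_lt_pow_left₀ hcon (by positivity) (by omega)

end Pool.Agent.TP975.LR
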