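import Mathlib
import Pool.Agent.TP975.LR.Lb3

/-!
Correlations along linear forms: classes of arguments without coincidences.
-/

set_option autoImplicit false

namespace Pool.Agent.TP975.LR

open Finset Filter
open Pool.Agent.H807R2.Dav
open Pool.Agent.TP975.RP

open Classical in
/-- greedy colouring -/
lemma greedy (R : ℕ → ℕ → Prop) (hsymm : ∀ n n', R n n' → R n' n) (D : ℕ) (J : Finset ℕ)
    (hdeg : ∀ n ∈ J, (J.filter (fun n' => n' ≠ n ∧ R n n')).card ≤ D) :
    ∃ c : ℕ → ℕ, (∀ n, c n ≤ D) ∧ ∀ n ∈ J, ∀ n' ∈ J, n ≠ n' → R n n' → c n ≠ c n' := by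
  induction J using Finset.induction_on with
  | empty => exact ⟨fun _ => 0, fun _ => Nat.zero_le _, fun n hn => absurd hn (notMem_empty _)⟩
  | insert x J hx ih =>
    obtain ⟨c, hc1, hc2⟩ := ih (by
      intro n hn
      refine le_trans (card_le_card ?_) (hdeg n (mem_insert_of_mem hn))
      exact filter_subset_filter _ (subset_insert _ _))
    have h1 : ∃ γ ∈ range (D + 1), γ ∉ (((insert x J).filter (fun n' => n' ≠ x ∧ R x n')).image c) := by
      by_contra hcon
      push Not at hcon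
      have h2 : range (D + 1) ⊆ (((insert x J).filter (fun n' => n' ≠ x ∧ R x n')).image c) := hcon
      have h3 := card_le_card h2
      have h4 : (((insert x J).filter (fun n' => n' ≠ x ∧ R x n')).image c).card ≤
          ((insert x J).filter (fun n' => n' ≠ x ∧ R x n')).card := card_image_le
      have h5 := hdeg x (mem_insert_self _ _)
      rw [card_range] at h3
      omega
    obtain ⟨γ, hγ1, hγ2⟩ := h1
    rw [mem_range] at hγ1
    refine ⟨Function.update c x γ, fun n => ?_, ?_⟩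
    · by_cases hn : n = x
      · subst hn; rw [Function.update_self]; omega
      · rw [Function.update_of_ne hn]; exact hc1 n
    · intro n hn n' hn' hne hR
      rw [mem_insert] at hn hn'
      by_cases h1 : n = x
      · have h2 : n' ≠ x := fun h => hne (h1.trans h.symm)
        rw [h1, Function.update_self, Function.update_of_ne h2]
        intro heq
        apply hγ2
        rw [mem_image]
        refine ⟨n', ?_, heq.symm⟩
        rw [mem_filter]
        refine ⟨mem_insert.2 hn', h2, ?_⟩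
        rw [← h1]; exact hR
      · rw [Function.update_of_ne h1]
        by_cases h2 : n' = x
        · rw [h2, Function.update_self]
          intro heq
          apply hγ2
          rw [mem_image]
          refine ⟨n, ?_, heq⟩
          rw [mem_filter]
          refine ⟨mem_insert.2 hn, h1, ?_⟩
          rw [← h2]; exact hsymm _ _ hR
        · rw [Function.update_of_ne h2]
          exact hc2 n (hn.resolve_left h1) n' (hn'.resolve_left h2) hne hR

/-- the point `a i * n + b i` -/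
def pt {k : ℕ} (v : Fin k → ℤ × ℤ) (n : ℕ) (i : Fin k) : ℤ := (v i).1 * n + (v i).2

/-- a coincidence between two arguments -/
def Cf {k : ℕ} (v : Fin k → ℤ × ℤ) (n n' : ℕ) : Prop := ∃ i i', pt v n i = pt v n' i'

open Classical in
lemma cf_deg {k : ℕ} (v : Fin k → ℤ × ℤ) (hv : ∀ i, (v i).1 ≠ 0) (J : Finset ℕ) (n : ℕ) :
    (J.filter (fun n' => n' ≠ n ∧ Cf v n n')).card ≤ k ^ 2 := by
  have h1 : J.filter (fun n' => n' ≠ n ∧ Cf v n n') ⊆
      (univ : Finset (Fin k × Fin k)).biUnion (fun x => J.filter (fun n' => pt v n x.1 = pt v n' x.2)) := by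
    intro n' hn'
    rw [mem_filter] at hn'
    obtain ⟨h1, _, i, i', h2⟩ := hn'
    rw [mem_biUnion]
    exact ⟨(i, i'), mem_univ _, mem_filter.2 ⟨h1, h2⟩⟩
  have h2 : ∀ x ∈ (univ : Finset (Fin k × Fin k)), (J.filter (fun n' => pt v n x.1 = pt v n' x.2)).card ≤ 1 := by
    intro x _
    rw [card_le_one]
    intro a ha b hb
    rw [mem_filter] at ha hb
    have h3 := ha.2.symm.trans hb.2
    unfold pt at h3
    have h4 : (v x.2).1 * ((a : ℤ) - b) = 0 := by linarith
    rcases mul_eq_zero.1 h4 with h5 | h5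
    · exact absurd h5 (hv x.2)
    · omega
  refine (card_le_card h1).trans ((card_biUnion_le_card_mul _ _ 1 h2).trans ?_)
  rw [card_univ, Fintype.card_prod, Fintype.card_fin, mul_one, sq]

open Classical in
lemma bad_card {k : ℕ} (v : Fin k → ℤ × ℤ) (hinj : Function.Injective v) (J : Finset ℕ) :
    (J.filter (fun n => ¬ Function.Injective (pt v n))).card ≤ k ^ 2 := by
  have h1 : J.filter (fun n => ¬ Function.Injective (pt v n)) ⊆
      ((univ : Finset (Fin k × Fin k)).filter (fun x => x.1 ≠ x.2)).biUnion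
        (fun x => J.filter (fun n => pt v n x.1 = pt v n x.2)) := by
    intro n hn
    rw [mem_filter] at hn
    obtain ⟨h1, h2⟩ := hn
    unfold Function.Injective at h2
    push Not at h2
    obtain ⟨i, i', h3, h4⟩ := h2
    rw [mem_biUnion]
    exact ⟨(i, i'), mem_filter.2 ⟨mem_univ _, h4⟩, mem_filter.2 ⟨h1, h3⟩⟩
  have h2 : ∀ x ∈ (univ : Finset (Fin k × Fin k)).filter (fun x => x.1 ≠ x.2),
      (J.filter (fun n => pt v n x.1 = pt v n x.2)).card ≤ 1 := by
    intro x hx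
    rw [mem_filter] at hx
    rw [card_le_one]
    intro a ha b hb
    rw [mem_filter] at ha hb
    have h3 := ha.2
    have h4 := hb.2
    unfold pt at h3 h4
    by_contra hab
    have h5 : ((v x.1).1 - (v x.2).1) * ((a : ℤ) - b) = 0 := by linarith
    have h6 : (v x.1).1 = (v x.2).1 := by
      rcases mul_eq_zero.1 h5 with h | h
      · linarith
      · omega
    have h7 : (v x.1).2 = (v x.2).2 := by rw [h6] at h3; linarith
    exact hx.2 (hinj (Prod.ext h6 h7))
  refine (card_le_card h1).trans ((card_biUnion_le_card_mul _ _ 1 h2).trans ?_)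
  rw [mul_one, sq]
  refine (card_filter_le _ _).trans ?_
  rw [card_univ, Fintype.card_prod, Fintype.card_fin]

/-- colours for a block -/
lemma colours {k : ℕ} (v : Fin k → ℤ × ℤ) (hv : ∀ i, (v i).1 ≠ 0) (J : Finset ℕ) :
    ∃ c : ℕ → ℕ, (∀ n, c n ≤ k ^ 2) ∧ ∀ n ∈ J, ∀ n' ∈ J, n ≠ n' → Cf v n n' → c n ≠ c n' := by
  classical
  apply greedy (Cf v) _ (k ^ 2) J (fun n _ => cf_deg v hv J n)
  rintro n n' ⟨i, i', h⟩
  exact ⟨i', i, h.symm⟩

open Classical in
/-- the colouring of a block -/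
noncomputable def col {k : ℕ} (v : Fin k → ℤ × ℤ) (J : Finset ℕ) : ℕ → ℕ :=
  if h : ∀ i, (v i).1 ≠ 0 then (colours v h J).choose else fun _ => 0

lemma col_spec {k : ℕ} (v : Fin k → ℤ × ℤ) (hv : ∀ i, (v i).1 ≠ 0) (J : Finset ℕ) :
    (∀ n, col v J n ≤ k ^ 2) ∧ ∀ n ∈ J, ∀ n' ∈ J, n ≠ n' → Cf v n n' → col v J n ≠ col v J n' := by
  unfold col
  rw [dif_pos hv]
  exact (colours v hv J).choose_spec

open Classical in
/-- a class of arguments -/
noncomputable def cls {k : ℕ} (v : Fin k → ℤ × ℤ) (J : Finset ℕ) (γ : ℕ) : Finset ℕ :=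
  J.filter (fun n => Function.Injective (pt v n) ∧ col v J n = γ)

/-- the correlation at one argument -/
noncomputable def Cr {d k : ℕ} (F : ℤ → ℝ) (v : Fin k → ℤ × ℤ) (a : Fin (d + 1) → ℤ) (n : ℕ) : ℝ :=
  ∏ i, F (ev a (pt v n i))

lemma Cr_abs {d k : ℕ} (F : ℤ → ℝ) (hFb : ∀ v, |F v| ≤ 1) (v : Fin k → ℤ × ℤ) (a : Fin (d + 1) → ℤ) (n : ℕ) :
    |Cr F v a n| ≤ 1 := prod_le_one' _ _ fun _ _ => hFb _

/-- a block sum by the sums over the classes -/
lemma block_cls {d k : ℕ} (F : ℤ → ℝ) (hFb : ∀ v, |F v| ≤ 1) (v : Fin k → ℤ × ℤ) (hv : ∀ i, (v i).1 ≠ 0)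
    (hinj : Function.Injective v) (a : Fin (d + 1) → ℤ) (J : Finset ℕ) (b : ℝ)
    (h : ∀ γ ∈ range (k ^ 2 + 1), |∑ n ∈ cls v J γ, Cr F v a n| ≤ b) :
    |∑ n ∈ J, Cr F v a n| ≤ k ^ 2 + (k ^ 2 + 1) * b := by
  classical
  have h1 := sum_filter_add_sum_filter_not J (fun n => ¬ Function.Injective (pt v n)) (fun n => Cr F v a n)
  rw [← h1]
  refine (abs_add_le _ _).trans (add_le_add ?_ ?_)
  · refine (abs_sum_le_sum_abs _ _).trans ((sum_le_sum fun n _ => Cr_abs F hFb v a n).trans ?_)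
    rw [sum_const, nsmul_eq_mul, mul_one]
    exact_mod_cast bad_card v hinj J
  · have h2 : ∑ n ∈ J.filter (fun n => ¬ ¬ Function.Injective (pt v n)), Cr F v a n =
        ∑ γ ∈ range (k ^ 2 + 1), ∑ n ∈ cls v J γ, Cr F v a n := by
      have h3 : ∀ n ∈ J.filter (fun n => ¬ ¬ Function.Injective (pt v n)), col v J n ∈ range (k ^ 2 + 1) := by
        intro n _
        rw [mem_range]
        have := (col_spec v hv J).1 n
        omega
      rw [← sum_fiberwise_of_maps_to h3]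
      refine sum_congr rfl fun γ _ => ?_
      apply sum_congr _ fun _ _ => rfl
      ext n
      unfold cls
      simp only [mem_filter, not_not]
      tauto
    rw [h2]
    refine (abs_sum_le_sum_abs _ _).trans ((sum_le_sum h).trans ?_)
    rw [sum_const, card_range, nsmul_eq_mul]
    push_cast
    exact le_rfl

/-- the exceptional polynomials for one class -/
theorem cls_event (F : ℤ → ℝ) (hF : WinB F) (hFb : ∀ v, |F v| ≤ 1) (d k m A : ℕ) (hk : 1 ≤ k) (hm : 1 ≤ m)
    (hkm : k * m ≤ d) : ∃ C : ℝ, 1 ≤ C ∧ ∃ H0 : ℕ, ∀ H : ℕ, H0 ≤ H → ∀ v : Fin k → ℤ × ℤ, (∀ i, (v i).1 ≠ 0) →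
    ∀ J : Finset ℕ, ∀ y : ℕ, 1 ≤ y → J.card ≤ y → (y : ℝ) ≤ Real.log H ^ A →
    (∀ n ∈ J, ∀ i, |(pt v n i : ℝ)| ≤ Real.log H ^ A) → ∀ γ : ℕ, ∀ G : ℝ, 0 < G →
    (((QQ d H).filter (fun a => (y : ℝ) / G < |∑ n ∈ cls v J γ, Cr F v a n|)).card : ℝ) ≤
      (QQ d H).card * (C * G ^ (2 * m) / (y : ℝ) ^ m) := by
  classical
  obtain ⟨H0, h0⟩ := momL F hF hFb d k m A hk hm hkm
  refine ⟨((m : ℝ) + 1) * (m : ℝ) ^ (2 * m) + 1, by
    have : (0 : ℝ) ≤ ((m : ℝ) + 1) * (m : ℝ) ^ (2 * m) := by positivity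
    linarith, H0, fun H hH v hv J y hy hJy hyA hJ γ G hG => ?_⟩
  have hy0 : (0 : ℝ) < y := by exact_mod_cast hy
  have hy1 : (1 : ℝ) ≤ y := by exact_mod_cast hy
  have hsub : cls v J γ ⊆ J := filter_subset _ _
  have hcy : ((cls v J γ).card : ℝ) ≤ y := by exact_mod_cast (card_le_card hsub).trans hJy
  have h1 := h0 H hH (cls v J γ) (hcy.trans hyA) (pt v) (fun j hj i => hJ j (hsub hj) i) (by
    intro j hj j' hj' i i' heq
    unfold cls at hj hj'
    rw [mem_filter] at hj hj'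
    by_cases hjj : j = j'
    · subst hjj
      exact ⟨rfl, hj.2.1 heq⟩
    · exact absurd (hj.2.2.trans hj'.2.2.symm) ((col_spec v hv J).2 j hj.1 j' hj'.1 hjj ⟨i, i', heq⟩)) (fun _ => 1)
      (fun _ => by simp)
  have h2 : ∑ a ∈ QQ d H, (∑ n ∈ cls v J γ, Cr F v a n) ^ (2 * m) ≤
      (QQ d H).card * (((m : ℝ) + 1) * (m : ℝ) ^ (2 * m) * (y : ℝ) ^ m + 1) := by
    refine le_trans (le_of_eq ?_) (h1.trans ?_)
    · refine sum_congr rfl fun a _ => ?_
      unfold Cr
      simp only [one_mul]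
    · apply mul_le_mul_of_nonneg_left _ (Nat.cast_nonneg _)
      have : ((cls v J γ).card : ℝ) ^ m ≤ (y : ℝ) ^ m := pow_le_pow_left₀ (Nat.cast_nonneg _) hcy m
      have h3 : (0 : ℝ) ≤ ((m : ℝ) + 1) * (m : ℝ) ^ (2 * m) := by positivity
      nlinarith
  refine (markov_pow _ _ m ((y : ℝ) / G) _ (by positivity) h2).trans ?_
  have hQ0 : (0 : ℝ) ≤ (QQ d H).card := Nat.cast_nonneg _
  rw [mul_div_assoc]
  apply mul_le_mul_of_nonneg_left _ hQ0
  rw [div_pow, div_div_eq_mul_div, div_le_div_iff₀ (by positivity) (by positivity)]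
  have hyd : 1 ≤ (y : ℝ) ^ m := one_le_pow₀ hy1
  have e1 : (y : ℝ) ^ (2 * m) = (y : ℝ) ^ m * (y : ℝ) ^ m := by rw [← pow_add]; congr 1; ring
  rw [e1]
  have hc : (0 : ℝ) ≤ ((m : ℝ) + 1) * (m : ℝ) ^ (2 * m) := by positivity
  have hg : (0 : ℝ) < G ^ (2 * m) := by positivity
  calc (((m : ℝ) + 1) * (m : ℝ) ^ (2 * m) * (y : ℝ) ^ m + 1) * G ^ (2 * m) * (y : ℝ) ^ m ≤
      (((m : ℝ) + 1) * (m : ℝ) ^ (2 * m) * (y : ℝ) ^ m + (y : ℝ) ^ m) * G ^ (2 * m) * (y : ℝ) ^ m := by
        gcongr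
    _ = _ := by ring

end Pool.Agent.TP975.LR
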