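import Mathlib
import Pool.Agent.TP975.LR.Lc1

/-!
Correlations along linear forms: the union bound.
-/

set_option autoImplicit false

namespace Pool.Agent.TP975.LR

open Finset Filter
open Pool.Agent.H807R2.Dav
open Pool.Agent.TP975.RP

/-- the weight of a tuple of linear forms -/
noncomputable def Wf {k : ℕ} (v : Fin k → ℤ × ℤ) : ℝ := ∏ i, (((v i).1.natAbs : ℝ) * (1 + ((v i).2.natAbs : ℝ)))

lemma Wf_pos {k : ℕ} (v : Fin k → ℤ × ℤ) (hv : ∀ i, (v i).1 ≠ 0) : 1 ≤ Wf v := by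
  unfold Wf
  have h1 : ∏ i : Fin k, (1 : ℝ) ≤ ∏ i, (((v i).1.natAbs : ℝ) * (1 + ((v i).2.natAbs : ℝ))) := by
    apply prod_le_prod (fun _ _ => zero_le_one)
    intro i _
    have h2 : 1 ≤ (v i).1.natAbs := Nat.one_le_iff_ne_zero.2 (Int.natAbs_ne_zero.2 (hv i))
    have h3 : (1 : ℝ) ≤ ((v i).1.natAbs : ℝ) := by exact_mod_cast h2
    have h4 : (0 : ℝ) ≤ ((v i).2.natAbs : ℝ) := Nat.cast_nonneg _
    nlinarith
  rw [prod_const_one] at h1
  exact h1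

/-- the number of blocks -/
noncomputable def Jk (m κ G : ℕ) (Λ W : ℝ) : ℕ := ⌊2 ^ (m + 1) * ((2 : ℝ) ^ κ) ^ (m + 1) / (W * Λ) / (2 ^ κ / G : ℕ)⌋₊

open Classical in
/-- the exceptional polynomials for one class -/
noncomputable def Bc (d H : ℕ) (F : ℤ → ℝ) {k : ℕ} (G : ℕ) (LA : ℝ) (v : Fin k → ℤ × ℤ) (κ j γ : ℕ) :
    Finset (Fin (d + 1) → ℤ) :=
  if (((j + 1) * (2 ^ κ / G) : ℕ) : ℝ) ≤ LA ∧ 2 * G ^ 2 ≤ 2 ^ κ ∧ ∀ i, (v i).1 ≠ 0 then
    (QQ d H).filter (fun a => ((2 ^ κ / G : ℕ) : ℝ) / G <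
      |∑ n ∈ cls v (Ioc (j * (2 ^ κ / G)) ((j + 1) * (2 ^ κ / G))) γ, Cr F v a n|) else ∅

/-- the tuples of linear forms -/
noncomputable def Vs (k Q0 : ℕ) : Finset (Fin k → ℤ × ℤ) :=
  Fintype.piFinset fun _ => Icc (-(Q0 : ℤ)) Q0 ×ˢ Icc (-(Q0 : ℤ)) Q0

open Classical in
/-- the exceptional polynomials -/
noncomputable def BcU (d H : ℕ) (F : ℤ → ℝ) (k m G : ℕ) (LA Λ : ℝ) (Q0 K0 : ℕ) : Finset (Fin (d + 1) → ℤ) :=
  (Vs k Q0).biUnion fun v => (range K0).biUnion fun κ => (range (Jk m κ G Λ (Wf v))).biUnion fun j =>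
    (range (k ^ 2 + 1)).biUnion fun γ => Bc d H F G LA v κ j γ

/-- outside the exceptional set all correlations are small -/
lemma good_corr {d H : ℕ} (F : ℤ → ℝ) (hFb : ∀ v, |F v| ≤ 1) (k m G : ℕ) (LA Λ : ℝ) (hΛ : 0 < Λ)
    (Q0 K0 : ℕ) (hG : 1 ≤ G) (hQ0 : LA < Q0 + 1) (hK0 : LA < 2 ^ K0) (hGΛ : (4 * (G : ℝ) ^ 2) ^ m < Λ)
    (a : Fin (d + 1) → ℤ) (ha : a ∈ QQ d H) (hbad : a ∉ BcU d H F k m G LA Λ Q0 K0)
    (v : Fin k → ℤ × ℤ) (hv : ∀ i, (v i).1 ≠ 0) (hinj : Function.Injective v)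
    (hv1 : ∀ i, ((v i).1.natAbs : ℝ) ≤ LA) (hv2 : ∀ i, ((v i).2.natAbs : ℝ) ≤ LA)
    (M N : ℕ) (hN : 1 ≤ N) (hX : ((M + N : ℕ) : ℝ) ≤ LA)
    (hcond : ((M + N : ℕ) : ℝ) * Wf v * Λ ≤ (N : ℝ) ^ (m + 1)) :
    |∑ n ∈ Ioc M (M + N), Cr F v a n| ≤ (2 * k ^ 2 + 3) * ((N : ℝ) / G) := by
  set κ := Nat.log 2 N with hκ
  have hk1 : 2 ^ κ ≤ N := Nat.pow_log_le_self 2 (by omega)
  have hk2 : N < 2 ^ (κ + 1) := Nat.lt_pow_succ_log_self (by norm_num) N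
  have hNr : (1 : ℝ) ≤ N := by exact_mod_cast hN
  have hN0 : (0 : ℝ) < N := by linarith
  have hGr : (1 : ℝ) ≤ G := by exact_mod_cast hG
  have hW := Wf_pos v hv
  have hNX : (N : ℝ) ≤ ((M + N : ℕ) : ℝ) := by
    exact_mod_cast Nat.le_add_left N M
  -- the length is large
  have hNG : 4 * G ^ 2 ≤ N := by
    by_contra hcon
    push Not at hcon
    have h1 : (N : ℝ) < 4 * (G : ℝ) ^ 2 := by exact_mod_cast hcon
    have h2 : (N : ℝ) * Λ ≤ (N : ℝ) ^ (m + 1) := by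
      refine le_trans ?_ hcond
      apply mul_le_mul_of_nonneg_right _ hΛ.le
      calc (N : ℝ) = N * 1 := by ring
        _ ≤ ((M + N : ℕ) : ℝ) * Wf v := mul_le_mul hNX hW zero_le_one (by positivity)
    have h3 : Λ ≤ (N : ℝ) ^ m := by
      rw [pow_succ, mul_comm ((N : ℝ) ^ m)] at h2
      exact le_of_mul_le_mul_left h2 hN0
    have h4 : (N : ℝ) ^ m ≤ (4 * (G : ℝ) ^ 2) ^ m := pow_le_pow_left₀ hN0.le h1.le m
    linarith
  have hGk : 2 * G ^ 2 ≤ 2 ^ κ := by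
    have : 2 ^ (κ + 1) = 2 * 2 ^ κ := by ring
    omega
  set y := 2 ^ κ / G with hy
  have hyGG : G ≤ y := by
    rw [hy, Nat.le_div_iff_mul_le (by omega)]
    nlinarith
  have hy1 : 1 ≤ y := by omega
  have hyG : y * G ≤ 2 ^ κ := Nat.div_mul_le_self _ _
  have hyr : (0 : ℝ) < y := by exact_mod_cast hy1
  have hG0 : (0 : ℝ) < G := by linarith
  have hx1 : ∀ n, ‖((Cr F v a n : ℝ) : ℂ)‖ ≤ 1 := by
    intro n
    rw [Complex.norm_real, Real.norm_eq_abs]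
    exact Cr_abs F hFb v a n
  have h2 := blocks (fun n => ((Cr F v a n : ℝ) : ℂ)) hx1 y M N hy1 (k ^ 2 + (k ^ 2 + 1) * ((y : ℝ) / G)) (by positivity) (by
    intro j hj1 hj2
    rw [← Complex.ofReal_sum, Complex.norm_real, Real.norm_eq_abs]
    refine block_cls F hFb v hv hinj a _ _ fun γ hγ => ?_
    by_contra hcon
    push Not at hcon
    apply hbad
    unfold BcU
    rw [mem_biUnion]
    refine ⟨v, ?_, ?_⟩
    · unfold Vs
      rw [Fintype.mem_piFinset]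
      intro i
      have h1 : (v i).1.natAbs < Q0 + 1 := by
        have : ((v i).1.natAbs : ℝ) < Q0 + 1 := lt_of_le_of_lt (hv1 i) hQ0
        exact_mod_cast this
      have h2 : (v i).2.natAbs < Q0 + 1 := by
        have : ((v i).2.natAbs : ℝ) < Q0 + 1 := lt_of_le_of_lt (hv2 i) hQ0
        exact_mod_cast this
      rw [mem_product, mem_Icc, mem_Icc]
      omega
    rw [mem_biUnion]
    refine ⟨κ, mem_range.2 ?_, ?_⟩
    · have h1 : ((2 : ℝ) ^ κ) < 2 ^ K0 := by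
        have : ((2 ^ κ : ℕ) : ℝ) ≤ N := by exact_mod_cast hk1
        push_cast at this
        linarith
      exact (pow_lt_pow_iff_right₀ (by norm_num : (1 : ℝ) < 2)).1 h1
    rw [mem_biUnion]
    refine ⟨j, mem_range.2 ?_, ?_⟩
    · unfold Jk
      rw [← hy]
      apply Nat.lt_of_succ_le
      apply Nat.le_floor
      rw [le_div_iff₀ hyr, le_div_iff₀ (by positivity)]
      have h1 : (((j + 1) * y : ℕ) : ℝ) ≤ ((M + N : ℕ) : ℝ) := by exact_mod_cast hj2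
      calc ((j.succ : ℕ) : ℝ) * (y : ℝ) * (Wf v * Λ) = (((j + 1) * y : ℕ) : ℝ) * (Wf v * Λ) := by push_cast; ring
        _ ≤ ((M + N : ℕ) : ℝ) * (Wf v * Λ) := mul_le_mul_of_nonneg_right h1 (by positivity)
        _ = ((M + N : ℕ) : ℝ) * Wf v * Λ := by ring
        _ ≤ (N : ℝ) ^ (m + 1) := hcond
        _ ≤ (2 * 2 ^ κ) ^ (m + 1) := by
            apply pow_le_pow_left₀ hN0.le
            have : (N : ℝ) ≤ ((2 ^ (κ + 1) : ℕ) : ℝ) := by exact_mod_cast hk2.le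
            push_cast at this
            rw [pow_succ] at this
            linarith
        _ = _ := by rw [mul_pow]
    rw [mem_biUnion]
    refine ⟨γ, hγ, ?_⟩
    have hcc : (((j + 1) * y : ℕ) : ℝ) ≤ LA := by
      refine le_trans ?_ hX
      exact_mod_cast hj2
    unfold Bc
    rw [← hy, if_pos ⟨hcc, hGk, hv⟩, mem_filter]
    exact ⟨ha, hcon⟩)
  rw [← Complex.ofReal_sum, Complex.norm_real, Real.norm_eq_abs] at h2
  refine h2.trans ?_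
  have h3 : (y : ℝ) * G ≤ N := by exact_mod_cast hyG.trans hk1
  have h4 : (y : ℝ) ≤ N / G := by rw [le_div_iff₀ hG0]; exact h3
  have h5 : (N : ℝ) / y * (k ^ 2 + (k ^ 2 + 1) * ((y : ℝ) / G)) = k ^ 2 * (N / y) + (k ^ 2 + 1) * (N / G) := by
    field_simp
  have h6 : (N : ℝ) / y ≤ N / G := div_le_div_of_nonneg_left hN0.le hG0 (by exact_mod_cast hyGG)
  have h7 : (k : ℝ) ^ 2 * (N / y) ≤ k ^ 2 * (N / G) := mul_le_mul_of_nonneg_left h6 (by positivity)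
  rw [h5]
  linarith

lemma sum_natAbs_le (g : ℕ → ℝ) (hg : ∀ n, 0 ≤ g n) (Q : ℕ) :
    ∑ a ∈ Icc (-(Q : ℤ)) Q, g a.natAbs ≤ 2 * ∑ n ∈ range (Q + 1), g n := by
  induction Q with
  | zero =>
    simp
    linarith [hg 0]
  | succ Q ih =>
    have h1 : Icc (-((Q + 1 : ℕ) : ℤ)) ((Q + 1 : ℕ) : ℤ) =
        insert ((Q + 1 : ℕ) : ℤ) (insert (-((Q + 1 : ℕ) : ℤ)) (Icc (-(Q : ℤ)) Q)) := by
      ext x
      rw [mem_insert, mem_insert, mem_Icc, mem_Icc]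
      push_cast
      omega
    rw [h1, sum_insert (by rw [mem_insert, mem_Icc]; push_cast; omega), sum_insert (by rw [mem_Icc]; push_cast; omega),
      sum_range_succ]
    rw [Int.natAbs_neg, Int.natAbs_natCast]
    linarith

lemma sum_Vs (k Q0 : ℕ) : ∑ v ∈ Vs k Q0, 1 / Wf v ≤ (4 * (1 + Real.log (Q0 + 1 : ℕ)) ^ 2) ^ k := by
  have h1 : ∑ v ∈ Vs k Q0, 1 / Wf v =
      (∑ x ∈ Icc (-(Q0 : ℤ)) Q0 ×ˢ Icc (-(Q0 : ℤ)) Q0, 1 / ((x.1.natAbs : ℝ) * (1 + (x.2.natAbs : ℝ)))) ^ k := by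
    have h2 : (∑ x ∈ Icc (-(Q0 : ℤ)) Q0 ×ˢ Icc (-(Q0 : ℤ)) Q0, 1 / ((x.1.natAbs : ℝ) * (1 + (x.2.natAbs : ℝ)))) ^ k =
        ∏ _i : Fin k, ∑ x ∈ Icc (-(Q0 : ℤ)) Q0 ×ˢ Icc (-(Q0 : ℤ)) Q0, 1 / ((x.1.natAbs : ℝ) * (1 + (x.2.natAbs : ℝ))) := by
      rw [prod_const, card_univ, Fintype.card_fin]
    rw [h2, prod_univ_sum]
    unfold Vs Wf
    refine sum_congr rfl fun v _ => ?_
    rw [one_div, ← prod_inv_distrib]
    refine prod_congr rfl fun i _ => ?_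
    rw [one_div]
  rw [h1]
  apply pow_le_pow_left₀ (sum_nonneg fun x _ => by positivity)
  have h3 : ∑ x ∈ Icc (-(Q0 : ℤ)) Q0 ×ˢ Icc (-(Q0 : ℤ)) Q0, 1 / ((x.1.natAbs : ℝ) * (1 + (x.2.natAbs : ℝ))) =
      (∑ a ∈ Icc (-(Q0 : ℤ)) Q0, 1 / (a.natAbs : ℝ)) * ∑ b ∈ Icc (-(Q0 : ℤ)) Q0, 1 / (1 + (b.natAbs : ℝ)) := by
    rw [sum_mul_sum, sum_product]
    refine sum_congr rfl fun a _ => sum_congr rfl fun b _ => ?_
    rw [one_div_mul_one_div]
  have h4 : ∑ a ∈ Icc (-(Q0 : ℤ)) Q0, 1 / (a.natAbs : ℝ) ≤ 2 * (1 + Real.log (Q0 + 1 : ℕ)) := by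
    refine (sum_natAbs_le (fun n => 1 / (n : ℝ)) (fun n => by positivity) Q0).trans ?_
    apply mul_le_mul_of_nonneg_left _ (by norm_num)
    refine le_trans ?_ (sum_inv_le (Q0 + 1))
    rw [sum_range_succ', Nat.cast_zero, div_zero, add_zero]
    have : ∑ q ∈ Icc 1 (Q0 + 1), 1 / (q : ℝ) = ∑ i ∈ range (Q0 + 1), 1 / ((i + 1 : ℕ) : ℝ) := by
      refine sum_nbij' (fun q => q - 1) (fun i => i + 1) ?_ ?_ ?_ ?_ ?_
      · intro q hq; rw [mem_Icc] at hq; rw [mem_range]; omega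
      · intro i hi; rw [mem_range] at hi; rw [mem_Icc]; omega
      · intro q hq; rw [mem_Icc] at hq; show q - 1 + 1 = q; omega
      · intro i _; show i + 1 - 1 = i; omega
      · intro q hq
        rw [mem_Icc] at hq
        rw [show q - 1 + 1 = q from by omega]
    rw [this, sum_range_succ]
    have : (0 : ℝ) ≤ 1 / ((Q0 + 1 : ℕ) : ℝ) := by positivity
    linarith
  have h5 : ∑ b ∈ Icc (-(Q0 : ℤ)) Q0, 1 / (1 + (b.natAbs : ℝ)) ≤ 2 * (1 + Real.log (Q0 + 1 : ℕ)) := by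
    refine (sum_natAbs_le (fun n => 1 / (1 + (n : ℝ))) (fun n => by positivity) Q0).trans ?_
    apply mul_le_mul_of_nonneg_left _ (by norm_num)
    refine le_trans (le_of_eq ?_) (sum_inv_le (Q0 + 1))
    symm
    refine sum_nbij' (fun q => q - 1) (fun i => i + 1) ?_ ?_ ?_ ?_ ?_
    · intro q hq; rw [mem_Icc] at hq; rw [mem_range]; omega
    · intro i hi; rw [mem_range] at hi; rw [mem_Icc]; omega
    · intro q hq; rw [mem_Icc] at hq; show q - 1 + 1 = q; omega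
    · intro i _; show i + 1 - 1 = i; omega
    · intro q hq
      rw [mem_Icc] at hq
      have : 1 + ((q - 1 : ℕ) : ℝ) = q := by
        rw [Nat.cast_sub hq.1]; push_cast; ring
      rw [this]
  rw [h3]
  have h6 : (0 : ℝ) ≤ 1 + Real.log (Q0 + 1 : ℕ) := by
    have : 0 ≤ Real.log ((Q0 + 1 : ℕ) : ℝ) := Real.log_nonneg (by exact_mod_cast Nat.le_add_left 1 Q0)
    linarith
  calc (∑ a ∈ Icc (-(Q0 : ℤ)) Q0, 1 / (a.natAbs : ℝ)) * ∑ b ∈ Icc (-(Q0 : ℤ)) Q0, 1 / (1 + (b.natAbs : ℝ)) ≤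
      (2 * (1 + Real.log (Q0 + 1 : ℕ))) * (2 * (1 + Real.log (Q0 + 1 : ℕ))) :=
        mul_le_mul h4 h5 (sum_nonneg fun b _ => by positivity) (by positivity)
    _ = _ := by ring

/-- the size of the exceptional set -/
lemma bcU_card {d H : ℕ} (F : ℤ → ℝ) (k m G : ℕ) (LA Λ C : ℝ) (hΛ : 0 < Λ) (hC : 0 ≤ C)
    (Q0 K0 : ℕ) (hG : 1 ≤ G)
    (h1 : ∀ v : Fin k → ℤ × ℤ, v ∈ Vs k Q0 → (∀ i, (v i).1 ≠ 0) → ∀ y j : ℕ, 1 ≤ y → (((j + 1) * y : ℕ) : ℝ) ≤ LA → ∀ γ : ℕ,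
      ∀ G : ℝ, 0 < G → (((QQ d H).filter (fun a => (y : ℝ) / G < |∑ n ∈ cls v (Ioc (j * y) ((j + 1) * y)) γ, Cr F v a n|)).card : ℝ) ≤
        (QQ d H).card * (C * G ^ (2 * m) / (y : ℝ) ^ m)) :
    ((BcU d H F k m G LA Λ Q0 K0).card : ℝ) ≤ (QQ d H).card *
      ((4 * (1 + Real.log (Q0 + 1 : ℕ)) ^ 2) ^ k * K0 * ((k ^ 2 + 1) * C * 4 ^ (m + 1) * (G : ℝ) ^ (3 * m + 1)) / Λ) := by
  classical
  have hGr : (1 : ℝ) ≤ G := by exact_mod_cast hG
  have hQ0 : (0 : ℝ) ≤ (QQ d H).card := Nat.cast_nonneg _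
  have hone : ∀ v ∈ Vs k Q0, ∀ κ ∈ range K0,
      (((range (Jk m κ G Λ (Wf v))).biUnion fun j => (range (k ^ 2 + 1)).biUnion fun γ => Bc d H F G LA v κ j γ).card : ℝ) ≤
      (QQ d H).card * ((k ^ 2 + 1) * C * 4 ^ (m + 1) * (G : ℝ) ^ (3 * m + 1) / Λ) * (1 / Wf v) := by
    intro v hvV κ _
    have hW0 : 0 ≤ Wf v := by unfold Wf; positivity
    by_cases hGk : 2 * G ^ 2 ≤ 2 ^ κ ∧ ∀ i, (v i).1 ≠ 0
    swap
    · have : ((range (Jk m κ G Λ (Wf v))).biUnion fun j => (range (k ^ 2 + 1)).biUnion fun γ => Bc d H F G LA v κ j γ) = ∅ := by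
        rw [eq_empty_iff_forall_notMem]
        intro a ha
        simp only [mem_biUnion] at ha
        obtain ⟨j, _, γ, _, hb⟩ := ha
        unfold Bc at hb
        rw [if_neg (fun h => hGk h.2)] at hb
        exact absurd hb (notMem_empty _)
      rw [this, card_empty, Nat.cast_zero]
      positivity
    obtain ⟨hGk, hv⟩ := hGk
    have hW := Wf_pos v hv
    set y := 2 ^ κ / G with hy
    have hy1 : 1 ≤ y := by
      rw [hy]
      refine (Nat.one_le_div_iff (by omega)).2 ?_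
      nlinarith
    have hy0 : (0 : ℝ) < y := by exact_mod_cast hy1
    have hyG : (2 : ℝ) ^ κ ≤ 2 * G * y := by
      have h2 : 2 ^ κ < y * G + G := Nat.lt_div_mul_add (by omega)
      have h3 : 2 ^ κ ≤ 2 * G * y := by nlinarith
      exact_mod_cast h3
    have hB : ∀ j γ, ((Bc d H F G LA v κ j γ).card : ℝ) ≤
        (QQ d H).card * (C * (G : ℝ) ^ (2 * m) / (y : ℝ) ^ m) := by
      intro j γ
      unfold Bc
      split_ifs with hc
      · exact h1 v hvV hv y j hy1 hc.1 γ G (by linarith)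
      · rw [card_empty, Nat.cast_zero]; positivity
    have hcard : (((range (Jk m κ G Λ (Wf v))).biUnion fun j => (range (k ^ 2 + 1)).biUnion fun γ => Bc d H F G LA v κ j γ).card : ℝ) ≤
        Jk m κ G Λ (Wf v) * (((k : ℝ) ^ 2 + 1) * ((QQ d H).card * (C * (G : ℝ) ^ (2 * m) / (y : ℝ) ^ m))) := by
      have b1 := card_bU (range (Jk m κ G Λ (Wf v))) (fun j => (range (k ^ 2 + 1)).biUnion fun γ => Bc d H F G LA v κ j γ)
        (fun _ => ((k : ℝ) ^ 2 + 1) * ((QQ d H).card * (C * (G : ℝ) ^ (2 * m) / (y : ℝ) ^ m))) (fun j _ => by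
          have b2 := card_bU (range (k ^ 2 + 1)) (fun γ => Bc d H F G LA v κ j γ)
            (fun _ => (QQ d H).card * (C * (G : ℝ) ^ (2 * m) / (y : ℝ) ^ m)) (fun γ _ => hB j γ)
          rw [sum_const, card_range, nsmul_eq_mul] at b2
          push_cast at b2
          exact b2)
      rw [sum_const, card_range, nsmul_eq_mul] at b1
      exact b1
    refine hcard.trans ?_
    have hJ : (Jk m κ G Λ (Wf v) : ℝ) ≤ 2 ^ (m + 1) * ((2 : ℝ) ^ κ) ^ (m + 1) / (Wf v * Λ) / y := by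
      unfold Jk
      apply Nat.floor_le
      positivity
    calc Jk m κ G Λ (Wf v) * (((k : ℝ) ^ 2 + 1) * ((QQ d H).card * (C * (G : ℝ) ^ (2 * m) / (y : ℝ) ^ m))) ≤
        (2 ^ (m + 1) * ((2 : ℝ) ^ κ) ^ (m + 1) / (Wf v * Λ) / y) *
          (((k : ℝ) ^ 2 + 1) * ((QQ d H).card * (C * (G : ℝ) ^ (2 * m) / (y : ℝ) ^ m))) :=
          mul_le_mul_of_nonneg_right hJ (by positivity)
      _ = (QQ d H).card * ((k ^ 2 + 1) * C * 2 ^ (m + 1) * (G : ℝ) ^ (2 * m) / Λ) * (1 / Wf v) *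
          (((2 : ℝ) ^ κ) ^ (m + 1) / (y : ℝ) ^ (m + 1)) := by
          rw [pow_succ (y : ℝ) m]
          field_simp
      _ ≤ (QQ d H).card * ((k ^ 2 + 1) * C * 2 ^ (m + 1) * (G : ℝ) ^ (2 * m) / Λ) * (1 / Wf v) *
          (2 * G) ^ (m + 1) := by
          apply mul_le_mul_of_nonneg_left _ (by positivity)
          rw [← div_pow]
          apply pow_le_pow_left₀ (by positivity)
          rw [div_le_iff₀ hy0]; linarith
      _ = _ := by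
          have e4 : (4 : ℝ) ^ (m + 1) = 2 ^ (m + 1) * 2 ^ (m + 1) := by rw [← mul_pow]; norm_num
          have e5 : (G : ℝ) ^ (3 * m + 1) = (G : ℝ) ^ (2 * m) * (G : ℝ) ^ (m + 1) := by rw [← pow_add]; congr 1; ring
          rw [e4, mul_pow, e5]
          ring
  set Z : ℝ := (QQ d H).card * ((k ^ 2 + 1) * C * 4 ^ (m + 1) * (G : ℝ) ^ (3 * m + 1) / Λ) with hZ
  have hZ0 : 0 ≤ Z := by positivity
  have hb := card_bU (Vs k Q0) (fun v => (range K0).biUnion fun κ => (range (Jk m κ G Λ (Wf v))).biUnion fun j =>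
    (range (k ^ 2 + 1)).biUnion fun γ => Bc d H F G LA v κ j γ) (fun v => ∑ κ ∈ range K0, Z * (1 / Wf v))
    (fun v hv => card_bU (range K0) _ (fun _ => Z * (1 / Wf v)) (fun κ hκ => hone v hv κ hκ))
  unfold BcU
  refine hb.trans ?_
  calc ∑ v ∈ Vs k Q0, ∑ κ ∈ range K0, Z * (1 / Wf v) = K0 * Z * ∑ v ∈ Vs k Q0, 1 / Wf v := by
        rw [mul_sum]
        refine sum_congr rfl fun v _ => ?_
        rw [sum_const, card_range, nsmul_eq_mul]; ring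
    _ ≤ K0 * Z * (4 * (1 + Real.log (Q0 + 1 : ℕ)) ^ 2) ^ k := by
        apply mul_le_mul_of_nonneg_left _ (by positivity)
        exact sum_Vs k Q0
    _ = _ := by rw [hZ]; ring

end Pool.Agent.TP975.LR
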