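import Mathlib
import Pool.Agent.TP975.LR.Lc2

/-!
Correlations along linear forms: the theorem.
-/

set_option autoImplicit false

namespace Pool.Agent.TP975.LR

open Finset Filter
open Pool.Agent.H807R2.Dav
open Pool.Agent.TP975.RP

theorem all_corr (F : ℤ → ℝ) (hF : WinB F) (hFb : ∀ v, |F v| ≤ 1) (d k m A : ℕ) (hk : 1 ≤ k) (hm : 1 ≤ m)
    (hkm : k * m ≤ d) (ε : ℝ) (hε : 0 < ε) : ∃ η : ℝ, 0 < η ∧ ∃ H0 : ℕ, ∀ H : ℕ, H0 ≤ H → ∃ Bad ⊆ QQ d H,
    (Bad.card : ℝ) ≤ (QQ d H).card / Real.log H ^ η ∧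
    ∀ a ∈ QQ d H, a ∉ Bad → ∀ v : Fin k → ℤ × ℤ, Function.Injective v → (∀ i, (v i).1 ≠ 0) →
    (∀ i, ((v i).1.natAbs : ℝ) ≤ Real.log H ^ A) → (∀ i, ((v i).2.natAbs : ℝ) ≤ Real.log H ^ A) →
    ∀ M N : ℕ, ((M + N : ℕ) : ℝ) ≤ Real.log H ^ A →
    ((M + N : ℕ) : ℝ) * Wf v * Real.log H ^ ε ≤ (N : ℝ) ^ (m + 1) →
    |∑ n ∈ Ioc M (M + N), Cr F v a n| ≤ N / Real.log H ^ η := by
  obtain ⟨C, hC, H1, h1⟩ := cls_event F hF hFb d k m (2 * A + 1) hk hm hkm
  have hm0 : (0 : ℝ) < (m : ℝ) + 1 := by positivity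
  set θ : ℝ := ε / (16 * (m + 1)) with hθ
  have hθ0 : 0 < θ := by positivity
  have hθ1 : θ * (m + 1) * 2 = ε / 8 := by rw [hθ]; field_simp; norm_num
  have hk0 : (0 : ℝ) < k := by exact_mod_cast hk
  refine ⟨θ / 2, by positivity, ?_⟩
  have hev : ∀ᶠ H : ℕ in atTop, H1 ≤ H ∧ (16 : ℝ) ^ m + 1 ≤ Real.log H ^ (ε / 8) ∧
      ((A : ℝ) + 1) * 4 * (1 + Real.log (Real.log H)) ≤ Real.log H ^ (ε / (16 * k)) ∧
      (k ^ 2 + 1) * C * 4 ^ (m + 1) * 2 ^ (3 * m + 1) ≤ Real.log H ^ (ε / 8) ∧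
      (2 * k ^ 2 + 3 : ℝ) ≤ Real.log H ^ (θ / 2) ∧ 2 ≤ Real.log H := by
    filter_upwards [eventually_ge_atTop H1, ev_rpow (ε / 8) (by positivity) ((16 : ℝ) ^ m + 1),
      ev_loglog (ε / (16 * k)) (by positivity) (((A : ℝ) + 1) * 4),
      ev_rpow (ε / 8) (by positivity) ((k ^ 2 + 1) * C * 4 ^ (m + 1) * 2 ^ (3 * m + 1)),
      ev_rpow (θ / 2) (by positivity) (2 * k ^ 2 + 3), ev_log 2] with H a1 a2 a3 a4 a5 a6
    exact ⟨a1, a2, a3, a4, a5, a6⟩
  obtain ⟨H0, hH0⟩ := eventually_atTop.1 hev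
  refine ⟨H0, fun H hH => ?_⟩
  obtain ⟨a1, a2, a3, a4, a5, a62⟩ := hH0 H hH
  have h2 := h1 H a1
  set L := Real.log H with hL
  have a6 : 1 ≤ L := by linarith
  have hL0 : 0 < L := by linarith
  have hLθ1 : 1 ≤ L ^ θ := Real.one_le_rpow a6 hθ0.le
  set G := ⌈L ^ θ⌉₊ with hG
  have hG1 : L ^ θ ≤ G := Nat.le_ceil _
  have hG2 : (G : ℝ) ≤ 2 * L ^ θ := by
    have := Nat.ceil_lt_add_one (show 0 ≤ L ^ θ by positivity)
    rw [← hG] at this
    linarith
  have hGr : (1 : ℝ) ≤ G := hLθ1.trans hG1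
  have hGn : 1 ≤ G := by exact_mod_cast hGr
  set LA := L ^ A with hLA
  have hLA1 : 1 ≤ LA := one_le_pow₀ a6
  set Q0 := ⌊LA⌋₊ with hQ0
  have hQ01 : 1 ≤ Q0 := Nat.le_floor (by simpa using hLA1)
  have hQ0r : (Q0 : ℝ) ≤ LA := Nat.floor_le (by linarith)
  have hQ0' : LA < Q0 + 1 := Nat.lt_floor_add_one LA
  set K0 := Nat.log 2 Q0 + 1 with hK0
  have hK0' : LA < 2 ^ K0 := by
    have h3 : Q0 + 1 ≤ 2 ^ K0 := Nat.lt_pow_succ_log_self (by norm_num) Q0
    have h4 : ((Q0 + 1 : ℕ) : ℝ) ≤ ((2 ^ K0 : ℕ) : ℝ) := by exact_mod_cast h3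
    push_cast at h4
    linarith
  have hLθd : (L ^ θ) ^ ((m + 1) * 2) = L ^ (ε / 8) := by
    rw [← Real.rpow_natCast, ← Real.rpow_mul hL0.le]
    congr 1
    push_cast
    rw [← hθ1]; ring
  have hε8 : 1 ≤ L ^ (ε / 8) := Real.one_le_rpow a6 (by positivity)
  have hsplit : L ^ ε = (L ^ (ε / 8)) ^ 8 := by
    rw [← Real.rpow_natCast, ← Real.rpow_mul hL0.le]
    congr 1
    push_cast
    ring
  have hGΛ : (4 * (G : ℝ) ^ 2) ^ m < L ^ ε := by
    calc (4 * (G : ℝ) ^ 2) ^ m ≤ (4 * (2 * L ^ θ) ^ 2) ^ m := by gcongr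
      _ = 16 ^ m * (L ^ θ) ^ (2 * m) := by
          rw [show 4 * (2 * L ^ θ) ^ 2 = 16 * (L ^ θ) ^ 2 by ring, mul_pow, ← pow_mul]
      _ ≤ 16 ^ m * (L ^ θ) ^ ((m + 1) * 2) := by
          apply mul_le_mul_of_nonneg_left _ (by positivity)
          exact pow_le_pow_right₀ hLθ1 (by omega)
      _ = 16 ^ m * L ^ (ε / 8) := by rw [hLθd]
      _ < L ^ (ε / 8) * L ^ (ε / 8) := by
          apply mul_lt_mul_of_pos_right _ (by positivity)
          linarith
      _ = (L ^ (ε / 8)) ^ 2 := by ring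
      _ ≤ (L ^ (ε / 8)) ^ 8 := pow_le_pow_right₀ hε8 (by norm_num)
      _ = _ := hsplit.symm
  have hΛ0 : 0 < L ^ ε := by positivity
  have hη : L ^ (θ / 2) ≤ L ^ (ε / 8) := by
    apply Real.rpow_le_rpow_of_exponent_le a6
    have h3 : θ * 1 ≤ θ * (m + 1) := by
      apply mul_le_mul_of_nonneg_left _ hθ0.le
      have : (0 : ℝ) ≤ m := Nat.cast_nonneg m
      linarith
    linarith
  refine ⟨BcU d H F k m G LA (L ^ ε) Q0 K0, ?_, ?_, ?_⟩
  · classical
    intro a ha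
    unfold BcU at ha
    simp only [mem_biUnion] at ha
    obtain ⟨v, _, κ, _, j, _, γ, _, hb⟩ := ha
    unfold Bc at hb
    split_ifs at hb with hc
    · exact (mem_filter.1 hb).1
    · exact absurd hb (notMem_empty _)
  · have h3 := bcU_card (H := H) F k m G LA (L ^ ε) C hΛ0 (by linarith) Q0 K0 hGn (by
      intro v hvV hv y j hy hjy γ G' hG'
      have hyj : y ≤ (j + 1) * y := by nlinarith
      have hLA2 : LA ≤ L ^ (2 * A + 1) := pow_le_pow_right₀ a6 (by omega)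
      refine h2 v hv _ y hy (by rw [Nat.card_Ioc]; have : (j + 1) * y = j * y + y := by ring
                                omega) ?_ ?_ γ G' hG'
      · have : (y : ℝ) ≤ (((j + 1) * y : ℕ) : ℝ) := by exact_mod_cast hyj
        linarith
      · intro n hn i
        rw [mem_Ioc] at hn
        have hn2 : (n : ℝ) ≤ LA := by
          have : (n : ℝ) ≤ (((j + 1) * y : ℕ) : ℝ) := by exact_mod_cast hn.2
          linarith
        unfold Vs at hvV
        rw [Fintype.mem_piFinset] at hvV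
        have h4 := hvV i
        rw [mem_product, mem_Icc, mem_Icc, ← abs_le, ← abs_le] at h4
        have h5 : |((v i).1 : ℝ)| ≤ LA := by
          have : ((|(v i).1| : ℤ) : ℝ) ≤ ((Q0 : ℤ) : ℝ) := by exact_mod_cast h4.1
          push_cast at this
          linarith
        have h6 : |((v i).2 : ℝ)| ≤ LA := by
          have : ((|(v i).2| : ℤ) : ℝ) ≤ ((Q0 : ℤ) : ℝ) := by exact_mod_cast h4.2
          push_cast at this
          linarith
        unfold pt
        push_cast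
        refine (abs_add_le _ _).trans ?_
        rw [abs_mul, Nat.abs_cast]
        calc |((v i).1 : ℝ)| * (n : ℝ) + |((v i).2 : ℝ)| ≤ LA * LA + LA * LA := by
              apply add_le_add
              · exact mul_le_mul h5 hn2 (Nat.cast_nonneg _) (by positivity)
              · calc |((v i).2 : ℝ)| ≤ LA * 1 := by linarith
                  _ ≤ LA * LA := mul_le_mul_of_nonneg_left hLA1 (by positivity)
          _ = 2 * L ^ (2 * A) := by rw [hLA]; ring
          _ ≤ L * L ^ (2 * A) := mul_le_mul_of_nonneg_right a62 (by positivity)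
          _ = _ := by ring)
    refine h3.trans ?_
    have hQQ0 : (0 : ℝ) ≤ (QQ d H).card := Nat.cast_nonneg _
    rw [div_eq_mul_one_div ((QQ d H).card : ℝ)]
    apply mul_le_mul_of_nonneg_left _ hQQ0
    have hll : 0 ≤ Real.log L := Real.log_nonneg a6
    have hA0 : (0 : ℝ) ≤ A := Nat.cast_nonneg A
    have hlQ1 : Real.log (Q0 + 1 : ℕ) ≤ A * Real.log L + 1 := by
      have h4 : ((Q0 + 1 : ℕ) : ℝ) ≤ 2 * LA := by push_cast; linarith
      have h5 : Real.log (Q0 + 1 : ℕ) ≤ Real.log (2 * LA) := Real.log_le_log (by positivity) h4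
      rw [Real.log_mul (by norm_num) (by positivity), hLA, Real.log_pow] at h5
      have h6 := Real.log_two_lt_d9
      linarith
    have hlQ0 : Real.log Q0 ≤ A * Real.log L := by
      have h4 : Real.log Q0 ≤ Real.log LA := Real.log_le_log (by exact_mod_cast hQ01) hQ0r
      rw [hLA, Real.log_pow] at h4
      exact h4
    have b1' : 0 ≤ 1 + Real.log (Q0 + 1 : ℕ) := by
      have : 0 ≤ Real.log ((Q0 + 1 : ℕ) : ℝ) := Real.log_nonneg (by exact_mod_cast Nat.le_add_left 1 Q0)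
      linarith
    have b1 : (4 * (1 + Real.log (Q0 + 1 : ℕ)) ^ 2) ^ k ≤ L ^ (ε / 8) := by
      have h4 : 2 * (1 + Real.log (Q0 + 1 : ℕ)) ≤ L ^ (ε / (16 * k)) := by
        refine le_trans ?_ a3
        nlinarith
      calc (4 * (1 + Real.log (Q0 + 1 : ℕ)) ^ 2) ^ k = (2 * (1 + Real.log (Q0 + 1 : ℕ))) ^ (2 * k) := by
            rw [pow_mul]; congr 1; ring
        _ ≤ (L ^ (ε / (16 * k))) ^ (2 * k) := pow_le_pow_left₀ (by linarith) h4 _
        _ = L ^ (ε / 8) := by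
            rw [← Real.rpow_natCast, ← Real.rpow_mul hL0.le]
            congr 1
            push_cast
            field_simp
            norm_num
    have b2 : (K0 : ℝ) ≤ L ^ (ε / 8) := by
      have h8 : L ^ (ε / (16 * k)) ≤ L ^ (ε / 8) := by
        apply Real.rpow_le_rpow_of_exponent_le a6
        apply div_le_div_of_nonneg_left hε.le (by norm_num)
        have : (1 : ℝ) ≤ k := by exact_mod_cast hk
        linarith
      refine le_trans ?_ (a3.trans h8)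
      have h4 : (Nat.log 2 Q0 : ℝ) * Real.log 2 ≤ Real.log Q0 := by
        have h5 : 2 ^ Nat.log 2 Q0 ≤ Q0 := Nat.pow_log_le_self 2 (by omega)
        have h6 : Real.log ((2 : ℝ) ^ Nat.log 2 Q0) ≤ Real.log Q0 := by
          apply Real.log_le_log (by positivity)
          exact_mod_cast h5
        rwa [Real.log_pow] at h6
      have h5 : (1 / 2 : ℝ) ≤ Real.log 2 := by
        have := Real.log_two_gt_d9
        linarith
      have h6 : (0 : ℝ) ≤ (Nat.log 2 Q0 : ℝ) := Nat.cast_nonneg _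
      have h7 : (Nat.log 2 Q0 : ℝ) ≤ 2 * (A * Real.log L) := by nlinarith
      rw [hK0]
      push_cast
      nlinarith
    have b3 : (G : ℝ) ^ (3 * m + 1) ≤ 2 ^ (3 * m + 1) * (L ^ (ε / 8)) ^ 2 := by
      calc (G : ℝ) ^ (3 * m + 1) ≤ (2 * L ^ θ) ^ (3 * m + 1) := pow_le_pow_left₀ (by linarith) hG2 _
        _ = 2 ^ (3 * m + 1) * (L ^ θ) ^ (3 * m + 1) := by rw [mul_pow]
        _ ≤ 2 ^ (3 * m + 1) * (L ^ θ) ^ ((m + 1) * 2 * 2) := by
            apply mul_le_mul_of_nonneg_left _ (by positivity)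
            exact pow_le_pow_right₀ hLθ1 (by omega)
        _ = _ := by rw [pow_mul, hLθd]
    calc (4 * (1 + Real.log (Q0 + 1 : ℕ)) ^ 2) ^ k * K0 * ((k ^ 2 + 1) * C * 4 ^ (m + 1) * (G : ℝ) ^ (3 * m + 1)) / L ^ ε ≤
        L ^ (ε / 8) * L ^ (ε / 8) * ((k ^ 2 + 1) * C * 4 ^ (m + 1) * (2 ^ (3 * m + 1) * (L ^ (ε / 8)) ^ 2)) / L ^ ε := by
          apply div_le_div_of_nonneg_right _ hΛ0.le
          apply mul_le_mul
          · exact mul_le_mul b1 b2 (Nat.cast_nonneg _) (by positivity)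
          · apply mul_le_mul_of_nonneg_left b3 (by positivity)
          · positivity
          · positivity
      _ = ((k ^ 2 + 1) * C * 4 ^ (m + 1) * 2 ^ (3 * m + 1)) * (L ^ (ε / 8)) ^ 4 / L ^ ε := by ring
      _ ≤ L ^ (ε / 8) * (L ^ (ε / 8)) ^ 4 / L ^ ε := by
          apply div_le_div_of_nonneg_right _ hΛ0.le
          apply mul_le_mul_of_nonneg_right a4 (by positivity)
      _ = 1 / (L ^ (ε / 8)) ^ 3 := by
          rw [hsplit]
          have : L ^ (ε / 8) ≠ 0 := by positivity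
          field_simp
      _ ≤ 1 / L ^ (θ / 2) := by
          apply one_div_le_one_div_of_le (by positivity)
          calc L ^ (θ / 2) ≤ L ^ (ε / 8) := hη
            _ = (L ^ (ε / 8)) ^ 1 := (pow_one _).symm
            _ ≤ (L ^ (ε / 8)) ^ 3 := pow_le_pow_right₀ hε8 (by norm_num)
  · intro a ha hab v hinj hv hv1 hv2 M N hX hcond
    rcases Nat.eq_zero_or_pos N with h0 | hN
    · subst h0; simp
    have h3 := good_corr F hFb k m G LA (L ^ ε) hΛ0 Q0 K0 hGn hQ0' hK0' hGΛ a ha hab v hv hinj hv1 hv2 M N hN hX hcond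
    refine h3.trans ?_
    have hN0 : (0 : ℝ) < N := by exact_mod_cast hN
    have hLη : 0 < L ^ (θ / 2) := by positivity
    rw [mul_div_assoc', div_le_div_iff₀ (by linarith) hLη]
    have h4 : L ^ θ = L ^ (θ / 2) * L ^ (θ / 2) := by
      rw [← Real.rpow_add hL0]; congr 1; ring
    calc (2 * k ^ 2 + 3) * (N : ℝ) * L ^ (θ / 2) ≤ L ^ (θ / 2) * N * L ^ (θ / 2) := by gcongr
      _ = N * L ^ θ := by rw [h4]; ring
      _ ≤ N * G := mul_le_mul_of_nonneg_left hG1 hN0.le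

end Pool.Agent.TP975.LR
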