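import Mathlib
import Pool.Agent.TP975.LR.Ld2

/-!
The normal law.
-/

set_option autoImplicit false

namespace Pool.Agent.TP975.LR

open Finset Filter
open Pool.Agent.TP975.RP

/-- the normalized sum -/
noncomputable def Xn {d : ℕ} (F : ℤ → ℝ) (P : Finset ℤ) (a : Fin (d + 1) → ℤ) : ℝ :=
  (1 / Real.sqrt P.card) * ∑ t ∈ P, F (ev a t)

theorem cf_final (F : ℤ → ℝ) (hF : WinB F) (hF1 : ∀ v, v ≠ 0 → F v = 1 ∨ F v = -1) (hF0 : F 0 = 0) (d A : ℕ) (hd : 1 ≤ d) :
    ∃ H0 : ℕ, ∀ H : ℕ, H0 ≤ H → ∀ P : Finset ℤ, P.Nonempty → (∀ t ∈ P, |(t : ℝ)| ≤ Real.log H ^ A) →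
    ∀ u : ℝ, |u| ≤ Real.sqrt P.card →
    ‖(∑ a ∈ QQ d H, Complex.exp (Complex.I * ((u * Xn F P a : ℝ) : ℂ))) / (QQ d H).card -
      ((Real.exp (-u ^ 2 / 2) : ℝ) : ℂ)‖ ≤
      Real.exp |u| / Real.log H + 4 * (|u| ^ 2 * Real.exp 1 / (2 * d)) ^ d + u ^ 4 / P.card := by
  classical
  obtain ⟨H1, h1⟩ := moments F hF hF1 hF0 d A 1
  obtain ⟨H2, h2⟩ := eventually_atTop.1 (ev_log 1)
  refine ⟨max H1 H2, fun H hH P hPn hP u hu => ?_⟩
  have a1 := h1 H ((le_max_left _ _).trans hH) P hP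
  have a2 := h2 H ((le_max_right _ _).trans hH)
  set L := Real.log H with hL
  have hL0 : 0 < L := by linarith
  rw [pow_one] at a1
  have hPc1 : 1 ≤ P.card := card_pos.2 hPn
  have hPc : (0 : ℝ) < P.card := by exact_mod_cast hPc1
  set c := 1 / Real.sqrt P.card with hc
  have hc0 : 0 ≤ c := by positivity
  have hc1 : c ≤ 1 := by
    rw [hc, div_le_one (Real.sqrt_pos.2 hPc)]
    rw [Real.one_le_sqrt]
    exact_mod_cast hPc1
  have hQn : (QQ d H).Nonempty := by
    rw [← card_pos, card_QQ]; positivity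
  have hcf := cf_close (QQ d H) (univ : Finset (P → Bool)) hQn univ_nonempty (fun a => Xn F P a)
    (fun s => c * ∑ t, sg (s t)) d (1 / L) (by positivity) (by
    intro r hr
    have h3 := a1 r (by omega)
    unfold EQ ES at h3
    have e1 : (∑ a ∈ QQ d H, Xn F P a ^ r) / (QQ d H).card =
        c ^ r * ((∑ a ∈ QQ d H, (∑ t ∈ P, F (ev a t)) ^ r) / (QQ d H).card) := by
      rw [mul_div_assoc', mul_sum]
      congr 1
      refine sum_congr rfl fun a _ => ?_
      unfold Xn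
      rw [mul_pow]
    have e2 : (∑ s : P → Bool, (c * ∑ t, sg (s t)) ^ r) / (univ : Finset (P → Bool)).card =
        c ^ r * ((∑ s : P → Bool, (∑ t, sg (s t)) ^ r) / 2 ^ P.card) := by
      rw [signs_card, mul_div_assoc', mul_sum]
      congr 1
      refine sum_congr rfl fun a _ => ?_
      rw [mul_pow]
    rw [e1, e2, ← mul_sub, abs_mul, abs_of_nonneg (by positivity : 0 ≤ c ^ r)]
    calc c ^ r * |(∑ a ∈ QQ d H, (∑ t ∈ P, F (ev a t)) ^ r) / (QQ d H).card -
          (∑ s : P → Bool, (∑ t, sg (s t)) ^ r) / 2 ^ P.card| ≤ 1 * (1 / L) :=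
          mul_le_mul (pow_le_one₀ hc0 hc1) h3 (abs_nonneg _) zero_le_one
      _ = _ := one_mul _) u
  have hmom := signs_mom P hPn d hd
  have hsc := signs_cf P u c
  rw [hsc] at hcf
  have hg := gauss_close P.card hPc1 u hu
  have hg' : ‖((Real.cos (u * c) ^ P.card : ℝ) : ℂ) - ((Real.exp (-u ^ 2 / 2) : ℝ) : ℂ)‖ ≤ u ^ 4 / P.card := by
    rw [← Complex.ofReal_sub, Complex.norm_real, Real.norm_eq_abs]
    exact hg
  have hm : |u| ^ (2 * d) / (Nat.factorial (2 * d)) *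
      ((∑ s : P → Bool, (c * ∑ t, sg (s t)) ^ (2 * d)) / (univ : Finset (P → Bool)).card) ≤
      2 * (|u| ^ 2 * Real.exp 1 / (2 * d)) ^ d := by
    have hfac : (0 : ℝ) < (Nat.factorial (2 * d)) := by exact_mod_cast Nat.factorial_pos _
    calc |u| ^ (2 * d) / (Nat.factorial (2 * d)) *
      ((∑ s : P → Bool, (c * ∑ t, sg (s t)) ^ (2 * d)) / (univ : Finset (P → Bool)).card) ≤
        |u| ^ (2 * d) / (Nat.factorial (2 * d)) * ((Nat.factorial (2 * d)) * (2 * (Real.exp 1 / (2 * d)) ^ d)) :=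
          mul_le_mul_of_nonneg_left hmom (by positivity)
      _ = 2 * (|u| ^ (2 * d) * (Real.exp 1 / (2 * d)) ^ d) := by field_simp
      _ = _ := by rw [pow_mul, ← mul_pow, mul_div_assoc']
  have htri := norm_add_le ((∑ a ∈ QQ d H, Complex.exp (Complex.I * ((u * Xn F P a : ℝ) : ℂ))) / (QQ d H).card -
    ((Real.cos (u * c) ^ P.card : ℝ) : ℂ)) (((Real.cos (u * c) ^ P.card : ℝ) : ℂ) - ((Real.exp (-u ^ 2 / 2) : ℝ) : ℂ))
  rw [sub_add_sub_cancel] at htri
  have h5 : 1 / L * Real.exp |u| = Real.exp |u| / L := by ring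
  linarith

open MeasureTheory ProbabilityTheory

/-- the law of the normalized sum -/
noncomputable def lawM {d : ℕ} (H : ℕ) (X : (Fin (d + 1) → ℤ) → ℝ) : Measure ℝ :=
  ((QQ d H).card : ENNReal)⁻¹ • ∑ a ∈ QQ d H, Measure.dirac (X a)

lemma card_ne (d H : ℕ) : ((QQ d H).card : ENNReal) ≠ 0 := by
  rw [card_QQ]; exact_mod_cast (by positivity : (0 : ℕ) < (2 * H + 1) ^ (d + 1)).ne'

instance lawM_prob {d : ℕ} (H : ℕ) (X : (Fin (d + 1) → ℤ) → ℝ) : IsProbabilityMeasure (lawM H X) := by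
  constructor
  unfold lawM
  rw [Measure.smul_apply, Measure.finset_sum_apply]
  simp only [measure_univ, sum_const, nsmul_eq_mul, mul_one, smul_eq_mul]
  exact ENNReal.inv_mul_cancel (card_ne d H) (ENNReal.natCast_ne_top _)

lemma lawM_Iic {d : ℕ} (H : ℕ) (X : (Fin (d + 1) → ℤ) → ℝ) (x : ℝ) :
    (lawM H X).real (Set.Iic x) = (((QQ d H).filter (fun a => X a ≤ x)).card : ℝ) / (QQ d H).card := by
  classical
  unfold lawM Measure.real
  rw [Measure.smul_apply, Measure.finset_sum_apply, smul_eq_mul, ENNReal.toReal_mul, ENNReal.toReal_inv,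
    ENNReal.toReal_natCast]
  have h1 : ∑ a ∈ QQ d H, (Measure.dirac (X a)) (Set.Iic x) = (((QQ d H).filter (fun a => X a ≤ x)).card : ENNReal) := by
    rw [card_filter]
    push_cast
    refine sum_congr rfl fun a _ => ?_
    rw [Measure.dirac_apply' _ measurableSet_Iic]
    by_cases h : X a ≤ x
    · simp [h]
    · simp [h]
  rw [h1, ENNReal.toReal_natCast]
  ring

lemma lawM_cf {d : ℕ} (H : ℕ) (X : (Fin (d + 1) → ℤ) → ℝ) (u : ℝ) :
    charFun (lawM H X) u = (∑ a ∈ QQ d H, Complex.exp (Complex.I * ((u * X a : ℝ) : ℂ))) / (QQ d H).card := by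
  rw [charFun_apply_real]
  unfold lawM
  rw [integral_smul_measure, integral_finset_sum_measure]
  · simp only [integral_dirac]
    rw [ENNReal.toReal_inv, ENNReal.toReal_natCast, Complex.real_smul, div_eq_inv_mul]
    push_cast
    congr 1
    refine sum_congr rfl fun a _ => ?_
    congr 1
    ring
  · intro a _
    exact integrable_dirac (by
      exact enorm_lt_top)

/-- the normal distribution function -/
noncomputable def Phi (x : ℝ) : ℝ := ∫ t in Set.Iic x, Real.exp (-t ^ 2 / 2) / Real.sqrt (2 * Real.pi)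

lemma Phi_eq (x : ℝ) : (gaussianReal 0 1).real (Set.Iic x) = Phi x := by
  unfold Measure.real Phi
  rw [gaussianReal_apply_eq_integral 0 one_ne_zero, ENNReal.toReal_ofReal]
  · refine setIntegral_congr_fun measurableSet_Iic fun t _ => ?_
    rw [gaussianPDFReal_def]
    simp only [sub_zero, NNReal.coe_one, mul_one]
    rw [inv_mul_eq_div]
  · exact setIntegral_nonneg measurableSet_Iic fun t _ => gaussianPDFReal_nonneg _ _ _

theorem normal_law (F : ℤ → ℝ) (hF : WinB F) (hF1 : ∀ v, v ≠ 0 → F v = 1 ∨ F v = -1) (hF0 : F 0 = 0)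
    (x δ : ℝ) (hδ : 0 < δ) : ∃ D : ℕ, ∀ d A : ℕ, D ≤ d → ∃ H0 : ℕ, ∀ H : ℕ, H0 ≤ H → ∀ P : Finset ℤ, D ≤ P.card →
    (∀ t ∈ P, |(t : ℝ)| ≤ Real.log H ^ A) →
    |(((QQ d H).filter (fun a => Xn F P a ≤ x)).card : ℝ) / (QQ d H).card - Phi x| ≤ δ := by
  by_contra hcon
  push Not at hcon
  choose dn An hdn hn using hcon
  have hdn' : ∀ n, 1 ≤ dn (n + 1) := fun n => by have := hdn (n + 1); omega
  choose Hc hHc using fun n : ℕ => cf_final F hF hF1 hF0 (dn (n + 1)) (An (n + 1)) (hdn' n)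
  have hlog : ∀ n : ℕ, ∃ H0 : ℕ, ∀ H : ℕ, H0 ≤ H → Real.exp n * (n + 1) ≤ Real.log H := fun n =>
    eventually_atTop.1 (ev_log (Real.exp n * (n + 1)))
  choose Hl hHl using hlog
  choose Hn hHn Pn hPn hPA hgt using fun n : ℕ => hn (n + 1) (max (Hc n) (Hl n))
  set μ : ℕ → ProbabilityMeasure ℝ := fun n => ⟨lawM (Hn n) (fun a => Xn F (Pn n) a), inferInstance⟩ with hμ
  set μ0 : ProbabilityMeasure ℝ := ⟨gaussianReal 0 1, inferInstance⟩ with hμ0
  have hconv : Tendsto μ atTop (nhds μ0) := by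
    rw [ProbabilityMeasure.tendsto_iff_tendsto_charFun]
    intro u
    have e0 : charFun (μ0 : Measure ℝ) u = ((Real.exp (-u ^ 2 / 2) : ℝ) : ℂ) := by
      rw [hμ0]
      simp only [ProbabilityMeasure.coe_mk]
      rw [charFun_gaussianReal]
      push_cast
      congr 1
      ring
    rw [e0, tendsto_iff_norm_sub_tendsto_zero]
    have hbd : ∀ᶠ n : ℕ in atTop, ‖charFun (μ n : Measure ℝ) u - ((Real.exp (-u ^ 2 / 2) : ℝ) : ℂ)‖ ≤
        1 / ((n : ℝ) + 1) + 4 * (1 / 2 : ℝ) ^ n + u ^ 4 / ((n : ℝ) + 1) := by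
      filter_upwards [eventually_ge_atTop (⌈|u|⌉₊ + ⌈u ^ 2⌉₊ + ⌈|u| ^ 2 * Real.exp 1⌉₊)] with n hn'
      have b1 : |u| ≤ n := by
        have h1 : (⌈|u|⌉₊ : ℝ) ≤ n := by exact_mod_cast (by omega : ⌈|u|⌉₊ ≤ n)
        exact (Nat.le_ceil _).trans h1
      have b2 : u ^ 2 ≤ n := by
        have h1 : (⌈u ^ 2⌉₊ : ℝ) ≤ n := by exact_mod_cast (by omega : ⌈u ^ 2⌉₊ ≤ n)
        exact (Nat.le_ceil _).trans h1
      have b3 : |u| ^ 2 * Real.exp 1 ≤ n := by
        have h1 : (⌈|u| ^ 2 * Real.exp 1⌉₊ : ℝ) ≤ n := by exact_mod_cast (by omega : ⌈|u| ^ 2 * Real.exp 1⌉₊ ≤ n)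
        exact (Nat.le_ceil _).trans h1
      have hPc : n + 1 ≤ (Pn n).card := hPn n
      have hPcr : (n : ℝ) + 1 ≤ (Pn n).card := by exact_mod_cast hPc
      have hn0 : (0 : ℝ) ≤ n := Nat.cast_nonneg n
      have h1 := hHc n (Hn n) ((le_max_left _ _).trans (hHn n)) (Pn n) (card_pos.1 (by omega)) (hPA n) u (by
        apply Real.le_sqrt_of_sq_le
        rw [sq_abs]
        linarith)
      have e1 : charFun (μ n : Measure ℝ) u =
          (∑ a ∈ QQ (dn (n + 1)) (Hn n), Complex.exp (Complex.I * ((u * Xn F (Pn n) a : ℝ) : ℂ))) /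
            (QQ (dn (n + 1)) (Hn n)).card := lawM_cf (Hn n) (fun a => Xn F (Pn n) a) u
      rw [e1]
      refine h1.trans ?_
      have hl := hHl n (Hn n) ((le_max_right _ _).trans (hHn n))
      have hd1 : (n : ℝ) + 1 ≤ dn (n + 1) := by exact_mod_cast hdn (n + 1)
      have c1 : Real.exp |u| / Real.log (Hn n) ≤ 1 / ((n : ℝ) + 1) := by
        have h2 : Real.exp |u| ≤ Real.exp n := Real.exp_le_exp.2 b1
        have h3 : 0 < Real.exp (n : ℝ) := Real.exp_pos _
        have h4 : 0 < Real.log (Hn n) := lt_of_lt_of_le (by positivity) hl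
        rw [div_le_div_iff₀ h4 (by positivity), one_mul]
        calc Real.exp |u| * ((n : ℝ) + 1) ≤ Real.exp n * ((n : ℝ) + 1) := by gcongr
          _ ≤ _ := hl
      have c2 : 4 * (|u| ^ 2 * Real.exp 1 / (2 * (dn (n + 1) : ℝ))) ^ (dn (n + 1)) ≤ 4 * (1 / 2 : ℝ) ^ n := by
        apply mul_le_mul_of_nonneg_left _ (by norm_num)
        have h2 : |u| ^ 2 * Real.exp 1 / (2 * (dn (n + 1) : ℝ)) ≤ 1 / 2 := by
          rw [div_le_div_iff₀ (by linarith) (by norm_num)]
          linarith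
        calc (|u| ^ 2 * Real.exp 1 / (2 * (dn (n + 1) : ℝ))) ^ (dn (n + 1)) ≤ (1 / 2 : ℝ) ^ (dn (n + 1)) := by
              apply pow_le_pow_left₀ _ h2
              have : (0 : ℝ) < 2 * (dn (n + 1) : ℝ) := by linarith
              have := Real.exp_pos 1
              positivity
          _ ≤ (1 / 2 : ℝ) ^ n := by
              apply pow_le_pow_of_le_one (by norm_num) (by norm_num)
              have := hdn (n + 1)
              omega
      have c3 : u ^ 4 / ((Pn n).card : ℝ) ≤ u ^ 4 / ((n : ℝ) + 1) := by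
        apply div_le_div_of_nonneg_left _ (by linarith) hPcr
        have : u ^ 4 = (u ^ 2) ^ 2 := by ring
        rw [this]; positivity
      linarith
    have hlim : Tendsto (fun n : ℕ => 1 / ((n : ℝ) + 1) + 4 * (1 / 2 : ℝ) ^ n + u ^ 4 / ((n : ℝ) + 1)) atTop (nhds 0) := by
      have t1 : Tendsto (fun n : ℕ => 1 / ((n : ℝ) + 1)) atTop (nhds 0) := tendsto_one_div_add_atTop_nhds_zero_nat
      have t2 : Tendsto (fun n : ℕ => 4 * (1 / 2 : ℝ) ^ n) atTop (nhds (4 * 0)) :=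
        (tendsto_pow_atTop_nhds_zero_of_lt_one (by norm_num) (by norm_num)).const_mul 4
      have t3 : Tendsto (fun n : ℕ => u ^ 4 * (1 / ((n : ℝ) + 1))) atTop (nhds (u ^ 4 * 0)) := t1.const_mul _
      have t4 := (t1.add t2).add t3
      simp only [mul_zero, add_zero] at t4
      refine t4.congr fun n => ?_
      ring
    exact tendsto_of_tendsto_of_tendsto_of_le_of_le' tendsto_const_nhds hlim (Eventually.of_forall fun n => norm_nonneg _) hbd
  have hset := ProbabilityMeasure.tendsto_measure_of_null_frontier_of_tendsto' hconv (E := Set.Iic x) (by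
    rw [frontier_Iic]
    have := nullSingletonClass_gaussianReal (μ := 0) (v := 1) one_ne_zero
    show (gaussianReal 0 1) {x} = 0
    exact measure_singleton x)
  have hset2 : Tendsto (fun n => ((μ n : Measure ℝ).real (Set.Iic x))) atTop (nhds (Phi x)) := by
    rw [← Phi_eq x]
    exact (ENNReal.tendsto_toReal (measure_ne_top _ _)).comp hset
  have hδ' := (Metric.tendsto_atTop.1 hset2) δ hδ
  obtain ⟨n, hn'⟩ := hδ'
  have h1 := hn' n le_rfl
  rw [Real.dist_eq] at h1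
  have h2 := hgt n
  have h3 : (μ n : Measure ℝ).real (Set.Iic x) =
    (((QQ (dn (n + 1)) (Hn n)).filter (fun a => Xn F (Pn n) a ≤ x)).card : ℝ) / (QQ (dn (n + 1)) (Hn n)).card :=
    lawM_Iic (Hn n) (fun a => Xn F (Pn n) a) x
  rw [h3] at h1
  linarith

end Pool.Agent.TP975.LR
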