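import Mathlib
import Pool.Agent.TP975.LR.Ld3

/-!
The normal law, uniformly in the argument of the distribution function.
-/

set_option autoImplicit false

namespace Pool.Agent.TP975.LR

open Finset Filter
open Pool.Agent.TP975.RP
open MeasureTheory ProbabilityTheory

lemma Phi_sub {x y : ℝ} (h : x ≤ y) : Phi x ≤ Phi y ∧ Phi y - Phi x ≤ y - x := by
  have h1 : (gaussianReal 0 1).real (Set.Iic y) = (gaussianReal 0 1).real (Set.Iic x) + (gaussianReal 0 1).real (Set.Ioc x y) := by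
    rw [← Set.Iic_union_Ioc_eq_Iic h]
    exact measureReal_union (Set.Iic_disjoint_Ioc le_rfl) measurableSet_Ioc
  rw [Phi_eq, Phi_eq] at h1
  have h2 : 0 ≤ (gaussianReal 0 1).real (Set.Ioc x y) := measureReal_nonneg
  have h3 : (gaussianReal 0 1).real (Set.Ioc x y) ≤ y - x := by
    unfold Measure.real
    rw [gaussianReal_apply_eq_integral 0 one_ne_zero, ENNReal.toReal_ofReal
      (setIntegral_nonneg measurableSet_Ioc fun t _ => gaussianPDFReal_nonneg _ _ _)]
    have h4 : ∫ t in Set.Ioc x y, gaussianPDFReal 0 1 t ≤ ∫ t in Set.Ioc x y, (1 : ℝ) := by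
      apply setIntegral_mono_on
      · exact (integrable_gaussianPDFReal 0 1).integrableOn
      · exact integrableOn_const (by rw [Real.volume_Ioc]; exact ENNReal.ofReal_ne_top)
      · exact measurableSet_Ioc
      · intro t _
        rw [gaussianPDFReal_def]
        simp only [sub_zero, NNReal.coe_one, mul_one]
        have h5 : (1 : ℝ) ≤ Real.sqrt (2 * Real.pi) := by
          rw [Real.one_le_sqrt]
          linarith [Real.pi_gt_three]
        have h6 : (Real.sqrt (2 * Real.pi))⁻¹ ≤ 1 := inv_le_one_of_one_le₀ h5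
        have h7 : Real.exp (-t ^ 2 / 2) ≤ 1 := by
          rw [Real.exp_le_one_iff]
          nlinarith [sq_nonneg t]
        calc (Real.sqrt (2 * Real.pi))⁻¹ * Real.exp (-t ^ 2 / 2) ≤ 1 * 1 :=
              mul_le_mul h6 h7 (Real.exp_pos _).le zero_le_one
          _ = 1 := one_mul _
    refine h4.trans (le_of_eq ?_)
    rw [setIntegral_const, smul_eq_mul, mul_one]
    unfold Measure.real
    rw [Real.volume_Ioc, ENNReal.toReal_ofReal (by linarith)]
  constructor <;> linarith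

lemma Phi_ends (δ : ℝ) (hδ : 0 < δ) : ∃ R : ℕ, Phi (-(R : ℝ)) ≤ δ ∧ 1 - δ ≤ Phi R := by
  have h1 : Tendsto (fun x : ℝ => (gaussianReal 0 1).real (Set.Iic x)) atBot (nhds 0) :=
    (tendsto_cdf_atBot (gaussianReal 0 1)).congr fun x => cdf_eq_real _ x
  have h2 : Tendsto (fun x : ℝ => (gaussianReal 0 1).real (Set.Iic x)) atTop (nhds 1) :=
    (tendsto_cdf_atTop (gaussianReal 0 1)).congr fun x => cdf_eq_real _ x
  have h3 : Tendsto (fun n : ℕ => (gaussianReal 0 1).real (Set.Iic (-(n : ℝ)))) atTop (nhds 0) :=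
    h1.comp (tendsto_neg_atTop_atBot.comp tendsto_natCast_atTop_atTop)
  have h4 : Tendsto (fun n : ℕ => (gaussianReal 0 1).real (Set.Iic (n : ℝ))) atTop (nhds 1) :=
    h2.comp tendsto_natCast_atTop_atTop
  have h5 := (h3.eventually (gt_mem_nhds hδ)).and (h4.eventually (lt_mem_nhds (show 1 - δ < 1 by linarith)))
  obtain ⟨R, hR1, hR2⟩ := h5.exists
  rw [Phi_eq] at hR1 hR2
  exact ⟨R, hR1.le, hR2.le⟩

lemma Phi_01 (x : ℝ) : 0 ≤ Phi x ∧ Phi x ≤ 1 := by
  rw [← Phi_eq]
  exact ⟨measureReal_nonneg, measureReal_le_one⟩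

theorem normal_unif (F : ℤ → ℝ) (hF : WinB F) (hF1 : ∀ v, v ≠ 0 → F v = 1 ∨ F v = -1) (hF0 : F 0 = 0)
    (δ : ℝ) (hδ : 0 < δ) : ∃ D : ℕ, ∀ d A : ℕ, D ≤ d → ∃ H0 : ℕ, ∀ H : ℕ, H0 ≤ H → ∀ P : Finset ℤ, D ≤ P.card →
    (∀ t ∈ P, |(t : ℝ)| ≤ Real.log H ^ A) → ∀ x : ℝ,
    |(((QQ d H).filter (fun a => Xn F P a ≤ x)).card : ℝ) / (QQ d H).card - Phi x| ≤ δ := by
  classical
  obtain ⟨R, hR1, hR2⟩ := Phi_ends (δ / 2) (by linarith)
  set M := ⌈2 * (R : ℝ) / (δ / 2)⌉₊ with hM
  set g : ℕ → ℝ := fun i => -(R : ℝ) + i * (δ / 2) with hg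
  have hgM : (R : ℝ) ≤ g M := by
    have h1 := Nat.le_ceil (2 * (R : ℝ) / (δ / 2))
    rw [← hM, div_le_iff₀ (by linarith)] at h1
    rw [hg]
    simp only
    linarith
  choose Df hDf using fun i : ℕ => normal_law F hF hF1 hF0 (g i) (δ / 2) (by linarith)
  refine ⟨∑ i ∈ range (M + 1), Df i, fun d A hd => ?_⟩
  have hDi : ∀ i ≤ M, Df i ≤ ∑ i ∈ range (M + 1), Df i := fun i hi =>
    single_le_sum (f := Df) (fun _ _ => Nat.zero_le _) (mem_range.2 (by omega))
  choose! Hf hHf using fun (i : ℕ) (hi : i ≤ M) => hDf i d A ((hDi i hi).trans hd)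
  refine ⟨∑ i ∈ range (M + 1), Hf i, fun H hH P hP hPA x => ?_⟩
  have hgrid : ∀ i ≤ M, |(((QQ d H).filter (fun a => Xn F P a ≤ g i)).card : ℝ) / (QQ d H).card - Phi (g i)| ≤ δ / 2 := by
    intro i hi
    have h1 : Hf i ≤ ∑ i ∈ range (M + 1), Hf i :=
      single_le_sum (f := Hf) (fun _ _ => Nat.zero_le _) (mem_range.2 (by omega))
    exact hHf i hi H (h1.trans hH) P ((hDi i hi).trans hP) hPA
  set Fx : ℝ → ℝ := fun x => (((QQ d H).filter (fun a => Xn F P a ≤ x)).card : ℝ) / (QQ d H).card with hFx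
  have hQ : (0 : ℝ) < (QQ d H).card := by rw [card_QQ]; positivity
  have hmono : ∀ x y : ℝ, x ≤ y → Fx x ≤ Fx y := by
    intro x y hxy
    rw [hFx]
    simp only
    apply div_le_div_of_nonneg_right _ hQ.le
    exact_mod_cast card_le_card (fun a ha => by
      rw [mem_filter] at ha ⊢
      exact ⟨ha.1, ha.2.trans hxy⟩)
  have h0 : ∀ x, 0 ≤ Fx x := fun x => by rw [hFx]; positivity
  have h1 : ∀ x, Fx x ≤ 1 := by
    intro x
    rw [hFx]
    simp only
    rw [div_le_one hQ]
    exact_mod_cast card_filter_le _ _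
  have hP := Phi_01 x
  show |Fx x - Phi x| ≤ δ
  rw [abs_le]
  rcases le_or_gt x (g 0) with hx | hx
  · have e := abs_le.1 (hgrid 0 (Nat.zero_le _))
    have hg0 : g 0 = -(R : ℝ) := by rw [hg]; simp
    have h2 := hmono x (g 0) hx
    have h3 := (Phi_sub hx).1
    rw [← hg0] at hR1
    have e1 := e.1
    have e2 := e.2
    have e3 : Fx (g 0) - Phi (g 0) ≤ δ / 2 := e2
    have := h0 x
    constructor <;> linarith
  rcases le_or_gt (g M) x with hx' | hx'
  · have e := abs_le.1 (hgrid M le_rfl)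
    have e3 : -(δ / 2) ≤ Fx (g M) - Phi (g M) := e.1
    have h2 := hmono (g M) x hx'
    have h3 := (Phi_sub hgM).1
    have h4 := (Phi_sub hx').1
    have := h1 x
    constructor <;> linarith
  · -- the middle
    set i := ⌊(x + R) / (δ / 2)⌋₊ with hi
    have hxR : 0 ≤ (x + R) / (δ / 2) := by
      have hg0 : g 0 = -(R : ℝ) := by rw [hg]; simp
      rw [hg0] at hx
      apply div_nonneg <;> linarith
    have b1 : g i ≤ x := by
      have := Nat.floor_le hxR
      rw [← hi, le_div_iff₀ (by linarith)] at this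
      rw [hg]; simp only; linarith
    have b2 : x < g (i + 1) := by
      have := Nat.lt_floor_add_one ((x + R) / (δ / 2))
      rw [← hi, div_lt_iff₀ (by linarith)] at this
      rw [hg]; simp only; push_cast; linarith
    have hiM : i < M := by
      by_contra hcon
      push Not at hcon
      have : g M ≤ g i := by
        rw [hg]
        simp only
        have : (M : ℝ) ≤ i := by exact_mod_cast hcon
        nlinarith
      linarith
    have e := abs_le.1 (hgrid i (by omega))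
    have e' := abs_le.1 (hgrid (i + 1) (by omega))
    have e1 : -(δ / 2) ≤ Fx (g i) - Phi (g i) := e.1
    have e2 : Fx (g (i + 1)) - Phi (g (i + 1)) ≤ δ / 2 := e'.2
    have h2 := hmono _ _ b1
    have h3 := hmono _ _ b2.le
    have h4 := (Phi_sub b1).2
    have h5 := (Phi_sub b2.le).2
    have h6 : g (i + 1) - g i = δ / 2 := by rw [hg]; simp only; push_cast; ring
    constructor <;> linarith

end Pool.Agent.TP975.LR
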