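import Mathlib
import Pool.Agent.TP975.LR.Lp2

/-!
The exponential sums of the Thue-Morse sequence.
-/

set_option autoImplicit false

namespace Pool.Agent.TP975.LR

open Finset Filter
open Pool.Agent.H807R2.Dav
open Pool.Agent.H373R2.T7
open Pool.Agent.TP975.RP

/-- the Thue-Morse sequence with values `1`, `-1` -/
def tm (n : ℕ) : ℝ := (-1) ^ (Nat.digits 2 n).sum

lemma tm_abs (n : ℕ) : |tm n| = 1 := by
  unfold tm
  rw [abs_pow, abs_neg, abs_one, one_pow]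

lemma tm_even (n : ℕ) : tm (2 * n) = tm n := by
  unfold tm
  rcases Nat.eq_zero_or_pos n with h | h
  · subst h; simp
  · rw [Nat.digits_def' (by norm_num) (by omega : 0 < 2 * n)]
    have e1 : 2 * n % 2 = 0 := by omega
    have e2 : 2 * n / 2 = n := by omega
    rw [e1, e2, List.sum_cons, zero_add]

lemma tm_odd (n : ℕ) : tm (2 * n + 1) = -tm n := by
  unfold tm
  rw [Nat.digits_def' (by norm_num) (by omega : 0 < 2 * n + 1)]
  have e1 : (2 * n + 1) % 2 = 1 := by omega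
  have e2 : (2 * n + 1) / 2 = n := by omega
  rw [e1, e2, List.sum_cons, pow_add]
  ring

/-- the exponential sum -/
noncomputable def ST (N : ℕ) (α : ℝ) : ℂ := ∑ n ∈ range N, ((tm n : ℝ) : ℂ) * ee ((n : ℝ) * α)

lemma norm_term (n : ℕ) (x : ℝ) : ‖((tm n : ℝ) : ℂ) * ee x‖ = 1 := by
  rw [norm_mul, norm_ee, mul_one, Complex.norm_real, Real.norm_eq_abs, tm_abs]

lemma ee_add' (x y : ℝ) : ee (x + y) = ee x * ee y := by
  unfold ee
  rw [← Complex.exp_add]
  congr 1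
  push_cast
  ring

lemma ST_double (N : ℕ) (α : ℝ) : ST (2 * N) α = (1 - ee α) * ST N (2 * α) := by
  induction N with
  | zero => simp [ST]
  | succ N ih =>
    have e1 : 2 * (N + 1) = 2 * N + 1 + 1 := by ring
    have e2 : ST (2 * N + 1 + 1) α = ST (2 * N) α + ((tm (2 * N) : ℝ) : ℂ) * ee (((2 * N : ℕ) : ℝ) * α) +
        ((tm (2 * N + 1) : ℝ) : ℂ) * ee (((2 * N + 1 : ℕ) : ℝ) * α) := by
      unfold ST
      rw [sum_range_succ, sum_range_succ]
    have e3 : ST (N + 1) (2 * α) = ST N (2 * α) + ((tm N : ℝ) : ℂ) * ee ((N : ℝ) * (2 * α)) := by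
      unfold ST
      rw [sum_range_succ]
    rw [e1, e2, e3, ih, tm_even, tm_odd]
    have e4 : ((2 * N : ℕ) : ℝ) * α = (N : ℝ) * (2 * α) := by push_cast; ring
    have e5 : ((2 * N + 1 : ℕ) : ℝ) * α = (N : ℝ) * (2 * α) + α := by push_cast; ring
    rw [e4, e5, ee_add']
    push_cast
    ring

lemma ST_half (N : ℕ) (α : ℝ) : ‖ST N α‖ ≤ ‖1 - ee α‖ * ‖ST (N / 2) (2 * α)‖ + 1 := by
  rcases Nat.even_or_odd' N with ⟨M, h | h⟩
  · have e1 : N / 2 = M := by omega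
    rw [e1, h, ST_double, norm_mul]
    linarith
  · have e1 : N / 2 = M := by omega
    rw [e1, h]
    have e2 : ST (2 * M + 1) α = ST (2 * M) α + ((tm (2 * M) : ℝ) : ℂ) * ee (((2 * M : ℕ) : ℝ) * α) := by
      unfold ST
      rw [sum_range_succ]
    rw [e2]
    refine (norm_add_le _ _).trans ?_
    rw [norm_term, ST_double, norm_mul]

lemma norm_one_sub (α : ℝ) : ‖1 - ee α‖ ^ 2 = 2 - 2 * Real.cos (2 * Real.pi * α) := by
  have e1 : ee α = Complex.exp (((2 * Real.pi * α : ℝ) : ℂ) * Complex.I) := by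
    unfold ee
    congr 1
    push_cast
    ring
  rw [e1, Complex.sq_norm, Complex.normSq_apply, Complex.sub_re, Complex.sub_im, Complex.one_re, Complex.one_im,
    Complex.exp_ofReal_mul_I_re, Complex.exp_ofReal_mul_I_im]
  have := Real.sin_sq_add_cos_sq (2 * Real.pi * α)
  nlinarith

lemma two_factors (α : ℝ) : ‖1 - ee α‖ * ‖1 - ee (2 * α)‖ ≤ 31 / 10 := by
  apply abs_le_of_sq_le_sq' _ (by norm_num) |>.2
  rw [mul_pow, norm_one_sub, norm_one_sub]
  have e1 : 2 * Real.pi * (2 * α) = 2 * (2 * Real.pi * α) := by ring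
  rw [e1, Real.cos_two_mul]
  set c := Real.cos (2 * Real.pi * α) with hc
  have h1 : c ≤ 1 := Real.cos_le_one _
  have h2 : 0 ≤ (c + 1 / 3) ^ 2 * (5 / 3 - c) := mul_nonneg (sq_nonneg _) (by linarith)
  nlinarith

lemma norm_one_sub_le (α : ℝ) : ‖1 - ee α‖ ≤ 2 := by
  refine (norm_sub_le _ _).trans ?_
  rw [norm_one, norm_ee]
  norm_num

lemma ST_bound (k : ℕ) : ∀ N : ℕ, N < 4 ^ k → ∀ α : ℝ, ‖ST N α‖ ≤ 2 * (31 / 10) ^ k - 3 / 2 := by
  induction k with
  | zero =>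
    intro N hN α
    have : N = 0 := by simpa using hN
    subst this
    simp [ST]
    norm_num
  | succ k ih =>
    intro N hN α
    have h1 := ST_half N α
    have h2 := ST_half (N / 2) (2 * α)
    have h3 : N / 2 / 2 < 4 ^ k := by
      rw [Nat.div_div_eq_div_mul]
      rw [pow_succ] at hN
      omega
    have h4 := ih (N / 2 / 2) h3 (2 * (2 * α))
    have h5 := two_factors α
    have h6 := norm_one_sub_le α
    have h7 : 0 ≤ ‖1 - ee α‖ := norm_nonneg _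
    have h8 : 0 ≤ ‖ST (N / 2 / 2) (2 * (2 * α))‖ := norm_nonneg _
    calc ‖ST N α‖ ≤ ‖1 - ee α‖ * ‖ST (N / 2) (2 * α)‖ + 1 := h1
      _ ≤ ‖1 - ee α‖ * (‖1 - ee (2 * α)‖ * ‖ST (N / 2 / 2) (2 * (2 * α))‖ + 1) + 1 := by
          have := mul_le_mul_of_nonneg_left h2 h7
          linarith
      _ = (‖1 - ee α‖ * ‖1 - ee (2 * α)‖) * ‖ST (N / 2 / 2) (2 * (2 * α))‖ + ‖1 - ee α‖ + 1 := by ring
      _ ≤ (31 / 10) * ‖ST (N / 2 / 2) (2 * (2 * α))‖ + 2 + 1 := by
          have := mul_le_mul_of_nonneg_right h5 h8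
          linarith
      _ ≤ (31 / 10) * (2 * (31 / 10) ^ k - 3 / 2) + 2 + 1 := by
          have := mul_le_mul_of_nonneg_left h4 (by norm_num : (0 : ℝ) ≤ 31 / 10)
          linarith
      _ ≤ _ := by
          rw [pow_succ]
          linarith

theorem sup_tm : SupSmall (fun n => ((tm n : ℝ) : ℂ)) := by
  intro U
  have ht := tendsto_pow_const_div_const_pow_of_one_lt U (r := (40 / 31 : ℝ)) (by norm_num)
  have hev : ∀ᶠ k : ℕ in atTop, ((k : ℝ)) ^ U / (40 / 31 : ℝ) ^ k < 1 / (100 * 2 ^ U) := by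
    apply ht.eventually_lt_const
    positivity
  obtain ⟨k0, hk0⟩ := eventually_atTop.1 hev
  refine ⟨4 ^ (k0 + 2), fun N hN α => ?_⟩
  have hN1 : 1 ≤ N := le_trans (Nat.one_le_pow _ _ (by norm_num)) hN
  set k := Nat.log 4 N with hk
  have hk1 : 4 ^ k ≤ N := Nat.pow_log_le_self 4 (by omega)
  have hk2 : N + 1 ≤ 4 ^ (k + 1) := Nat.lt_pow_succ_log_self (by norm_num) N
  have hkk : k0 + 2 ≤ k := (Nat.le_log_iff_pow_le (by norm_num) (by omega)).2 hN
  have h1 := hk0 (k + 1) (by omega)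
  have hNr : (1 : ℝ) ≤ N := by exact_mod_cast hN1
  have h2 : ‖ST (N + 1) α‖ ≤ 2 * (31 / 10) ^ (k + 2) - 3 / 2 := ST_bound (k + 2) (N + 1) (by
    have : 4 ^ (k + 2) = 4 * 4 ^ (k + 1) := by ring
    have h0 : 0 < 4 ^ (k + 1) := by positivity
    omega) α
  have e1 : ∑ n ∈ Icc 1 N, ((tm n : ℝ) : ℂ) * ee ((n : ℝ) * α) = ST (N + 1) α - 1 := by
    unfold ST
    rw [range_eq_Ico, sum_eq_sum_Ico_succ_bot (by omega)]
    have : Ico (0 + 1) (N + 1) = Icc 1 N := by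
      ext j; simp only [mem_Ico, mem_Icc]; omega
    rw [this]
    have e2 : ((tm 0 : ℝ) : ℂ) * ee (((0 : ℕ) : ℝ) * α) = 1 := by
      simp [tm, ee]
    rw [e2]
    ring
  rw [e1]
  refine (norm_sub_le _ _).trans ?_
  rw [norm_one]
  have hlogN : 0 ≤ Real.log N := Real.log_nonneg hNr
  have hlog : Real.log N ≤ 2 * (k + 1 : ℕ) := by
    have h3 : (N : ℝ) ≤ (4 : ℝ) ^ (k + 1) := by exact_mod_cast (by omega : N ≤ 4 ^ (k + 1))
    have h4 : Real.log 4 ≤ 2 := by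
      have : (4 : ℝ) ≤ Real.exp 2 := by
        have h5 := Real.add_one_le_exp (1 : ℝ)
        have h6 : Real.exp 2 = Real.exp 1 * Real.exp 1 := by rw [← Real.exp_add]; norm_num
        rw [h6]
        nlinarith
      rw [Real.log_le_iff_le_exp (by norm_num)]
      exact this
    calc Real.log N ≤ Real.log ((4 : ℝ) ^ (k + 1)) := Real.log_le_log (by linarith) h3
      _ = (k + 1 : ℕ) * Real.log 4 := Real.log_pow _ _
      _ ≤ (k + 1 : ℕ) * 2 := mul_le_mul_of_nonneg_left h4 (Nat.cast_nonneg _)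
      _ = _ := by ring
  have hlogpos : 0 < Real.log N := by
    apply Real.log_pos
    have h3 : 4 ^ 1 ≤ 4 ^ (k0 + 2) := Nat.pow_le_pow_right (by norm_num) (by omega)
    have h4 : 4 ≤ N := by omega
    have : (4 : ℝ) ≤ N := by exact_mod_cast h4
    linarith
  rw [le_div_iff₀ (pow_pos hlogpos U)]
  have h5 : Real.log N ^ U ≤ 2 ^ U * ((k + 1 : ℕ) : ℝ) ^ U := by
    rw [← mul_pow]
    exact pow_le_pow_left₀ hlogN hlog U
  rw [div_lt_div_iff₀ (by positivity) (by positivity), one_mul] at h1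
  have h6 : ‖ST (N + 1) α‖ + 1 ≤ 20 * (31 / 10) ^ (k + 1) := by
    have e3 : (31 / 10 : ℝ) ^ (k + 2) = (31 / 10) * (31 / 10) ^ (k + 1) := by ring
    rw [e3] at h2
    have h7 : (1 : ℝ) ≤ (31 / 10) ^ (k + 1) := one_le_pow₀ (by norm_num)
    linarith
  have h8 : (4 : ℝ) ^ (k + 1) ≤ 4 * N := by
    have : (4 : ℝ) ^ k ≤ N := by exact_mod_cast hk1
    rw [pow_succ]
    linarith
  have h9 : (31 / 10 : ℝ) ^ (k + 1) * (40 / 31) ^ (k + 1) = 4 ^ (k + 1) := by
    rw [← mul_pow]; norm_num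
  have hp : (0 : ℝ) < (31 / 10) ^ (k + 1) := by positivity
  calc (‖ST (N + 1) α‖ + 1) * Real.log N ^ U ≤ (20 * (31 / 10) ^ (k + 1)) * (2 ^ U * ((k + 1 : ℕ) : ℝ) ^ U) :=
        mul_le_mul h6 h5 (by positivity) (by positivity)
    _ = (1 / 5) * ((31 / 10) ^ (k + 1) * (((k + 1 : ℕ) : ℝ) ^ U * (100 * 2 ^ U))) := by ring
    _ ≤ (1 / 5) * ((31 / 10) ^ (k + 1) * (40 / 31) ^ (k + 1)) := by
        apply mul_le_mul_of_nonneg_left _ (by norm_num)
        exact mul_le_mul_of_nonneg_left h1.le hp.le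
    _ = (1 / 5) * 4 ^ (k + 1) := by rw [h9]
    _ ≤ N := by linarith

/-- the Thue-Morse sequence on the integers -/
def tmI (v : ℤ) : ℝ := tm v.natAbs

theorem winB_tmI : WinB tmI := by
  have h := winB_of tm (fun n => (tm_abs n).le) sup_tm
  intro C U
  obtain ⟨H1, h1⟩ := h C (U + 1)
  have hev : ∀ᶠ H : ℕ in atTop, 2 * Real.log H ^ U ≤ H ∧ 2 ≤ Real.log H := by
    filter_upwards [ev_pow U 2, ev_log 2] with H a1 a2
    exact ⟨a1, a2⟩
  obtain ⟨H2, h2⟩ := eventually_atTop.1 hev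
  refine ⟨max H1 H2, fun H hH V hV lo hi hlo hhi α => ?_⟩
  have k1 := h1 H ((le_max_left _ _).trans hH) V hV lo hi hlo hhi α
  obtain ⟨k2, k3⟩ := h2 H ((le_max_right _ _).trans hH)
  have hL0 : 0 < Real.log H := by linarith
  have e1 : ∑ s ∈ Icc lo hi, ((tmI s : ℝ) : ℂ) * ee ((s : ℝ) * α) =
      ∑ s ∈ Icc lo hi, (((if s = 0 then 0 else tm s.natAbs : ℝ)) : ℂ) * ee ((s : ℝ) * α) +
      ∑ s ∈ Icc lo hi, (if s = 0 then (1 : ℂ) else 0) := by
    rw [← sum_add_distrib]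
    refine sum_congr rfl fun s _ => ?_
    by_cases hs : s = 0
    · subst hs
      simp [tmI, tm, ee]
    · simp [hs, tmI]
  rw [e1]
  refine (norm_add_le _ _).trans ?_
  have h3 : ‖∑ s ∈ Icc lo hi, (if s = 0 then (1 : ℂ) else 0)‖ ≤ 1 := by
    rw [sum_ite_eq']
    split_ifs <;> simp
  have h4 : (H : ℝ) / Real.log H ^ (U + 1) ≤ H / Real.log H ^ U / 2 := by
    rw [div_div]
    apply div_le_div_of_nonneg_left (Nat.cast_nonneg _) (by positivity)
    rw [pow_succ]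
    exact mul_le_mul_of_nonneg_left k3 (by positivity)
  have h5 : 1 ≤ H / Real.log H ^ U / 2 := by
    rw [div_div, le_div_iff₀ (by positivity), one_mul]
    linarith
  linarith

end Pool.Agent.TP975.LR
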