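import Mathlib
import Pool.Agent.TP975.LR.Ls1

/-!
The Thue-Morse sequence along almost all polynomials: all words.
-/

set_option autoImplicit false

namespace Pool.Agent.TP975.LR

open Finset Filter
open Pool.Agent.H807R2.Dav
open Pool.Agent.TP975.RP

/-- the factors of the product over `J` without the index `j0` -/
noncomputable def gJ {k : ℕ} (J : Finset (Fin (k + 1))) (j0 : Fin (k + 1)) (i : Fin k) (_n v : ℤ) : ℝ :=
  if j0.succAbove i ∈ J then tmI v else 1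

/-- the shifts, `j0` first -/
def hJ {k : ℕ} (j0 : Fin (k + 1)) : Fin (k + 1) → ℤ := Fin.cons ((j0 : ℕ) : ℤ) (fun i => ((j0.succAbove i : ℕ) : ℤ))

lemma tmI_abs (v : ℤ) : |tmI v| = 1 := tm_abs _

lemma GE_J {d k : ℕ} (J : Finset (Fin (k + 1))) (j0 : Fin (k + 1)) (hj : j0 ∈ J) (a : Fin (d + 1) → ℤ) (n : ℤ) :
    GE tmI (gJ J j0) (hJ j0) a n = ∏ j ∈ J, tmI (ev a (n + ((j : ℕ) : ℤ))) := by
  classical
  have e1 : ∏ j ∈ J, tmI (ev a (n + ((j : ℕ) : ℤ))) = ∏ j, (if j ∈ J then tmI (ev a (n + ((j : ℕ) : ℤ))) else 1) := by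
    rw [prod_ite_mem, univ_inter]
  rw [e1, Fin.prod_univ_succAbove _ j0, if_pos hj]
  rfl

lemma ind_eq (s w : ℕ) (hw : w < 2) : (1 + (-1 : ℝ) ^ w * (-1) ^ s) / 2 = if s % 2 = w then 1 else 0 := by
  rw [← pow_add]
  rcases Nat.even_or_odd (w + s) with h | h
  · rw [h.neg_one_pow, if_pos (by rw [Nat.even_iff] at h; omega)]
    norm_num
  · rw [h.neg_one_pow, if_neg (by rw [Nat.odd_iff] at h; omega)]
    norm_num

/-- the number of occurrences of a word -/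
noncomputable def occ {d k : ℕ} (w : Fin (k + 1) → ℕ) (a : Fin (d + 1) → ℤ) (q r N : ℕ) : ℕ :=
  ((Icc 1 N).filter (fun u => ∀ j : Fin (k + 1),
    (Nat.digits 2 (ev a (((r + q * u : ℕ) : ℤ) + ((j : ℕ) : ℤ))).natAbs).sum % 2 = w j)).card

lemma occ_eq {d k : ℕ} (w : Fin (k + 1) → ℕ) (hw : ∀ j, w j < 2) (a : Fin (d + 1) → ℤ) (q r N : ℕ) :
    (occ w a q r N : ℝ) = (1 / 2 ^ (k + 1)) * ∑ J ∈ (univ : Finset (Fin (k + 1))).powerset, (∏ j ∈ J, (-1 : ℝ) ^ w j) *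
      ∑ u ∈ Icc 1 N, ∏ j ∈ J, tmI (ev a (((r + q * u : ℕ) : ℤ) + ((j : ℕ) : ℤ))) := by
  classical
  unfold occ
  rw [card_filter, Nat.cast_sum]
  have e1 : ∀ u ∈ Icc 1 N, (((if ∀ j : Fin (k + 1),
      (Nat.digits 2 (ev a (((r + q * u : ℕ) : ℤ) + ((j : ℕ) : ℤ))).natAbs).sum % 2 = w j then 1 else 0 : ℕ)) : ℝ) =
      (1 / 2 ^ (k + 1)) * ∑ J ∈ (univ : Finset (Fin (k + 1))).powerset, (∏ j ∈ J, (-1 : ℝ) ^ w j) *
        ∏ j ∈ J, tmI (ev a (((r + q * u : ℕ) : ℤ) + ((j : ℕ) : ℤ))) := by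
    intro u _
    have e2 : ∏ j : Fin (k + 1), ((1 + (-1 : ℝ) ^ w j * tmI (ev a (((r + q * u : ℕ) : ℤ) + ((j : ℕ) : ℤ)))) / 2) =
        if ∀ j : Fin (k + 1), (Nat.digits 2 (ev a (((r + q * u : ℕ) : ℤ) + ((j : ℕ) : ℤ))).natAbs).sum % 2 = w j then 1 else 0 := by
      have e3 : ∀ j : Fin (k + 1), (1 + (-1 : ℝ) ^ w j * tmI (ev a (((r + q * u : ℕ) : ℤ) + ((j : ℕ) : ℤ)))) / 2 =
          if (Nat.digits 2 (ev a (((r + q * u : ℕ) : ℤ) + ((j : ℕ) : ℤ))).natAbs).sum % 2 = w j then (1 : ℝ) else 0 :=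
        fun j => ind_eq _ _ (hw j)
      rw [prod_congr rfl fun j _ => e3 j, prod_boole]
      simp
    have e4 : (((if ∀ j : Fin (k + 1),
        (Nat.digits 2 (ev a (((r + q * u : ℕ) : ℤ) + ((j : ℕ) : ℤ))).natAbs).sum % 2 = w j then 1 else 0 : ℕ)) : ℝ) =
        if ∀ j : Fin (k + 1), (Nat.digits 2 (ev a (((r + q * u : ℕ) : ℤ) + ((j : ℕ) : ℤ))).natAbs).sum % 2 = w j then (1 : ℝ) else 0 := by
      split_ifs <;> simp
    rw [e4, ← e2, prod_div_distrib, prod_const, card_univ, Fintype.card_fin, prod_one_add, div_eq_mul_one_div, mul_comm]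
    congr 1
    exact sum_congr rfl fun J _ => prod_mul_distrib
  rw [sum_congr rfl e1, ← mul_sum]
  congr 1
  rw [sum_comm]
  exact sum_congr rfl fun J _ => by rw [mul_sum]

theorem words (d A m k : ℕ) (hm : 1 ≤ m) (hmk : m * (k + 1) ≤ d) (ε : ℝ) (hε : 0 < ε) :
    ∃ η : ℝ, 0 < η ∧ ∃ H0 : ℕ, ∀ H : ℕ, H0 ≤ H →
    ∃ Bad ⊆ QQ d H, (Bad.card : ℝ) ≤ (QQ d H).card / Real.log H ^ η ∧
    ∀ a ∈ QQ d H, a ∉ Bad → ∀ w : Fin (k + 1) → ℕ, (∀ j, w j < 2) → ∀ q r N : ℕ, 1 ≤ q → 1 ≤ N →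
    ((r + q * N : ℕ) : ℝ) ≤ Real.log H ^ A →
    |(occ w a q r N : ℝ) - N / 2 ^ (k + 1)| ^ (2 * m) ≤
      (q : ℝ) * ((r + q * N : ℕ) : ℝ) * (N : ℝ) ^ (m - 1) * Real.log H ^ ε := by
  classical
  obtain ⟨η', hη', H1, h1⟩ := ell_real tmI winB_tmI (fun v => (tmI_abs v).le) d A m k hm hmk ε hε
  obtain ⟨H2, h2⟩ := eventually_atTop.1 (ev_rpow (η' / 2) (by positivity) (2 ^ (k + 1) * (k + 1)))
  obtain ⟨H4, h4⟩ := eventually_atTop.1 (ev_log 2)
  obtain ⟨H5, h5⟩ := eventually_atTop.1 (ev_rpow η' hη' (k + 1))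
  refine ⟨η' / 2, by positivity, max (max H1 H2) (max H4 H5), fun H hH => ?_⟩
  have a1 := h1 H (((le_max_left _ _).trans (le_max_left _ _)).trans hH)
  have a2 := h2 H (((le_max_right _ _).trans (le_max_left _ _)).trans hH)
  have a4 := h4 H (((le_max_left _ _).trans (le_max_right _ _)).trans hH)
  have a5 := h5 H (((le_max_right _ _).trans (le_max_right _ _)).trans hH)
  set L := Real.log H with hL
  have hL0 : 0 < L := by linarith
  have hL1 : 1 ≤ L := by linarith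
  have hgr : ∀ p : Finset (Fin (k + 1)) × Fin (k + 1), ∀ j n v, |gJ p.1 p.2 j n v| ≤ 1 := by
    intro p j n v
    unfold gJ
    split_ifs
    · exact (tmI_abs v).le
    · simp
  have hex : ∀ p : Finset (Fin (k + 1)) × Fin (k + 1), _ := fun p => a1 (gJ p.1 p.2) (hgr p)
  choose Bd hBd1 hBd2 hBd3 using hex
  refine ⟨(univ : Finset (Finset (Fin (k + 1)) × Fin (k + 1))).biUnion Bd, ?_, ?_, ?_⟩
  · intro a ha
    obtain ⟨w, _, haw⟩ := mem_biUnion.1 ha
    exact hBd1 w haw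
  · refine (card_bU univ Bd (fun _ => (QQ d H).card / L ^ η') (fun w _ => hBd2 w)).trans ?_
    rw [sum_const, card_univ, Fintype.card_prod, Fintype.card_finset, Fintype.card_fin, nsmul_eq_mul]
    have hQc0 : (0 : ℝ) ≤ (QQ d H).card := Nat.cast_nonneg _
    have e1 : L ^ η' = L ^ (η' / 2) * L ^ (η' / 2) := by
      rw [← Real.rpow_add hL0]; congr 1; ring
    push_cast
    calc (2 : ℝ) ^ (k + 1) * (k + 1) * ((QQ d H).card / L ^ η') ≤ L ^ (η' / 2) * ((QQ d H).card / L ^ η') :=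
          mul_le_mul_of_nonneg_right a2 (by positivity)
      _ = (QQ d H).card / L ^ (η' / 2) := by
          rw [e1]
          have : L ^ (η' / 2) ≠ 0 := by positivity
          field_simp
  · intro a ha hbad w hw q r N hq hN hX
    set B : ℝ := (q : ℝ) * ((r + q * N : ℕ) : ℝ) * (N : ℝ) ^ (m - 1) * L ^ ε with hB
    have hB0 : 0 ≤ B := by positivity
    set ρ : ℝ := B ^ (((2 * m : ℕ) : ℝ)⁻¹) with hρ
    have hρ0 : 0 ≤ ρ := by positivity
    have hρd : ρ ^ (2 * m) = B := Real.rpow_inv_natCast_pow hB0 (by omega)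
    set SJ : Finset (Fin (k + 1)) → ℝ := fun J => ∑ u ∈ Icc 1 N, ∏ j ∈ J, tmI (ev a (((r + q * u : ℕ) : ℤ) + ((j : ℕ) : ℤ))) with hSJ
    have hS : ∀ J : Finset (Fin (k + 1)), J.Nonempty → |SJ J| ≤ ρ := by
      intro J hJne
      obtain ⟨j0, hj0⟩ := hJne
      have h6 := hBd3 (J, j0) a ha (fun h' => hbad (mem_biUnion.2 ⟨(J, j0), mem_univ _, h'⟩)) (hJ j0) (by
        intro j
        have hlt : ∀ i : Fin (k + 1), 0 ≤ (((i : ℕ) : ℤ)) ∧ ((((i : ℕ) : ℤ) : ℤ) : ℝ) ≤ L ^ η' := by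
          intro i
          refine ⟨by omega, ?_⟩
          have h7 : ((i : ℕ) : ℝ) ≤ k + 1 := by
            have := i.2
            exact_mod_cast this.le
          rw [Int.cast_natCast]
          exact h7.trans a5
        unfold hJ
        refine Fin.cases ?_ (fun i => ?_) j
        · rw [Fin.cons_zero]; exact hlt j0
        · rw [Fin.cons_succ]; exact hlt _) (by
        intro j
        unfold hJ
        rw [Fin.cons_succ, Fin.cons_zero]
        intro h7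
        have h8 : (j0.succAbove j : ℕ) = (j0 : ℕ) := by exact_mod_cast h7
        exact Fin.succAbove_ne j0 j (Fin.ext h8)) q r N hq hN hX
      have e2 : ∑ u ∈ Icc 1 N, GE tmI (gJ J j0) (hJ j0) a ((r + q * u : ℕ) : ℤ) = SJ J :=
        sum_congr rfl fun u _ => GE_J J j0 hj0 a _
      simp only at h6
      rw [e2] at h6
      have h7 : |SJ J| ^ (2 * m) ≤ ρ ^ (2 * m) := by
        rw [(even_two_mul m).pow_abs, hρd]
        exact h6
      exact (pow_le_pow_iff_left₀ (abs_nonneg _) hρ0 (by omega)).1 h7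
    have hmain : |(occ w a q r N : ℝ) - N / 2 ^ (k + 1)| ≤ ρ := by
      rw [occ_eq w hw]
      have hmem : (∅ : Finset (Fin (k + 1))) ∈ (univ : Finset (Fin (k + 1))).powerset := by simp
      rw [← add_sum_erase _ _ hmem]
      have e3 : (∏ j ∈ (∅ : Finset (Fin (k + 1))), (-1 : ℝ) ^ w j) *
          ∑ u ∈ Icc 1 N, ∏ j ∈ (∅ : Finset (Fin (k + 1))), tmI (ev a (((r + q * u : ℕ) : ℤ) + ((j : ℕ) : ℤ))) = N := by
        simp
      rw [e3]
      have e4 : ∀ X : ℝ, (1 / 2 ^ (k + 1)) * ((N : ℝ) + X) - N / 2 ^ (k + 1) = (1 / 2 ^ (k + 1)) * X := by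
        intro X
        ring
      rw [e4, abs_mul, abs_of_nonneg (by positivity)]
      have h8 : |∑ J ∈ (univ : Finset (Fin (k + 1))).powerset.erase ∅, (∏ j ∈ J, (-1 : ℝ) ^ w j) * SJ J| ≤ 2 ^ (k + 1) * ρ := by
        refine (abs_sum_le_sum_abs _ _).trans ?_
        have h9 : ∀ J ∈ (univ : Finset (Fin (k + 1))).powerset.erase ∅, |(∏ j ∈ J, (-1 : ℝ) ^ w j) * SJ J| ≤ ρ := by
          intro J hJm
          have hne : J.Nonempty := nonempty_iff_ne_empty.2 (ne_of_mem_erase hJm)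
          rw [abs_mul, abs_prod]
          have e5 : ∏ j ∈ J, |(-1 : ℝ) ^ w j| = 1 := by
            apply prod_eq_one
            intro j _
            rw [abs_pow, abs_neg, abs_one, one_pow]
          rw [e5, one_mul]
          exact hS J hne
        refine (sum_le_sum h9).trans ?_
        rw [sum_const, nsmul_eq_mul]
        apply mul_le_mul_of_nonneg_right _ hρ0
        have h10 : ((univ : Finset (Fin (k + 1))).powerset.erase ∅).card ≤ 2 ^ (k + 1) := by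
          refine (card_erase_le).trans ?_
          rw [card_powerset, card_univ, Fintype.card_fin]
        exact_mod_cast h10
      calc 1 / 2 ^ (k + 1) * |∑ J ∈ (univ : Finset (Fin (k + 1))).powerset.erase ∅, (∏ j ∈ J, (-1 : ℝ) ^ w j) * SJ J| ≤
          1 / 2 ^ (k + 1) * (2 ^ (k + 1) * ρ) := mul_le_mul_of_nonneg_left h8 (by positivity)
        _ = ρ := by field_simp
    calc |(occ w a q r N : ℝ) - N / 2 ^ (k + 1)| ^ (2 * m) ≤ ρ ^ (2 * m) := pow_le_pow_left₀ (abs_nonneg _) hmain _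
      _ = B := hρd

end Pool.Agent.TP975.LR
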