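import Mathlib
import Pool.Agent.TP975.LR.Lq1

/-!
Oscillation of the initial sums: moments over geometric blocks.
-/

set_option autoImplicit false

namespace Pool.Agent.TP975.LR

open Finset Filter
open Pool.Agent.H807R2.Dav
open Pool.Agent.TP975.RP

/-- the block from `B ^ j` to `B ^ (j + 1)` -/
def Bl (B j : ℕ) : Finset ℤ := Tn (B ^ (j + 1)) \ Tn (B ^ j)

lemma Bl_card (B j : ℕ) (hB : 1 ≤ B) : (Bl B j).card = B ^ (j + 1) - B ^ j := by
  unfold Bl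
  rw [card_sdiff_of_subset (Tn_mono _ _ (Nat.pow_le_pow_right hB (by omega))), Tn_card, Tn_card]

lemma Bl_card_ge (B j : ℕ) (hB : 2 ≤ B) : B ^ j ≤ (Bl B j).card := by
  rw [Bl_card B j (by omega), pow_succ]
  have : B ^ j * 2 ≤ B ^ j * B := Nat.mul_le_mul_left _ hB
  omega

lemma Bl_lt (B i j : ℕ) (hB : 1 ≤ B) (h : i < j) : Disjoint (Bl B i) (Bl B j) := by
  unfold Bl
  have h1 : Tn (B ^ (i + 1)) ⊆ Tn (B ^ j) := Tn_mono _ _ (Nat.pow_le_pow_right hB (by omega))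
  exact Finset.disjoint_left.2 fun t ht ht' => (Finset.mem_sdiff.1 ht').2 (h1 (Finset.mem_sdiff.1 ht).1)

lemma Bl_disj (B i j : ℕ) (hB : 1 ≤ B) (h : i ≠ j) : Disjoint (Bl B i) (Bl B j) := by
  rcases Nat.lt_or_gt_of_ne h with h1 | h1
  · exact Bl_lt B i j hB h1
  · exact (Bl_lt B j i hB h1).symm

lemma Bl_bd (B j : ℕ) (X : ℝ) (h : ((B ^ (j + 1) : ℕ) : ℝ) ≤ X) : ∀ t ∈ Bl B j, |(t : ℝ)| ≤ X := fun t ht =>
  Tn_bd _ X h t (Finset.mem_sdiff.1 ht).1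

/-- the normalised sum over a set -/
noncomputable def Zt {d : ℕ} (F : ℤ → ℝ) (T : Finset ℤ) (a : Fin (d + 1) → ℤ) : ℝ := Sf F T a / Real.sqrt T.card

lemma EQ_Z (d H r : ℕ) (F : ℤ → ℝ) (T : Finset ℤ) :
    EQ d H (fun a => Zt F T a ^ r) = EQ d H (fun a => Sf F T a ^ r) / Real.sqrt T.card ^ r := by
  have : (fun a : Fin (d + 1) → ℤ => Zt F T a ^ r) = fun a => (1 / Real.sqrt T.card ^ r) * Sf F T a ^ r := by
    funext a
    unfold Zt
    rw [div_pow]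
    ring
  rw [this, EQ_mul]
  ring

lemma EQ_ZZ (d H r r' : ℕ) (F : ℤ → ℝ) (T T' : Finset ℤ) :
    EQ d H (fun a => Zt F T a ^ r * Zt F T' a ^ r') =
      EQ d H (fun a => Sf F T a ^ r * Sf F T' a ^ r') / (Real.sqrt T.card ^ r * Real.sqrt T'.card ^ r') := by
  have : (fun a : Fin (d + 1) → ℤ => Zt F T a ^ r * Zt F T' a ^ r') =
      fun a => (1 / (Real.sqrt T.card ^ r * Real.sqrt T'.card ^ r')) * (Sf F T a ^ r * Sf F T' a ^ r') := by
    funext a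
    unfold Zt
    rw [div_pow, div_pow]
    field_simp
  rw [this, EQ_mul]
  ring

/-- the second moment of the mean over the blocks -/
theorem mean_blocks (r : ℕ) : ∃ C : ℝ, 0 < C ∧ ∀ (F : ℤ → ℝ), WinB F → (∀ v, v ≠ 0 → F v = 1 ∨ F v = -1) → F 0 = 0 →
    ∀ d : ℕ, r ≤ d → ∀ B j0 n : ℕ, 2 ≤ B → 1 ≤ n → ∃ H0 : ℕ, ∀ H : ℕ, H0 ≤ H →
    EQ d H (fun a => ((∑ i ∈ range n, Zt F (Bl B (j0 + i)) a ^ r) / n - gm r) ^ 2) ≤ C * (1 / n + 1 / (B : ℝ) ^ j0) := by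
  classical
  obtain ⟨C1, hC1, hw1⟩ := W_gm r
  obtain ⟨C2, hC2, hw2⟩ := W_gm (2 * r)
  set g := gm r with hg
  set D1 : ℝ := (|gm (2 * r)| + C2 + 1) + 2 * |g| * (|g| + C1 + 1) + g ^ 2 with hD1
  set D2 : ℝ := C1 ^ 2 + 1 + 2 * |g| with hD2
  have hD10 : 0 ≤ D1 := by positivity
  have hD20 : 0 < D2 := by positivity
  refine ⟨D1 + D2 + 1, by linarith, fun F hF hF1 hF0 d hrd B j0 n hB hn => ?_⟩
  obtain ⟨H1, h1⟩ := pair_disj F hF hF1 hF0 d 1 1
  obtain ⟨H2, h2⟩ := eventually_atTop.1 (ev_log ((B : ℝ) ^ (j0 + n) + n * D2 + 1))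
  refine ⟨max H1 H2, fun H hH => ?_⟩
  have a1 := h1 H ((le_max_left _ _).trans hH)
  have a2 := h2 H ((le_max_right _ _).trans hH)
  set L := Real.log H with hL
  have hn1 : (1 : ℝ) ≤ n := by exact_mod_cast hn
  have hn0 : (0 : ℝ) < n := by linarith
  have hB2 : (2 : ℝ) ≤ B := by exact_mod_cast hB
  have hBp : (1 : ℝ) ≤ (B : ℝ) ^ (j0 + n) := one_le_pow₀ (by linarith)
  have hnD : 0 ≤ (n : ℝ) * D2 := by positivity
  have hL1 : 1 ≤ L := by linarith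
  have hL0 : 0 < L := by linarith
  simp only [pow_one] at a1
  have hbd : ∀ i, i < n → ∀ t ∈ Bl B (j0 + i), |(t : ℝ)| ≤ L := by
    intro i hi
    apply Bl_bd
    have h3 : B ^ (j0 + i + 1) ≤ B ^ (j0 + n) := Nat.pow_le_pow_right (by omega) (by omega)
    have h4 : ((B ^ (j0 + i + 1) : ℕ) : ℝ) ≤ ((B ^ (j0 + n) : ℕ) : ℝ) := by exact_mod_cast h3
    push_cast at h4 ⊢
    linarith
  have hcard : ∀ i, i < n → 1 ≤ (Bl B (j0 + i)).card := fun i _ =>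
    le_trans (Nat.one_le_pow _ _ (by omega)) (Bl_card_ge B (j0 + i) hB)
  have hinvL : 1 / L ≤ 1 := by rw [div_le_one hL0]; exact hL1
  -- single moments
  have hone : ∀ q : ℕ, q ≤ 2 * d + 1 → ∀ i, i < n → |EQ d H (fun a => Zt F (Bl B (j0 + i)) a ^ q) -
      W (Bl B (j0 + i)).card q / Real.sqrt (Bl B (j0 + i)).card ^ q| ≤ 1 / L := by
    intro q hq i hi
    have h3 := (a1 (Bl B (j0 + i)) ∅ (hbd i hi) (by simp) q 0 (by omega)).2
    rw [EQ_Z, ← sub_div, abs_div]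
    have h4 : (1 : ℝ) ≤ (Bl B (j0 + i)).card := by exact_mod_cast hcard i hi
    have h5 : 1 ≤ Real.sqrt (Bl B (j0 + i)).card ^ q := one_le_pow₀ (Real.one_le_sqrt.2 h4)
    rw [abs_of_pos (lt_of_lt_of_le one_pos h5)]
    exact (div_le_self (abs_nonneg _) h5).trans h3
  have htwo : ∀ i, i < n → ∀ i', i' < n → i ≠ i' → |EQ d H (fun a => Zt F (Bl B (j0 + i)) a ^ r * Zt F (Bl B (j0 + i')) a ^ r) -
      (W (Bl B (j0 + i)).card r / Real.sqrt (Bl B (j0 + i)).card ^ r) *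
        (W (Bl B (j0 + i')).card r / Real.sqrt (Bl B (j0 + i')).card ^ r)| ≤ 1 / L := by
    intro i hi i' hi' hne
    have h3 := (a1 (Bl B (j0 + i)) (Bl B (j0 + i')) (hbd i hi) (hbd i' hi') r r (by omega)).1
      (Bl_disj B _ _ (by omega) (by omega))
    rw [EQ_ZZ, div_mul_div_comm, ← sub_div, abs_div]
    have h4 : (1 : ℝ) ≤ (Bl B (j0 + i)).card := by exact_mod_cast hcard i hi
    have h4' : (1 : ℝ) ≤ (Bl B (j0 + i')).card := by exact_mod_cast hcard i' hi'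
    have h5 : 1 ≤ Real.sqrt (Bl B (j0 + i)).card ^ r := one_le_pow₀ (Real.one_le_sqrt.2 h4)
    have h5' : 1 ≤ Real.sqrt (Bl B (j0 + i')).card ^ r := one_le_pow₀ (Real.one_le_sqrt.2 h4')
    have h6 : 1 ≤ Real.sqrt (Bl B (j0 + i)).card ^ r * Real.sqrt (Bl B (j0 + i')).card ^ r := one_le_mul_of_one_le_of_one_le h5 h5'
    rw [abs_of_pos (lt_of_lt_of_le one_pos h6)]
    exact (div_le_self (abs_nonneg _) h6).trans h3
  -- the pairs
  have hpair : ∀ i, i < n → ∀ i', i' < n → EQ d H (fun a => (Zt F (Bl B (j0 + i)) a ^ r - g) * (Zt F (Bl B (j0 + i')) a ^ r - g)) ≤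
      (if i = i' then D1 else 0) + D2 * (1 / (B : ℝ) ^ j0 + 1 / L) := by
    intro i hi i' hi'
    rw [EQ_cent]
    have hBj : (0 : ℝ) < (B : ℝ) ^ j0 := by positivity
    have hci : (B : ℝ) ^ j0 ≤ (Bl B (j0 + i)).card := by
      have h3 := Bl_card_ge B (j0 + i) hB
      have h4 : B ^ j0 ≤ B ^ (j0 + i) := Nat.pow_le_pow_right (by omega) (by omega)
      exact_mod_cast h4.trans h3
    have hci' : (B : ℝ) ^ j0 ≤ (Bl B (j0 + i')).card := by
      have h3 := Bl_card_ge B (j0 + i') hB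
      have h4 : B ^ j0 ≤ B ^ (j0 + i') := Nat.pow_le_pow_right (by omega) (by omega)
      exact_mod_cast h4.trans h3
    have w1 := hw1 _ (hcard i hi)
    have w1' := hw1 _ (hcard i' hi')
    have o1 := abs_le.1 (hone r (by omega) i hi)
    have o1' := abs_le.1 (hone r (by omega) i' hi')
    set w := W (Bl B (j0 + i)).card r / Real.sqrt (Bl B (j0 + i)).card ^ r with hwd
    set w' := W (Bl B (j0 + i')).card r / Real.sqrt (Bl B (j0 + i')).card ^ r with hwd'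
    set E1 := EQ d H (fun a => Zt F (Bl B (j0 + i)) a ^ r) with hE1
    set E1' := EQ d H (fun a => Zt F (Bl B (j0 + i')) a ^ r) with hE1'
    have hBj1 : 1 ≤ (B : ℝ) ^ j0 := one_le_pow₀ (by linarith)
    have v1 : |w - g| ≤ C1 / (B : ℝ) ^ j0 := w1.trans (div_le_div_of_nonneg_left hC1 hBj hci)
    have v1' : |w' - g| ≤ C1 / (B : ℝ) ^ j0 := w1'.trans (div_le_div_of_nonneg_left hC1 hBj hci')
    have v2 : C1 / (B : ℝ) ^ j0 ≤ C1 := div_le_self hC1 hBj1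
    by_cases hii : i = i'
    · rw [if_pos hii]
      subst hii
      have e1 : (fun a : Fin (d + 1) → ℤ => Zt F (Bl B (j0 + i)) a ^ r * Zt F (Bl B (j0 + i)) a ^ r) =
          fun a => Zt F (Bl B (j0 + i)) a ^ (2 * r) := by
        funext a
        rw [← pow_add]; congr 1; ring
      rw [e1]
      have o2 := abs_le.1 (hone (2 * r) (by omega) i hi)
      have w2 := abs_le.1 (hw2 _ (hcard i hi))
      have h4 : (1 : ℝ) ≤ (Bl B (j0 + i)).card := by exact_mod_cast hcard i hi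
      have w3 : C2 / ((Bl B (j0 + i)).card : ℝ) ≤ C2 := div_le_self hC2 h4
      have hE1b : |E1| ≤ |g| + C1 + 1 := by
        have q1 := abs_le.1 (v1.trans v2)
        have q2 := abs_le.1 (le_refl |g|)
        rw [abs_le]
        constructor <;> linarith
      have q3 : -(g * E1) ≤ |g| * (|g| + C1 + 1) := by
        calc -(g * E1) ≤ |g * E1| := neg_le_abs _
          _ = |g| * |E1| := abs_mul _ _
          _ ≤ _ := mul_le_mul_of_nonneg_left hE1b (abs_nonneg _)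
      have q4 := le_abs_self (gm (2 * r))
      have q5 : 0 ≤ D2 * (1 / (B : ℝ) ^ j0 + 1 / L) := by positivity
      rw [hD1]
      linarith [o2.2, w2.2]
    · rw [if_neg hii, zero_add]
      have o3 := abs_le.1 (htwo i hi i' hi' hii)
      set E2 := EQ d H (fun a => Zt F (Bl B (j0 + i)) a ^ r * Zt F (Bl B (j0 + i')) a ^ r) with hE2
      have e2 : E2 - g * E1 - g * E1' + g ^ 2 = (w - g) * (w' - g) + (E2 - w * w') - g * (E1 - w) - g * (E1' - w') := by ring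
      rw [e2]
      have q1 : (w - g) * (w' - g) ≤ C1 ^ 2 * (1 / (B : ℝ) ^ j0) := by
        calc (w - g) * (w' - g) ≤ |(w - g) * (w' - g)| := le_abs_self _
          _ = |w - g| * |w' - g| := abs_mul _ _
          _ ≤ (C1 / (B : ℝ) ^ j0) * C1 := mul_le_mul v1 (v1'.trans v2) (abs_nonneg _) (by positivity)
          _ = _ := by ring
      have q2 : -(g * (E1 - w)) ≤ |g| * (1 / L) := by
        calc -(g * (E1 - w)) ≤ |g * (E1 - w)| := neg_le_abs _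
          _ = |g| * |E1 - w| := abs_mul _ _
          _ ≤ _ := mul_le_mul_of_nonneg_left (abs_le.2 o1) (abs_nonneg _)
      have q3 : -(g * (E1' - w')) ≤ |g| * (1 / L) := by
        calc -(g * (E1' - w')) ≤ |g * (E1' - w')| := neg_le_abs _
          _ = |g| * |E1' - w'| := abs_mul _ _
          _ ≤ _ := mul_le_mul_of_nonneg_left (abs_le.2 o1') (abs_nonneg _)
      have q4 : 0 ≤ 1 / (B : ℝ) ^ j0 := by positivity
      have q5 : 0 ≤ 1 / L := by positivity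
      have q6 : 0 ≤ (1 + 2 * |g|) * (1 / (B : ℝ) ^ j0) := by positivity
      have q7 : 0 ≤ C1 ^ 2 * (1 / L) := by positivity
      rw [hD2]
      linarith [o3.2]
  have e3 : (fun a : Fin (d + 1) → ℤ => ((∑ i ∈ range n, Zt F (Bl B (j0 + i)) a ^ r) / n - g) ^ 2) =
      fun a => (1 / (n : ℝ) ^ 2) * ∑ i ∈ range n, ∑ i' ∈ range n,
        (Zt F (Bl B (j0 + i)) a ^ r - g) * (Zt F (Bl B (j0 + i')) a ^ r - g) := by
    funext a
    rw [← sum_mul_sum, sum_sub_distrib, sum_const, card_range, nsmul_eq_mul]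
    field_simp
  rw [e3, EQ_mul, EQ_sum]
  have hsum : ∑ i ∈ range n, EQ d H (fun a => ∑ i' ∈ range n,
      (Zt F (Bl B (j0 + i)) a ^ r - g) * (Zt F (Bl B (j0 + i')) a ^ r - g)) ≤
      ∑ i ∈ range n, ∑ i' ∈ range n, ((if i = i' then D1 else 0) + D2 * (1 / (B : ℝ) ^ j0 + 1 / L)) := by
    refine sum_le_sum fun i hi => ?_
    rw [EQ_sum]
    exact sum_le_sum fun i' hi' => hpair i (mem_range.1 hi) i' (mem_range.1 hi')
  have hval : ∑ i ∈ range n, ∑ i' ∈ range n, ((if i = i' then D1 else 0) + D2 * (1 / (B : ℝ) ^ j0 + 1 / L)) =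
      n * D1 + (n : ℝ) ^ 2 * (D2 * (1 / (B : ℝ) ^ j0 + 1 / L)) := by
    have e : ∀ i ∈ range n, ∑ i' ∈ range n, ((if i = i' then D1 else 0) + D2 * (1 / (B : ℝ) ^ j0 + 1 / L)) =
        D1 + n * (D2 * (1 / (B : ℝ) ^ j0 + 1 / L)) := by
      intro i hi
      rw [sum_add_distrib, sum_ite_eq, if_pos hi, sum_const, card_range, nsmul_eq_mul]
    rw [sum_congr rfl e, sum_const, card_range, nsmul_eq_mul]
    ring
  rw [hval] at hsum
  have hfin : D2 * (1 / L) ≤ 1 / n := by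
    rw [mul_one_div, div_le_div_iff₀ hL0 hn0]
    linarith
  have q9 : 0 ≤ 1 / (B : ℝ) ^ j0 := by positivity
  have q10 : 0 < 1 / (n : ℝ) := by positivity
  calc (1 / (n : ℝ) ^ 2) * ∑ i ∈ range n, EQ d H (fun a => ∑ i' ∈ range n,
      (Zt F (Bl B (j0 + i)) a ^ r - g) * (Zt F (Bl B (j0 + i')) a ^ r - g)) ≤
      (1 / (n : ℝ) ^ 2) * (n * D1 + (n : ℝ) ^ 2 * (D2 * (1 / (B : ℝ) ^ j0 + 1 / L))) :=
        mul_le_mul_of_nonneg_left hsum (by positivity)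
    _ = D1 * (1 / n) + D2 * (1 / (B : ℝ) ^ j0) + D2 * (1 / L) := by
        have hne : (n : ℝ) ≠ 0 := hn0.ne'
        have e9 : (1 / (n : ℝ) ^ 2) * (n * D1 + (n : ℝ) ^ 2 * (D2 * (1 / (B : ℝ) ^ j0 + 1 / L))) =
            ((1 / (n : ℝ) ^ 2) * n) * D1 + ((1 / (n : ℝ) ^ 2) * (n : ℝ) ^ 2) * (D2 * (1 / (B : ℝ) ^ j0 + 1 / L)) := by ring
        have e10 : (1 / (n : ℝ) ^ 2) * n = 1 / n := by field_simp
        have e11 : (1 / (n : ℝ) ^ 2) * (n : ℝ) ^ 2 = 1 := by field_simp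
        rw [e9, e10, e11]
        ring
    _ ≤ D1 * (1 / n) + D2 * (1 / (B : ℝ) ^ j0) + 1 / n := by linarith
    _ ≤ _ := by nlinarith

/-- the second factor: the sum before the block is small -/
theorem before_block (q : ℕ) : ∃ C : ℝ, 0 < C ∧ ∀ (F : ℤ → ℝ), WinB F → (∀ v, v ≠ 0 → F v = 1 ∨ F v = -1) → F 0 = 0 →
    ∀ d : ℕ, 2 * q + 2 ≤ 2 * d + 1 → ∀ B j : ℕ, 2 ≤ B → ∃ H0 : ℕ, ∀ H : ℕ, H0 ≤ H →
    EQ d H (fun a => (Mf F a (B ^ j) ^ 2 / (B : ℝ) ^ (j + 1)) * (1 + Zt F (Bl B j) a ^ (2 * q))) ≤ C / B := by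
  classical
  obtain ⟨C2, hC2, hw2⟩ := W_gm (2 * q)
  set G := |gm (2 * q)| + C2 with hG
  refine ⟨3 + G, by positivity, fun F hF hF1 hF0 d hqd B j hB => ?_⟩
  obtain ⟨H1, h1⟩ := pair_disj F hF hF1 hF0 d 1 1
  obtain ⟨H2, h2⟩ := eventually_atTop.1 (ev_log ((B : ℝ) ^ (j + 1) + 1))
  refine ⟨max H1 H2, fun H hH => ?_⟩
  have a1 := h1 H ((le_max_left _ _).trans hH)
  have a2 := h2 H ((le_max_right _ _).trans hH)
  set L := Real.log H with hL
  have hB2 : (2 : ℝ) ≤ B := by exact_mod_cast hB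
  have hB0 : (0 : ℝ) < B := by linarith
  have hBp : (1 : ℝ) ≤ (B : ℝ) ^ (j + 1) := one_le_pow₀ (by linarith)
  have hBj : (1 : ℝ) ≤ (B : ℝ) ^ j := one_le_pow₀ (by linarith)
  have hL1 : 1 ≤ L := by linarith
  have hL0 : 0 < L := by linarith
  simp only [pow_one] at a1
  have hinvL : 1 / L ≤ 1 := by rw [div_le_one hL0]; exact hL1
  have hle : B ^ j ≤ B ^ (j + 1) := Nat.pow_le_pow_right (by omega) (by omega)
  have hb1 : ∀ t ∈ Tn (B ^ j), |(t : ℝ)| ≤ L := by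
    apply Tn_bd
    have h4 : ((B ^ j : ℕ) : ℝ) ≤ ((B ^ (j + 1) : ℕ) : ℝ) := by exact_mod_cast hle
    push_cast at h4 ⊢
    linarith
  have hb2 : ∀ t ∈ Bl B j, |(t : ℝ)| ≤ L := by
    apply Bl_bd
    push_cast
    linarith
  have hdis : Disjoint (Tn (B ^ j)) (Bl B j) := by
    unfold Bl
    exact disjoint_sdiff
  have k1 := (a1 (Tn (B ^ j)) (Bl B j) hb1 hb2 2 (2 * q) (by omega)).1 hdis
  have k2 := (a1 (Tn (B ^ j)) (Bl B j) hb1 hb2 2 (2 * q) (by omega)).2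
  rw [Tn_card, W_two] at k1 k2
  have hcard : (1 : ℝ) ≤ (Bl B j).card := by
    exact_mod_cast le_trans (Nat.one_le_pow _ _ (by omega)) (Bl_card_ge B j hB)
  have hsq : 1 ≤ Real.sqrt (Bl B j).card ^ (2 * q) := one_le_pow₀ (Real.one_le_sqrt.2 hcard)
  have e1 : (fun a : Fin (d + 1) → ℤ => (Mf F a (B ^ j) ^ 2 / (B : ℝ) ^ (j + 1)) * (1 + Zt F (Bl B j) a ^ (2 * q))) =
      fun a => (1 / (B : ℝ) ^ (j + 1)) * Sf F (Tn (B ^ j)) a ^ 2 +
        (1 / ((B : ℝ) ^ (j + 1) * Real.sqrt (Bl B j).card ^ (2 * q))) * (Sf F (Tn (B ^ j)) a ^ 2 * Sf F (Bl B j) a ^ (2 * q)) := by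
    funext a
    rw [Mf_eq]
    unfold Zt
    rw [div_pow]
    field_simp
  rw [e1, EQ_add d H (fun a => (1 / (B : ℝ) ^ (j + 1)) * Sf F (Tn (B ^ j)) a ^ 2), EQ_mul, EQ_mul]
  set E1 := EQ d H (fun a => Sf F (Tn (B ^ j)) a ^ 2) with hE1
  set E2 := EQ d H (fun a => Sf F (Tn (B ^ j)) a ^ 2 * Sf F (Bl B j) a ^ (2 * q)) with hE2
  set s := Real.sqrt (Bl B j).card ^ (2 * q) with hs
  have hs0 : 0 < s := by linarith
  have m1 : E1 ≤ 2 * (B : ℝ) ^ j := by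
    have := (abs_le.1 k2).2
    push_cast at this
    linarith
  have m2 : E2 / s ≤ (B : ℝ) ^ j * G + (B : ℝ) ^ j := by
    have q1 := (abs_le.1 k1).2
    have q2 : W (Bl B j).card (2 * q) / s ≤ G := by
      have q3 := (abs_le.1 (hw2 (Bl B j).card (by exact_mod_cast hcard))).2
      have q4 : C2 / ((Bl B j).card : ℝ) ≤ C2 := div_le_self hC2 hcard
      have q5 := le_abs_self (gm (2 * q))
      linarith
    have q6 : E2 ≤ ((B ^ j : ℕ) : ℝ) * W (Bl B j).card (2 * q) + 1 := by linarith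
    have q7 : W (Bl B j).card (2 * q) ≤ G * s := by rwa [div_le_iff₀ hs0] at q2
    rw [div_le_iff₀ hs0]
    push_cast at q6
    have q8 : (B : ℝ) ^ j * W (Bl B j).card (2 * q) ≤ (B : ℝ) ^ j * (G * s) := mul_le_mul_of_nonneg_left q7 (by positivity)
    have q9 : (1 : ℝ) ≤ (B : ℝ) ^ j * s := one_le_mul_of_one_le_of_one_le hBj hsq
    nlinarith
  have e5 : 1 / (B : ℝ) ^ (j + 1) * E1 + 1 / ((B : ℝ) ^ (j + 1) * s) * E2 = (E1 + E2 / s) / (B : ℝ) ^ (j + 1) := by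
    field_simp
  rw [e5, div_le_div_iff₀ (by positivity) hB0, pow_succ]
  have : E1 + E2 / s ≤ (3 + G) * (B : ℝ) ^ j := by nlinarith
  calc (E1 + E2 / s) * (B : ℝ) ≤ ((3 + G) * (B : ℝ) ^ j) * B := mul_le_mul_of_nonneg_right this hB0.le
    _ = _ := by ring

end Pool.Agent.TP975.LR
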