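import Mathlib
import Pool.Agent.TP975.LR.Lr1

/-!
Oscillation of the initial sums: a polynomial that is negative on a half line and has a positive Gaussian mean.
-/

set_option autoImplicit false

namespace Pool.Agent.TP975.LR

open Finset Filter
open Pool.Agent.H807R2.Dav
open Pool.Agent.TP975.RP

lemma gm_nonneg (r : ℕ) : 0 ≤ gm r := by
  unfold gm
  split_ifs
  · exact Nat.cast_nonneg _
  · exact le_rfl

lemma gm_odd (s : ℕ) : gm (2 * s + 1) = 0 := by
  unfold gm
  rw [if_neg (by rw [Nat.not_even_iff_odd]; exact ⟨s, rfl⟩)]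

lemma gm_step (s : ℕ) : gm (2 * (s + 1)) = (2 * s + 1) * gm (2 * s) := by
  unfold gm
  rw [if_pos (even_two_mul _), if_pos (even_two_mul _)]
  have e : 2 * (s + 1) - 1 = 2 * s + 1 := by omega
  rw [e]
  rcases Nat.eq_zero_or_pos s with h | h
  · subst h
    simp
  · obtain ⟨t, rfl⟩ : ∃ t, s = t + 1 := ⟨s - 1, by omega⟩
    have e1 : 2 * (t + 1) + 1 = (2 * (t + 1) - 1) + 2 := by omega
    rw [e1, Nat.doubleFactorial_add_two]
    push_cast
    have e2 : ((2 * (t + 1) - 1 : ℕ) : ℝ) = 2 * t + 1 := by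
      have : 2 * (t + 1) - 1 = 2 * t + 1 := by omega
      rw [this]; push_cast; ring
    rw [e2]
    ring

lemma gm_even_pos (s : ℕ) : 1 ≤ gm (2 * s) := by
  induction s with
  | zero => simp [gm]
  | succ s ih =>
    rw [gm_step]
    have : (0 : ℝ) ≤ s := Nat.cast_nonneg _
    nlinarith

lemma gm_even_mono (s t : ℕ) (h : s ≤ t) : gm (2 * s) ≤ gm (2 * t) := by
  induction t, h using Nat.le_induction with
  | base => exact le_rfl
  | succ t _ ih =>
    rw [gm_step]
    have h1 := gm_even_pos t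
    have : (0 : ℝ) ≤ t := Nat.cast_nonneg _
    nlinarith

lemma gm_le (j s : ℕ) (h : j ≤ 2 * s + 1) : gm j ≤ gm (2 * s) := by
  rcases Nat.even_or_odd' j with ⟨t, ht | ht⟩
  · rw [ht]
    exact gm_even_mono t s (by omega)
  · rw [ht, gm_odd]
    exact gm_nonneg _

/-- the Gaussian mean of `(z - κ) (z + c) ^ (2 s)` -/
theorem pos_mean (κ : ℝ) (hκ : 0 < κ) : ∃ s : ℕ, ∃ c : ℝ, 0 < c ∧
    0 < ∑ j ∈ range (2 * s + 1), (((2 * s).choose j : ℝ) * c ^ (2 * s - j)) * (gm (j + 1) - κ * gm j) := by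
  obtain ⟨s0, hs0⟩ := exists_nat_gt (κ * Real.exp (κ + 1))
  set s := s0 + 1 with hs
  have hs1 : (1 : ℝ) ≤ s := by rw [hs]; push_cast; linarith [(Nat.cast_nonneg s0 : (0 : ℝ) ≤ s0)]
  have hsp : (0 : ℝ) < s := by linarith
  set c : ℝ := (κ + 1) / (2 * s) with hc
  have hc0 : 0 < c := by positivity
  refine ⟨s, c, hc0, ?_⟩
  set b : ℕ → ℝ := fun j => ((2 * s).choose j : ℝ) * c ^ (2 * s - j) with hb
  have hb0 : ∀ j, 0 ≤ b j := fun j => by positivity
  have hbs : ∑ j ∈ range (2 * s + 1), b j ≤ Real.exp (κ + 1) := by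
    have e1 : ∑ j ∈ range (2 * s + 1), b j = (1 + c) ^ (2 * s) := by
      rw [add_pow]
      refine sum_congr rfl fun j _ => ?_
      rw [hb]
      simp only [one_pow, one_mul]
      ring
    rw [e1]
    have h1 : 1 + c ≤ Real.exp c := by linarith [Real.add_one_le_exp c]
    calc (1 + c) ^ (2 * s) ≤ (Real.exp c) ^ (2 * s) := pow_le_pow_left₀ (by linarith) h1 _
      _ = Real.exp (κ + 1) := by
          rw [← Real.exp_nat_mul]
          congr 1
          rw [hc]
          push_cast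
          field_simp
  show 0 < ∑ j ∈ range (2 * s + 1), b j * (gm (j + 1) - κ * gm j)
  have e2 : 2 * s + 1 = (2 * s0 + 1) + 1 + 1 := by omega
  rw [e2, sum_range_succ, sum_range_succ]
  have t1 : b (2 * s0 + 1) * (gm (2 * s0 + 1 + 1) - κ * gm (2 * s0 + 1)) = (κ + 1) * gm (2 * s) := by
    rw [gm_odd, mul_zero, sub_zero]
    have e3 : 2 * s0 + 1 + 1 = 2 * s := by omega
    rw [e3, hb]
    simp only
    have e4 : (2 * s).choose (2 * s0 + 1) = 2 * s := by
      have : 2 * s0 + 1 = 2 * s - 1 := by omega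
      rw [this, Nat.choose_symm (by omega : 1 ≤ 2 * s)]
      exact Nat.choose_one_right _
    have e5 : 2 * s - (2 * s0 + 1) = 1 := by omega
    rw [e4, e5, pow_one, hc]
    push_cast
    field_simp
  have t2 : b (2 * s0 + 1 + 1) * (gm (2 * s0 + 1 + 1 + 1) - κ * gm (2 * s0 + 1 + 1)) = -(κ * gm (2 * s)) := by
    have e3 : 2 * s0 + 1 + 1 = 2 * s := by omega
    rw [e3, gm_odd, hb]
    simp only
    rw [Nat.choose_self, Nat.sub_self, pow_zero]
    push_cast
    ring
  have t3 : -(κ * gm (2 * s0) * Real.exp (κ + 1)) ≤ ∑ j ∈ range (2 * s0 + 1), b j * (gm (j + 1) - κ * gm j) := by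
    have h2 : ∑ j ∈ range (2 * s0 + 1), b j ≤ Real.exp (κ + 1) := by
      refine le_trans (sum_le_sum_of_subset_of_nonneg (range_mono (by omega)) fun j _ _ => hb0 j) hbs
    calc -(κ * gm (2 * s0) * Real.exp (κ + 1)) ≤ -(κ * gm (2 * s0) * ∑ j ∈ range (2 * s0 + 1), b j) := by
          have := mul_le_mul_of_nonneg_left h2 (mul_nonneg hκ.le (gm_nonneg (2 * s0)))
          linarith
      _ = ∑ j ∈ range (2 * s0 + 1), b j * (-(κ * gm (2 * s0))) := by
          rw [← sum_mul]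
          ring
      _ ≤ _ := by
          refine sum_le_sum fun j hj => ?_
          rw [mem_range] at hj
          apply mul_le_mul_of_nonneg_left _ (hb0 j)
          have h3 := gm_nonneg (j + 1)
          have h4 := mul_le_mul_of_nonneg_left (gm_le j s0 (by omega)) hκ.le
          linarith
  have h5 : gm (2 * s) = (2 * s0 + 1) * gm (2 * s0) := by rw [hs, gm_step]
  have h6 := gm_even_pos s0
  have h7 : κ * gm (2 * s0) * Real.exp (κ + 1) < gm (2 * s) := by
    rw [h5]
    have h8 : κ * Real.exp (κ + 1) < 2 * s0 + 1 := by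
      have : (0 : ℝ) ≤ s0 := Nat.cast_nonneg _
      linarith
    calc κ * gm (2 * s0) * Real.exp (κ + 1) = (κ * Real.exp (κ + 1)) * gm (2 * s0) := by ring
      _ < (2 * s0 + 1) * gm (2 * s0) := mul_lt_mul_of_pos_right h8 (by linarith)
  rw [t1, t2]
  linarith

lemma poly_expand (κ c z : ℝ) (s : ℕ) : (z - κ) * (z + c) ^ (2 * s) =
    ∑ j ∈ range (2 * s + 1), (((2 * s).choose j : ℝ) * c ^ (2 * s - j)) * (z ^ (j + 1) - κ * z ^ j) := by
  rw [add_pow, mul_sum]
  refine sum_congr rfl fun j _ => ?_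
  rw [pow_succ]
  ring

/-- the polynomial is bounded by an even polynomial -/
lemma poly_bound (κ c : ℝ) (hκ : 0 < κ) (hc : 0 < c) (s : ℕ) : ∃ C : ℝ, 0 < C ∧ ∀ z : ℝ,
    (z - κ) * (z + c) ^ (2 * s) ≤ C * (1 + z ^ (2 * (s + 1))) := by
  refine ⟨(1 + c) ^ (2 * s) * 2, by positivity, fun z => ?_⟩
  have hz0 : 0 ≤ z ^ (2 * (s + 1)) := (even_two_mul _).pow_nonneg _
  rcases le_or_gt z κ with h | h
  · have h1 : (z - κ) * (z + c) ^ (2 * s) ≤ 0 :=
      mul_nonpos_of_nonpos_of_nonneg (by linarith) ((even_two_mul _).pow_nonneg _)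
    have h2 : 0 ≤ (1 + c) ^ (2 * s) * 2 * (1 + z ^ (2 * (s + 1))) := by positivity
    linarith
  · have hz : 0 < z := by linarith
    have h1 : (z + c) ^ (2 * s) ≤ ((1 + c) * max 1 z) ^ (2 * s) := by
      apply pow_le_pow_left₀ (by linarith)
      have q1 := le_max_left 1 z
      have q2 := le_max_right 1 z
      nlinarith
    have h2 : z - κ ≤ max 1 z := by
      have := le_max_right 1 z
      linarith
    have hm : 1 ≤ max 1 z := le_max_left _ _
    have h3 : (z - κ) * (z + c) ^ (2 * s) ≤ max 1 z * ((1 + c) * max 1 z) ^ (2 * s) :=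
      mul_le_mul h2 h1 (by positivity) (by linarith)
    have h4 : (max 1 z) ^ (2 * s + 1) ≤ (max 1 z) ^ (2 * (s + 1)) := pow_le_pow_right₀ hm (by omega)
    have h5 : (max 1 z) ^ (2 * (s + 1)) ≤ 1 + z ^ (2 * (s + 1)) := by
      rcases le_total 1 z with h6 | h6
      · rw [max_eq_right h6]; linarith
      · rw [max_eq_left h6, one_pow]; linarith
    calc (z - κ) * (z + c) ^ (2 * s) ≤ max 1 z * ((1 + c) * max 1 z) ^ (2 * s) := h3
      _ = (1 + c) ^ (2 * s) * (max 1 z) ^ (2 * s + 1) := by rw [mul_pow, pow_succ (max 1 z)]; ring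
      _ ≤ (1 + c) ^ (2 * s) * (1 + z ^ (2 * (s + 1))) := mul_le_mul_of_nonneg_left (h4.trans h5) (by positivity)
      _ ≤ (1 + c) ^ (2 * s) * 2 * (1 + z ^ (2 * (s + 1))) := by
          have : 0 ≤ (1 + c) ^ (2 * s) * (1 + z ^ (2 * (s + 1))) := by positivity
          linarith

end Pool.Agent.TP975.LR
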