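import Mathlib
import Pool.Agent.TP975.LR.Lr2

/-!
Oscillation of the initial sums, both signs.
-/

set_option autoImplicit false

namespace Pool.Agent.TP975.LR

open Finset Filter
open Pool.Agent.H807R2.Dav
open Pool.Agent.TP975.RP

lemma EQ_markov (d H : ℕ) (X : (Fin (d + 1) → ℤ) → ℝ) (hX : ∀ a, 0 ≤ X a) (t : ℝ) (ht : 0 < t) :
    (((QQ d H).filter (fun a => t < X a)).card : ℝ) ≤ (QQ d H).card * (EQ d H X / t) := by
  have hQpos : (0 : ℝ) < (QQ d H).card := by rw [card_QQ]; positivity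
  have e2 : ((QQ d H).card : ℝ) * EQ d H X = ∑ a ∈ QQ d H, X a := by
    unfold EQ
    field_simp
  rw [mul_div_assoc', le_div_iff₀ ht, e2]
  calc (((QQ d H).filter (fun a => t < X a)).card : ℝ) * t = ∑ _a ∈ (QQ d H).filter (fun a => t < X a), t := by
        rw [sum_const, nsmul_eq_mul]
    _ ≤ ∑ a ∈ (QQ d H).filter (fun a => t < X a), X a := sum_le_sum fun a ha => (mem_filter.1 ha).2.le
    _ ≤ _ := sum_le_sum_of_subset_of_nonneg (filter_subset _ _) fun a _ _ => hX a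

/-- one step of the walk -/
lemma Mf_step {d : ℕ} (F : ℤ → ℝ) (a : Fin (d + 1) → ℤ) (B j : ℕ) (hB : 2 ≤ B) :
    Mf F a (B ^ (j + 1)) = Mf F a (B ^ j) + Zt F (Bl B j) a * Real.sqrt (Bl B j).card := by
  have hsub : Tn (B ^ j) ⊆ Tn (B ^ (j + 1)) := Tn_mono _ _ (Nat.pow_le_pow_right (by omega) (by omega))
  have hc : (0 : ℝ) < Real.sqrt (Bl B j).card := by
    apply Real.sqrt_pos.2
    have h1 := Bl_card_ge B j hB
    have h2 : 0 < B ^ j := by positivity
    exact_mod_cast lt_of_lt_of_le h2 h1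
  unfold Zt
  rw [div_mul_cancel₀ _ hc.ne', Mf_eq, Mf_eq]
  unfold Sf Bl
  have h := sum_sdiff (f := fun t : ℤ => F (ev a t)) hsub
  linarith

/-- the conclusion for one block -/
lemma block_concl {d : ℕ} (F : ℤ → ℝ) (a : Fin (d + 1) → ℤ) (B j : ℕ) (hB : 2 ≤ B) (K σ : ℝ) (hK : 0 < K)
    (hσ : σ = 1 ∨ σ = -1) (hY : Mf F a (B ^ j) ^ 2 / (B : ℝ) ^ (j + 1) < 1) (hZ : 2 * (K + 1) < σ * Zt F (Bl B j) a) :
    K * Real.sqrt ((B ^ (j + 1) : ℕ) : ℝ) ≤ σ * Mf F a (B ^ (j + 1)) := by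
  have hB2 : (2 : ℝ) ≤ B := by exact_mod_cast hB
  have hp : (0 : ℝ) < (B : ℝ) ^ (j + 1) := by positivity
  rw [div_lt_one hp] at hY
  set x : ℝ := Real.sqrt ((B ^ (j + 1) : ℕ) : ℝ) with hx
  have hx0 : 0 ≤ x := Real.sqrt_nonneg _
  have hx2 : x ^ 2 = (B : ℝ) ^ (j + 1) := by
    rw [hx, Real.sq_sqrt (Nat.cast_nonneg _)]
    push_cast
    rfl
  have hM : |Mf F a (B ^ j)| ≤ x := by
    apply abs_le_of_sq_le_sq _ hx0
    rw [hx2]
    exact hY.le
  set h : ℝ := Real.sqrt (Bl B j).card with hh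
  have hh0 : 0 ≤ h := Real.sqrt_nonneg _
  have hhx : x / 2 ≤ h := by
    rw [hh]
    apply Real.le_sqrt_of_sq_le
    rw [div_pow, hx2]
    have h1 : 2 * (Bl B j).card ≥ B ^ (j + 1) := by
      rw [Bl_card B j (by omega)]
      have h2 : 2 * B ^ j ≤ B ^ (j + 1) := by
        rw [pow_succ, mul_comm]
        exact Nat.mul_le_mul_left _ hB
      omega
    have h3 : ((B ^ (j + 1) : ℕ) : ℝ) ≤ ((2 * (Bl B j).card : ℕ) : ℝ) := by exact_mod_cast h1
    push_cast at h3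
    have h4 : (0 : ℝ) ≤ (Bl B j).card := Nat.cast_nonneg _
    linarith
  rw [Mf_step F a B j hB, ← hh, mul_add, ← mul_assoc]
  have h5 : -x ≤ σ * Mf F a (B ^ j) := by
    have h6 := abs_le.1 hM
    rcases hσ with h | h <;> rw [h] <;> linarith
  have h7 : 2 * (K + 1) * h ≤ σ * Zt F (Bl B j) a * h := mul_le_mul_of_nonneg_right hZ.le hh0
  have h8 : 2 * (K + 1) * (x / 2) ≤ 2 * (K + 1) * h := mul_le_mul_of_nonneg_left hhx (by positivity)
  linarith

/-- if the means are close to the Gaussian ones then some block is large -/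
lemma find_block (κ c : ℝ) (s : ℕ) (hκ : 0 < κ) (hc : 0 < c) (γ Cp τ : ℝ) (hCp : 0 < Cp) (hγ0 : 0 < γ)
    (hγ : γ = ∑ j ∈ range (2 * s + 1), (((2 * s).choose j : ℝ) * c ^ (2 * s - j)) * (gm (j + 1) - κ * gm j))
    (hpb : ∀ z : ℝ, (z - κ) * (z + c) ^ (2 * s) ≤ Cp * (1 + z ^ (2 * (s + 1))))
    (hτ : τ * ∑ j ∈ range (2 * s + 1), (((2 * s).choose j : ℝ) * c ^ (2 * s - j)) * (1 + κ) ≤ γ / 2)
    (n : ℕ) (hn : 1 ≤ n) (z Y : ℕ → ℝ) (hY : ∀ i, 0 ≤ Y i)
    (hz : ∀ r ≤ 2 * s + 1, |(∑ i ∈ range n, z i ^ r) / n - gm r| ≤ τ)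
    (hU : (∑ i ∈ range n, Y i * (1 + z i ^ (2 * (s + 1)))) / n ≤ γ / (4 * Cp)) :
    ∃ i ∈ range n, κ < z i ∧ Y i < 1 := by
  have hn0 : (0 : ℝ) < n := by exact_mod_cast hn
  set b : ℕ → ℝ := fun j => ((2 * s).choose j : ℝ) * c ^ (2 * s - j) with hb
  have hb0 : ∀ j, 0 ≤ b j := fun j => by positivity
  set mu : ℕ → ℝ := fun r => (∑ i ∈ range n, z i ^ r) / n with hmu
  have e1 : (∑ i ∈ range n, (z i - κ) * (z i + c) ^ (2 * s)) / n = ∑ j ∈ range (2 * s + 1), b j * (mu (j + 1) - κ * mu j) := by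
    have e2 : ∑ i ∈ range n, (z i - κ) * (z i + c) ^ (2 * s) =
        ∑ j ∈ range (2 * s + 1), b j * (∑ i ∈ range n, z i ^ (j + 1) - κ * ∑ i ∈ range n, z i ^ j) := by
      rw [sum_congr rfl fun i _ => poly_expand κ c (z i) s, sum_comm]
      refine sum_congr rfl fun j _ => ?_
      rw [← mul_sum, sum_sub_distrib, ← mul_sum]
    rw [e2, sum_div]
    refine sum_congr rfl fun j _ => ?_
    rw [hmu]
    ring
  have h1 : γ / 2 ≤ (∑ i ∈ range n, (z i - κ) * (z i + c) ^ (2 * s)) / n := by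
    rw [e1]
    have h2 : γ - τ * ∑ j ∈ range (2 * s + 1), b j * (1 + κ) ≤ ∑ j ∈ range (2 * s + 1), b j * (mu (j + 1) - κ * mu j) := by
      rw [hγ, mul_sum, ← sum_sub_distrib]
      refine sum_le_sum fun j hj => ?_
      rw [mem_range] at hj
      have h3 := abs_le.1 (hz (j + 1) (by omega))
      have h4 := abs_le.1 (hz j (by omega))
      have h5 : gm (j + 1) - κ * gm j - τ * (1 + κ) ≤ mu (j + 1) - κ * mu j := by
        have h6 : κ * mu j ≤ κ * (gm j + τ) := mul_le_mul_of_nonneg_left (by linarith [h4.2]) hκ.le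
        have h7 : gm (j + 1) - τ ≤ mu (j + 1) := by linarith [h3.1]
        linarith
      have h8 := mul_le_mul_of_nonneg_left h5 (hb0 j)
      have e3 : ((2 * s).choose j : ℝ) * c ^ (2 * s - j) = b j := rfl
      rw [e3]
      linarith
    linarith
  have h9 : Cp * ((∑ i ∈ range n, Y i * (1 + z i ^ (2 * (s + 1)))) / n) ≤ γ / 4 := by
    calc Cp * ((∑ i ∈ range n, Y i * (1 + z i ^ (2 * (s + 1)))) / n) ≤ Cp * (γ / (4 * Cp)) := mul_le_mul_of_nonneg_left hU hCp.le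
      _ = γ / 4 := by field_simp
  have h10 : ∑ i ∈ range n, Cp * (Y i * (1 + z i ^ (2 * (s + 1)))) < ∑ i ∈ range n, (z i - κ) * (z i + c) ^ (2 * s) := by
    rw [← mul_sum]
    have h11 : Cp * ((∑ i ∈ range n, Y i * (1 + z i ^ (2 * (s + 1)))) / n) < (∑ i ∈ range n, (z i - κ) * (z i + c) ^ (2 * s)) / n := by
      linarith
    rw [← mul_div_assoc, div_lt_div_iff_of_pos_right hn0] at h11
    exact h11
  obtain ⟨i, hi, hlt⟩ := exists_lt_of_sum_lt h10
  have hzp : 0 < 1 + z i ^ (2 * (s + 1)) := by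
    have := (even_two_mul (s + 1)).pow_nonneg (z i)
    linarith
  have h12 : 0 ≤ Cp * (Y i * (1 + z i ^ (2 * (s + 1)))) := mul_nonneg hCp.le (mul_nonneg (hY i) hzp.le)
  refine ⟨i, hi, ?_, ?_⟩
  · by_contra hcon
    push Not at hcon
    have h13 : (z i - κ) * (z i + c) ^ (2 * s) ≤ 0 :=
      mul_nonpos_of_nonpos_of_nonneg (by linarith) ((even_two_mul _).pow_nonneg _)
    linarith
  · have h14 := hpb (z i)
    have h15 : Cp * (Y i * (1 + z i ^ (2 * (s + 1)))) < Cp * (1 + z i ^ (2 * (s + 1))) := by linarith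
    have h16 : Y i * (1 + z i ^ (2 * (s + 1))) < 1 * (1 + z i ^ (2 * (s + 1))) := by
      rw [one_mul]
      exact lt_of_mul_lt_mul_left h15 hCp.le
    exact lt_of_mul_lt_mul_right h16 hzp.le

theorem osc (K : ℝ) (hK : 0 < K) : ∃ D : ℕ, ∀ (F : ℤ → ℝ), WinB F → (∀ v, v ≠ 0 → F v = 1 ∨ F v = -1) → F 0 = 0 →
    ∀ d : ℕ, D ≤ d → ∀ δ : ℝ, 0 < δ → ∀ x0 : ℕ, ∃ x1 : ℕ, ∃ H0 : ℕ, ∀ H : ℕ, H0 ≤ H →
    ∃ Bad ⊆ QQ d H, (Bad.card : ℝ) ≤ δ * (QQ d H).card ∧ ∀ a ∈ QQ d H, a ∉ Bad →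
    (∃ x : ℕ, x0 ≤ x ∧ x ≤ x1 ∧ K * Real.sqrt x ≤ Mf F a x) ∧ (∃ x : ℕ, x0 ≤ x ∧ x ≤ x1 ∧ Mf F a x ≤ -(K * Real.sqrt x)) := by
  classical
  set κ : ℝ := 2 * (K + 1) with hκd
  have hκ : 0 < κ := by positivity
  obtain ⟨s, c, hc, hγ0⟩ := pos_mean κ hκ
  set γ := ∑ j ∈ range (2 * s + 1), (((2 * s).choose j : ℝ) * c ^ (2 * s - j)) * (gm (j + 1) - κ * gm j) with hγ
  obtain ⟨Cp, hCp, hpb⟩ := poly_bound κ c hκ hc s
  set bs : ℝ := ∑ j ∈ range (2 * s + 1), (((2 * s).choose j : ℝ) * c ^ (2 * s - j)) * (1 + κ) with hbs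
  have hbs0 : 0 ≤ bs := sum_nonneg fun j _ => by positivity
  set τ : ℝ := γ / (2 * (bs + 1)) with hτd
  have hτ0 : 0 < τ := by positivity
  have hτ : τ * bs ≤ γ / 2 := by
    rw [hτd, div_mul_eq_mul_div, div_le_div_iff₀ (by positivity) (by norm_num)]
    nlinarith
  choose Cm hCm hmean using mean_blocks
  obtain ⟨Cy, hCy, hyb⟩ := before_block (s + 1)
  set Ct : ℝ := ∑ r ∈ range (2 * s + 2), Cm r with hCt
  have hCt0 : 0 ≤ Ct := sum_nonneg fun r _ => (hCm r).le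
  refine ⟨2 * s + 2, fun F hF hF1 hF0 d hd δ hδ x0 => ?_⟩
  obtain ⟨B0, hB0⟩ := exists_nat_gt (8 * Cy * Cp / (γ * δ))
  set B := B0 + 2 with hB
  have hB2 : 2 ≤ B := by omega
  have hBr : 8 * Cy * Cp / (γ * δ) < B := by
    have : (B0 : ℝ) ≤ B := by rw [hB]; push_cast; linarith
    linarith
  have hBp : (0 : ℝ) < B := by
    have : (2 : ℝ) ≤ B := by exact_mod_cast hB2
    linarith
  obtain ⟨N0, hN0⟩ := exists_nat_gt (4 * Ct / (τ ^ 2 * δ))
  set n := N0 + x0 + 1 with hn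
  have hn1 : 1 ≤ n := by omega
  have hnr : 4 * Ct / (τ ^ 2 * δ) < n := by
    have : (N0 : ℝ) ≤ n := by rw [hn]; push_cast; linarith [(Nat.cast_nonneg x0 : (0 : ℝ) ≤ x0)]
    linarith
  have hn0 : (0 : ℝ) < n := by exact_mod_cast hn1
  have hmr : ∀ r ∈ range (2 * s + 2), ∃ H0 : ℕ, ∀ H : ℕ, H0 ≤ H →
      EQ d H (fun a => ((∑ i ∈ range n, Zt F (Bl B (n + i)) a ^ r) / n - gm r) ^ 2) ≤ Cm r * (1 / n + 1 / (B : ℝ) ^ n) :=
    fun r hr => hmean r F hF hF1 hF0 d (by rw [mem_range] at hr; omega) B n n hB2 hn1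
  choose! Hr hHr using hmr
  have hyr : ∀ i : ℕ, ∃ H0 : ℕ, ∀ H : ℕ, H0 ≤ H →
      EQ d H (fun a => (Mf F a (B ^ (n + i)) ^ 2 / (B : ℝ) ^ (n + i + 1)) * (1 + Zt F (Bl B (n + i)) a ^ (2 * (s + 1)))) ≤ Cy / B :=
    fun i => hyb F hF hF1 hF0 d (by omega) B (n + i) hB2
  choose Hy hHy using hyr
  refine ⟨B ^ (n + n), max ((range (2 * s + 2)).sup Hr) ((range n).sup Hy), fun H hH => ?_⟩
  have a1 : ∀ r ∈ range (2 * s + 2), _ := fun r hr => hHr r hr H ((Finset.le_sup hr).trans ((le_max_left _ _).trans hH))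
  have a2 : ∀ i ∈ range n, _ := fun i hi => hHy i H ((Finset.le_sup hi).trans ((le_max_right _ _).trans hH))
  have hQpos : (0 : ℝ) < (QQ d H).card := by rw [card_QQ]; positivity
  set E1 : ℕ → Finset (Fin (d + 1) → ℤ) := fun r => (QQ d H).filter (fun a =>
    τ ^ 2 < ((∑ i ∈ range n, Zt F (Bl B (n + i)) a ^ r) / n - gm r) ^ 2) with hE1
  set U : (Fin (d + 1) → ℤ) → ℝ := fun a => (1 / (n : ℝ)) * ∑ i ∈ range n,
    (Mf F a (B ^ (n + i)) ^ 2 / (B : ℝ) ^ (n + i + 1)) * (1 + Zt F (Bl B (n + i)) a ^ (2 * (s + 1))) with hU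
  have hU0 : ∀ a, 0 ≤ U a := fun a => by
    rw [hU]
    apply mul_nonneg (by positivity)
    apply sum_nonneg
    intro i _
    have := (even_two_mul (s + 1)).pow_nonneg (Zt F (Bl B (n + i)) a)
    positivity
  set E2 : Finset (Fin (d + 1) → ℤ) := (QQ d H).filter (fun a => γ / (4 * Cp) < U a) with hE2
  have hE1c : ∀ r ∈ range (2 * s + 2), ((E1 r).card : ℝ) ≤ Cm r * ((QQ d H).card * ((2 / n) / τ ^ 2)) := by
    intro r hr
    have h3 := EQ_markov d H (fun a => ((∑ i ∈ range n, Zt F (Bl B (n + i)) a ^ r) / n - gm r) ^ 2) (fun a => sq_nonneg _)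
      (τ ^ 2) (by positivity)
    refine h3.trans ?_
    have h4 := a1 r hr
    have h5 : 1 / (B : ℝ) ^ n ≤ 1 / n := by
      apply one_div_le_one_div_of_le hn0
      have h6 : n < B ^ n := Nat.lt_pow_self (by omega)
      exact_mod_cast h6.le
    have h6 : EQ d H (fun a => ((∑ i ∈ range n, Zt F (Bl B (n + i)) a ^ r) / n - gm r) ^ 2) ≤ Cm r * (2 / n) := by
      refine h4.trans (mul_le_mul_of_nonneg_left ?_ (hCm r).le)
      have : (2 : ℝ) / n = 1 / n + 1 / n := by ring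
      rw [this]
      linarith
    calc ((QQ d H).card : ℝ) * (EQ d H (fun a => ((∑ i ∈ range n, Zt F (Bl B (n + i)) a ^ r) / n - gm r) ^ 2) / τ ^ 2) ≤
        (QQ d H).card * ((Cm r * (2 / n)) / τ ^ 2) := by
          apply mul_le_mul_of_nonneg_left _ hQpos.le
          exact div_le_div_of_nonneg_right h6 (by positivity)
      _ = _ := by ring
  have hE2c : (E2.card : ℝ) ≤ (QQ d H).card * ((Cy / B) / (γ / (4 * Cp))) := by
    refine (EQ_markov d H U hU0 (γ / (4 * Cp)) (by positivity)).trans ?_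
    apply mul_le_mul_of_nonneg_left _ hQpos.le
    apply div_le_div_of_nonneg_right _ (by positivity)
    rw [hU, EQ_mul, EQ_sum]
    calc (1 / (n : ℝ)) * ∑ i ∈ range n, EQ d H (fun a => (Mf F a (B ^ (n + i)) ^ 2 / (B : ℝ) ^ (n + i + 1)) *
          (1 + Zt F (Bl B (n + i)) a ^ (2 * (s + 1)))) ≤ (1 / (n : ℝ)) * ∑ _i ∈ range n, Cy / B :=
          mul_le_mul_of_nonneg_left (sum_le_sum fun i hi => a2 i hi) (by positivity)
      _ = Cy / B := by
          rw [sum_const, card_range, nsmul_eq_mul]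
          field_simp
  refine ⟨(range (2 * s + 2)).biUnion E1 ∪ E2, ?_, ?_, ?_⟩
  · apply union_subset
    · intro a ha
      obtain ⟨r, _, har⟩ := mem_biUnion.1 ha
      exact (mem_filter.1 har).1
    · exact filter_subset _ _
  · have h3 : (((range (2 * s + 2)).biUnion E1 ∪ E2).card : ℝ) ≤ ((range (2 * s + 2)).biUnion E1).card + E2.card := by
      exact_mod_cast card_union_le _ _
    have h4 : (((range (2 * s + 2)).biUnion E1).card : ℝ) ≤ Ct * ((QQ d H).card * ((2 / n) / τ ^ 2)) := by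
      refine (card_bU _ _ _ hE1c).trans (le_of_eq ?_)
      rw [hCt, sum_mul]
    have h5 : Ct * ((2 / n) / τ ^ 2) ≤ δ / 2 := by
      rw [div_lt_iff₀ (by positivity)] at hnr
      rw [mul_div_assoc', mul_div_assoc', div_le_iff₀ (by positivity), div_le_iff₀ hn0]
      nlinarith
    have h6 : (Cy / B) / (γ / (4 * Cp)) ≤ δ / 2 := by
      rw [div_lt_iff₀ (by positivity)] at hBr
      rw [div_div_eq_mul_div, div_le_iff₀ hγ0, div_mul_eq_mul_div, div_le_iff₀ hBp]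
      nlinarith
    have h7 := mul_le_mul_of_nonneg_left h6 hQpos.le
    have h8 := mul_le_mul_of_nonneg_left h5 hQpos.le
    have h9 : Ct * ((QQ d H).card * ((2 / n) / τ ^ 2)) = (QQ d H).card * (Ct * ((2 / n) / τ ^ 2)) := by ring
    rw [h9] at h4
    linarith
  · intro a ha hbad
    rw [mem_union, not_or] at hbad
    obtain ⟨hb1, hb2⟩ := hbad
    have hzr : ∀ r ≤ 2 * s + 1, |(∑ i ∈ range n, Zt F (Bl B (n + i)) a ^ r) / n - gm r| ≤ τ := by
      intro r hr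
      have h3 : ¬ τ ^ 2 < ((∑ i ∈ range n, Zt F (Bl B (n + i)) a ^ r) / n - gm r) ^ 2 := by
        intro hlt
        apply hb1
        exact mem_biUnion.2 ⟨r, mem_range.2 (by omega), mem_filter.2 ⟨ha, hlt⟩⟩
      push Not at h3
      exact abs_le_of_sq_le_sq h3 hτ0.le
    have hUa : U a ≤ γ / (4 * Cp) := by
      by_contra hcon
      push Not at hcon
      exact hb2 (mem_filter.2 ⟨ha, hcon⟩)
    have key : ∀ σ : ℝ, σ = 1 ∨ σ = -1 → ∃ x : ℕ, x0 ≤ x ∧ x ≤ B ^ (n + n) ∧ K * Real.sqrt x ≤ σ * Mf F a x := by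
      intro σ hσ
      have hσ2 : ∀ m : ℕ, σ ^ (2 * m) = 1 := by
        intro m
        rw [pow_mul]
        rcases hσ with h | h <;> rw [h] <;> norm_num
      obtain ⟨i, hi, hz, hY⟩ := find_block κ c s hκ hc γ Cp τ hCp hγ0 hγ hpb hτ n hn1
        (fun i => σ * Zt F (Bl B (n + i)) a) (fun i => Mf F a (B ^ (n + i)) ^ 2 / (B : ℝ) ^ (n + i + 1))
        (fun i => by positivity) (fun r hr => by
          have h3 := hzr r hr
          have e1 : (∑ i ∈ range n, (σ * Zt F (Bl B (n + i)) a) ^ r) / (n : ℝ) =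
              σ ^ r * ((∑ i ∈ range n, Zt F (Bl B (n + i)) a ^ r) / n) := by
            rw [mul_div_assoc', mul_sum]
            congr 1
            exact sum_congr rfl fun i _ => by rw [mul_pow]
          rw [e1]
          rcases Nat.even_or_odd' r with ⟨t, ht | ht⟩
          · rw [ht, hσ2, one_mul, ← ht]
            exact h3
          · have hg : gm r = 0 := by rw [ht, gm_odd]
            rw [hg, sub_zero] at h3 ⊢
            rw [abs_mul, abs_pow]
            have : |σ| = 1 := by rcases hσ with h | h <;> rw [h] <;> norm_num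
            rw [this, one_pow, one_mul]
            exact h3) (by
          refine le_trans (le_of_eq ?_) hUa
          rw [hU]
          simp only
          rw [div_eq_mul_one_div, mul_comm]
          congr 1
          refine sum_congr rfl fun i _ => ?_
          rw [mul_pow, hσ2, one_mul])
      rw [mem_range] at hi
      refine ⟨B ^ (n + i + 1), ?_, Nat.pow_le_pow_right (by omega) (by omega), ?_⟩
      · have h3 : n + i + 1 < B ^ (n + i + 1) := Nat.lt_pow_self (by omega)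
        omega
      · exact block_concl F a B (n + i) hB2 K σ hK hσ hY hz
    constructor
    · obtain ⟨x, h3, h4, h5⟩ := key 1 (Or.inl rfl)
      exact ⟨x, h3, h4, by linarith⟩
    · obtain ⟨x, h3, h4, h5⟩ := key (-1) (Or.inr rfl)
      exact ⟨x, h3, h4, by linarith⟩

end Pool.Agent.TP975.LR
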