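import Mathlib
import Pool.Agent.TP975.LR.La2

/-!
The main estimate for a linear form on the box of coefficients, with two small directions.
-/

set_option autoImplicit false

namespace Pool.Agent.TP975.LR

open Finset Filter
open Pool.Agent.H807R2.Dav
open Pool.Agent.TP975.RP

/-- a linear form -/
def lin {d : ℕ} (φ a : Fin (d + 1) → ℤ) : ℤ := ∑ c, a c * φ c

lemma lin_add {d : ℕ} (φ a b : Fin (d + 1) → ℤ) : lin φ (a + b) = lin φ a + lin φ b := by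
  unfold lin
  rw [← sum_add_distrib]
  refine sum_congr rfl fun c _ => ?_
  rw [Pi.add_apply]; ring

lemma lin_smul {d : ℕ} (φ : Fin (d + 1) → ℤ) (w : ℤ) (a : Fin (d + 1) → ℤ) : lin φ (w • a) = w * lin φ a := by
  unfold lin
  rw [mul_sum]
  refine sum_congr rfl fun c _ => ?_
  rw [Pi.smul_apply, smul_eq_mul]; ring

lemma lin_bd {d : ℕ} (φ a : Fin (d + 1) → ℤ) (T A : ℝ) (hT : ∀ c, |(φ c : ℝ)| ≤ T) (hA : ∀ c, |(a c : ℝ)| ≤ A) :
    |((lin φ a : ℤ) : ℝ)| ≤ (d + 1) * (A * T) := by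
  unfold lin
  push_cast
  refine (abs_sum_le_sum_abs _ _).trans ?_
  calc ∑ c : Fin (d + 1), |(a c : ℝ) * (φ c : ℝ)| ≤ ∑ c : Fin (d + 1), A * T := by
        refine sum_le_sum fun c _ => ?_
        rw [abs_mul]
        exact mul_le_mul (hA c) (hT c) (abs_nonneg _) ((abs_nonneg _).trans (hA c))
    _ = _ := by simp

set_option maxHeartbeats 1000000 in
/-- the main estimate for a linear form on the box and two small directions -/
theorem mlG (F : ℤ → ℝ) (hF : WinB F) (hFb : ∀ v, |F v| ≤ 1) (d A c1 U : ℕ) : ∃ H0 : ℕ, ∀ H : ℕ, H0 ≤ H →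
    ∀ β : ℤ, |(β : ℝ)| ≤ H * Real.log H ^ A → ∀ φ : Fin (d + 1) → ℤ, (∀ c, |(φ c : ℝ)| ≤ Real.log H ^ A) →
    ∀ u1 u2 : Fin (d + 1) → ℤ, (∀ c, |(u1 c : ℝ)| ≤ Real.log H ^ A) → (∀ c, |(u2 c : ℝ)| ≤ Real.log H ^ A) →
    lin φ u1 ≠ 0 → lin φ u2 ≠ 0 →
    ∀ Φ1 Φ2 : (Fin (d + 1) → ℤ) → ℝ, (∀ a, ∀ w : ℤ, Φ1 (a + w • u1) = Φ1 a) →
    (∀ a, ∀ w : ℤ, Φ2 (a + w • u2) = Φ2 a) →
    (∀ a : Fin (d + 1) → ℤ, (∀ c, |a c| ≤ 2 * H) → |Φ1 a| ≤ Real.log H ^ c1) →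
    (∀ a : Fin (d + 1) → ℤ, (∀ c, |a c| ≤ 2 * H) → |Φ2 a| ≤ Real.log H ^ c1) →
    |∑ a ∈ QQ d H, F (β + lin φ a) * (Φ1 a * Φ2 a)| ≤ (2 * H + 1 : ℝ) ^ (d + 1) / Real.log H ^ U := by
  set C := A + 1 with hC
  set B1 := U + A + 5 + 2 * c1 with hB1
  set U1 := B1 + 2 * c1 + U + 2 with hU1
  obtain ⟨N0, hN0⟩ := hF C U1
  have hev : ∀ᶠ H : ℕ in atTop, N0 ≤ H ∧ 1 * Real.log H ^ C ≤ H ∧ 2 * Real.log H ^ B1 ≤ H ∧
      ((8 : ℝ) * (d + 1) + 2 ^ (d + 1) + 8) ≤ Real.log H ∧ 3 ≤ H := by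
    filter_upwards [eventually_ge_atTop N0, ev_pow C 1, ev_pow B1 2,
      ev_log ((8 : ℝ) * (d + 1) + 2 ^ (d + 1) + 8), eventually_ge_atTop 3] with H a1 a3 a4 a5 a6
    exact ⟨a1, a3, a4, a5, a6⟩
  obtain ⟨H0, hH0⟩ := eventually_atTop.1 hev
  refine ⟨H0, fun H hH β hβ φ hφ u1 u2 hu1b hu2b hD1n hD2n Φ1 Φ2 hi1 hi2 hb1 hb2 => ?_⟩
  obtain ⟨a1, a3, a4, a5, a6⟩ := hH0 H hH
  rw [one_mul] at a3
  have hwin := hN0 H a1
  set L := Real.log H with hL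
  have hd0 : (0 : ℝ) ≤ d := Nat.cast_nonneg d
  have p2 : (0 : ℝ) < 2 ^ (d + 1) := by positivity
  have hL8 : 8 ≤ L := by nlinarith
  have hL0 : 0 < L := by linarith
  have hL1 : 1 ≤ L := by linarith
  have hH3 : (3 : ℝ) ≤ H := by exact_mod_cast a6
  have hHp : (0 : ℝ) < H := by linarith
  have hLA1 : 1 ≤ L ^ A := one_le_pow₀ hL1
  set D1 := lin φ u1 with hD1
  set D2 := lin φ u2 with hD2
  set K := ⌊(H : ℝ) / L ^ B1⌋₊ with hK
  have hK1 : (K : ℝ) ≤ H / L ^ B1 := Nat.floor_le (by positivity)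
  have hK2 : (H : ℝ) / (2 * L ^ B1) ≤ K := by
    have h1 := Nat.lt_floor_add_one ((H : ℝ) / L ^ B1)
    rw [← hK] at h1
    have h2 : (2 : ℝ) ≤ H / L ^ B1 := by rw [le_div_iff₀ (by positivity)]; exact a4
    have h3 : (H : ℝ) / (2 * L ^ B1) = (H / L ^ B1) / 2 := by field_simp
    rw [h3]; linarith
  have hKpos : (0 : ℝ) < K := lt_of_lt_of_le (by positivity) hK2
  set S : ℝ := 2 * K * L ^ A with hS
  have hSle : S ≤ H / L ^ (U + 4 + 2 * c1) := by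
    have h1 : S ≤ 2 * (H / L ^ B1) * L ^ A := by
      rw [hS]; gcongr
    refine h1.trans ?_
    have h2 : L ^ B1 = L ^ A * L ^ (U + 4 + 2 * c1) * L := by rw [hB1]; ring
    rw [h2, mul_div_assoc', div_mul_eq_mul_div, div_le_div_iff₀ (by positivity) (by positivity)]
    have h4 : 2 ≤ L := by linarith
    have h5 : 0 < (H : ℝ) * L ^ A * L ^ (U + 4 + 2 * c1) := by positivity
    nlinarith
  have hSH : S ≤ H := by
    refine hSle.trans (div_le_self hHp.le (one_le_pow₀ hL1))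
  -- values
  set V := ⌊(H : ℝ) * L ^ C⌋₊ with hV
  have hV1 : (V : ℝ) ≤ H * L ^ C := Nat.floor_le (by positivity)
  have hval : ∀ a : Fin (d + 1) → ℤ, (∀ c, |a c| ≤ 2 * H) → |((β + lin φ a : ℤ) : ℝ)| ≤ H * L ^ C := by
    intro a ha
    have h1 := lin_bd φ a (L ^ A) (2 * H) hφ (fun c => by
      have := ha c
      have h2 : ((|a c| : ℤ) : ℝ) ≤ ((2 * H : ℤ) : ℝ) := by exact_mod_cast this
      push_cast at h2
      exact h2)
    push_cast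
    refine (abs_add_le _ _).trans ((add_le_add hβ h1).trans ?_)
    rw [hC, pow_succ]
    have h2 : 0 < (H : ℝ) * L ^ A := by positivity
    nlinarith
  have hvalH : (H : ℝ) * L ^ C ≤ (H : ℝ) ^ 2 := by
    calc (H : ℝ) * L ^ C ≤ H * H := mul_le_mul_of_nonneg_left a3 hHp.le
      _ = _ := by ring
  -- translations
  have hs : ∀ w1 < K, ∀ w2 < K, ∀ c, |(((w1 : ℤ) • u1 + (w2 : ℤ) • u2) c : ℝ)| ≤ S := by
    intro w1 hw1 w2 hw2 c
    rw [Pi.add_apply, Pi.smul_apply, Pi.smul_apply, smul_eq_mul, smul_eq_mul]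
    push_cast
    have h1 : (w1 : ℝ) ≤ K := by exact_mod_cast hw1.le
    have h2 : (w2 : ℝ) ≤ K := by exact_mod_cast hw2.le
    refine (abs_add_le _ _).trans ?_
    rw [abs_mul, abs_mul, Nat.abs_cast, Nat.abs_cast]
    have h3 : (w1 : ℝ) * |(u1 c : ℝ)| ≤ K * L ^ A :=
      mul_le_mul h1 (hu1b c) (abs_nonneg _) hKpos.le
    have h4 : (w2 : ℝ) * |(u2 c : ℝ)| ≤ K * L ^ A :=
      mul_le_mul h2 (hu2b c) (abs_nonneg _) hKpos.le
    rw [hS]; linarith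
  set Ψ : (Fin (d + 1) → ℤ) → ℝ := fun a => F (β + lin φ a) * (Φ1 a * Φ2 a) with hΨ
  set Mψ : ℝ := 3 * L * (L ^ c1 * L ^ c1) with hMψ
  have hΨb : ∀ a : Fin (d + 1) → ℤ, (∀ c, |a c| ≤ 2 * H) → |Ψ a| ≤ Mψ := by
    intro a ha
    rw [hΨ]
    simp only
    rw [abs_mul, abs_mul]
    have h1 : |F (β + lin φ a)| ≤ 3 * L := (hFb _).trans (by linarith)
    have h2 := hb1 a ha
    have h3 := hb2 a ha
    have h4 : |Φ1 a| * |Φ2 a| ≤ L ^ c1 * L ^ c1 := mul_le_mul h2 h3 (abs_nonneg _) (by positivity)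
    exact mul_le_mul h1 h4 (by positivity) (by positivity)
  have hshift : ∀ w1 ∈ range K, ∀ w2 ∈ range K,
      |∑ a ∈ QQ d H, Ψ a - ∑ a ∈ QQ d H, Ψ (a + ((w1 : ℤ) • u1 + (w2 : ℤ) • u2))| ≤
        2 * ((d + 1) * S * (2 * H + 1) ^ d) * Mψ := by
    intro w1 hw1 w2 hw2
    rw [mem_range] at hw1 hw2
    exact shift_sum d H _ S (hs w1 hw1 w2 hw2) hSH Ψ Mψ hΨb
  -- inner sums
  have hinner : ∀ a ∈ QQ d H, |∑ w1 ∈ range K, ∑ w2 ∈ range K, Ψ (a + ((w1 : ℤ) • u1 + (w2 : ℤ) • u2))| ≤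
      (H / L ^ U1) * (K * (L ^ c1) ^ 2) := by
    intro a ha
    rw [mem_QQ] at ha
    have hsm : ∀ w1 < K, ∀ w2 < K, ∀ c, |(a + ((w1 : ℤ) • u1 + (w2 : ℤ) • u2)) c| ≤ 2 * H := by
      intro w1 hw1 w2 hw2 c
      rw [Pi.add_apply]
      have h1 := (hs w1 hw1 w2 hw2 c).trans hSH
      have h2 : |((w1 : ℤ) • u1 + (w2 : ℤ) • u2) c| ≤ (H : ℤ) := by exact_mod_cast h1
      have h3 := abs_add_le (a c) (((w1 : ℤ) • u1 + (w2 : ℤ) • u2) c)
      have h4 := ha c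
      omega
    have hev1 : ∀ w1 w2 : ℕ, β + lin φ (a + ((w1 : ℤ) • u1 + (w2 : ℤ) • u2)) = (β + lin φ a) + (w1 : ℤ) * D1 + (w2 : ℤ) * D2 := by
      intro w1 w2
      rw [lin_add, lin_add, lin_smul, lin_smul, ← hD1, ← hD2]; ring
    have hΦ1 : ∀ w1 w2 : ℕ, Φ1 (a + ((w1 : ℤ) • u1 + (w2 : ℤ) • u2)) = Φ1 (a + (w2 : ℤ) • u2) := by
      intro w1 w2
      rw [add_comm ((w1 : ℤ) • u1), ← add_assoc, hi1]
    have hΦ2 : ∀ w1 w2 : ℕ, Φ2 (a + ((w1 : ℤ) • u1 + (w2 : ℤ) • u2)) = Φ2 (a + (w1 : ℤ) • u1) := by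
      intro w1 w2
      rw [← add_assoc, hi2]
    set G1 : ℕ → ℂ := fun w => if w < K then ((Φ1 (a + (w : ℤ) • u2) : ℝ) : ℂ) else 0 with hG1
    set G2 : ℕ → ℂ := fun w => if w < K then ((Φ2 (a + (w : ℤ) • u1) : ℝ) : ℂ) else 0 with hG2
    have hK0 : 0 < K := by exact_mod_cast hKpos
    have hG1b : ∀ w, ‖G1 w‖ ≤ L ^ c1 := by
      intro w
      rw [hG1]
      simp only
      split_ifs with hw
      · rw [Complex.norm_real, Real.norm_eq_abs]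
        apply hb1
        intro c
        have := hsm 0 hK0 w hw c
        simpa using this
      · rw [norm_zero]; positivity
    have hG2b : ∀ w, ‖G2 w‖ ≤ L ^ c1 := by
      intro w
      rw [hG2]
      simp only
      split_ifs with hw
      · rw [Complex.norm_real, Real.norm_eq_abs]
        apply hb2
        intro c
        have := hsm w hw 0 hK0 c
        simpa using this
      · rw [norm_zero]; positivity
    have hmain := bil (2 * V + 1 + K * D1.natAbs + K * D2.natAbs) K (by omega)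
      (fun y => ((F y : ℝ) : ℂ)) (β + lin φ a) D1 D2 (-(V : ℤ)) V G1 G2 (L ^ c1) (H / L ^ U1)
      (by push_cast; have := Int.natCast_nonneg (K * D1.natAbs); have := Int.natCast_nonneg (K * D2.natAbs); push_cast at *; linarith)
      (fun α => hwin V hV1 (-(V : ℤ)) V le_rfl le_rfl α)
      (by
        intro w1 hw1 w2 hw2
        rw [← hev1, mem_Icc, ← abs_le]
        have h1 := hval _ (hsm w1 hw1 w2 hw2)
        have h2 : ((β + lin φ (a + ((w1 : ℤ) • u1 + (w2 : ℤ) • u2))).natAbs : ℝ) ≤ H * L ^ C := by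
          rw [Nat.cast_natAbs, Int.cast_abs]; exact h1
        have h3 : (β + lin φ (a + ((w1 : ℤ) • u1 + (w2 : ℤ) • u2))).natAbs ≤ V := Nat.le_floor h2
        rw [Int.abs_eq_natAbs]
        exact_mod_cast h3)
      hD1n hD2n (by omega) (by omega) hG1b hG2b
    refine le_trans (le_of_eq ?_) hmain
    rw [← Real.norm_eq_abs, ← Complex.norm_real]
    congr 1
    push_cast
    refine sum_congr rfl fun w1 hw1 => sum_congr rfl fun w2 hw2 => ?_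
    rw [mem_range] at hw1 hw2
    rw [hΨ, hG1, hG2]
    simp only [if_pos hw1, if_pos hw2]
    rw [hev1, hΦ1, hΦ2]
    push_cast
    ring
  -- assembly
  have hK2' : (K : ℝ) ^ 2 * |∑ a ∈ QQ d H, Ψ a| ≤ (K : ℝ) ^ 2 * (2 * ((d + 1) * S * (2 * H + 1) ^ d) * Mψ) +
      (2 * H + 1 : ℝ) ^ (d + 1) * ((H / L ^ U1) * (K * (L ^ c1) ^ 2)) := by
    have e1 : (K : ℝ) ^ 2 * ∑ a ∈ QQ d H, Ψ a = ∑ w1 ∈ range K, ∑ w2 ∈ range K,
        (∑ a ∈ QQ d H, Ψ a - ∑ a ∈ QQ d H, Ψ (a + ((w1 : ℤ) • u1 + (w2 : ℤ) • u2))) +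
        ∑ a ∈ QQ d H, ∑ w1 ∈ range K, ∑ w2 ∈ range K, Ψ (a + ((w1 : ℤ) • u1 + (w2 : ℤ) • u2)) := by
      have e2 : ∑ a ∈ QQ d H, ∑ w1 ∈ range K, ∑ w2 ∈ range K, Ψ (a + ((w1 : ℤ) • u1 + (w2 : ℤ) • u2)) =
          ∑ w1 ∈ range K, ∑ w2 ∈ range K, ∑ a ∈ QQ d H, Ψ (a + ((w1 : ℤ) • u1 + (w2 : ℤ) • u2)) := by
        rw [sum_comm]
        refine sum_congr rfl fun w1 _ => ?_
        rw [sum_comm]
      rw [e2]
      simp only [sum_sub_distrib, sum_const, card_range, nsmul_eq_mul]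
      ring
    have e3 : (K : ℝ) ^ 2 * |∑ a ∈ QQ d H, Ψ a| = |(K : ℝ) ^ 2 * ∑ a ∈ QQ d H, Ψ a| := by
      rw [abs_mul, abs_of_nonneg (by positivity : (0 : ℝ) ≤ (K : ℝ) ^ 2)]
    rw [e3, e1]
    refine (abs_add_le _ _).trans (add_le_add ?_ ?_)
    · refine (abs_sum_le_sum_abs _ _).trans ?_
      refine (sum_le_sum (g := fun _ => (K : ℝ) * (2 * ((d + 1) * S * (2 * H + 1) ^ d) * Mψ)) fun w1 hw1 => ?_).trans ?_
      · refine (abs_sum_le_sum_abs _ _).trans ?_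
        refine (sum_le_sum fun w2 hw2 => hshift w1 hw1 w2 hw2).trans ?_
        rw [sum_const, card_range, nsmul_eq_mul]
      · rw [sum_const, card_range, nsmul_eq_mul]
        apply le_of_eq; ring
    · refine (abs_sum_le_sum_abs _ _).trans ?_
      refine (sum_le_sum hinner).trans ?_
      rw [sum_const, card_QQ, nsmul_eq_mul]
      push_cast
      exact le_rfl
  have hQpos : (0 : ℝ) < (2 * H + 1 : ℝ) ^ (d + 1) := by positivity
  have hfirst : 2 * ((d + 1) * S * (2 * H + 1) ^ d) * Mψ ≤ (2 * H + 1 : ℝ) ^ (d + 1) / (2 * L ^ U) := by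
    have h1 : 2 * ((d + 1) * S * (2 * H + 1) ^ d) * Mψ ≤
        2 * ((d + 1) * (H / L ^ (U + 4 + 2 * c1)) * (2 * H + 1) ^ d) * Mψ := by gcongr
    refine h1.trans ?_
    rw [hMψ]
    have h2 : L ^ (U + 4 + 2 * c1) = L ^ U * (L ^ c1 * L ^ c1) * (L * L * L * L) := by ring
    rw [h2, le_div_iff₀ (by positivity)]
    have h3 : 2 * ((d + 1) * (H / (L ^ U * (L ^ c1 * L ^ c1) * (L * L * L * L))) * (2 * H + 1 : ℝ) ^ d) *
        (3 * L * (L ^ c1 * L ^ c1)) * (2 * L ^ U) = (2 * H) * (2 * H + 1 : ℝ) ^ d * ((6 * (d + 1)) / (L * L * L)) := by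
      field_simp
      ring
    rw [h3]
    have h4 : (6 * (d + 1)) / (L * L * L) ≤ 1 := by
      rw [div_le_one (by positivity)]
      have h5 : 6 * ((d : ℝ) + 1) ≤ L := by linarith
      nlinarith [mul_pos hL0 hL0, mul_le_mul hL1 hL1 (by norm_num) hL0.le]
    have h6 : (0 : ℝ) ≤ (2 * H + 1 : ℝ) ^ d := by positivity
    calc (2 * H) * (2 * H + 1 : ℝ) ^ d * ((6 * (d + 1)) / (L * L * L)) ≤ (2 * H) * (2 * H + 1 : ℝ) ^ d * 1 := by
          gcongr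
      _ ≤ (2 * H + 1 : ℝ) ^ (d + 1) := by rw [pow_succ]; nlinarith
  have hsecond : (2 * H + 1 : ℝ) ^ (d + 1) * ((H / L ^ U1) * (K * (L ^ c1) ^ 2)) ≤
      (K : ℝ) ^ 2 * ((2 * H + 1 : ℝ) ^ (d + 1) / (2 * L ^ U)) := by
    have h1 : (H : ℝ) ≤ 2 * L ^ B1 * K := by
      rw [div_le_iff₀ (by positivity)] at hK2
      linarith
    have h2 : (H / L ^ U1) * (K * (L ^ c1) ^ 2) ≤ (K : ℝ) ^ 2 * (1 / (2 * L ^ U)) := by
      rw [div_mul_eq_mul_div, mul_one_div, div_le_div_iff₀ (by positivity) (by positivity)]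
      have h3 : L ^ U1 = L ^ B1 * (L ^ c1) ^ 2 * L ^ U * (L * L) := by rw [hU1]; ring
      rw [h3]
      have h4 : (H : ℝ) * (K * (L ^ c1) ^ 2) * (2 * L ^ U) ≤ (2 * L ^ B1 * K) * (K * (L ^ c1) ^ 2) * (2 * L ^ U) := by
        gcongr
      refine h4.trans ?_
      have h5 : 4 ≤ L * L := by nlinarith
      have h6 : (0 : ℝ) ≤ (K : ℝ) ^ 2 * (L ^ B1 * (L ^ c1) ^ 2 * L ^ U) := by positivity
      nlinarith
    calc (2 * H + 1 : ℝ) ^ (d + 1) * ((H / L ^ U1) * (K * (L ^ c1) ^ 2)) ≤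
          (2 * H + 1 : ℝ) ^ (d + 1) * ((K : ℝ) ^ 2 * (1 / (2 * L ^ U))) := by gcongr
      _ = _ := by ring
  have hKsq : (0 : ℝ) < (K : ℝ) ^ 2 := by positivity
  have hfin : (K : ℝ) ^ 2 * |∑ a ∈ QQ d H, Ψ a| ≤ (K : ℝ) ^ 2 * ((2 * H + 1 : ℝ) ^ (d + 1) / L ^ U) := by
    refine hK2'.trans ?_
    have h1 := mul_le_mul_of_nonneg_left hfirst hKsq.le
    have h2 : (2 * H + 1 : ℝ) ^ (d + 1) / L ^ U = (2 * H + 1 : ℝ) ^ (d + 1) / (2 * L ^ U) +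
        (2 * H + 1 : ℝ) ^ (d + 1) / (2 * L ^ U) := by
      field_simp
      ring
    rw [h2, mul_add]
    exact add_le_add h1 hsecond
  exact le_of_mul_le_mul_left hfin hKsq

end Pool.Agent.TP975.LR
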