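import Mathlib
import Pool.Agent.TP975.LR.Le1
import Pool.Agent.TP975.LR.Ld1

/-!
Correlations and moments for a family of linear forms.
-/

set_option autoImplicit false

namespace Pool.Agent.TP975.LR

open Finset Filter
open Pool.Agent.H807R2.Dav
open Pool.Agent.TP975.RP

/-- small directions on which up to `d` of the forms vanish and the form `l0` does not -/
def Sep {d : ℕ} {ι : Type} (T : ℝ) (ψ : ι → Fin (d + 1) → ℤ) (l0 : ι) : Prop :=
  ∀ S : Finset ι, S.card ≤ d → l0 ∉ S → ∃ u : Fin (d + 1) → ℤ, (∀ c, |(u c : ℝ)| ≤ T) ∧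
    (∀ l ∈ S, lin (ψ l) u = 0) ∧ lin (ψ l0) u ≠ 0

theorem corrG (F : ℤ → ℝ) (hF : WinB F) (hFb : ∀ v, |F v| ≤ 1) (d A U : ℕ) : ∃ H0 : ℕ, ∀ H : ℕ, H0 ≤ H →
    ∀ (ι : Type) [DecidableEq ι], ∀ S : Finset ι, S.card ≤ 2 * d →
    ∀ (ψ : ι → Fin (d + 1) → ℤ) (β : ℤ) (l0 : ι), l0 ∉ S → (∀ c, |(ψ l0 c : ℝ)| ≤ Real.log H ^ A) →
    |(β : ℝ)| ≤ H * Real.log H ^ A → Sep (Real.log H ^ A) ψ l0 →
    ∀ g : ι → ℤ → ℝ, (∀ l, ∀ v : ℤ, |g l v| ≤ 1) →
    |∑ a ∈ QQ d H, F (β + lin (ψ l0) a) * ∏ l ∈ S, g l (lin (ψ l) a)| ≤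
      (QQ d H).card / Real.log H ^ U := by
  obtain ⟨H0, hH0⟩ := mlG F hF hFb d A 0 U
  refine ⟨H0, fun H hH ι _ S hSc ψ β l0 hl0 hψ hβ hsep g hg => ?_⟩
  have hml := hH0 H hH
  obtain ⟨S1, hS1, hS1c⟩ := exists_subset_card_eq (s := S) (n := min d S.card) (min_le_right _ _)
  have hS1d : S1.card ≤ d := hS1c.le.trans (min_le_left _ _)
  have hS2d : (S \ S1).card ≤ d := by
    rw [card_sdiff_of_subset hS1, hS1c]
    omega
  obtain ⟨u1, hu1b, hu1z, hu1n⟩ := hsep S1 hS1d (fun h => hl0 (hS1 h))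
  obtain ⟨u2, hu2b, hu2z, hu2n⟩ := hsep (S \ S1) hS2d (fun h => hl0 (Finset.mem_sdiff.1 h).1)
  have hmain := hml β hβ (ψ l0) hψ u1 u2 hu1b hu2b hu1n hu2n
    (fun b => ∏ l ∈ S1, g l (lin (ψ l) b)) (fun b => ∏ l ∈ S \ S1, g l (lin (ψ l) b))
    (by
      intro b w
      refine prod_congr rfl fun l hl => ?_
      rw [lin_add, lin_smul, hu1z l hl, mul_zero, add_zero])
    (by
      intro b w
      refine prod_congr rfl fun l hl => ?_
      rw [lin_add, lin_smul, hu2z l hl, mul_zero, add_zero])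
    (by
      intro b _
      rw [pow_zero]
      exact prod_le_one' _ _ fun l _ => hg l _)
    (by
      intro b _
      rw [pow_zero]
      exact prod_le_one' _ _ fun l _ => hg l _)
  refine le_trans (le_of_eq ?_) (hmain.trans (le_of_eq ?_))
  · congr 1
    refine sum_congr rfl fun b _ => ?_
    rw [← prod_sdiff hS1]
    ring
  · rw [card_QQ]; push_cast; rfl

lemma zero_cardG (d H : ℕ) (φ : Fin (d + 1) → ℤ) (hφ : φ ≠ 0) (β : ℤ) :
    (((QQ d H).filter (fun a => β + lin φ a = 0)).card : ℝ) ≤ (2 * H + 1 : ℝ) ^ d := by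
  classical
  obtain ⟨c0, hc0⟩ : ∃ c, φ c ≠ 0 := by
    by_contra h
    push Not at h
    exact hφ (funext h)
  have h1 : ((QQ d H).filter (fun a => β + lin φ a = 0)).card ≤
      (Fintype.piFinset (fun _ : Fin d => Icc (-(H : ℤ)) H)).card := by
    apply card_le_card_of_injOn (fun a (i : Fin d) => a (c0.succAbove i))
    · intro a ha
      rw [mem_coe, mem_filter] at ha
      rw [mem_coe, Fintype.mem_piFinset]
      intro i
      have := (Fintype.mem_piFinset.1 ha.1) (c0.succAbove i)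
      exact this
    · intro a ha b hb hab
      rw [mem_coe, mem_filter] at ha hb
      have h2 : ∀ i : Fin d, a (c0.succAbove i) = b (c0.succAbove i) := fun i => congrFun hab i
      have h3 := ha.2.trans hb.2.symm
      unfold lin at h3
      rw [Fin.sum_univ_succAbove _ c0, Fin.sum_univ_succAbove (fun c => b c * φ c) c0] at h3
      simp only [h2] at h3
      have h4 : a c0 * φ c0 = b c0 * φ c0 := by linarith
      have h5 := mul_right_cancel₀ hc0 h4
      funext i
      by_cases hi : i = c0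
      · rw [hi, h5]
      · obtain ⟨j, rfl⟩ := Fin.exists_succAbove_eq hi
        exact h2 j
  rw [Fintype.card_piFinset_const, Int.card_Icc] at h1
  have h2 : ((H : ℤ) + 1 - -(H : ℤ)).toNat = 2 * H + 1 := by omega
  rw [h2] at h1
  exact_mod_cast h1

/-- the mean over the sign vectors -/
noncomputable def EG (ι : Type) [Fintype ι] [DecidableEq ι] (Y : (ι → Bool) → ℝ) : ℝ :=
  (∑ s : ι → Bool, Y s) / 2 ^ Fintype.card ι

lemma EG_prod (ι : Type) [Fintype ι] [DecidableEq ι] (g : ι → Bool → ℝ) :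
    EG ι (fun s => ∏ t, g t (s t)) = ∏ t, ((g t true + g t false) / 2) := by
  classical
  unfold EG
  have h1 : ∑ s : ι → Bool, ∏ t, g t (s t) = ∏ t, ∑ b : Bool, g t b := by
    rw [prod_univ_sum, Fintype.piFinset_univ]
  rw [h1]
  have h2 : ∏ t : ι, ((g t true + g t false) / 2) = (∏ t : ι, (g t true + g t false)) / 2 ^ Fintype.card ι := by
    rw [prod_div_distrib, prod_const, card_univ]
  rw [h2]
  congr 1
  refine prod_congr rfl fun t _ => ?_
  rw [Fintype.sum_bool]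

lemma EG_sum {κ : Type} (ι : Type) [Fintype ι] [DecidableEq ι] (S : Finset κ) (Y : κ → (ι → Bool) → ℝ) :
    EG ι (fun s => ∑ i ∈ S, Y i s) = ∑ i ∈ S, EG ι (Y i) := by
  unfold EG
  rw [sum_comm, sum_div]

lemma EG_smul (ι : Type) [Fintype ι] [DecidableEq ι] (c : ℝ) (Y : (ι → Bool) → ℝ) :
    EG ι (fun s => c * Y s) = c * EG ι Y := by
  unfold EG
  rw [← mul_sum, mul_div_assoc]

lemma EG_mono (ι : Type) [Fintype ι] [DecidableEq ι] (Y Z : (ι → Bool) → ℝ) (h : ∀ s, Y s ≤ Z s) :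
    EG ι Y ≤ EG ι Z := by
  unfold EG
  exact div_le_div_of_nonneg_right (sum_le_sum fun s _ => h s) (by positivity)

lemma EG_half (ι : Type) [Fintype ι] [DecidableEq ι] (Y Z : (ι → Bool) → ℝ) :
    EG ι (fun s => (Y s + Z s) / 2) = (EG ι Y + EG ι Z) / 2 := by
  unfold EG
  rw [← sum_div, sum_add_distrib]
  ring

/-- Khintchine's inequality for even moments -/
lemma khin (ι : Type) [Fintype ι] [DecidableEq ι] (W : ι → ℝ) (m : ℕ) (hm : 1 ≤ m) :
    EG ι (fun s => (∑ t, W t * sg (s t)) ^ (2 * m)) ≤ 2 * (2 * m).factorial * (∑ t, W t ^ 2) ^ m := by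
  classical
  set σ2 := ∑ t, W t ^ 2 with hσ2
  have hσ0 : 0 ≤ σ2 := sum_nonneg fun t _ => sq_nonneg _
  rcases hσ0.eq_or_lt with h0 | hpos
  · have hW : ∀ t, W t = 0 := by
      intro t
      have := (sum_eq_zero_iff_of_nonneg (fun t _ => sq_nonneg (W t))).1 h0.symm t (mem_univ t)
      exact pow_eq_zero_iff (two_ne_zero) |>.1 this
    have h1 : EG ι (fun s => (∑ t, W t * sg (s t)) ^ (2 * m)) = 0 := by
      unfold EG
      rw [sum_eq_zero, zero_div]
      intro s _
      rw [sum_eq_zero fun t _ => by rw [hW t, zero_mul], zero_pow (by omega)]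
    rw [h1]
    positivity
  set σ := Real.sqrt σ2 with hσ
  have hσpos : 0 < σ := Real.sqrt_pos.2 hpos
  have hσsq : σ ^ 2 = σ2 := Real.sq_sqrt hpos.le
  have hpt : ∀ x : ℝ, x ^ (2 * m) ≤ (2 * m).factorial * ((Real.exp x + Real.exp (-x)) / 2) := by
    intro x
    have h1 := Real.hasSum_cosh x
    have h2 := h1.summable.le_tsum m (fun n _ => by
      rw [pow_mul]
      positivity)
    rw [h1.tsum_eq, Real.cosh_eq] at h2
    have h3 : (0 : ℝ) < (2 * m).factorial := by exact_mod_cast Nat.factorial_pos _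
    rw [div_le_iff₀ h3] at h2
    linarith
  have hexp : ∀ ε : ℝ, (ε = 1 ∨ ε = -1) → EG ι (fun s => Real.exp (ε * ∑ t, (W t / σ) * sg (s t))) ≤ Real.exp (1 / 2) := by
    intro ε hε
    have e1 : (fun s : ι → Bool => Real.exp (ε * ∑ t, (W t / σ) * sg (s t))) =
        fun s => ∏ t, (fun (t : ι) (b : Bool) => Real.exp (ε * ((W t / σ) * sg b))) t (s t) := by
      funext s
      rw [mul_sum, Real.exp_sum]
    rw [e1]
    refine (le_of_eq (EG_prod ι (fun (t : ι) (b : Bool) => Real.exp (ε * ((W t / σ) * sg b))))).trans ?_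
    have e2 : ∀ t : ι, (Real.exp (ε * ((W t / σ) * sg true)) + Real.exp (ε * ((W t / σ) * sg false))) / 2 ≤
        Real.exp ((W t / σ) ^ 2 / 2) := by
      intro t
      have h1 := Real.cosh_le_exp_half_sq (W t / σ)
      rw [Real.cosh_eq] at h1
      rcases hε with h | h
      · rw [h]
        simp only [sg, if_true, Bool.false_eq_true, if_false, mul_one, one_mul, mul_neg]
        exact h1
      · rw [h]
        simp only [sg, if_true, Bool.false_eq_true, if_false, mul_one, one_mul, mul_neg, neg_mul, neg_neg]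
        linarith
    refine (prod_le_prod (fun t _ => by positivity) fun t _ => e2 t).trans ?_
    rw [← Real.exp_sum]
    apply Real.exp_le_exp.2
    rw [← sum_div]
    have e3 : ∑ t, (W t / σ) ^ 2 = 1 := by
      simp only [div_pow]
      rw [← sum_div, hσsq, ← hσ2]
      exact div_self hpos.ne'
    rw [e3]
  have hnorm : EG ι (fun s => (∑ t, (W t / σ) * sg (s t)) ^ (2 * m)) ≤ 2 * (2 * m).factorial := by
    have h1 := EG_mono ι _ _ (fun s => hpt (∑ t, (W t / σ) * sg (s t)))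
    refine h1.trans ?_
    rw [EG_smul]
    have h2 : EG ι (fun s => (Real.exp (∑ t, (W t / σ) * sg (s t)) + Real.exp (-∑ t, (W t / σ) * sg (s t))) / 2) =
        (EG ι (fun s => Real.exp (1 * ∑ t, (W t / σ) * sg (s t))) +
          EG ι (fun s => Real.exp ((-1) * ∑ t, (W t / σ) * sg (s t)))) / 2 := by
      rw [← EG_half]
      congr 1
      funext s
      rw [one_mul, neg_one_mul]
    rw [h2]
    have h3 := hexp 1 (Or.inl rfl)
    have h4 := hexp (-1) (Or.inr rfl)
    have h5 : Real.exp (1 / 2) ≤ 2 := by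
      have h6 : Real.exp (1 / 2) ^ 2 = Real.exp 1 := by
        rw [← Real.exp_nat_mul]; norm_num
      have h7 := Real.exp_one_lt_d9
      nlinarith [Real.exp_pos (1 / 2 : ℝ)]
    have h6 : (0 : ℝ) ≤ (2 * m).factorial := Nat.cast_nonneg _
    nlinarith
  have hsc : (fun s : ι → Bool => (∑ t, W t * sg (s t)) ^ (2 * m)) =
      fun s => σ2 ^ m * (∑ t, (W t / σ) * sg (s t)) ^ (2 * m) := by
    funext s
    have h1 : ∑ t, (W t / σ) * sg (s t) = (∑ t, W t * sg (s t)) / σ := by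
      rw [sum_div]
      refine sum_congr rfl fun t _ => ?_
      ring
    rw [h1, div_pow, ← hσsq, ← pow_mul]
    field_simp
  rw [hsc, EG_smul]
  calc σ2 ^ m * EG ι (fun s => (∑ t, W t / σ * sg (s t)) ^ (2 * m)) ≤ σ2 ^ m * (2 * (2 * m).factorial) :=
        mul_le_mul_of_nonneg_left hnorm (by positivity)
    _ = _ := by ring

/-- mixed moments -/
theorem mixedG (F : ℤ → ℝ) (hF : WinB F) (hF1 : ∀ v, v ≠ 0 → F v = 1 ∨ F v = -1) (hF0 : F 0 = 0) (d A U : ℕ) :
    ∃ H0 : ℕ, ∀ H : ℕ, H0 ≤ H → ∀ (ι : Type) [Fintype ι] [DecidableEq ι], ∀ (ψ : ι → Fin (d + 1) → ℤ) (β : ι → ℤ),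
    (∀ l c, |(ψ l c : ℝ)| ≤ Real.log H ^ A) → (∀ l, |(β l : ℝ)| ≤ H * Real.log H ^ A) →
    (∀ l, Sep (Real.log H ^ A) ψ l) → ∀ r : ℕ, r ≤ 2 * d + 1 →
    ∀ u : Fin r → ι, |EQ d H (fun a => ∏ l, F (β (u l) + lin (ψ (u l)) a)) - EG ι (fun s => ∏ l, sg (s (u l)))| ≤
      1 / Real.log H ^ U := by
  classical
  have hFb : ∀ v, |F v| ≤ 1 := by
    intro v
    by_cases hv : v = 0
    · rw [hv, hF0]; simp
    · rcases hF1 v hv with h | h <;> rw [h] <;> simp
  obtain ⟨H1, h1⟩ := corrG F hF hFb d A U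
  obtain ⟨H2, h2⟩ := eventually_atTop.1 (ev_pow U (2 * d + 1))
  obtain ⟨H3, h3⟩ := eventually_atTop.1 (ev_log 1)
  refine ⟨max H1 (max H2 H3), fun H hH ι _ _ ψ β hψ hβ hsep r hr u => ?_⟩
  have a1 := h1 H ((le_max_left _ _).trans hH) ι
  have a2 := h2 H (((le_max_left _ _).trans (le_max_right _ _)).trans hH)
  have a3 := h3 H (((le_max_right _ _).trans (le_max_right _ _)).trans hH)
  set L := Real.log H with hL
  have hL0 : 0 < L := by linarith
  have hLU : 0 < L ^ U := by positivity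
  have hQpos : (0 : ℝ) < (QQ d H).card := by rw [card_QQ]; positivity
  have hψ0 : ∀ l, ψ l ≠ 0 := by
    intro l h
    obtain ⟨v, _, _, hv⟩ := hsep l ∅ (by simp) (by simp)
    apply hv
    rw [h]
    unfold lin
    simp
  -- powers
  set T : Finset ι := univ.image u with hT
  set μ : ι → ℕ := fun t => (univ.filter (fun l => u l = t)).card with hμ
  have hprodF : ∀ a : Fin (d + 1) → ℤ, ∏ l, F (β (u l) + lin (ψ (u l)) a) = ∏ t ∈ T, F (β t + lin (ψ t) a) ^ μ t := by
    intro a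
    rw [hT, ← prod_comp (fun t : ι => F (β t + lin (ψ t) a)) u]
  have hprodS : ∀ s : ι → Bool, ∏ l, sg (s (u l)) = ∏ t, sg (s t) ^ μ t := by
    intro s
    rw [prod_comp (fun t : ι => sg (s t)) u]
    apply prod_subset (subset_univ _)
    intro t _ ht
    have : μ t = 0 := by
      rw [hμ]
      simp only
      rw [card_eq_zero, filter_eq_empty_iff]
      intro l _ hl
      exact ht (mem_image.2 ⟨l, mem_univ _, hl⟩)
    show sg (s t) ^ μ t = 1
    rw [this, pow_zero]
  have hES : EG ι (fun s => ∏ l, sg (s (u l))) = ∏ t : ι, ((1 + (-1 : ℝ) ^ μ t) / 2) := by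
    have e1 : (fun s : ι → Bool => ∏ l, sg (s (u l))) = fun s => ∏ t, (fun (t : ι) (b : Bool) => sg b ^ μ t) t (s t) := by
      funext s
      rw [hprodS s]
    rw [e1]
    refine (EG_prod ι (fun (t : ι) (b : Bool) => sg b ^ μ t)).trans ?_
    refine prod_congr rfl fun t _ => ?_
    simp [sg]
  by_cases hodd : ∃ t0 ∈ T, Odd (μ t0)
  · obtain ⟨t0, ht0, ho⟩ := hodd
    have hz : EG ι (fun s => ∏ l, sg (s (u l))) = 0 := by
      rw [hES]
      apply prod_eq_zero (mem_univ t0)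
      rw [ho.neg_one_pow]
      norm_num
    rw [hz, sub_zero]
    have hTc : (T.erase t0).card ≤ 2 * d := by
      rw [card_erase_of_mem ht0]
      have h4 : T.card ≤ r := (card_image_le.trans (by rw [card_univ, Fintype.card_fin]))
      omega
    have q1 := a1 (T.erase t0) hTc ψ (β t0) t0 (notMem_erase _ _) (hψ t0) (hβ t0) (hsep t0)
      (fun t v => F (β t + v) ^ μ t) (by
      intro t v
      rw [abs_pow]
      exact pow_le_one₀ (abs_nonneg _) (hFb _))
    have q2 : ∀ a ∈ QQ d H, ∏ l, F (β (u l) + lin (ψ (u l)) a) = F (β t0 + lin (ψ t0) a) *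
        ∏ t ∈ T.erase t0, F (β t + lin (ψ t) a) ^ μ t := by
      intro a _
      rw [hprodF a]
      have q3 := mul_prod_erase T (fun t : ι => F (β t + lin (ψ t) a) ^ μ t) ht0
      rw [← q3]
      congr 1
      show F (β t0 + lin (ψ t0) a) ^ μ t0 = _
      obtain ⟨n, hn⟩ := ho
      by_cases hv : β t0 + lin (ψ t0) a = 0
      · rw [hv, hF0, hn, zero_pow (by omega)]
      · rw [hn, pow_succ, pow_mul]
        rcases hF1 _ hv with h | h <;> rw [h] <;> norm_num
    unfold EQ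
    rw [abs_div, abs_of_pos hQpos, div_le_iff₀ hQpos, sum_congr rfl q2]
    refine q1.trans (le_of_eq ?_)
    ring
  · push Not at hodd
    have heven : ∀ t : ι, Even (μ t) := by
      intro t
      by_cases ht : t ∈ T
      · exact Nat.not_odd_iff_even.1 (hodd t ht)
      · have : μ t = 0 := by
          rw [hμ]
          simp only
          rw [card_eq_zero, filter_eq_empty_iff]
          intro l _ hl
          exact ht (mem_image.2 ⟨l, mem_univ _, hl⟩)
        rw [this]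
        exact Even.zero
    have hz : EG ι (fun s => ∏ l, sg (s (u l))) = 1 := by
      rw [hES]
      apply prod_eq_one
      intro t _
      rw [(heven t).neg_one_pow]
      norm_num
    rw [hz]
    have hval : ∀ a ∈ QQ d H, (∀ l, β (u l) + lin (ψ (u l)) a ≠ 0) → ∏ l, F (β (u l) + lin (ψ (u l)) a) = 1 := by
      intro a _ hne
      rw [hprodF a]
      apply prod_eq_one
      intro t ht
      obtain ⟨l, _, rfl⟩ := mem_image.1 ht
      obtain ⟨n, hn⟩ := heven (u l)
      rw [hn, ← two_mul, pow_mul]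
      rcases hF1 _ (hne l) with h | h <;> rw [h] <;> norm_num
    have hdiff : |∑ a ∈ QQ d H, (∏ l, F (β (u l) + lin (ψ (u l)) a) - 1)| ≤ (2 * d + 1) * (2 * H + 1 : ℝ) ^ d := by
      refine (abs_sum_le_sum_abs _ _).trans ?_
      have h4 : ∀ a ∈ QQ d H, |∏ l, F (β (u l) + lin (ψ (u l)) a) - 1| ≤
          ∑ l, if β (u l) + lin (ψ (u l)) a = 0 then (1 : ℝ) else 0 := by
        intro a ha
        by_cases hne : ∀ l, β (u l) + lin (ψ (u l)) a ≠ 0
        · rw [hval a ha hne, sub_self, abs_zero]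
          exact sum_nonneg fun l _ => by split_ifs <;> norm_num
        · push Not at hne
          obtain ⟨l, hl⟩ := hne
          have h5 : ∏ l, F (β (u l) + lin (ψ (u l)) a) = 0 := prod_eq_zero (mem_univ l) (by rw [hl, hF0])
          rw [h5, zero_sub, abs_neg, abs_one]
          have h6 := single_le_sum (f := fun l => if β (u l) + lin (ψ (u l)) a = 0 then (1 : ℝ) else 0)
            (fun l _ => by split_ifs <;> norm_num) (mem_univ l)
          simp only [hl, if_true] at h6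
          exact h6
      refine (sum_le_sum h4).trans ?_
      rw [sum_comm]
      have h5 : ∀ l, ∑ a ∈ QQ d H, (if β (u l) + lin (ψ (u l)) a = 0 then (1 : ℝ) else 0) ≤ (2 * H + 1 : ℝ) ^ d := by
        intro l
        rw [← sum_filter, sum_const, nsmul_eq_mul, mul_one]
        exact zero_cardG d H _ (hψ0 _) _
      refine (sum_le_sum fun l _ => h5 l).trans ?_
      rw [sum_const, card_univ, Fintype.card_fin, nsmul_eq_mul]
      apply mul_le_mul_of_nonneg_right _ (by positivity)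
      exact_mod_cast hr
    have h4 : EQ d H (fun a => ∏ l, F (β (u l) + lin (ψ (u l)) a)) - 1 =
        (∑ a ∈ QQ d H, (∏ l, F (β (u l) + lin (ψ (u l)) a) - 1)) / (QQ d H).card := by
      unfold EQ
      rw [sum_sub_distrib, sum_const, nsmul_eq_mul, mul_one, sub_div, div_self hQpos.ne']
    rw [h4, abs_div, abs_of_pos hQpos, div_le_div_iff₀ hQpos hLU]
    refine (mul_le_mul_of_nonneg_right hdiff hLU.le).trans ?_
    rw [card_QQ]
    push_cast
    rw [one_mul, pow_succ]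
    have h5 : (2 * (d : ℝ) + 1) * L ^ U ≤ H := a2
    have h6 : (0 : ℝ) ≤ (2 * (H : ℝ) + 1) ^ d := by positivity
    have h7 : (0 : ℝ) ≤ H := Nat.cast_nonneg _
    calc (2 * (d : ℝ) + 1) * (2 * (H : ℝ) + 1) ^ d * L ^ U = (2 * (H : ℝ) + 1) ^ d * ((2 * (d : ℝ) + 1) * L ^ U) := by ring
      _ ≤ (2 * (H : ℝ) + 1) ^ d * (2 * H + 1) := mul_le_mul_of_nonneg_left (by linarith) h6

/-- high moments of weighted sums -/
theorem momG (F : ℤ → ℝ) (hF : WinB F) (hF1 : ∀ v, v ≠ 0 → F v = 1 ∨ F v = -1) (hF0 : F 0 = 0) (d A U : ℕ) :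
    ∃ H0 : ℕ, ∀ H : ℕ, H0 ≤ H → ∀ (ι : Type) [Fintype ι] [DecidableEq ι], ∀ (ψ : ι → Fin (d + 1) → ℤ) (β : ι → ℤ),
    (∀ l c, |(ψ l c : ℝ)| ≤ Real.log H ^ A) → (∀ l, |(β l : ℝ)| ≤ H * Real.log H ^ A) →
    (∀ l, Sep (Real.log H ^ A) ψ l) → ∀ m : ℕ, 1 ≤ m → m ≤ d → ∀ W : ι → ℝ,
    EQ d H (fun a => (∑ t, W t * F (β t + lin (ψ t) a)) ^ (2 * m)) ≤
      2 * (2 * m).factorial * (∑ t, W t ^ 2) ^ m + (∑ t, |W t|) ^ (2 * m) / Real.log H ^ U := by
  classical
  obtain ⟨H0, hH0⟩ := mixedG F hF hF1 hF0 d A U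
  refine ⟨H0, fun H hH ι _ _ ψ β hψ hβ hsep m hm hmd W => ?_⟩
  have a1 := hH0 H hH ι ψ β hψ hβ hsep (2 * m) (by omega)
  have e1 : (fun a : Fin (d + 1) → ℤ => (∑ t, W t * F (β t + lin (ψ t) a)) ^ (2 * m)) =
      fun a => ∑ u ∈ Fintype.piFinset (fun _ : Fin (2 * m) => (univ : Finset ι)),
        (∏ l, W (u l)) * ∏ l, F (β (u l) + lin (ψ (u l)) a) := by
    funext a
    have h0 : (∑ t, W t * F (β t + lin (ψ t) a)) ^ (2 * m) = ∏ _l : Fin (2 * m), ∑ t : ι, W t * F (β t + lin (ψ t) a) := by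
      rw [prod_const, card_univ, Fintype.card_fin]
    rw [h0, prod_univ_sum]
    refine sum_congr rfl fun u _ => ?_
    rw [prod_mul_distrib]
  have e2 : (fun s : ι → Bool => (∑ t, W t * sg (s t)) ^ (2 * m)) =
      fun s => ∑ u ∈ Fintype.piFinset (fun _ : Fin (2 * m) => (univ : Finset ι)),
        (∏ l, W (u l)) * ∏ l, sg (s (u l)) := by
    funext s
    have h0 : (∑ t, W t * sg (s t)) ^ (2 * m) = ∏ _l : Fin (2 * m), ∑ t : ι, W t * sg (s t) := by
      rw [prod_const, card_univ, Fintype.card_fin]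
    rw [h0, prod_univ_sum]
    refine sum_congr rfl fun u _ => ?_
    rw [prod_mul_distrib]
  have hdiff : |EQ d H (fun a => (∑ t, W t * F (β t + lin (ψ t) a)) ^ (2 * m)) -
      EG ι (fun s => (∑ t, W t * sg (s t)) ^ (2 * m))| ≤ (∑ t, |W t|) ^ (2 * m) / Real.log H ^ U := by
    rw [e1, e2, EQ_sum, EG_sum, ← sum_sub_distrib]
    refine (abs_sum_le_sum_abs _ _).trans ?_
    have h1 : ∀ u ∈ Fintype.piFinset (fun _ : Fin (2 * m) => (univ : Finset ι)),
        |EQ d H (fun a => (∏ l, W (u l)) * ∏ l, F (β (u l) + lin (ψ (u l)) a)) -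
          EG ι (fun s => (∏ l, W (u l)) * ∏ l, sg (s (u l)))| ≤ (∏ l, |W (u l)|) * (1 / Real.log H ^ U) := by
      intro u _
      have h2 : EQ d H (fun a => (∏ l, W (u l)) * ∏ l, F (β (u l) + lin (ψ (u l)) a)) =
          (∏ l, W (u l)) * EQ d H (fun a => ∏ l, F (β (u l) + lin (ψ (u l)) a)) := by
        unfold EQ
        rw [← mul_sum, mul_div_assoc]
      rw [h2, EG_smul, ← mul_sub, abs_mul, abs_prod]
      exact mul_le_mul_of_nonneg_left (a1 u) (prod_nonneg fun _ _ => abs_nonneg _)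
    refine (sum_le_sum h1).trans ?_
    rw [← sum_mul, ← prod_univ_sum (fun _ : Fin (2 * m) => (univ : Finset ι)) (fun _ t => |W t|), prod_const, card_univ,
      Fintype.card_fin]
    apply le_of_eq
    ring
  have h3 := khin ι W m hm
  have h4 := (abs_le.1 hdiff).2
  linarith

end Pool.Agent.TP975.LR
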