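import Mathlib
import Pool.Agent.TP975.LR.Le2
import Pool.Agent.TP975.LR.Lb2

/-!
Binary forms: small forms vanishing at given points, primitive points.
-/

set_option autoImplicit false

namespace Pool.Agent.TP975.LR

open Finset Filter
open Pool.Agent.H807R2.Dav
open Pool.Agent.TP975.RP

/-- the values of the monomials of degree `d` at a point -/
def psi (d : ℕ) (w : ℤ × ℤ) : Fin (d + 1) → ℤ := fun c => w.1 ^ (c : ℕ) * w.2 ^ (d - (c : ℕ))

/-- `u` is the vector of the coefficients of the form `G` of degree `n` -/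
def FormP (n : ℕ) (u : ℕ → ℤ) (B : ℝ) (G : ℤ → ℤ → ℤ) : Prop :=
  (∀ c, n < c → u c = 0) ∧ (∀ c, |(u c : ℝ)| ≤ B) ∧
    ∀ x y : ℤ, ∑ c ∈ range (n + 1), u c * (x ^ c * y ^ (n - c)) = G x y

lemma mulstep (n : ℕ) (u : ℕ → ℤ) (B T : ℝ) (G : ℤ → ℤ → ℤ) (h : FormP n u B G) (α β : ℤ) (hα : |(α : ℝ)| ≤ T)
    (hβ : |(β : ℝ)| ≤ T) : ∃ u' : ℕ → ℤ, FormP (n + 1) u' (2 * T * B) (fun x y => (α * x + β * y) * G x y) := by
  obtain ⟨h1, h2, h3⟩ := h
  have hT : 0 ≤ T := (abs_nonneg _).trans hα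
  have hB : 0 ≤ B := (abs_nonneg _).trans (h2 0)
  refine ⟨fun c => β * u c + (if c = 0 then 0 else α * u (c - 1)), ?_, ?_, ?_⟩
  · intro c hc
    simp only
    rw [h1 c (by omega), if_neg (by omega), h1 (c - 1) (by omega)]
    ring
  · intro c
    simp only
    push_cast
    refine (abs_add_le _ _).trans ?_
    have e1 : |(β : ℝ) * (u c : ℝ)| ≤ T * B := by
      rw [abs_mul]; exact mul_le_mul hβ (h2 c) (abs_nonneg _) hT
    have e2 : |(if c = 0 then (0 : ℝ) else α * (u (c - 1) : ℝ))| ≤ T * B := by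
      split_ifs
      · rw [abs_zero]; positivity
      · rw [abs_mul]; exact mul_le_mul hα (h2 _) (abs_nonneg _) hT
    linarith
  · intro x y
    simp only [add_mul, sum_add_distrib]
    rw [← h3 x y]
    have e1 : ∑ c ∈ range (n + 1 + 1), β * u c * (x ^ c * y ^ (n + 1 - c)) =
        β * y * ∑ c ∈ range (n + 1), u c * (x ^ c * y ^ (n - c)) := by
      rw [sum_range_succ, h1 (n + 1) (by omega), mul_zero, zero_mul, add_zero, mul_sum]
      refine sum_congr rfl fun c hc => ?_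
      rw [mem_range] at hc
      have : n + 1 - c = (n - c) + 1 := by omega
      rw [this, pow_succ]
      ring
    have e2 : ∑ c ∈ range (n + 1 + 1), (if c = 0 then 0 else α * u (c - 1)) * (x ^ c * y ^ (n + 1 - c)) =
        α * x * ∑ c ∈ range (n + 1), u c * (x ^ c * y ^ (n - c)) := by
      rw [sum_range_succ', if_pos rfl, zero_mul, add_zero, mul_sum]
      refine sum_congr rfl fun c hc => ?_
      rw [if_neg (by omega), Nat.add_sub_cancel, pow_succ, show n + 1 - (c + 1) = n - c from by omega]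
      ring
    rw [e1, e2]
    ring

lemma form_finset {ι : Type} [DecidableEq ι] (w : ι → ℤ × ℤ) (T : ℝ) (hT1 : ∀ l, |((w l).1 : ℝ)| ≤ T)
    (hT2 : ∀ l, |((w l).2 : ℝ)| ≤ T) (S : Finset ι) :
    ∃ u : ℕ → ℤ, FormP S.card u ((2 * T) ^ S.card) (fun x y => ∏ l ∈ S, ((w l).2 * x - (w l).1 * y)) := by
  induction S using Finset.induction_on with
  | empty =>
    refine ⟨fun c => if c = 0 then 1 else 0, ?_, ?_, ?_⟩
    · intro c hc
      rw [card_empty] at hc
      simp only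
      rw [if_neg (by omega)]
    · intro c
      rw [card_empty, pow_zero]
      simp only
      split_ifs <;> simp
    · intro x y
      simp
  | insert i S hi ih =>
    obtain ⟨u, hu⟩ := ih
    obtain ⟨u', hu'⟩ := mulstep _ u _ T _ hu (w i).2 (-(w i).1) (hT2 i) (by
      push_cast; rw [abs_neg]; exact hT1 i)
    refine ⟨u', ?_⟩
    rw [card_insert_of_notMem hi, pow_succ, mul_comm ((2 * T) ^ S.card)]
    obtain ⟨a1, a2, a3⟩ := hu'
    refine ⟨a1, a2, fun x y => ?_⟩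
    rw [a3 x y]
    simp only
    rw [prod_insert hi]
    ring

lemma form_pad (n : ℕ) (u : ℕ → ℤ) (T : ℝ) (hT : 1 ≤ T) (G : ℤ → ℤ → ℤ) (h : FormP n u ((2 * T) ^ n) G) (α β : ℤ)
    (hα : |(α : ℝ)| ≤ 1) (hβ : |(β : ℝ)| ≤ 1) (k : ℕ) :
    ∃ u' : ℕ → ℤ, FormP (n + k) u' ((2 * T) ^ (n + k)) (fun x y => (α * x + β * y) ^ k * G x y) := by
  induction k with
  | zero =>
    refine ⟨u, ?_⟩
    simp only [pow_zero, one_mul]
    exact h
  | succ k ih =>
    obtain ⟨u', hu'⟩ := ih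
    obtain ⟨u'', a1, a2, a3⟩ := mulstep _ u' _ T _ hu' α β (hα.trans hT) (hβ.trans hT)
    refine ⟨u'', a1, ?_, ?_⟩
    · intro c
      refine (a2 c).trans (le_of_eq ?_)
      rw [← add_assoc, pow_succ]
      ring
    · intro x y
      refine (a3 x y).trans ?_
      simp only
      rw [pow_succ]
      ring

/-- small directions for points no two of which are parallel -/
lemma sep_psi (d : ℕ) {ι : Type} [DecidableEq ι] (w : ι → ℤ × ℤ) (T : ℝ) (hT : 1 ≤ T) (hT1 : ∀ l, |((w l).1 : ℝ)| ≤ T)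
    (hT2 : ∀ l, |((w l).2 : ℝ)| ≤ T) (l0 : ι) (h0 : w l0 ≠ 0) (hne : ∀ l, l ≠ l0 → (w l).2 * (w l0).1 ≠ (w l).1 * (w l0).2) :
    Sep ((2 * T) ^ d) (fun l => psi d (w l)) l0 := by
  intro S hS hl0
  obtain ⟨u, hu⟩ := form_finset w T hT1 hT2 S
  obtain ⟨α, β, hα, hβ, hab⟩ : ∃ α β : ℤ, |(α : ℝ)| ≤ 1 ∧ |(β : ℝ)| ≤ 1 ∧ α * (w l0).1 + β * (w l0).2 ≠ 0 := by
    by_cases h : (w l0).1 = 0
    · refine ⟨0, 1, by simp, by simp, ?_⟩
      intro h2
      apply h0
      ext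
      · exact h
      · simpa using h2
    · exact ⟨1, 0, by simp, by simp, by simpa using h⟩
  obtain ⟨u', a1, a2, a3⟩ := form_pad _ u T hT _ hu α β hα hβ (d - S.card)
  have e : S.card + (d - S.card) = d := by omega
  rw [e] at a1 a2 a3
  have hlin : ∀ l, lin (psi d (w l)) (fun c => u' (c : ℕ)) =
      (α * (w l).1 + β * (w l).2) ^ (d - S.card) * ∏ l' ∈ S, ((w l').2 * (w l).1 - (w l').1 * (w l).2) := by
    intro l
    have a4 := a3 (w l).1 (w l).2
    simp only at a4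
    rw [← a4]
    unfold lin psi
    rw [Fin.sum_univ_eq_sum_range (fun c => u' c * ((w l).1 ^ c * (w l).2 ^ (d - c)))]
  refine ⟨fun c => u' (c : ℕ), fun c => a2 _, ?_, ?_⟩
  · intro l hl
    rw [hlin l]
    rw [prod_eq_zero hl (by ring), mul_zero]
  · rw [hlin l0]
    refine mul_ne_zero (pow_ne_zero _ hab) (prod_ne_zero_iff.2 fun l hl => ?_)
    exact sub_ne_zero.2 (hne l (fun h => hl0 (h ▸ hl)))

lemma psi_bd (d : ℕ) (w : ℤ × ℤ) (T : ℝ) (hT : 1 ≤ T) (h1 : |(w.1 : ℝ)| ≤ T) (h2 : |(w.2 : ℝ)| ≤ T) (c : Fin (d + 1)) :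
    |(psi d w c : ℝ)| ≤ T ^ d := by
  unfold psi
  push_cast
  rw [abs_mul, abs_pow, abs_pow]
  have hc : (c : ℕ) ≤ d := by omega
  calc |(w.1 : ℝ)| ^ (c : ℕ) * |(w.2 : ℝ)| ^ (d - (c : ℕ)) ≤ T ^ (c : ℕ) * T ^ (d - (c : ℕ)) :=
        mul_le_mul (pow_le_pow_left₀ (abs_nonneg _) h1 _) (pow_le_pow_left₀ (abs_nonneg _) h2 _) (by positivity) (by positivity)
    _ = _ := by rw [← pow_add]; congr 1; omega

/-- the normalisation of the sign -/
def posZ (w : ℤ × ℤ) : Prop := 0 < w.1 ∨ (w.1 = 0 ∧ 0 < w.2)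

instance (w : ℤ × ℤ) : Decidable (posZ w) := by unfold posZ; infer_instance

/-- the multiplier of a point -/
def mulZ (v : ℤ × ℤ) : ℤ := if posZ v then Int.gcd v.1 v.2 else -(Int.gcd v.1 v.2)

/-- the primitive point -/
def dirZ (v : ℤ × ℤ) : ℤ × ℤ := (v.1 / mulZ v, v.2 / mulZ v)

lemma mulZ_dvd (v : ℤ × ℤ) : mulZ v ∣ v.1 ∧ mulZ v ∣ v.2 := by
  unfold mulZ
  split_ifs
  · exact ⟨Int.gcd_dvd_left .., Int.gcd_dvd_right ..⟩
  · exact ⟨(neg_dvd).2 (Int.gcd_dvd_left ..), (neg_dvd).2 (Int.gcd_dvd_right ..)⟩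

lemma dir_spec (v : ℤ × ℤ) (hv : v ≠ 0) : v.1 = mulZ v * (dirZ v).1 ∧ v.2 = mulZ v * (dirZ v).2 ∧
    IsCoprime (dirZ v).1 (dirZ v).2 ∧ posZ (dirZ v) ∧ mulZ v ≠ 0 := by
  have hg : Int.gcd v.1 v.2 ≠ 0 := by
    intro h
    rw [Int.gcd_eq_zero_iff] at h
    exact hv (Prod.ext h.1 h.2)
  have hg0 : (0 : ℤ) < Int.gcd v.1 v.2 := by positivity
  have hm : mulZ v ≠ 0 := by
    unfold mulZ
    split_ifs <;> omega
  obtain ⟨d1, d2⟩ := mulZ_dvd v
  have e1 : v.1 = mulZ v * (dirZ v).1 := (Int.mul_ediv_cancel' d1).symm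
  have e2 : v.2 = mulZ v * (dirZ v).2 := (Int.mul_ediv_cancel' d2).symm
  refine ⟨e1, e2, ?_, ?_, hm⟩
  · rw [Int.isCoprime_iff_gcd_eq_one]
    have h1 : Int.gcd v.1 v.2 = (mulZ v).natAbs * Int.gcd (dirZ v).1 (dirZ v).2 := by
      conv_lhs => rw [e1, e2]
      rw [Int.gcd_mul_left]
    have h2 : (mulZ v).natAbs = Int.gcd v.1 v.2 := by
      unfold mulZ
      split_ifs
      · rfl
      · rw [Int.natAbs_neg]; rfl
    rw [h2] at h1
    have h3 : Int.gcd v.1 v.2 * 1 = Int.gcd v.1 v.2 * Int.gcd (dirZ v).1 (dirZ v).2 := by rw [mul_one]; exact h1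
    exact (Nat.eq_of_mul_eq_mul_left (Nat.pos_of_ne_zero hg) h3).symm
  · by_cases hp : posZ v
    · have hmp : 0 < mulZ v := by unfold mulZ; rw [if_pos hp]; exact hg0
      rcases hp with h | ⟨h, h'⟩
      · left
        rw [e1] at h
        exact (mul_pos_iff_of_pos_left hmp).1 h
      · right
        rw [e1] at h
        rw [e2] at h'
        exact ⟨(mul_eq_zero.1 h).resolve_left hm, (mul_pos_iff_of_pos_left hmp).1 h'⟩
    · have hmn : mulZ v < 0 := by unfold mulZ; rw [if_neg hp]; omega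
      unfold posZ at hp
      push Not at hp
      obtain ⟨p1, p2⟩ := hp
      rcases p1.lt_or_eq with h | h
      · left
        rw [e1] at h
        by_contra hc
        push Not at hc
        nlinarith
      · right
        have p3 := p2 h
        rw [e1] at h
        have h4 := (mul_eq_zero.1 h).resolve_left hm
        refine ⟨h4, ?_⟩
        have h5 : v.2 ≠ 0 := by
          intro h6
          apply hv
          ext
          · rw [e1, h4, mul_zero]; rfl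
          · exact h6
        have h6 : v.2 < 0 := lt_of_le_of_ne p3 h5
        rw [e2] at h6
        by_contra hc
        push Not at hc
        nlinarith

lemma dir_unique (w w' : ℤ × ℤ) (hw : IsCoprime w.1 w.2) (hw' : IsCoprime w'.1 w'.2) (hp : posZ w) (hp' : posZ w')
    (h : w.2 * w'.1 = w.1 * w'.2) : w = w' := by
  have d1 : w.1 ∣ w'.1 := by
    have : w.1 ∣ w.2 * w'.1 := ⟨w'.2, h⟩
    exact hw.dvd_of_dvd_mul_left this
  have d2 : w'.1 ∣ w.1 := by
    have : w'.1 ∣ w'.2 * w.1 := ⟨w.2, by linarith⟩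
    exact hw'.dvd_of_dvd_mul_left this
  have d3 : w.2 ∣ w'.2 := by
    have : w.2 ∣ w.1 * w'.2 := ⟨w'.1, h.symm⟩
    exact hw.symm.dvd_of_dvd_mul_left this
  have d4 : w'.2 ∣ w.2 := by
    have : w'.2 ∣ w'.1 * w.2 := ⟨w.1, by linarith⟩
    exact hw'.symm.dvd_of_dvd_mul_left this
  have a1 : 0 ≤ w.1 := by rcases hp with h | h <;> omega
  have a2 : 0 ≤ w'.1 := by rcases hp' with h | h <;> omega
  have e1 : w.1 = w'.1 := Int.dvd_antisymm a1 a2 d1 d2
  by_cases h0 : w.1 = 0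
  · have h0' : w'.1 = 0 := by omega
    have b1 : 0 < w.2 := by rcases hp with h | h <;> omega
    have b2 : 0 < w'.2 := by rcases hp' with h | h <;> omega
    exact Prod.ext e1 (Int.dvd_antisymm b1.le b2.le d3 d4)
  · refine Prod.ext e1 ?_
    rw [← e1, mul_comm] at h
    exact mul_left_cancel₀ h0 h

lemma lamI_mul (a b : ℤ) : lamI (a * b) = lamI a * lamI b := by
  unfold lamI
  by_cases ha : a = 0
  · rw [ha]; simp
  by_cases hb : b = 0
  · rw [hb]; simp
  rw [if_neg (mul_ne_zero ha hb), if_neg ha, if_neg hb, Int.natAbs_mul,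
    ArithmeticFunction.cardFactors_mul (Int.natAbs_ne_zero.2 ha) (Int.natAbs_ne_zero.2 hb), pow_add]

lemma lamI_pow (a : ℤ) (n : ℕ) : lamI (a ^ n) = lamI a ^ n := by
  induction n with
  | zero => unfold lamI; simp
  | succ n ih => rw [pow_succ, lamI_mul, ih, pow_succ]

lemma lamI_val (v : ℤ) (hv : v ≠ 0) : lamI v = 1 ∨ lamI v = -1 := by
  unfold lamI
  rw [if_neg hv]
  exact neg_one_pow_eq_or ℝ _

lemma lin_psi_dir (d : ℕ) (a : Fin (d + 1) → ℤ) (v : ℤ × ℤ) (hv : v ≠ 0) :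
    lin (psi d v) a = mulZ v ^ d * lin (psi d (dirZ v)) a := by
  obtain ⟨e1, e2, _⟩ := dir_spec v hv
  unfold lin psi
  rw [mul_sum]
  refine sum_congr rfl fun c _ => ?_
  have hc : (c : ℕ) ≤ d := by omega
  have h1 : mulZ v ^ d = mulZ v ^ (c : ℕ) * mulZ v ^ (d - (c : ℕ)) := by
    rw [← pow_add]; congr 1; omega
  calc a c * (v.1 ^ (c : ℕ) * v.2 ^ (d - (c : ℕ))) =
      a c * ((mulZ v * (dirZ v).1) ^ (c : ℕ) * (mulZ v * (dirZ v).2) ^ (d - (c : ℕ))) := by rw [← e1, ← e2]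
    _ = _ := by rw [h1, mul_pow, mul_pow]; ring

end Pool.Agent.TP975.LR
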