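import Mathlib
import Pool.Agent.TP975.LR.Le3

/-!
Binary forms: the number of parallel pairs, the moment for one square.
-/

set_option autoImplicit false

namespace Pool.Agent.TP975.LR

open Finset Filter
open Pool.Agent.H807R2.Dav
open Pool.Agent.TP975.RP

/-- the max norm -/
def nm (w : ℤ × ℤ) : ℕ := max w.1.natAbs w.2.natAbs

/-- the points of a coset -/
def vt (q : ℕ) (ρ : ℤ × ℤ) (t : ℤ × ℤ) : ℤ × ℤ := (ρ.1 + q * t.1, ρ.2 + q * t.2)

lemma nm_pos (w : ℤ × ℤ) (hw : IsCoprime w.1 w.2) : 1 ≤ nm w := by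
  by_contra h
  have h1 : nm w = 0 := by omega
  unfold nm at h1
  have h2 : w.1.natAbs = 0 := by omega
  have h3 : w.2.natAbs = 0 := by omega
  rw [Int.natAbs_eq_zero] at h2 h3
  rw [h2, h3] at hw
  exact not_isCoprime_zero_zero hw

lemma n_le (q y : ℕ) (hq : 1 ≤ q) (ρ : ℤ × ℤ) (T : Finset (ℤ × ℤ))
    (hT : ∀ t ∈ T, ∀ t' ∈ T, |t.1 - t'.1| < y ∧ |t.2 - t'.2| < y) (w : ℤ × ℤ) (hw : IsCoprime w.1 w.2) :
    (T.filter (fun t => vt q ρ t ≠ 0 ∧ dirZ (vt q ρ t) = w)).card ≤ 2 * ((y - 1) / nm w) + 1 := by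
  classical
  set Tw := T.filter (fun t => vt q ρ t ≠ 0 ∧ dirZ (vt q ρ t) = w) with hTw
  rcases Tw.eq_empty_or_nonempty with h | ⟨t0, ht0⟩
  · rw [h, card_empty]; omega
  have hq0 : (q : ℤ) ≠ 0 := by exact_mod_cast (by omega : q ≠ 0)
  set s0 := (y - 1) / nm w with hs0
  set s : ℤ × ℤ → ℤ := fun t => (mulZ (vt q ρ t) - mulZ (vt q ρ t0)) / q with hs
  have key : ∀ t ∈ Tw, t.1 - t0.1 = s t * w.1 ∧ t.2 - t0.2 = s t * w.2 := by
    intro t ht
    rw [hTw, mem_filter] at ht ht0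
    obtain ⟨a1, a2, _⟩ := dir_spec _ ht.2.1
    obtain ⟨b1, b2, _⟩ := dir_spec _ ht0.2.1
    rw [ht.2.2] at a1 a2
    rw [ht0.2.2] at b1 b2
    have c1 : (q : ℤ) * (t.1 - t0.1) = (mulZ (vt q ρ t) - mulZ (vt q ρ t0)) * w.1 := by
      have e1 : (vt q ρ t).1 = ρ.1 + q * t.1 := rfl
      have e2 : (vt q ρ t0).1 = ρ.1 + q * t0.1 := rfl
      rw [sub_mul, ← a1, ← b1, e1, e2]; ring
    have c2 : (q : ℤ) * (t.2 - t0.2) = (mulZ (vt q ρ t) - mulZ (vt q ρ t0)) * w.2 := by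
      have e1 : (vt q ρ t).2 = ρ.2 + q * t.2 := rfl
      have e2 : (vt q ρ t0).2 = ρ.2 + q * t0.2 := rfl
      rw [sub_mul, ← a2, ← b2, e1, e2]; ring
    have hd : (q : ℤ) ∣ mulZ (vt q ρ t) - mulZ (vt q ρ t0) := by
      obtain ⟨x, z, hxz⟩ := hw
      refine ⟨x * (t.1 - t0.1) + z * (t.2 - t0.2), ?_⟩
      calc mulZ (vt q ρ t) - mulZ (vt q ρ t0) = (mulZ (vt q ρ t) - mulZ (vt q ρ t0)) * (x * w.1 + z * w.2) := by
            rw [hxz, mul_one]
        _ = x * ((mulZ (vt q ρ t) - mulZ (vt q ρ t0)) * w.1) + z * ((mulZ (vt q ρ t) - mulZ (vt q ρ t0)) * w.2) := by ring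
        _ = _ := by rw [← c1, ← c2]; ring
    have e : mulZ (vt q ρ t) - mulZ (vt q ρ t0) = q * s t := by
      rw [hs]; exact (Int.mul_ediv_cancel' hd).symm
    rw [e, mul_assoc] at c1 c2
    exact ⟨mul_left_cancel₀ hq0 c1, mul_left_cancel₀ hq0 c2⟩
  have hcard : Tw.card ≤ (Icc (-(s0 : ℤ)) s0).card := by
    apply card_le_card_of_injOn s
    · intro t ht
      rw [mem_coe] at ht
      obtain ⟨k1, k2⟩ := key t ht
      rw [mem_coe, mem_Icc, ← abs_le]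
      have hb := hT t (mem_filter.1 ht).1 t0 (mem_filter.1 ht0).1
      rw [k1, k2, abs_mul, abs_mul] at hb
      have h1 : (s t).natAbs * nm w ≤ y - 1 := by
        have h3 : (s t).natAbs * w.1.natAbs < y := by
          have := hb.1
          rw [Int.abs_eq_natAbs, Int.abs_eq_natAbs] at this
          exact_mod_cast this
        have h4 : (s t).natAbs * w.2.natAbs < y := by
          have := hb.2
          rw [Int.abs_eq_natAbs, Int.abs_eq_natAbs] at this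
          exact_mod_cast this
        unfold nm
        rcases max_choice w.1.natAbs w.2.natAbs with h | h <;> rw [h] <;> omega
      have h2 : (s t).natAbs ≤ s0 := by
        rw [hs0, Nat.le_div_iff_mul_le (by have := nm_pos w hw; omega)]
        exact h1
      rw [Int.abs_eq_natAbs]
      exact_mod_cast h2
    · intro t ht t' ht' heq
      rw [mem_coe] at ht ht'
      obtain ⟨k1, k2⟩ := key t ht
      obtain ⟨k3, k4⟩ := key t' ht'
      rw [heq] at k1 k2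
      exact Prod.ext (by linarith) (by linarith)
  rw [Int.card_Icc] at hcard
  omega

lemma nm_count (k : ℕ) (P : Finset (ℤ × ℤ)) : (P.filter (fun w => nm w = k)).card ≤ 4 * (2 * k + 1) := by
  classical
  have hsub : P.filter (fun w => nm w = k) ⊆ ({(k : ℤ), -(k : ℤ)} ×ˢ Icc (-(k : ℤ)) k) ∪
      (Icc (-(k : ℤ)) k ×ˢ {(k : ℤ), -(k : ℤ)}) := by
    intro w hw
    rw [mem_filter] at hw
    have h1 := hw.2
    unfold nm at h1
    rw [mem_union, mem_product, mem_product, mem_Icc, mem_Icc]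
    simp only [mem_insert, mem_singleton]
    omega
  refine (card_le_card hsub).trans ((card_union_le _ _).trans ?_)
  rw [card_product, card_product, Int.card_Icc]
  have h2 : (({(k : ℤ), -(k : ℤ)} : Finset ℤ)).card ≤ 2 := card_le_two
  have h3 : ((k : ℤ) + 1 - -(k : ℤ)).toNat = 2 * k + 1 := by omega
  rw [h3]
  nlinarith

lemma sum_nm (y : ℕ) (hy : 1 ≤ y) (P : Finset (ℤ × ℤ)) (hP : ∀ w ∈ P, 1 ≤ nm w ∧ nm w < y) :
    ∑ w ∈ P, 1 / (nm w : ℝ) ^ 2 ≤ 12 * (1 + Real.log y) := by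
  classical
  have h1 : ∑ k ∈ Icc 1 y, ∑ w ∈ P.filter (fun w => nm w = k), 1 / (nm w : ℝ) ^ 2 = ∑ w ∈ P, 1 / (nm w : ℝ) ^ 2 :=
    sum_fiberwise_of_maps_to (fun w hw => mem_Icc.2 ⟨(hP w hw).1, (hP w hw).2.le⟩) _
  rw [← h1]
  calc ∑ k ∈ Icc 1 y, ∑ w ∈ P.filter (fun w => nm w = k), 1 / (nm w : ℝ) ^ 2 ≤ ∑ k ∈ Icc 1 y, 12 * (1 / (k : ℝ)) := by
        refine sum_le_sum fun k hk => ?_
        rw [mem_Icc] at hk
        have hk0 : (0 : ℝ) < k := by exact_mod_cast hk.1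
        have h2 : ∀ w ∈ P.filter (fun w => nm w = k), 1 / (nm w : ℝ) ^ 2 = 1 / (k : ℝ) ^ 2 := by
          intro w hw
          rw [(mem_filter.1 hw).2]
        rw [sum_congr rfl h2, sum_const, nsmul_eq_mul]
        have h3 : ((P.filter (fun w => nm w = k)).card : ℝ) ≤ 12 * k := by
          have := nm_count k P
          have h4 : 4 * (2 * k + 1) ≤ 12 * k := by omega
          exact_mod_cast this.trans h4
        calc ((P.filter (fun w => nm w = k)).card : ℝ) * (1 / (k : ℝ) ^ 2) ≤ 12 * k * (1 / (k : ℝ) ^ 2) :=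
              mul_le_mul_of_nonneg_right h3 (by positivity)
          _ = _ := by field_simp
    _ = 12 * ∑ k ∈ Icc 1 y, (1 / (k : ℝ)) := by rw [mul_sum]
    _ ≤ _ := by
        have := sum_inv_le y
        linarith

/-- the number of parallel pairs -/
lemma pairs (q y : ℕ) (hq : 1 ≤ q) (hy : 1 ≤ y) (ρ : ℤ × ℤ) (T : Finset (ℤ × ℤ)) (hTc : T.card ≤ y ^ 2)
    (hT : ∀ t ∈ T, ∀ t' ∈ T, |t.1 - t'.1| < y ∧ |t.2 - t'.2| < y) :
    ∑ w ∈ (T.filter (fun t => vt q ρ t ≠ 0)).image (fun t => dirZ (vt q ρ t)),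
      (((T.filter (fun t => vt q ρ t ≠ 0)).filter (fun t => dirZ (vt q ρ t) = w)).card : ℝ) ^ 2 ≤
        75 * (y : ℝ) ^ 2 * (1 + Real.log y) := by
  classical
  set T' := T.filter (fun t => vt q ρ t ≠ 0) with hT'
  set P := T'.image (fun t => dirZ (vt q ρ t)) with hP
  set n : ℤ × ℤ → ℕ := fun w => (T'.filter (fun t => dirZ (vt q ρ t) = w)).card with hn
  have hy0 : (0 : ℝ) < y := by exact_mod_cast hy
  have hlog : 0 ≤ Real.log y := Real.log_nonneg (by exact_mod_cast hy)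
  have hcop : ∀ w ∈ P, IsCoprime w.1 w.2 := by
    intro w hw
    rw [hP, mem_image] at hw
    obtain ⟨t, ht, rfl⟩ := hw
    exact (dir_spec _ (mem_filter.1 ht).2).2.2.1
  have hn1 : ∀ w ∈ P, (n w : ℝ) ≤ 1 + 2 * (y / nm w) := by
    intro w hw
    have h1 := n_le q y hq ρ T hT w (hcop w hw)
    have h2 : n w ≤ 2 * ((y - 1) / nm w) + 1 := by
      refine le_trans (le_of_eq ?_) h1
      rw [hn, hT']
      simp only
      rw [filter_filter]
    have h3 : (((y - 1) / nm w : ℕ) : ℝ) ≤ y / nm w := by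
      refine Nat.cast_div_le.trans ?_
      apply div_le_div_of_nonneg_right _ (Nat.cast_nonneg _)
      exact_mod_cast Nat.sub_le _ _
    have h4 : (n w : ℝ) ≤ ((2 * ((y - 1) / nm w) + 1 : ℕ) : ℝ) := by exact_mod_cast h2
    push_cast at h4
    linarith
  have hsumn : ∑ w ∈ P, (n w : ℝ) ≤ (y : ℝ) ^ 2 := by
    have h1 : ∑ w ∈ P, n w = T'.card := by
      rw [hn]
      simp only
      exact (card_eq_sum_card_image (fun t => dirZ (vt q ρ t)) T').symm
    have h2 : T'.card ≤ y ^ 2 := (card_filter_le _ _).trans hTc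
    rw [← h1] at h2
    exact_mod_cast h2
  have hnn : ∀ w ∈ P, (n w : ℝ) / nm w ≤ n w / y + (if nm w < y then 3 * y * (1 / (nm w : ℝ) ^ 2) else 0) := by
    intro w hw
    have hm1 : 1 ≤ nm w := nm_pos w (hcop w hw)
    have hm0 : (0 : ℝ) < nm w := by exact_mod_cast hm1
    split_ifs with h
    · have h1 : (n w : ℝ) / nm w ≤ 3 * y * (1 / (nm w : ℝ) ^ 2) := by
        rw [div_le_iff₀ hm0]
        refine (hn1 w hw).trans ?_
        have h2 : (1 : ℝ) ≤ y / nm w := by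
          rw [one_le_div hm0]
          exact_mod_cast h.le
        have h3 : 3 * (y : ℝ) * (1 / (nm w : ℝ) ^ 2) * nm w = 3 * (y / nm w) := by field_simp
        rw [h3]
        linarith
      have h2 : (0 : ℝ) ≤ n w / y := by positivity
      linarith
    · rw [add_zero]
      push Not at h
      apply div_le_div_of_nonneg_left (Nat.cast_nonneg _) hy0
      exact_mod_cast h
  have hsn : ∑ w ∈ P, (n w : ℝ) / nm w ≤ 37 * y * (1 + Real.log y) := by
    refine (sum_le_sum hnn).trans ?_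
    rw [sum_add_distrib, ← sum_div, ← sum_filter, ← mul_sum]
    have h1 : (∑ w ∈ P, (n w : ℝ)) / y ≤ y := by
      rw [div_le_iff₀ hy0]
      nlinarith
    have h2 := sum_nm y hy (P.filter (fun w => nm w < y)) (fun w hw => by
      rw [mem_filter] at hw
      exact ⟨nm_pos w (hcop w hw.1), hw.2⟩)
    have h3 : 3 * (y : ℝ) * ∑ w ∈ P.filter (fun w => nm w < y), 1 / (nm w : ℝ) ^ 2 ≤ 3 * y * (12 * (1 + Real.log y)) :=
      mul_le_mul_of_nonneg_left h2 (by positivity)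
    have h4 : 0 ≤ (y : ℝ) * Real.log y := by positivity
    linarith
  calc ∑ w ∈ P, ((n w : ℕ) : ℝ) ^ 2 ≤ ∑ w ∈ P, ((n w : ℝ) + 2 * y * ((n w : ℝ) / nm w)) := by
        refine sum_le_sum fun w hw => ?_
        have h1 := hn1 w hw
        have h2 : (0 : ℝ) ≤ n w := Nat.cast_nonneg _
        have h3 : (n w : ℝ) ^ 2 ≤ n w * (1 + 2 * (y / nm w)) := by
          rw [sq]; exact mul_le_mul_of_nonneg_left h1 h2
        refine h3.trans (le_of_eq ?_)
        ring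
    _ = ∑ w ∈ P, (n w : ℝ) + 2 * y * ∑ w ∈ P, (n w : ℝ) / nm w := by rw [sum_add_distrib, mul_sum]
    _ ≤ (y : ℝ) ^ 2 + 2 * y * (37 * y * (1 + Real.log y)) := by
        have := mul_le_mul_of_nonneg_left hsn (by positivity : (0 : ℝ) ≤ 2 * y)
        linarith
    _ ≤ _ := by
        have h4 : 0 ≤ (y : ℝ) ^ 2 * Real.log y := by positivity
        nlinarith

/-- the sum over a set of points of a coset -/
noncomputable def Sq {d : ℕ} (q : ℕ) (ρ : ℤ × ℤ) (T : Finset (ℤ × ℤ)) (a : Fin (d + 1) → ℤ) : ℝ :=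
  ∑ t ∈ T, lamI (lin (psi d (vt q ρ t)) a)

lemma lin_psi_zero (d : ℕ) (hd : 1 ≤ d) (a : Fin (d + 1) → ℤ) : lin (psi d 0) a = 0 := by
  unfold lin psi
  apply sum_eq_zero
  intro c _
  have h : (c : ℕ) ≠ 0 ∨ d - (c : ℕ) ≠ 0 := by omega
  rcases h with h | h
  · show a c * ((0 : ℤ) ^ (c : ℕ) * (0 : ℤ) ^ (d - (c : ℕ))) = 0
    rw [zero_pow h]; ring
  · show a c * ((0 : ℤ) ^ (c : ℕ) * (0 : ℤ) ^ (d - (c : ℕ))) = 0
    rw [zero_pow h]; ring

/-- the weights of the primitive points -/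
noncomputable def Wt (d q : ℕ) (ρ : ℤ × ℤ) (T : Finset (ℤ × ℤ)) (w : ℤ × ℤ) : ℝ :=
  ∑ t ∈ (T.filter (fun t => vt q ρ t ≠ 0)).filter (fun t => dirZ (vt q ρ t) = w), lamI (mulZ (vt q ρ t)) ^ d

lemma Sq_eq {d : ℕ} (hd : 1 ≤ d) (q : ℕ) (ρ : ℤ × ℤ) (T : Finset (ℤ × ℤ)) (a : Fin (d + 1) → ℤ) :
    Sq q ρ T a = ∑ w ∈ (T.filter (fun t => vt q ρ t ≠ 0)).image (fun t => dirZ (vt q ρ t)),
      Wt d q ρ T w * lamI (lin (psi d w) a) := by
  classical
  unfold Sq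
  have h0 : ∑ t ∈ T, lamI (lin (psi d (vt q ρ t)) a) =
      ∑ t ∈ T.filter (fun t => vt q ρ t ≠ 0), lamI (lin (psi d (vt q ρ t)) a) := by
    symm
    apply sum_subset (filter_subset _ _)
    intro t ht hn
    rw [mem_filter, not_and, not_not] at hn
    rw [hn ht, lin_psi_zero d hd]
    unfold lamI
    simp
  rw [h0, ← sum_fiberwise_of_maps_to (fun t ht => mem_image_of_mem (fun t => dirZ (vt q ρ t)) ht)]
  refine sum_congr rfl fun w _ => ?_
  unfold Wt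
  rw [sum_mul]
  refine sum_congr rfl fun t ht => ?_
  rw [mem_filter, mem_filter] at ht
  rw [lin_psi_dir d a _ ht.1.2, lamI_mul, lamI_pow, ht.2]

lemma Wt_abs (d q : ℕ) (ρ : ℤ × ℤ) (T : Finset (ℤ × ℤ)) (w : ℤ × ℤ) : |Wt d q ρ T w| ≤
    (((T.filter (fun t => vt q ρ t ≠ 0)).filter (fun t => dirZ (vt q ρ t) = w)).card : ℝ) := by
  unfold Wt
  refine (abs_sum_le_sum_abs _ _).trans ?_
  refine (sum_le_sum (g := fun _ => (1 : ℝ)) fun t _ => ?_).trans ?_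
  · rw [abs_pow]
    exact pow_le_one₀ (abs_nonneg _) (lamI_abs _)
  · rw [sum_const, nsmul_eq_mul, mul_one]

/-- the moment for one square -/
theorem momS (d A : ℕ) (hd : 1 ≤ d) : ∃ H0 : ℕ, ∀ H : ℕ, H0 ≤ H → ∀ q y : ℕ, 1 ≤ q → 1 ≤ y → (y : ℝ) ≤ Real.log H ^ A →
    ∀ ρ : ℤ × ℤ, ∀ T : Finset (ℤ × ℤ), T.card ≤ y ^ 2 →
    (∀ t ∈ T, ∀ t' ∈ T, |t.1 - t'.1| < y ∧ |t.2 - t'.2| < y) →
    (∀ t ∈ T, |((vt q ρ t).1 : ℝ)| ≤ Real.log H ^ A ∧ |((vt q ρ t).2 : ℝ)| ≤ Real.log H ^ A) →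
    EQ d H (fun a => Sq q ρ T a ^ (2 * d)) ≤
      2 * (2 * d).factorial * (75 * (y : ℝ) ^ 2 * (1 + Real.log y)) ^ d + 1 := by
  classical
  obtain ⟨H1, h1⟩ := momG lamI winB_lamI lamI_val (by unfold lamI; simp) d ((A + 1) * d) (4 * d * A)
  obtain ⟨H2, h2⟩ := eventually_atTop.1 (ev_log 2)
  refine ⟨max H1 H2, fun H hH q y hq hy hyA ρ T hTc hT hTb => ?_⟩
  have hL2 := h2 H ((le_max_right _ _).trans hH)
  set L := Real.log H with hL
  have hL0 : 0 < L := by linarith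
  have hL1 : 1 ≤ L := by linarith
  have hLA1 : 1 ≤ L ^ A := one_le_pow₀ hL1
  set P := (T.filter (fun t => vt q ρ t ≠ 0)).image (fun t => dirZ (vt q ρ t)) with hP
  have hdir : ∀ w ∈ P, IsCoprime w.1 w.2 ∧ posZ w ∧ |(w.1 : ℝ)| ≤ L ^ A ∧ |(w.2 : ℝ)| ≤ L ^ A := by
    intro w hw
    rw [hP, mem_image] at hw
    obtain ⟨t, ht, rfl⟩ := hw
    rw [mem_filter] at ht
    obtain ⟨e1, e2, hc, hp, hm⟩ := dir_spec _ ht.2
    have hm1 : (1 : ℝ) ≤ |(mulZ (vt q ρ t) : ℝ)| := by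
      have : (1 : ℤ) ≤ |mulZ (vt q ρ t)| := Int.one_le_abs hm
      exact_mod_cast this
    refine ⟨hc, hp, ?_, ?_⟩
    · refine le_trans ?_ (hTb t ht.1).1
      rw [e1]
      push_cast
      rw [abs_mul]
      exact le_mul_of_one_le_left (abs_nonneg _) hm1
    · refine le_trans ?_ (hTb t ht.1).2
      rw [e2]
      push_cast
      rw [abs_mul]
      exact le_mul_of_one_le_left (abs_nonneg _) hm1
  have hpow1 : (L ^ A) ^ d ≤ L ^ ((A + 1) * d) := by
    rw [← pow_mul]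
    exact pow_le_pow_right₀ hL1 (by nlinarith)
  have hpow2 : (2 * L ^ A) ^ d ≤ L ^ ((A + 1) * d) := by
    rw [pow_mul]
    apply pow_le_pow_left₀ (by positivity)
    rw [pow_succ, mul_comm]
    exact mul_le_mul_of_nonneg_left hL2 (by positivity)
  have a1 := h1 H ((le_max_left _ _).trans hH) P (fun w => psi d (w : ℤ × ℤ)) (fun _ => 0)
    (fun w c => (psi_bd d _ (L ^ A) hLA1 (hdir _ w.2).2.2.1 (hdir _ w.2).2.2.2 c).trans hpow1)
    (fun _ => by rw [Int.cast_zero, abs_zero]; positivity)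
    (fun w => by
      have h3 := sep_psi d (fun w : P => (w : ℤ × ℤ)) (L ^ A) hLA1 (fun l => (hdir _ l.2).2.2.1)
        (fun l => (hdir _ l.2).2.2.2) w (by
          intro h0
          have := (hdir _ w.2).1
          rw [h0] at this
          exact not_isCoprime_zero_zero this) (by
          intro l hl h4
          apply hl
          apply Subtype.ext
          exact dir_unique _ _ (hdir _ l.2).1 (hdir _ w.2).1 (hdir _ l.2).2.1 (hdir _ w.2).2.1 h4)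
      intro S hS hl0
      obtain ⟨u, b1, b2, b3⟩ := h3 S hS hl0
      exact ⟨u, fun c => (b1 c).trans hpow2, b2, b3⟩)
    d hd le_rfl (fun w => Wt d q ρ T (w : ℤ × ℤ))
  have e1 : (fun a : Fin (d + 1) → ℤ => (∑ w : P, Wt d q ρ T (w : ℤ × ℤ) * lamI (0 + lin (psi d (w : ℤ × ℤ)) a)) ^ (2 * d)) =
      fun a => Sq q ρ T a ^ (2 * d) := by
    funext a
    rw [Sq_eq hd, ← sum_coe_sort P]
    congr 1
    refine sum_congr rfl fun w _ => ?_
    rw [zero_add]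
  rw [e1] at a1
  refine a1.trans ?_
  have hpairs := pairs q y hq hy ρ T hTc hT
  have hy0 : (0 : ℝ) < y := by exact_mod_cast hy
  have hW2 : ∑ w : P, Wt d q ρ T (w : ℤ × ℤ) ^ 2 ≤ 75 * (y : ℝ) ^ 2 * (1 + Real.log y) := by
    refine le_trans ?_ hpairs
    rw [← hP, ← sum_coe_sort P]
    refine sum_le_sum fun w _ => ?_
    rw [← sq_abs]
    exact pow_le_pow_left₀ (abs_nonneg _) (Wt_abs d q ρ T _) 2
  have hW1 : ∑ w : P, |Wt d q ρ T (w : ℤ × ℤ)| ≤ (y : ℝ) ^ 2 := by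
    have h3 : ∑ w : P, |Wt d q ρ T (w : ℤ × ℤ)| ≤ ∑ w ∈ P,
        (((T.filter (fun t => vt q ρ t ≠ 0)).filter (fun t => dirZ (vt q ρ t) = w)).card : ℝ) := by
      rw [← sum_coe_sort P]
      exact sum_le_sum fun w _ => Wt_abs d q ρ T _
    refine h3.trans ?_
    have h4 : ∑ w ∈ P, ((T.filter (fun t => vt q ρ t ≠ 0)).filter (fun t => dirZ (vt q ρ t) = w)).card =
        (T.filter (fun t => vt q ρ t ≠ 0)).card := (card_eq_sum_card_image (fun t => dirZ (vt q ρ t)) _).symm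
    have h5 : ∑ w ∈ P, ((T.filter (fun t => vt q ρ t ≠ 0)).filter (fun t => dirZ (vt q ρ t) = w)).card ≤ y ^ 2 := by
      rw [h4]; exact (card_filter_le _ _).trans hTc
    exact_mod_cast h5
  have hW0 : (0 : ℝ) ≤ ∑ w : P, Wt d q ρ T (w : ℤ × ℤ) ^ 2 := sum_nonneg fun _ _ => sq_nonneg _
  have hW0' : (0 : ℝ) ≤ ∑ w : P, |Wt d q ρ T (w : ℤ × ℤ)| := sum_nonneg fun _ _ => abs_nonneg _
  apply add_le_add
  · apply mul_le_mul_of_nonneg_left _ (by positivity)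
    exact pow_le_pow_left₀ hW0 hW2 d
  · rw [div_le_one (by positivity)]
    calc (∑ w : P, |Wt d q ρ T (w : ℤ × ℤ)|) ^ (2 * d) ≤ ((y : ℝ) ^ 2) ^ (2 * d) := pow_le_pow_left₀ hW0' hW1 _
      _ ≤ ((L ^ A) ^ 2) ^ (2 * d) := by
          apply pow_le_pow_left₀ (by positivity)
          exact pow_le_pow_left₀ hy0.le hyA 2
      _ = L ^ (4 * d * A) := by rw [← pow_mul, ← pow_mul]; congr 1; ring

end Pool.Agent.TP975.LR
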