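import Mathlib
import Pool.Agent.TP975.LR.Le4
import Pool.Agent.TP975.LR.Lb3

/-!
Binary forms: all boxes of all cosets.
-/

set_option autoImplicit false

namespace Pool.Agent.TP975.LR

open Finset Filter
open Pool.Agent.H807R2.Dav
open Pool.Agent.TP975.RP

lemma shiftIoc (x : ℤ → ℝ) (s : ℤ) (c e : ℕ) :
    ∑ m ∈ Ioc ((c : ℤ) - s) ((e : ℤ) - s), x m = ∑ n ∈ Ioc c e, x ((n : ℤ) - s) := by
  refine sum_nbij' (fun m => (m + s).toNat) (fun n => (n : ℤ) - s) ?_ ?_ ?_ ?_ ?_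
  · intro m hm; rw [mem_Ioc] at hm ⊢; omega
  · intro n hn; rw [mem_Ioc] at hn ⊢; omega
  · intro m hm; rw [mem_Ioc] at hm; omega
  · intro n hn; omega
  · intro m hm
    rw [mem_Ioc] at hm
    congr 1
    have : ((m + s).toNat : ℤ) = m + s := Int.toNat_of_nonneg (by omega)
    rw [this]; ring

lemma blocksZ (x : ℤ → ℝ) (B : ℝ) (hB : 0 < B) (hx : ∀ m, |x m| ≤ B) (y : ℕ) (hy : 1 ≤ y) (M : ℤ) (N : ℕ) (b : ℝ)
    (hb : 0 ≤ b) (h : ∀ j : ℤ, M ≤ j * y → (j + 1) * y ≤ M + N → |∑ m ∈ Ioc (j * y) ((j + 1) * y), x m| ≤ b) :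
    |∑ m ∈ Ioc M (M + N), x m| ≤ N / y * b + 2 * y * B := by
  set K := M.natAbs with hK
  set s : ℤ := (K : ℤ) * y with hs
  have hKy : (K : ℤ) ≤ s := by
    rw [hs]
    have : (1 : ℤ) ≤ y := by exact_mod_cast hy
    nlinarith [Int.natCast_nonneg K]
  set M' := (M + s).toNat with hM'
  have hM0 : (M' : ℤ) = M + s := by rw [hM']; exact Int.toNat_of_nonneg (by omega)
  set x' : ℕ → ℂ := fun n => ((x ((n : ℤ) - s) / B : ℝ) : ℂ) with hx'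
  have h1 := blocks x' (by
    intro n
    rw [hx']
    simp only
    rw [Complex.norm_real, Real.norm_eq_abs, abs_div, abs_of_pos hB, div_le_one hB]
    exact hx _) y M' N hy (b / B) (by positivity) (by
    intro j hj1 hj2
    have e1 : ∑ m ∈ Ioc (j * y) ((j + 1) * y), x' m = ((∑ m ∈ Ioc (((j : ℤ) - K) * y) (((j : ℤ) - K + 1) * y), x m) / B : ℝ) := by
      have h2 := shiftIoc x s (j * y) ((j + 1) * y)
      have h3 : ((j * y : ℕ) : ℤ) - s = ((j : ℤ) - K) * y := by rw [hs]; push_cast; ring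
      have h4 : (((j + 1) * y : ℕ) : ℤ) - s = ((j : ℤ) - K + 1) * y := by rw [hs]; push_cast; ring
      rw [h3, h4] at h2
      rw [h2, sum_div, hx']
      push_cast
      rfl
    rw [e1, Complex.norm_real, Real.norm_eq_abs, abs_div, abs_of_pos hB]
    apply div_le_div_of_nonneg_right _ hB.le
    apply h
    · have : ((M' : ℕ) : ℤ) ≤ ((j * y : ℕ) : ℤ) := by exact_mod_cast hj1
      rw [hM0] at this
      push_cast at this
      rw [sub_mul, ← hs]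
      linarith
    · have : (((j + 1) * y : ℕ) : ℤ) ≤ ((M' + N : ℕ) : ℤ) := by exact_mod_cast hj2
      push_cast at this
      rw [hM0] at this
      have e : ((j : ℤ) - K + 1) * y = (j + 1) * y - s := by rw [hs]; ring
      rw [e]
      linarith)
  have e2 : ∑ m ∈ Ioc M' (M' + N), x' m = ((∑ m ∈ Ioc M (M + N), x m) / B : ℝ) := by
    have h2 := shiftIoc x s M' (M' + N)
    have h3 : (M' : ℤ) - s = M := by rw [hM0]; ring
    have h4 : ((M' + N : ℕ) : ℤ) - s = M + N := by push_cast; rw [hM0]; ring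
    rw [h3, h4] at h2
    rw [h2, sum_div, hx']
    push_cast
    rfl
  rw [e2, Complex.norm_real, Real.norm_eq_abs, abs_div, abs_of_pos hB, div_le_iff₀ hB] at h1
  refine h1.trans (le_of_eq ?_)
  field_simp

/-- a rectangle by aligned squares -/
lemma rect (x : ℤ → ℤ → ℝ) (hx : ∀ s t, |x s t| ≤ 1) (y G N1 N2 : ℕ) (hy : 1 ≤ y) (hG : 1 ≤ G) (h1 : y * G ≤ N1)
    (h2 : y * G ≤ N2) (M1 M2 : ℤ) (h : ∀ j1 j2 : ℤ, M1 ≤ j1 * y → (j1 + 1) * y ≤ M1 + N1 → M2 ≤ j2 * y →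
      (j2 + 1) * y ≤ M2 + N2 → |∑ s ∈ Ioc (j1 * y) ((j1 + 1) * y), ∑ t ∈ Ioc (j2 * y) ((j2 + 1) * y), x s t| ≤
        (y : ℝ) ^ 2 / G) :
    |∑ s ∈ Ioc M1 (M1 + N1), ∑ t ∈ Ioc M2 (M2 + N2), x s t| ≤ 5 * ((N1 : ℝ) * N2 / G) := by
  have hyr : (0 : ℝ) < y := by exact_mod_cast hy
  have hGr : (0 : ℝ) < G := by exact_mod_cast hG
  have h1r : (y : ℝ) * G ≤ N1 := by exact_mod_cast h1
  have h2r : (y : ℝ) * G ≤ N2 := by exact_mod_cast h2
  have hN1 : (0 : ℝ) < N1 := lt_of_lt_of_le (by positivity) h1r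
  have hN2 : (0 : ℝ) < N2 := lt_of_lt_of_le (by positivity) h2r
  have hcard : ∀ (M : ℤ) (N : ℕ), (Ioc M (M + N)).card = N := by
    intro M N; rw [Int.card_Ioc]; omega
  have hcardy : ∀ j : ℤ, (Ioc (j * y) ((j + 1) * y)).card = y := by
    intro j
    rw [Int.card_Ioc]
    have : (j + 1) * (y : ℤ) - j * y = y := by ring
    rw [this]; omega
  have hA := blocksZ (fun s => ∑ t ∈ Ioc M2 (M2 + N2), x s t) N2 hN2 (by
    intro s
    refine (abs_sum_le_sum_abs _ _).trans ((sum_le_sum fun t _ => hx s t).trans ?_)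
    rw [sum_const, hcard, nsmul_eq_mul, mul_one]) y hy M1 N1 (N2 * y / G + 2 * (y : ℝ) ^ 2) (by positivity) (by
    intro j1 hj1 hj1'
    rw [sum_comm]
    have hB := blocksZ (fun t => ∑ s ∈ Ioc (j1 * y) ((j1 + 1) * y), x s t) y hyr (by
      intro t
      refine (abs_sum_le_sum_abs _ _).trans ((sum_le_sum fun s _ => hx s t).trans ?_)
      rw [sum_const, hcardy, nsmul_eq_mul, mul_one]) y hy M2 N2 ((y : ℝ) ^ 2 / G) (by positivity) (by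
      intro j2 hj2 hj2'
      rw [sum_comm]
      exact h j1 j2 hj1 hj1' hj2 hj2')
    refine hB.trans (le_of_eq ?_)
    field_simp)
  refine hA.trans ?_
  have e1 : (y : ℝ) ≤ N1 / G := by rw [le_div_iff₀ hGr]; exact h1r
  have e2 : (y : ℝ) ≤ N2 / G := by rw [le_div_iff₀ hGr]; exact h2r
  have e3 : (N1 : ℝ) / y * (N2 * y / G + 2 * (y : ℝ) ^ 2) = N1 * N2 / G + 2 * (N1 * y) := by field_simp
  rw [e3]
  have e4 : (N1 : ℝ) * y ≤ N1 * N2 / G := by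
    rw [mul_div_assoc]; exact mul_le_mul_of_nonneg_left e2 hN1.le
  have e5 : (y : ℝ) * N2 ≤ N1 * N2 / G := by
    rw [mul_comm (N1 : ℝ), mul_div_assoc, mul_comm]; exact mul_le_mul_of_nonneg_left e1 hN2.le
  linarith

/-- the points of a block -/
noncomputable def TB (y : ℕ) (j : ℤ × ℤ) : Finset (ℤ × ℤ) := Ioc (j.1 * y) ((j.1 + 1) * y) ×ˢ Ioc (j.2 * y) ((j.2 + 1) * y)

lemma TB_card (y : ℕ) (j : ℤ × ℤ) : (TB y j).card = y ^ 2 := by
  unfold TB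
  rw [card_product, Int.card_Ioc, Int.card_Ioc]
  have h1 : (j.1 + 1) * (y : ℤ) - j.1 * y = y := by ring
  have h2 : (j.2 + 1) * (y : ℤ) - j.2 * y = y := by ring
  rw [h1, h2, Int.toNat_natCast, sq]

lemma TB_diff (y : ℕ) (j : ℤ × ℤ) : ∀ t ∈ TB y j, ∀ t' ∈ TB y j, |t.1 - t'.1| < y ∧ |t.2 - t'.2| < y := by
  intro t ht t' ht'
  unfold TB at ht ht'
  rw [mem_product, mem_Ioc, mem_Ioc] at ht ht'
  obtain ⟨⟨a1, a2⟩, a3, a4⟩ := ht
  obtain ⟨⟨b1, b2⟩, b3, b4⟩ := ht'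
  have e1 : (j.1 + 1) * (y : ℤ) = j.1 * y + y := by ring
  have e2 : (j.2 + 1) * (y : ℤ) = j.2 * y + y := by ring
  rw [e1] at a2 b2
  rw [e2] at a4 b4
  constructor <;> rw [abs_lt] <;> constructor <;> linarith

/-- the exceptional forms for one square -/
theorem one_sq (d A : ℕ) (hd : 1 ≤ d) : ∃ C : ℝ, 1 ≤ C ∧ ∃ H0 : ℕ, ∀ H : ℕ, H0 ≤ H → ∀ q y : ℕ, 1 ≤ q → 1 ≤ y →
    (y : ℝ) ≤ Real.log H ^ A → ∀ ρ j : ℤ × ℤ,
    (∀ t ∈ TB y j, |((vt q ρ t).1 : ℝ)| ≤ Real.log H ^ A ∧ |((vt q ρ t).2 : ℝ)| ≤ Real.log H ^ A) →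
    ∀ G : ℝ, 0 < G →
    (((QQ d H).filter (fun a => (y : ℝ) ^ 2 / G < |Sq q ρ (TB y j) a|)).card : ℝ) ≤
      (QQ d H).card * (C * (1 + Real.log y) ^ d * G ^ (2 * d) / (y : ℝ) ^ (2 * d)) := by
  obtain ⟨H0, h0⟩ := momS d A hd
  refine ⟨2 * (2 * d).factorial * 75 ^ d + 1, by
    have : (0 : ℝ) ≤ 2 * (2 * d).factorial * 75 ^ d := by positivity
    linarith, H0, fun H hH q y hq hy hyA ρ j hb G hG => ?_⟩
  have hy0 : (0 : ℝ) < y := by exact_mod_cast hy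
  have hy1 : (1 : ℝ) ≤ y := by exact_mod_cast hy
  have hlog : 0 ≤ Real.log y := Real.log_nonneg hy1
  have h1 := h0 H hH q y hq hy hyA ρ (TB y j) (TB_card y j).le (TB_diff y j) hb
  have hQpos : (0 : ℝ) < (QQ d H).card := by rw [card_QQ]; positivity
  unfold EQ at h1
  rw [div_le_iff₀ hQpos] at h1
  refine (markov_pow _ _ d ((y : ℝ) ^ 2 / G) _ (by positivity) h1).trans ?_
  rw [mul_comm _ ((QQ d H).card : ℝ), mul_div_assoc]
  apply mul_le_mul_of_nonneg_left _ hQpos.le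
  rw [div_pow, div_div_eq_mul_div, div_le_div_iff₀ (by positivity) (by positivity)]
  have e1 : ((y : ℝ) ^ 2) ^ (2 * d) = (y : ℝ) ^ (2 * d) * (y : ℝ) ^ (2 * d) := by
    rw [← pow_mul, ← pow_add]; congr 1; ring
  have e2 : (75 * (y : ℝ) ^ 2 * (1 + Real.log y)) ^ d = 75 ^ d * (y : ℝ) ^ (2 * d) * (1 + Real.log y) ^ d := by
    rw [mul_pow, mul_pow, ← pow_mul]
  rw [e1, e2]
  have hl1 : 1 ≤ (1 + Real.log y) ^ d := one_le_pow₀ (by linarith)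
  have hyd : 1 ≤ (y : ℝ) ^ (2 * d) := one_le_pow₀ hy1
  have e3 : (1 : ℝ) ≤ (y : ℝ) ^ (2 * d) * (1 + Real.log y) ^ d := by nlinarith
  calc (2 * ((2 * d).factorial : ℝ) * (75 ^ d * (y : ℝ) ^ (2 * d) * (1 + Real.log y) ^ d) + 1) * G ^ (2 * d) * (y : ℝ) ^ (2 * d) ≤
      (2 * ((2 * d).factorial : ℝ) * (75 ^ d * (y : ℝ) ^ (2 * d) * (1 + Real.log y) ^ d) +
        (y : ℝ) ^ (2 * d) * (1 + Real.log y) ^ d) * G ^ (2 * d) * (y : ℝ) ^ (2 * d) := by gcongr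
    _ = _ := by ring

/-- the region for a scale -/
noncomputable def Rq (d κ q : ℕ) (Λ : ℝ) : ℝ := 2 ^ (d + 1) * (2 ^ κ) ^ (d + 1) / Real.sqrt (q * Λ)

/-- the number of blocks -/
noncomputable def Jq (d κ q G : ℕ) (Λ : ℝ) : ℕ := ⌊5 * Rq d κ q Λ / (q * (2 ^ κ / G : ℕ))⌋₊

open Classical in
/-- the exceptional forms for one block -/
noncomputable def Be (d H G : ℕ) (LA Λ : ℝ) (q κ : ℕ) (ρ j : ℤ × ℤ) : Finset (Fin (d + 1) → ℤ) :=
  if (∀ t ∈ TB (2 ^ κ / G) j, |((vt q ρ t).1 : ℝ)| ≤ LA ∧ |((vt q ρ t).2 : ℝ)| ≤ LA) ∧ G ≤ 2 ^ κ ∧ 1 ≤ Jq d κ q G Λ ∧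
      ((2 ^ κ / G : ℕ) : ℝ) ≤ LA then
    (QQ d H).filter (fun a => ((2 ^ κ / G : ℕ) : ℝ) ^ 2 / G < |Sq q ρ (TB (2 ^ κ / G) j) a|) else ∅

open Classical in
/-- the exceptional forms -/
noncomputable def BeU (d H G : ℕ) (LA Λ : ℝ) (Q0 K0 : ℕ) : Finset (Fin (d + 1) → ℤ) :=
  (Icc 1 Q0).biUnion fun q => (range K0).biUnion fun κ => (Ico (0 : ℤ) q ×ˢ Ico (0 : ℤ) q).biUnion fun ρ =>
    (Icc (-(Jq d κ q G Λ : ℤ)) (Jq d κ q G Λ) ×ˢ Icc (-(Jq d κ q G Λ : ℤ)) (Jq d κ q G Λ)).biUnion fun j =>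
      Be d H G LA Λ q κ ρ j

/-- the size of the exceptional set -/
lemma beU_card {d H : ℕ} (G : ℕ) (LA Λ C M0 : ℝ) (hΛ : 0 < Λ) (hC : 0 ≤ C) (Q0 K0 : ℕ) (hG : 1 ≤ G) (hLA : 1 ≤ LA)
    (hM0 : ∀ y : ℕ, 1 ≤ y → (y : ℝ) ≤ LA → 1 + Real.log y ≤ M0)
    (h1 : ∀ q y : ℕ, 1 ≤ q → 1 ≤ y → (y : ℝ) ≤ LA → ∀ ρ j : ℤ × ℤ,
      (∀ t ∈ TB y j, |((vt q ρ t).1 : ℝ)| ≤ LA ∧ |((vt q ρ t).2 : ℝ)| ≤ LA) → ∀ G : ℝ, 0 < G →
      (((QQ d H).filter (fun a => (y : ℝ) ^ 2 / G < |Sq q ρ (TB y j) a|)).card : ℝ) ≤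
        (QQ d H).card * (C * (1 + Real.log y) ^ d * G ^ (2 * d) / (y : ℝ) ^ (2 * d))) :
    ((BeU d H G LA Λ Q0 K0).card : ℝ) ≤ (QQ d H).card *
      ((1 + Real.log Q0) * K0 * (225 * C * 16 ^ (d + 1) * M0 ^ d * (G : ℝ) ^ (4 * d + 2)) / Λ) := by
  classical
  have hGr : (1 : ℝ) ≤ G := by exact_mod_cast hG
  have hQ0 : (0 : ℝ) ≤ (QQ d H).card := Nat.cast_nonneg _
  have hM01 : 1 ≤ M0 := by
    have := hM0 1 le_rfl (by simpa using hLA)
    simpa using this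
  -- one scale
  have hone : ∀ q ∈ Icc 1 Q0, ∀ κ ∈ range K0,
      (((Ico (0 : ℤ) q ×ˢ Ico (0 : ℤ) q).biUnion fun ρ =>
    (Icc (-(Jq d κ q G Λ : ℤ)) (Jq d κ q G Λ) ×ˢ Icc (-(Jq d κ q G Λ : ℤ)) (Jq d κ q G Λ)).biUnion fun j =>
      Be d H G LA Λ q κ ρ j).card : ℝ) ≤
      (QQ d H).card * (225 * C * 16 ^ (d + 1) * M0 ^ d * (G : ℝ) ^ (4 * d + 2) / Λ) * (1 / q) := by
    intro q hq κ _
    rw [mem_Icc] at hq
    have hq0 : (0 : ℝ) < q := by exact_mod_cast hq.1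
    set J := Jq d κ q G Λ with hJ
    set y := 2 ^ κ / G with hy
    have hemp : ¬ (G ≤ 2 ^ κ ∧ 1 ≤ J ∧ (y : ℝ) ≤ LA) → (((Ico (0 : ℤ) q ×ˢ Ico (0 : ℤ) q).biUnion fun ρ =>
        (Icc (-(J : ℤ)) J ×ˢ Icc (-(J : ℤ)) J).biUnion fun j => Be d H G LA Λ q κ ρ j).card : ℝ) ≤
        (QQ d H).card * (225 * C * 16 ^ (d + 1) * M0 ^ d * (G : ℝ) ^ (4 * d + 2) / Λ) * (1 / q) := by
      intro hn
      have : ((Ico (0 : ℤ) q ×ˢ Ico (0 : ℤ) q).biUnion fun ρ =>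
        (Icc (-(J : ℤ)) J ×ˢ Icc (-(J : ℤ)) J).biUnion fun j => Be d H G LA Λ q κ ρ j) = ∅ := by
        rw [eq_empty_iff_forall_notMem]
        intro a ha
        simp only [mem_biUnion] at ha
        obtain ⟨ρ, _, j, _, hb⟩ := ha
        unfold Be at hb
        split_ifs at hb with hc
        · exact hn hc.2
        · exact absurd hb (notMem_empty _)
      rw [this, card_empty, Nat.cast_zero]
      positivity
    by_cases hn : G ≤ 2 ^ κ ∧ 1 ≤ J ∧ (y : ℝ) ≤ LA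
    swap
    · exact hemp hn
    obtain ⟨hGk, hJ1, hyLA⟩ := hn
    have hy1 : 1 ≤ y := by
      rw [hy]
      exact (Nat.one_le_div_iff (by omega)).2 hGk
    have hy0 : (0 : ℝ) < y := by exact_mod_cast hy1
    have hlog : 0 ≤ Real.log y := Real.log_nonneg (by exact_mod_cast hy1)
    have hyG : (2 : ℝ) ^ κ ≤ 2 * G * y := by
      have h2 : 2 ^ κ < y * G + G := Nat.lt_div_mul_add (by omega)
      have h3 : 2 ^ κ ≤ 2 * G * y := by nlinarith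
      exact_mod_cast h3
    have hB : ∀ ρ j, ((Be d H G LA Λ q κ ρ j).card : ℝ) ≤
        (QQ d H).card * (C * M0 ^ d * (G : ℝ) ^ (2 * d) / (y : ℝ) ^ (2 * d)) := by
      intro ρ j
      unfold Be
      split_ifs with hc
      · refine (h1 q y hq.1 hy1 hyLA ρ j hc.1 G (by linarith)).trans ?_
        apply mul_le_mul_of_nonneg_left _ hQ0
        apply div_le_div_of_nonneg_right _ (by positivity)
        apply mul_le_mul_of_nonneg_right _ (by positivity)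
        apply mul_le_mul_of_nonneg_left _ hC
        exact pow_le_pow_left₀ (by linarith) (hM0 y hy1 hyLA) d
      · rw [card_empty, Nat.cast_zero]; positivity
    have hcard := card_bU (Ico (0 : ℤ) q ×ˢ Ico (0 : ℤ) q) (fun ρ =>
        (Icc (-(J : ℤ)) J ×ˢ Icc (-(J : ℤ)) J).biUnion fun j => Be d H G LA Λ q κ ρ j)
        (fun _ => ∑ _j ∈ (Icc (-(J : ℤ)) J ×ˢ Icc (-(J : ℤ)) J), (QQ d H).card *
          (C * M0 ^ d * (G : ℝ) ^ (2 * d) / (y : ℝ) ^ (2 * d)))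
        (fun ρ _ => card_bU _ _ _ (fun j _ => hB ρ j))
    refine hcard.trans ?_
    rw [sum_const, sum_const, nsmul_eq_mul, nsmul_eq_mul, card_product, card_product, Int.card_Ico, Int.card_Icc]
    have e1 : ((q : ℤ) - 0).toNat = q := by omega
    have e2 : ((J : ℤ) + 1 - -(J : ℤ)).toNat = 2 * J + 1 := by omega
    rw [e1, e2]
    push_cast
    have hJr : (J : ℝ) ≤ 5 * Rq d κ q Λ / (q * (y : ℝ)) := by
      rw [hJ]
      unfold Jq
      apply Nat.floor_le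
      unfold Rq
      positivity
    have hJ3 : 2 * (J : ℝ) + 1 ≤ 3 * (5 * Rq d κ q Λ / (q * (y : ℝ))) := by
      have : (1 : ℝ) ≤ J := by exact_mod_cast hJ1
      linarith
    have hRsq : Rq d κ q Λ ^ 2 = 4 ^ (d + 1) * ((2 : ℝ) ^ κ) ^ (2 * d + 2) / (q * Λ) := by
      unfold Rq
      rw [div_pow, mul_pow, Real.sq_sqrt (by positivity), ← pow_mul, ← pow_mul, ← pow_mul]
      have e3 : (4 : ℝ) ^ (d + 1) = 2 ^ ((d + 1) * 2) := by
        rw [mul_comm, pow_mul]; norm_num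
      rw [e3, ← pow_mul]
      congr 3
      ring
    have hsq : (2 * (J : ℝ) + 1) * (2 * (J : ℝ) + 1) ≤ 225 * Rq d κ q Λ ^ 2 / (q ^ 2 * (y : ℝ) ^ 2) := by
      have h2 : (2 * (J : ℝ) + 1) * (2 * (J : ℝ) + 1) ≤ (3 * (5 * Rq d κ q Λ / (q * (y : ℝ)))) * (3 * (5 * Rq d κ q Λ / (q * (y : ℝ)))) :=
        mul_le_mul hJ3 hJ3 (by positivity) (le_trans (by positivity) hJ3)
      refine h2.trans (le_of_eq ?_)
      field_simp
      ring
    calc (q : ℝ) * q * ((2 * (J : ℝ) + 1) * (2 * J + 1) * ((QQ d H).card *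
          (C * M0 ^ d * (G : ℝ) ^ (2 * d) / (y : ℝ) ^ (2 * d)))) ≤
        (q : ℝ) * q * ((225 * Rq d κ q Λ ^ 2 / (q ^ 2 * (y : ℝ) ^ 2)) * ((QQ d H).card *
          (C * M0 ^ d * (G : ℝ) ^ (2 * d) / (y : ℝ) ^ (2 * d)))) := by
          apply mul_le_mul_of_nonneg_left _ (by positivity)
          apply mul_le_mul_of_nonneg_right hsq (by positivity)
      _ = (QQ d H).card * (225 * C * 4 ^ (d + 1) * M0 ^ d * (G : ℝ) ^ (2 * d) / Λ) * (1 / q) *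
          (((2 : ℝ) ^ κ) ^ (2 * d + 2) / (y : ℝ) ^ (2 * d + 2)) := by
          rw [hRsq, pow_add (y : ℝ) (2 * d) 2]
          field_simp
      _ ≤ (QQ d H).card * (225 * C * 4 ^ (d + 1) * M0 ^ d * (G : ℝ) ^ (2 * d) / Λ) * (1 / q) *
          (2 * G) ^ (2 * d + 2) := by
          apply mul_le_mul_of_nonneg_left _ (by positivity)
          rw [← div_pow]
          apply pow_le_pow_left₀ (by positivity)
          rw [div_le_iff₀ hy0]
          exact hyG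
      _ = _ := by
          have e4 : (2 * (G : ℝ)) ^ (2 * d + 2) = 4 ^ (d + 1) * (G : ℝ) ^ (2 * d + 2) := by
            rw [mul_pow]
            congr 1
            rw [show 2 * d + 2 = 2 * (d + 1) from by ring, pow_mul]
            norm_num
          have e5 : (16 : ℝ) ^ (d + 1) = 4 ^ (d + 1) * 4 ^ (d + 1) := by rw [← mul_pow]; norm_num
          have e6 : (G : ℝ) ^ (4 * d + 2) = (G : ℝ) ^ (2 * d) * (G : ℝ) ^ (2 * d + 2) := by
            rw [← pow_add]; congr 1; ring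
          rw [e4, e5, e6]
          ring
  set Z : ℝ := (QQ d H).card * (225 * C * 16 ^ (d + 1) * M0 ^ d * (G : ℝ) ^ (4 * d + 2) / Λ) with hZ
  have hZ0 : 0 ≤ Z := by positivity
  have hb := card_bU (Icc 1 Q0) (fun q => (range K0).biUnion fun κ => (Ico (0 : ℤ) q ×ˢ Ico (0 : ℤ) q).biUnion fun ρ =>
    (Icc (-(Jq d κ q G Λ : ℤ)) (Jq d κ q G Λ) ×ˢ Icc (-(Jq d κ q G Λ : ℤ)) (Jq d κ q G Λ)).biUnion fun j =>
      Be d H G LA Λ q κ ρ j) (fun q => ∑ κ ∈ range K0, Z * (1 / (q : ℝ)))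
    (fun q hq => card_bU (range K0) _ (fun _ => Z * (1 / (q : ℝ))) (fun κ hκ => hone q hq κ hκ))
  unfold BeU
  refine hb.trans ?_
  calc ∑ q ∈ Icc 1 Q0, ∑ κ ∈ range K0, Z * (1 / (q : ℝ)) = K0 * Z * ∑ q ∈ Icc 1 Q0, (1 / (q : ℝ)) := by
        rw [mul_sum]
        refine sum_congr rfl fun q _ => ?_
        rw [sum_const, card_range, nsmul_eq_mul]; ring
    _ ≤ K0 * Z * (1 + Real.log Q0) := by
        apply mul_le_mul_of_nonneg_left _ (by positivity)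
        exact sum_inv_le Q0
    _ = _ := by rw [hZ]; ring

end Pool.Agent.TP975.LR
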