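import Mathlib
import Pool.Agent.TP975.LR.Le5

/-!
Binary forms: all boxes of all cosets, the theorem.
-/

set_option autoImplicit false

namespace Pool.Agent.TP975.LR

open Finset Filter
open Pool.Agent.H807R2.Dav
open Pool.Agent.TP975.RP

/-- the sum over a box of a coset -/
noncomputable def Bx {d : ℕ} (q : ℕ) (b : ℤ × ℤ) (N1 N2 : ℕ) (a : Fin (d + 1) → ℤ) : ℝ :=
  ∑ n1 ∈ range N1, ∑ n2 ∈ range N2, lamI (lin (psi d (b.1 + q * (n1 : ℤ), b.2 + q * (n2 : ℤ))) a)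

lemma sum_range_Ioc (x : ℤ → ℝ) (m : ℤ) (N : ℕ) : ∑ n ∈ range N, x (m + n) = ∑ t ∈ Ioc (m - 1) (m - 1 + N), x t := by
  refine sum_nbij' (fun n => m + (n : ℤ)) (fun t => (t - m).toNat) ?_ ?_ ?_ ?_ ?_
  · intro n hn; rw [mem_range] at hn; rw [mem_Ioc]; omega
  · intro t ht; rw [mem_Ioc] at ht; rw [mem_range]; omega
  · intro n hn; omega
  · intro t ht; rw [mem_Ioc] at ht; omega
  · intro n _; rfl

/-- outside the exceptional set all sums are small -/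
lemma good_box {d H : ℕ} (G : ℕ) (LA Λ : ℝ) (hΛ : 0 < Λ) (Q0 K0 : ℕ) (hG : 3 ≤ G) (hQ0 : 2 * LA < Q0 + 1)
    (hK0 : 3 * LA < 2 ^ K0) (hGΛ : (2 * (G : ℝ)) ^ (2 * d + 2) < Λ)
    (a : Fin (d + 1) → ℤ) (ha : a ∈ QQ d H) (hbad : a ∉ BeU d H G LA Λ Q0 K0)
    (q : ℕ) (b : ℤ × ℤ) (N1 N2 X : ℕ) (hq : 1 ≤ q) (hX1 : 1 ≤ X) (hX : (X : ℝ) ≤ LA)
    (hb1 : |b.1| ≤ X) (hb2 : |b.2| ≤ X) (hb3 : |b.1 + q * ((N1 : ℤ) - 1)| ≤ X) (hb4 : |b.2 + q * ((N2 : ℤ) - 1)| ≤ X)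
    (hc1 : (q : ℝ) * X ^ 2 * Λ ≤ (N1 : ℝ) ^ (2 * d + 2)) (hc2 : (q : ℝ) * X ^ 2 * Λ ≤ (N2 : ℝ) ^ (2 * d + 2)) :
    |Bx q b N1 N2 a| ≤ 5 * ((N1 : ℝ) * N2 / G) := by
  classical
  set N' := min N1 N2 with hN'
  have hcond : (q : ℝ) * X ^ 2 * Λ ≤ (N' : ℝ) ^ (2 * d + 2) := by
    rcases min_choice N1 N2 with h | h <;> rw [hN', h] <;> assumption
  set κ := Nat.log 2 N' with hκ
  have hqr : (1 : ℝ) ≤ q := by exact_mod_cast hq
  have hXr : (1 : ℝ) ≤ X := by exact_mod_cast hX1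
  have hGr : (3 : ℝ) ≤ G := by exact_mod_cast hG
  have hG0 : (0 : ℝ) < G := by linarith
  have hΛle : Λ ≤ (q : ℝ) * X ^ 2 * Λ := by
    apply le_mul_of_one_le_left hΛ.le
    have : (1 : ℝ) ≤ (X : ℝ) ^ 2 := one_le_pow₀ hXr
    nlinarith
  have hN2G : 2 * G ≤ N' := by
    by_contra hcon
    push Not at hcon
    have h1 : (N' : ℝ) ≤ 2 * G := by exact_mod_cast hcon.le
    have h2 : (N' : ℝ) ^ (2 * d + 2) ≤ (2 * (G : ℝ)) ^ (2 * d + 2) := pow_le_pow_left₀ (Nat.cast_nonneg _) h1 _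
    linarith
  have hk1 : 2 ^ κ ≤ N' := Nat.pow_log_le_self 2 (by omega)
  have hk2 : N' < 2 ^ (κ + 1) := Nat.lt_pow_succ_log_self (by norm_num) N'
  have hGk : G ≤ 2 ^ κ := by
    have : 2 ^ (κ + 1) = 2 * 2 ^ κ := by ring
    omega
  set y := 2 ^ κ / G with hy
  have hy1 : 1 ≤ y := by
    rw [hy]
    exact (Nat.one_le_div_iff (by omega)).2 hGk
  have hyG : y * G ≤ 2 ^ κ := Nat.div_mul_le_self _ _
  have hyN : y ≤ N' := by nlinarith
  have hyr : (0 : ℝ) < y := by exact_mod_cast hy1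
  have hN'1 : N' ≤ N1 := min_le_left _ _
  have hN'2 : N' ≤ N2 := min_le_right _ _
  -- the side of the box
  have hside : (q : ℤ) * ((N1 : ℤ) - 1) ≤ 2 * X := by
    rw [abs_le] at hb1 hb3
    linarith [hb1.1, hb3.2]
  have hside' : (q : ℤ) * ((N' : ℤ) - 1) ≤ 2 * X := by
    refine le_trans ?_ hside
    apply mul_le_mul_of_nonneg_left _ (by positivity)
    have : (N' : ℤ) ≤ N1 := by exact_mod_cast hN'1
    linarith
  have hq2X : (q : ℤ) ≤ 2 * X := by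
    refine le_trans ?_ hside'
    have h1 : (1 : ℤ) ≤ (N' : ℤ) - 1 := by
      have : (6 : ℤ) ≤ N' := by exact_mod_cast (by omega : 6 ≤ N')
      linarith
    nlinarith [Int.natCast_nonneg q]
  have hN3X : (N' : ℝ) ≤ 3 * X := by
    have h1 : (1 : ℤ) ≤ q := by exact_mod_cast hq
    have h2 : (0 : ℤ) ≤ (N' : ℤ) - 1 := by
      have : (6 : ℤ) ≤ N' := by exact_mod_cast (by omega : 6 ≤ N')
      linarith
    have h3 : (N' : ℤ) - 1 ≤ 2 * X := by nlinarith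
    have h4 : (N' : ℤ) ≤ 3 * X := by
      have : (1 : ℤ) ≤ X := by exact_mod_cast hX1
      linarith
    exact_mod_cast h4
  have hyLA : (y : ℝ) ≤ LA := by
    have h1 : (y : ℝ) * G ≤ N' := by exact_mod_cast hyG.trans hk1
    have h2 : (y : ℝ) * 3 ≤ y * G := mul_le_mul_of_nonneg_left hGr hyr.le
    linarith
  -- the region
  have hq0 : (0 : ℝ) < q := by linarith
  have hXR : (X : ℝ) ≤ Rq d κ q Λ := by
    unfold Rq
    rw [le_div_iff₀ (Real.sqrt_pos.2 (by positivity)), ← mul_pow]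
    have h1 : ((X : ℝ) * Real.sqrt (q * Λ)) ^ 2 ≤ ((2 * 2 ^ κ : ℝ) ^ (d + 1)) ^ 2 := by
      rw [mul_pow, Real.sq_sqrt (by positivity), ← pow_mul]
      calc (X : ℝ) ^ 2 * (q * Λ) = (q : ℝ) * X ^ 2 * Λ := by ring
        _ ≤ (N' : ℝ) ^ (2 * d + 2) := hcond
        _ ≤ (2 * 2 ^ κ) ^ (2 * d + 2) := by
            apply pow_le_pow_left₀ (Nat.cast_nonneg _)
            have : (N' : ℝ) ≤ ((2 ^ (κ + 1) : ℕ) : ℝ) := by exact_mod_cast hk2.le
            push_cast at this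
            rw [pow_succ] at this
            linarith
        _ = _ := by congr 1; ring
    exact le_of_sq_le_sq h1 (by positivity)
  -- the classes
  set ρ : ℤ × ℤ := (b.1 % q, b.2 % q) with hρ
  have hqz : (0 : ℤ) < q := by exact_mod_cast hq
  have hr1 := Int.emod_nonneg b.1 hqz.ne'
  have hr2 := Int.emod_lt_of_pos b.1 hqz
  have hr3 := Int.emod_nonneg b.2 hqz.ne'
  have hr4 := Int.emod_lt_of_pos b.2 hqz
  have hm1 : b.1 = b.1 % q + q * (b.1 / q) := (Int.emod_add_mul_ediv b.1 q).symm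
  have hm2 : b.2 = b.2 % q + q * (b.2 / q) := (Int.emod_add_mul_ediv b.2 q).symm
  set m1 := b.1 / q with hm1d
  set m2 := b.2 / q with hm2d
  set x : ℤ → ℤ → ℝ := fun s t => lamI (lin (psi d (vt q ρ (s, t))) a) with hx
  have hBx : Bx q b N1 N2 a = ∑ s ∈ Ioc (m1 - 1) (m1 - 1 + N1), ∑ t ∈ Ioc (m2 - 1) (m2 - 1 + N2), x s t := by
    rw [← sum_range_Ioc (fun s => ∑ t ∈ Ioc (m2 - 1) (m2 - 1 + N2), x s t) m1 N1]
    unfold Bx
    refine sum_congr rfl fun n1 _ => ?_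
    rw [← sum_range_Ioc (fun t => x (m1 + n1) t) m2 N2]
    refine sum_congr rfl fun n2 _ => ?_
    rw [hx]
    simp only
    congr 3
    unfold vt
    rw [hρ]
    simp only
    refine Prod.ext ?_ ?_
    · show b.1 + q * (n1 : ℤ) = b.1 % q + q * (m1 + n1)
      linarith
    · show b.2 + q * (n2 : ℤ) = b.2 % q + q * (m2 + n2)
      linarith
  rw [hBx]
  -- the coordinates
  have hco1 : ∀ t : ℤ, m1 - 1 < t → t ≤ m1 - 1 + N1 → |b.1 % q + q * t| ≤ X := by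
    intro t ht1 ht2
    rw [abs_le] at hb1 hb3 ⊢
    have h1 : (q : ℤ) * m1 ≤ q * t := mul_le_mul_of_nonneg_left (by omega) hqz.le
    have h2 : (q : ℤ) * t ≤ q * (m1 + ((N1 : ℤ) - 1)) := mul_le_mul_of_nonneg_left (by omega) hqz.le
    have h3 : (q : ℤ) * (m1 + ((N1 : ℤ) - 1)) = q * m1 + q * ((N1 : ℤ) - 1) := by ring
    constructor
    · linarith [hb1.1]
    · linarith [hb3.2]
  have hco2 : ∀ t : ℤ, m2 - 1 < t → t ≤ m2 - 1 + N2 → |b.2 % q + q * t| ≤ X := by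
    intro t ht1 ht2
    rw [abs_le] at hb2 hb4 ⊢
    have h1 : (q : ℤ) * m2 ≤ q * t := mul_le_mul_of_nonneg_left (by omega) hqz.le
    have h2 : (q : ℤ) * t ≤ q * (m2 + ((N2 : ℤ) - 1)) := mul_le_mul_of_nonneg_left (by omega) hqz.le
    have h3 : (q : ℤ) * (m2 + ((N2 : ℤ) - 1)) = q * m2 + q * ((N2 : ℤ) - 1) := by ring
    constructor
    · linarith [hb2.1]
    · linarith [hb4.2]
  -- the number of blocks
  have hR0 : 0 ≤ Rq d κ q Λ := le_trans (Nat.cast_nonneg _) hXR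
  have hJm : ∀ j r M : ℤ, 0 ≤ r → r < q → (∀ t : ℤ, M < t → t ≤ M + N' → |r + q * t| ≤ X → True) →
      |r + q * ((j + 1) * y)| ≤ X → |r + q * (j * y + 1)| ≤ X → j ∈ Icc (-(Jq d κ q G Λ : ℤ)) (Jq d κ q G Λ) := by
    intro j r M hr hr' _ h1 h2
    rw [mem_Icc, ← abs_le, Int.abs_eq_natAbs]
    have h3 : ((j.natAbs : ℕ) : ℝ) ≤ 5 * Rq d κ q Λ / (q * (y : ℝ)) := by
      rw [le_div_iff₀ (by positivity)]
      have h4 : (j.natAbs : ℤ) * (q * y) ≤ 5 * X := by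
        rw [← Int.abs_eq_natAbs]
        rw [abs_le] at h1 h2
        have hqy : (0 : ℤ) ≤ q * y := by positivity
        rcases abs_choice j with h | h
        · rw [h]
          have h5 : r + q * ((j + 1) * y) ≤ X := h1.2
          have h6 : j * ((q : ℤ) * y) = q * ((j + 1) * y) - q * y := by ring
          rw [h6]
          have : (0 : ℤ) ≤ X := Int.natCast_nonneg X
          linarith
        · rw [h]
          have h5 : -(X : ℤ) ≤ r + q * (j * y + 1) := h2.1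
          have h6 : -j * ((q : ℤ) * y) = -(q * (j * y + 1)) + q := by ring
          rw [h6]
          linarith
      have h5 : ((j.natAbs : ℕ) : ℝ) * (q * (y : ℝ)) ≤ 5 * X := by exact_mod_cast h4
      linarith
    have h4 : j.natAbs ≤ Jq d κ q G Λ := by
      unfold Jq
      rw [← hy]
      exact Nat.le_floor h3
    exact_mod_cast h4
  have hJ1 : 1 ≤ Jq d κ q G Λ := by
    unfold Jq
    rw [← hy]
    apply Nat.le_floor
    rw [Nat.cast_one, one_le_div (by positivity)]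
    have h1 : (q : ℤ) * y ≤ 5 * X := by
      have h2 : (q : ℤ) * y ≤ q * N' := mul_le_mul_of_nonneg_left (by exact_mod_cast hyN) hqz.le
      have h3 : (q : ℤ) * N' = q * ((N' : ℤ) - 1) + q := by ring
      have : (0 : ℤ) ≤ X := Int.natCast_nonneg X
      linarith
    have h2 : (q : ℝ) * y ≤ 5 * X := by exact_mod_cast h1
    linarith
  refine rect x (fun s t => lamI_abs _) y G N1 N2 hy1 (by omega) ((hyG.trans hk1).trans hN'1) ((hyG.trans hk1).trans hN'2)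
    (m1 - 1) (m2 - 1) ?_
  intro j1 j2 hj1 hj1' hj2 hj2'
  have hSq : ∑ s ∈ Ioc (j1 * y) ((j1 + 1) * y), ∑ t ∈ Ioc (j2 * y) ((j2 + 1) * y), x s t = Sq q ρ (TB y (j1, j2)) a := by
    unfold Sq TB
    rw [sum_product]
  rw [hSq]
  by_contra hcon
  push Not at hcon
  apply hbad
  have hy1z : (1 : ℤ) ≤ y := by exact_mod_cast hy1
  have e1 : (j1 + 1) * (y : ℤ) = j1 * y + y := by ring
  have e2 : (j2 + 1) * (y : ℤ) = j2 * y + y := by ring
  unfold BeU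
  rw [mem_biUnion]
  refine ⟨q, mem_Icc.2 ⟨hq, ?_⟩, ?_⟩
  · have h1 : (q : ℝ) ≤ 2 * X := by exact_mod_cast hq2X
    have h2 : (q : ℝ) < (Q0 : ℝ) + 1 := by linarith
    have h3 : q < Q0 + 1 := by exact_mod_cast h2
    omega
  rw [mem_biUnion]
  refine ⟨κ, mem_range.2 ?_, ?_⟩
  · have h1 : ((2 : ℝ) ^ κ) < 2 ^ K0 := by
      have : ((2 ^ κ : ℕ) : ℝ) ≤ N' := by exact_mod_cast hk1
      push_cast at this
      linarith
    exact (pow_lt_pow_iff_right₀ (by norm_num : (1 : ℝ) < 2)).1 h1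
  rw [mem_biUnion]
  refine ⟨ρ, mem_product.2 ⟨mem_Ico.2 ⟨hr1, hr2⟩, mem_Ico.2 ⟨hr3, hr4⟩⟩, ?_⟩
  rw [mem_biUnion]
  refine ⟨(j1, j2), mem_product.2 ⟨?_, ?_⟩, ?_⟩
  · exact hJm j1 _ 0 hr1 hr2 (fun _ _ _ _ => trivial) (hco1 _ (by linarith) hj1') (hco1 _ (by linarith) (by linarith))
  · exact hJm j2 _ 0 hr3 hr4 (fun _ _ _ _ => trivial) (hco2 _ (by linarith) hj2') (hco2 _ (by linarith) (by linarith))
  have hcc : ∀ t ∈ TB y (j1, j2), |((vt q ρ t).1 : ℝ)| ≤ LA ∧ |((vt q ρ t).2 : ℝ)| ≤ LA := by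
    intro t ht
    unfold TB at ht
    rw [mem_product, mem_Ioc, mem_Ioc] at ht
    simp only at ht
    have h1 := hco1 t.1 (by linarith [ht.1.1]) (ht.1.2.trans hj1')
    have h2 := hco2 t.2 (by linarith [ht.2.1]) (ht.2.2.trans hj2')
    have h3 : |(((b.1 % q + q * t.1 : ℤ)) : ℝ)| ≤ (X : ℝ) := by exact_mod_cast h1
    have h4 : |(((b.2 % q + q * t.2 : ℤ)) : ℝ)| ≤ (X : ℝ) := by exact_mod_cast h2
    exact ⟨h3.trans hX, h4.trans hX⟩
  unfold Be
  rw [← hy, if_pos ⟨hcc, hGk, hJ1, hyLA⟩, mem_filter]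
  exact ⟨ha, hcon⟩

theorem all_boxes (d A : ℕ) (hd : 1 ≤ d) (ε : ℝ) (hε : 0 < ε) : ∃ η : ℝ, 0 < η ∧ ∃ H0 : ℕ, ∀ H : ℕ, H0 ≤ H →
    ∃ Bad ⊆ QQ d H, (Bad.card : ℝ) ≤ (QQ d H).card / Real.log H ^ η ∧
    ∀ a ∈ QQ d H, a ∉ Bad → ∀ (q : ℕ) (b : ℤ × ℤ) (N1 N2 X : ℕ), 1 ≤ q → 1 ≤ X → (X : ℝ) ≤ Real.log H ^ A →
    |b.1| ≤ X → |b.2| ≤ X → |b.1 + q * ((N1 : ℤ) - 1)| ≤ X → |b.2 + q * ((N2 : ℤ) - 1)| ≤ X →
    (q : ℝ) * X ^ 2 * Real.log H ^ ε ≤ (N1 : ℝ) ^ (2 * d + 2) → (q : ℝ) * X ^ 2 * Real.log H ^ ε ≤ (N2 : ℝ) ^ (2 * d + 2) →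
    |Bx q b N1 N2 a| ≤ (N1 : ℝ) * N2 / Real.log H ^ η := by
  obtain ⟨C, hC, H1, h1⟩ := one_sq d A hd
  have hd0 : (0 : ℝ) < (d : ℝ) + 1 := by positivity
  set θ : ℝ := ε / (16 * (d + 1)) with hθ
  have hθ0 : 0 < θ := by positivity
  have hθ1 : θ * (d + 1) = ε / 16 := by rw [hθ]; field_simp
  refine ⟨θ / 2, by positivity, ?_⟩
  have hev : ∀ᶠ H : ℕ in atTop, H1 ≤ H ∧ (16 : ℝ) ^ (d + 1) + 1 ≤ Real.log H ^ (ε / 16) ∧
      (2 * (A : ℝ) + 5) * (1 + Real.log (Real.log H)) ≤ Real.log H ^ (ε / 16) ∧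
      ((A : ℝ) + 1) * (1 + Real.log (Real.log H)) ≤ Real.log H ^ θ ∧
      225 * C * 16 ^ (d + 1) * 2 ^ (4 * d + 2) ≤ Real.log H ^ (ε / 16) ∧
      (5 : ℝ) ≤ Real.log H ^ (θ / 2) ∧ 1 ≤ Real.log H := by
    filter_upwards [eventually_ge_atTop H1, ev_rpow (ε / 16) (by positivity) ((16 : ℝ) ^ (d + 1) + 1),
      ev_loglog (ε / 16) (by positivity) (2 * (A : ℝ) + 5), ev_loglog θ hθ0 ((A : ℝ) + 1),
      ev_rpow (ε / 16) (by positivity) (225 * C * 16 ^ (d + 1) * 2 ^ (4 * d + 2)),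
      ev_rpow (θ / 2) (by positivity) 5, ev_log 1] with H a1 a2 a3 a3' a4 a5 a6
    exact ⟨a1, a2, a3, a3', a4, a5, a6⟩
  obtain ⟨H0, hH0⟩ := eventually_atTop.1 hev
  refine ⟨H0, fun H hH => ?_⟩
  obtain ⟨a1, a2, a3, a3', a4, a5, a6⟩ := hH0 H hH
  have h2 := h1 H a1
  set L := Real.log H with hL
  have hL0 : 0 < L := by linarith
  have hLθ1 : 1 ≤ L ^ θ := Real.one_le_rpow a6 hθ0.le
  have hLθ5 : 5 ≤ L ^ θ := a5.trans (Real.rpow_le_rpow_of_exponent_le a6 (by linarith))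
  set G := ⌈L ^ θ⌉₊ with hG
  have hG1 : L ^ θ ≤ G := Nat.le_ceil _
  have hG2 : (G : ℝ) ≤ 2 * L ^ θ := by
    have := Nat.ceil_lt_add_one (show 0 ≤ L ^ θ by positivity)
    rw [← hG] at this
    linarith
  have hGr : (5 : ℝ) ≤ G := hLθ5.trans hG1
  have hGn : 5 ≤ G := by exact_mod_cast hGr
  set LA := L ^ A with hLA
  have hLA1 : 1 ≤ LA := one_le_pow₀ a6
  set Q0 := ⌊2 * LA⌋₊ with hQ0
  have hQ01 : 1 ≤ Q0 := Nat.le_floor (by push_cast; linarith)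
  have hQ0r : (Q0 : ℝ) ≤ 2 * LA := Nat.floor_le (by linarith)
  have hQ0' : 2 * LA < Q0 + 1 := Nat.lt_floor_add_one _
  set Q1 := ⌊3 * LA⌋₊ with hQ1
  have hQ11 : 1 ≤ Q1 := Nat.le_floor (by push_cast; linarith)
  have hQ1r : (Q1 : ℝ) ≤ 3 * LA := Nat.floor_le (by linarith)
  have hQ1' : 3 * LA < Q1 + 1 := Nat.lt_floor_add_one _
  set K0 := Nat.log 2 Q1 + 1 with hK0
  have hK0' : 3 * LA < 2 ^ K0 := by
    have h3 : Q1 + 1 ≤ 2 ^ K0 := Nat.lt_pow_succ_log_self (by norm_num) Q1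
    have h4 : ((Q1 + 1 : ℕ) : ℝ) ≤ ((2 ^ K0 : ℕ) : ℝ) := by exact_mod_cast h3
    push_cast at h4
    linarith
  have hLθd : (L ^ θ) ^ (d + 1) = L ^ (ε / 16) := by
    rw [← Real.rpow_natCast, ← Real.rpow_mul hL0.le]
    congr 1
    push_cast
    exact hθ1
  have hε8 : 1 ≤ L ^ (ε / 16) := Real.one_le_rpow a6 (by positivity)
  have hsplit : L ^ ε = (L ^ (ε / 16)) ^ 16 := by
    rw [← Real.rpow_natCast, ← Real.rpow_mul hL0.le]
    congr 1
    push_cast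
    ring
  have hGΛ : (2 * (G : ℝ)) ^ (2 * d + 2) < L ^ ε := by
    calc (2 * (G : ℝ)) ^ (2 * d + 2) ≤ (4 * L ^ θ) ^ (2 * d + 2) := by
          apply pow_le_pow_left₀ (by positivity)
          linarith
      _ = 16 ^ (d + 1) * (L ^ (ε / 16)) ^ 2 := by
          rw [mul_pow, show 2 * d + 2 = 2 * (d + 1) from by ring, pow_mul, mul_comm 2 (d + 1), pow_mul (L ^ θ), hLθd]
          norm_num
      _ < L ^ (ε / 16) * (L ^ (ε / 16)) ^ 2 := by
          apply mul_lt_mul_of_pos_right _ (by positivity)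
          linarith
      _ = (L ^ (ε / 16)) ^ 3 := by ring
      _ ≤ (L ^ (ε / 16)) ^ 16 := pow_le_pow_right₀ hε8 (by norm_num)
      _ = _ := hsplit.symm
  have hΛ0 : 0 < L ^ ε := by positivity
  have hη : L ^ (θ / 2) ≤ L ^ (ε / 16) := by
    apply Real.rpow_le_rpow_of_exponent_le a6
    have h3 : θ * 1 ≤ θ * (d + 1) := by
      apply mul_le_mul_of_nonneg_left _ hθ0.le
      have : (0 : ℝ) ≤ d := Nat.cast_nonneg d
      linarith
    linarith
  have hll : 0 ≤ Real.log L := Real.log_nonneg a6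
  have hA0 : (0 : ℝ) ≤ A := Nat.cast_nonneg A
  have hlog2 : (1 / 2 : ℝ) ≤ Real.log 2 := by
    have := Real.log_two_gt_d9
    linarith
  have hlog2' : Real.log 2 ≤ 1 := by
    have := Real.log_two_lt_d9
    linarith
  have hlog3 : Real.log 3 ≤ 2 := by
    have := Real.log_le_sub_one_of_pos (show (0 : ℝ) < 3 by norm_num)
    linarith
  have hlogLA : Real.log LA = A * Real.log L := by rw [hLA, Real.log_pow]
  refine ⟨BeU d H G LA (L ^ ε) Q0 K0, ?_, ?_, ?_⟩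
  · classical
    intro a ha
    unfold BeU at ha
    simp only [mem_biUnion] at ha
    obtain ⟨q, _, κ, _, ρ, _, j, _, hb⟩ := ha
    unfold Be at hb
    split_ifs at hb with hc
    · exact (mem_filter.1 hb).1
    · exact absurd hb (notMem_empty _)
  · set M0 : ℝ := 1 + A * Real.log L with hM0
    have hM01 : 1 ≤ M0 := by
      have : 0 ≤ (A : ℝ) * Real.log L := by positivity
      linarith
    have h3 := beU_card (d := d) (H := H) G LA (L ^ ε) C M0 hΛ0 (by linarith) Q0 K0 (by omega) hLA1 (by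
      intro y hy hyLA
      have h4 : Real.log y ≤ Real.log LA := Real.log_le_log (by exact_mod_cast hy) hyLA
      rw [hlogLA] at h4
      linarith) h2
    refine h3.trans ?_
    have hQQ0 : (0 : ℝ) ≤ (QQ d H).card := Nat.cast_nonneg _
    rw [div_eq_mul_one_div ((QQ d H).card : ℝ)]
    apply mul_le_mul_of_nonneg_left _ hQQ0
    have b1 : 1 + Real.log Q0 ≤ L ^ (ε / 16) := by
      refine le_trans ?_ a3
      have h4 : Real.log Q0 ≤ Real.log (2 * LA) := Real.log_le_log (by exact_mod_cast hQ01) hQ0r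
      rw [Real.log_mul (by norm_num) (by positivity), hlogLA] at h4
      nlinarith
    have b1' : 0 ≤ 1 + Real.log Q0 := by
      have : 0 ≤ Real.log (Q0 : ℝ) := Real.log_nonneg (by exact_mod_cast hQ01)
      linarith
    have b2 : (K0 : ℝ) ≤ L ^ (ε / 16) := by
      refine le_trans ?_ a3
      have h4 : (Nat.log 2 Q1 : ℝ) * Real.log 2 ≤ Real.log (3 * LA) := by
        have h5 : 2 ^ Nat.log 2 Q1 ≤ Q1 := Nat.pow_log_le_self 2 (by omega)
        have h6 : Real.log ((2 : ℝ) ^ Nat.log 2 Q1) ≤ Real.log (3 * LA) := by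
          apply Real.log_le_log (by positivity)
          refine le_trans ?_ hQ1r
          exact_mod_cast h5
        rwa [Real.log_pow] at h6
      rw [Real.log_mul (by norm_num) (by positivity), hlogLA] at h4
      have h6 : (0 : ℝ) ≤ (Nat.log 2 Q1 : ℝ) := Nat.cast_nonneg _
      have h7 : (Nat.log 2 Q1 : ℝ) ≤ 2 * (2 + A * Real.log L) := by nlinarith
      rw [hK0]
      push_cast
      nlinarith
    have b4 : M0 ^ d ≤ L ^ (ε / 16) := by
      have h4 : M0 ≤ L ^ θ := by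
        refine le_trans ?_ a3'
        rw [hM0]
        nlinarith
      calc M0 ^ d ≤ (L ^ θ) ^ d := pow_le_pow_left₀ (by linarith) h4 d
        _ ≤ (L ^ θ) ^ (d + 1) := pow_le_pow_right₀ hLθ1 (by omega)
        _ = _ := hLθd
    have b3 : (G : ℝ) ^ (4 * d + 2) ≤ 2 ^ (4 * d + 2) * (L ^ (ε / 16)) ^ 4 := by
      calc (G : ℝ) ^ (4 * d + 2) ≤ (2 * L ^ θ) ^ (4 * d + 2) := pow_le_pow_left₀ (by linarith) hG2 _
        _ = 2 ^ (4 * d + 2) * (L ^ θ) ^ (4 * d + 2) := by rw [mul_pow]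
        _ ≤ 2 ^ (4 * d + 2) * (L ^ θ) ^ ((d + 1) * 4) := by
            apply mul_le_mul_of_nonneg_left _ (by positivity)
            exact pow_le_pow_right₀ hLθ1 (by omega)
        _ = _ := by rw [pow_mul, hLθd]
    calc (1 + Real.log Q0) * K0 * (225 * C * 16 ^ (d + 1) * M0 ^ d * (G : ℝ) ^ (4 * d + 2)) / L ^ ε ≤
        L ^ (ε / 16) * L ^ (ε / 16) * (225 * C * 16 ^ (d + 1) * L ^ (ε / 16) * (2 ^ (4 * d + 2) * (L ^ (ε / 16)) ^ 4)) / L ^ ε := by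
          apply div_le_div_of_nonneg_right _ hΛ0.le
          apply mul_le_mul
          · exact mul_le_mul b1 b2 (Nat.cast_nonneg _) (by positivity)
          · apply mul_le_mul _ b3 (by positivity) (by positivity)
            exact mul_le_mul_of_nonneg_left b4 (by positivity)
          · positivity
          · positivity
      _ = (225 * C * 16 ^ (d + 1) * 2 ^ (4 * d + 2)) * (L ^ (ε / 16)) ^ 7 / L ^ ε := by ring
      _ ≤ L ^ (ε / 16) * (L ^ (ε / 16)) ^ 7 / L ^ ε := by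
          apply div_le_div_of_nonneg_right _ hΛ0.le
          apply mul_le_mul_of_nonneg_right a4 (by positivity)
      _ = 1 / (L ^ (ε / 16)) ^ 8 := by
          rw [hsplit]
          have : L ^ (ε / 16) ≠ 0 := by positivity
          field_simp
      _ ≤ 1 / L ^ (ε / 16) := by
          apply one_div_le_one_div_of_le (by positivity)
          calc L ^ (ε / 16) = (L ^ (ε / 16)) ^ 1 := (pow_one _).symm
            _ ≤ _ := pow_le_pow_right₀ hε8 (by norm_num)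
      _ ≤ 1 / L ^ (θ / 2) := by
          apply one_div_le_one_div_of_le (by positivity) hη
  · intro a ha hab q b N1 N2 X hq hX1 hX hb1 hb2 hb3 hb4 hc1 hc2
    have h3 := good_box G LA (L ^ ε) hΛ0 Q0 K0 (by omega) hQ0' hK0' hGΛ a ha hab q b N1 N2 X hq hX1 hX hb1 hb2 hb3 hb4
      hc1 hc2
    refine h3.trans ?_
    have hLη : 0 < L ^ (θ / 2) := by positivity
    rw [mul_div_assoc', div_le_div_iff₀ (by linarith) hLη]
    have h4 : L ^ θ = L ^ (θ / 2) * L ^ (θ / 2) := by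
      rw [← Real.rpow_add hL0]; congr 1; ring
    have hNN : (0 : ℝ) ≤ (N1 : ℝ) * N2 := by positivity
    calc 5 * ((N1 : ℝ) * N2) * L ^ (θ / 2) ≤ L ^ (θ / 2) * ((N1 : ℝ) * N2) * L ^ (θ / 2) := by gcongr
      _ = (N1 : ℝ) * N2 * L ^ θ := by rw [h4]; ring
      _ ≤ (N1 : ℝ) * N2 * G := mul_le_mul_of_nonneg_left hG1 hNN

end Pool.Agent.TP975.LR
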