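import Mathlib
import Pool.Agent.TP975.LR.La2
import Pool.Agent.TP975.RP.ML2

/-!
The main estimate for systems of polynomials.
-/

set_option autoImplicit false

namespace Pool.Agent.TP975.LR

open Finset Filter
open Pool.Agent.H807R2.Dav
open Pool.Agent.TP975.RP

theorem mlFm (F : ℤ → ℝ) (hF : WinB F) (hFb : ∀ v, |F v| ≤ 1) (m d A c U r : ℕ) : ∃ H0 : ℕ, ∀ H : ℕ, H0 ≤ H →
    ∀ (ι : Type) [Fintype ι] [DecidableEq ι], Fintype.card ι ≤ r →
    ∀ (io : ι → Fin m) (t : ι → ℤ), (∀ l, |(t l : ℝ)| ≤ Real.log H ^ A) → ∀ l0 : ι,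
    (∀ l, l ≠ l0 → io l = io l0 → t l ≠ t l0) → ((univ.erase l0).filter (fun l => io l = io l0)).card ≤ 2 * d →
    ∀ g : ι → ℤ → ℝ, (∀ l, ∀ v : ℤ, |(v : ℝ)| ≤ (H : ℝ) ^ 2 → |g l v| ≤ Real.log H ^ c) →
    |∑ a ∈ Bx m d H, F (ev (a (io l0)) (t l0)) * ∏ l ∈ univ.erase l0, g l (ev (a (io l)) (t l))| ≤
      (Bx m d H).card / Real.log H ^ U := by
  obtain ⟨N0, hN0⟩ := mlF F hF hFb d A (c * r) U
  have hev : ∀ᶠ H : ℕ in atTop, N0 ≤ H ∧ ((2 : ℝ) * (d + 1)) * Real.log H ^ (A * d) ≤ H ∧ 1 ≤ Real.log H ∧ 3 ≤ H := by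
    filter_upwards [eventually_ge_atTop N0, ev_pow (A * d) (2 * (d + 1)), ev_log 1, eventually_ge_atTop 3]
      with H a1 a2 a3 a4
    exact ⟨a1, a2, a3, a4⟩
  obtain ⟨H0, hH0⟩ := eventually_atTop.1 hev
  refine ⟨H0, fun H hH ι _ _ hr io t hT l0 hne hcard g hg => ?_⟩
  obtain ⟨a1, a2, a3, a4⟩ := hH0 H hH
  have hml := hN0 H a1
  set L := Real.log H with hL
  have hL0 : 0 < L := by linarith
  have hH3 : (3 : ℝ) ≤ H := by exact_mod_cast a4
  have hHp : (0 : ℝ) < H := by linarith
  have hLA1 : 1 ≤ L ^ A := one_le_pow₀ a3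
  have hLc1 : 1 ≤ L ^ c := one_le_pow₀ a3
  have hval : ∀ (b : Fin (d + 1) → ℤ) (l : ι), (∀ c, |b c| ≤ 2 * H) → |((ev b (t l) : ℤ) : ℝ)| ≤ (H : ℝ) ^ 2 := by
    intro b l hb
    have h1 := ev_bd b (t l) (2 * H) (L ^ A) (fun c => by
      have h2 : ((|b c| : ℤ) : ℝ) ≤ ((2 * H : ℤ) : ℝ) := by exact_mod_cast hb c
      push_cast at h2
      exact h2) (hT l) hLA1
    refine h1.trans ?_
    rw [← pow_mul]
    calc ((d : ℝ) + 1) * (2 * H * L ^ (A * d)) = (2 * (d + 1) * L ^ (A * d)) * H := by ring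
      _ ≤ H * H := mul_le_mul_of_nonneg_right a2 hHp.le
      _ = _ := by ring
  -- one polynomial
  have hinner : ∀ a ∈ Bx m d H, |∑ b ∈ QQ d H, F (ev ((Function.update a (io l0) b) (io l0)) (t l0)) *
      ∏ l ∈ univ.erase l0, g l (ev ((Function.update a (io l0) b) (io l)) (t l))| ≤
      (QQ d H).card / L ^ U := by
    intro a ha
    rw [mem_Bx] at ha
    set S := (univ.erase l0).filter (fun l => io l = io l0) with hS
    set S' := (univ.erase l0).filter (fun l => ¬ io l = io l0) with hS'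
    obtain ⟨S1, hS1, hS1c⟩ := exists_subset_card_eq (s := S) (n := min d S.card) (min_le_right _ _)
    have hS1d : S1.card ≤ d := hS1c.le.trans (min_le_left _ _)
    have hS2d : (S \ S1).card ≤ d := by
      rw [card_sdiff_of_subset hS1, hS1c]
      omega
    have hcu : ∀ T : Finset ι, T.card ≤ r := fun T => (card_le_univ T).trans hr
    set κ : ℝ := ∏ l ∈ S', g l (ev (a (io l)) (t l)) with hκ
    have hSmem : ∀ l ∈ S, l ≠ l0 ∧ io l = io l0 := by
      intro l hl
      rw [hS, mem_filter, mem_erase] at hl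
      exact ⟨hl.1.1, hl.2⟩
    have hsplit : ∀ b : Fin (d + 1) → ℤ,
        ∏ l ∈ univ.erase l0, g l (ev ((Function.update a (io l0) b) (io l)) (t l)) =
        (∏ l ∈ S1, g l (ev b (t l))) * ((∏ l ∈ S \ S1, g l (ev b (t l))) * κ) := by
      intro b
      rw [← prod_filter_mul_prod_filter_not (univ.erase l0) (fun l => io l = io l0)]
      have h1 : ∏ l ∈ (univ.erase l0).filter (fun l => io l = io l0),
          g l (ev ((Function.update a (io l0) b) (io l)) (t l)) = ∏ l ∈ S, g l (ev b (t l)) := by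
        refine prod_congr rfl fun l hl => ?_
        rw [mem_filter] at hl
        rw [hl.2, Function.update_self]
      have h2 : ∏ l ∈ (univ.erase l0).filter (fun l => ¬ io l = io l0),
          g l (ev ((Function.update a (io l0) b) (io l)) (t l)) = κ := by
        refine prod_congr rfl fun l hl => ?_
        rw [mem_filter] at hl
        rw [Function.update_of_ne hl.2]
      rw [h1, h2, ← prod_sdiff hS1]
      ring
    have hmain := hml (S1.image t) ((S \ S1).image t) (t l0) (card_image_le.trans hS1d)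
      (card_image_le.trans hS2d)
      (by
        intro h
        rw [mem_image] at h
        obtain ⟨l, hl, hlt⟩ := h
        obtain ⟨h1, h2⟩ := hSmem l (hS1 hl)
        exact hne l h1 h2 hlt)
      (by
        intro h
        rw [mem_image] at h
        obtain ⟨l, hl, hlt⟩ := h
        obtain ⟨h1, h2⟩ := hSmem l (Finset.mem_sdiff.1 hl).1
        exact hne l h1 h2 hlt)
      (by
        intro s hs
        rw [mem_image] at hs
        obtain ⟨l, _, rfl⟩ := hs
        exact hT l)
      (by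
        intro s hs
        rw [mem_image] at hs
        obtain ⟨l, _, rfl⟩ := hs
        exact hT l)
      (hT l0)
      (fun b => ∏ l ∈ S1, g l (ev b (t l))) (fun b => (∏ l ∈ S \ S1, g l (ev b (t l))) * κ)
      (by
        intro b b' h
        refine prod_congr rfl fun l hl => ?_
        rw [h (t l) (mem_image_of_mem t hl)])
      (by
        intro b b' h
        congr 1
        refine prod_congr rfl fun l hl => ?_
        rw [h (t l) (mem_image_of_mem t hl)])
      (by
        intro b hb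
        rw [pow_mul]
        exact prod_le_pow S1 _ (L ^ c) hLc1 r (hcu _) (fun l _ => hg l _ (hval b l hb)))
      (by
        intro b hb
        rw [pow_mul]
        rw [abs_mul]
        have hd : Disjoint (S \ S1) S' := by
          rw [disjoint_left]
          intro l hl hl'
          rw [Finset.mem_sdiff] at hl
          rw [hS', mem_filter] at hl'
          exact hl'.2 (hSmem l hl.1).2
        have h1 : |∏ l ∈ S \ S1, g l (ev b (t l))| ≤ (L ^ c) ^ (S \ S1).card :=
          prod_le_pow _ _ (L ^ c) hLc1 _ le_rfl (fun l _ => hg l _ (hval b l hb))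
        have h2 : |κ| ≤ (L ^ c) ^ S'.card := by
          refine prod_le_pow _ _ (L ^ c) hLc1 _ le_rfl (fun l _ => hg l _ (hval _ l fun c => ?_))
          have h3 := mem_QQ.1 (ha (io l)) c
          have h0 : (0 : ℤ) ≤ H := Int.natCast_nonneg H
          omega
        calc |∏ l ∈ S \ S1, g l (ev b (t l))| * |κ| ≤ (L ^ c) ^ (S \ S1).card * (L ^ c) ^ S'.card :=
              mul_le_mul h1 h2 (abs_nonneg _) (by positivity)
          _ = (L ^ c) ^ ((S \ S1) ∪ S').card := by rw [← pow_add, card_union_of_disjoint hd]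
          _ ≤ (L ^ c) ^ r := pow_le_pow_right₀ hLc1 (hcu _))
    refine le_trans (le_of_eq ?_) (hmain.trans (le_of_eq ?_))
    · congr 1
      refine sum_congr rfl fun b _ => ?_
      rw [Function.update_self, hsplit b]
    · rw [card_QQ]; push_cast; rfl
  have hres := resample (H := H) (io l0) (fun a : Fin m → Fin (d + 1) → ℤ => F (ev (a (io l0)) (t l0)) *
    ∏ l ∈ univ.erase l0, g l (ev (a (io l)) (t l)))
  have hQpos : (0 : ℝ) < (QQ d H).card := by rw [card_QQ]; positivity
  have h1 : (QQ d H).card * |∑ a ∈ Bx m d H, F (ev (a (io l0)) (t l0)) *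
      ∏ l ∈ univ.erase l0, g l (ev (a (io l)) (t l))| ≤ (QQ d H).card * ((Bx m d H).card / L ^ U) := by
    have h2 : (QQ d H).card * |∑ a ∈ Bx m d H, F (ev (a (io l0)) (t l0)) *
      ∏ l ∈ univ.erase l0, g l (ev (a (io l)) (t l))| = |(QQ d H).card * ∑ a ∈ Bx m d H, F (ev (a (io l0)) (t l0)) *
      ∏ l ∈ univ.erase l0, g l (ev (a (io l)) (t l))| := by
      rw [abs_mul, Nat.abs_cast]
    rw [h2, ← hres]
    refine (abs_sum_le_sum_abs _ _).trans ((sum_le_sum hinner).trans ?_)
    rw [sum_const, nsmul_eq_mul]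
    apply le_of_eq; ring
  exact le_of_mul_le_mul_left h1 hQpos

end Pool.Agent.TP975.LR
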