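import Mathlib
import Pool.Agent.TP975.LR.Lf1
import Pool.Agent.TP975.LR.Lb3
import Pool.Agent.TP975.RP.Cd7
import Pool.Agent.TP975.RP.Si5

/-!
Joint correlations of the von Mangoldt and Liouville functions at the values of random polynomials.
-/

set_option autoImplicit false

namespace Pool.Agent.TP975.LR

open Finset Filter
open Pool.Agent.H807R2.Dav
open Pool.Agent.TP975.RP
open Pool.Agent.H373R2.T7

variable {m d k l : ℕ}

/-- the product of the von Mangoldt functions -/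
noncomputable def XL (σ : Fin k → Fin m) (h : Fin k → ℤ) (n : ℤ) (a : Fin m → Fin (d + 1) → ℤ) : ℝ :=
  ∏ i, ArithmeticFunction.vonMangoldt (ev (a (σ i)) (n + h i)).natAbs

/-- the joint product -/
noncomputable def PJ (σ : Fin k → Fin m) (h : Fin k → ℤ) (σ' : Fin l → Fin m) (h' : Fin l → ℤ) (n : ℤ)
    (a : Fin m → Fin (d + 1) → ℤ) : ℝ := XL σ h n a * ∏ j, lamI (ev (a (σ' j)) (n + h' j))

lemma XL_nonneg (σ : Fin k → Fin m) (h : Fin k → ℤ) (n : ℤ) (a : Fin m → Fin (d + 1) → ℤ) : 0 ≤ XL σ h n a :=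
  prod_nonneg fun _ _ => ArithmeticFunction.vonMangoldt_nonneg

lemma PJ_abs (σ : Fin k → Fin m) (h : Fin k → ℤ) (σ' : Fin l → Fin m) (h' : Fin l → ℤ) (n : ℤ)
    (a : Fin m → Fin (d + 1) → ℤ) : |PJ σ h σ' h' n a| ≤ XL σ h n a := by
  unfold PJ
  rw [abs_mul, abs_of_nonneg (XL_nonneg σ h n a)]
  refine mul_le_of_le_one_right (XL_nonneg σ h n a) ?_
  exact prod_le_one' _ _ fun j _ => lamI_abs _

/-- the slots -/
def ioJ (σ : Fin k → Fin m) (σ' : Fin l → Fin m) : (Fin k ⊕ Fin l) ⊕ (Fin k ⊕ Fin l) → Fin m :=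
  Sum.elim (Sum.elim σ σ') (Sum.elim σ σ')

/-- the points -/
def tJ (h : Fin k → ℤ) (h' : Fin l → ℤ) (n n' : ℤ) : (Fin k ⊕ Fin l) ⊕ (Fin k ⊕ Fin l) → ℤ :=
  Sum.elim (fun s => n + Sum.elim h h' s) (fun s => n' + Sum.elim h h' s)

/-- the functions -/
noncomputable def gJ (k l : ℕ) : (Fin k ⊕ Fin l) ⊕ (Fin k ⊕ Fin l) → ℤ → ℝ :=
  Sum.elim (Sum.elim (fun _ v => ArithmeticFunction.vonMangoldt v.natAbs) (fun _ v => lamI v))
    (Sum.elim (fun _ v => ArithmeticFunction.vonMangoldt v.natAbs) (fun _ v => lamI v))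

lemma gJ_prod (σ : Fin k → Fin m) (h : Fin k → ℤ) (σ' : Fin l → Fin m) (h' : Fin l → ℤ) (n n' : ℤ)
    (a : Fin m → Fin (d + 1) → ℤ) :
    ∏ s, gJ k l s (ev (a (ioJ σ σ' s)) (tJ h h' n n' s)) = PJ σ h σ' h' n a * PJ σ h σ' h' n' a := by
  rw [Fintype.prod_sum_type, Fintype.prod_sum_type, Fintype.prod_sum_type]
  rfl

lemma fib2 (σ : Fin k → Fin m) (σ' : Fin l → Fin m)
    (hfib : ∀ i, (univ.filter (fun s => Sum.elim σ σ' s = i)).card ≤ d) (i : Fin m) :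
    (univ.filter (fun s => ioJ σ σ' s = i)).card ≤ 2 * d := by
  classical
  have h1 : (univ.filter (fun s => ioJ σ σ' s = i)) =
      (univ.filter (fun s => Sum.elim σ σ' s = i)).disjSum (univ.filter (fun s => Sum.elim σ σ' s = i)) := by
    ext s
    rw [mem_filter, mem_disjSum]
    rcases s with s | s
    · simp [ioJ]
    · simp [ioJ]
  rw [h1, card_disjSum]
  have := hfib i
  omega

/-- a pair of arguments with distinct points -/
def GdJ (σ : Fin k → Fin m) (h : Fin k → ℤ) (σ' : Fin l → Fin m) (h' : Fin l → ℤ) (n n' : ℤ) : Prop :=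
  ∀ s s' : Fin k ⊕ Fin l, n + Sum.elim h h' s ≠ n' + Sum.elim h h' s'

theorem pairJ (m d k l A U : ℕ) (hl : 1 ≤ l) : ∃ H0 : ℕ, ∀ H : ℕ, H0 ≤ H →
    ∀ (σ : Fin k → Fin m) (h : Fin k → ℤ) (σ' : Fin l → Fin m) (h' : Fin l → ℤ),
    (∀ s, |((Sum.elim h h' s : ℤ) : ℝ)| ≤ Real.log H ^ A) →
    (∀ s s', s ≠ s' → Sum.elim σ σ' s = Sum.elim σ σ' s' → Sum.elim h h' s ≠ Sum.elim h h' s') →
    (∀ i, (univ.filter (fun s => Sum.elim σ σ' s = i)).card ≤ d) →
    ∀ n n' : ℤ, |(n : ℝ)| ≤ Real.log H ^ A → |(n' : ℝ)| ≤ Real.log H ^ A → GdJ σ h σ' h' n n' →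
    |∑ a ∈ Bx m d H, PJ σ h σ' h' n a * PJ σ h σ' h' n' a| ≤ (Bx m d H).card / Real.log H ^ U := by
  obtain ⟨H1, h1⟩ := mlFm lamI winB_lamI lamI_abs m d (A + 1) 2 U (2 * (k + l))
  obtain ⟨H2, h2⟩ := eventually_atTop.1 (ev_log 3)
  refine ⟨max (max H1 H2) 3, fun H hH σ h σ' h' hb hdist hfib n n' hn hn' hgd => ?_⟩
  have a0 : 3 ≤ H := (le_max_right _ _).trans hH
  have a1 := h1 H (((le_max_left _ _).trans (le_max_left _ _)).trans hH)
  have a2 := h2 H (((le_max_right _ _).trans (le_max_left _ _)).trans hH)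
  set L := Real.log H with hL
  have hL0 : 0 < L := by linarith
  have hH1 : (1 : ℝ) ≤ H := by exact_mod_cast (by omega : 1 ≤ H)
  set l0 : (Fin k ⊕ Fin l) ⊕ (Fin k ⊕ Fin l) := Sum.inl (Sum.inr ⟨0, by omega⟩) with hl0
  have hpt : ∀ s : (Fin k ⊕ Fin l) ⊕ (Fin k ⊕ Fin l), |((tJ h h' n n' s : ℤ) : ℝ)| ≤ L ^ (A + 1) := by
    have hLA : 0 ≤ L ^ A := by positivity
    have hx : 2 * L ^ A ≤ L ^ (A + 1) := by
      rw [pow_succ, mul_comm]; exact mul_le_mul_of_nonneg_left (by linarith) hLA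
    intro s
    rcases s with s | s
    · show |((n + Sum.elim h h' s : ℤ) : ℝ)| ≤ _
      push_cast
      refine (abs_add_le _ _).trans ?_
      have := hb s
      linarith
    · show |((n' + Sum.elim h h' s : ℤ) : ℝ)| ≤ _
      push_cast
      refine (abs_add_le _ _).trans ?_
      have := hb s
      linarith
  have b1 := a1 ((Fin k ⊕ Fin l) ⊕ (Fin k ⊕ Fin l)) (by
    simp only [Fintype.card_sum, Fintype.card_fin]; omega) (ioJ σ σ') (tJ h h' n n') hpt l0 (by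
    intro s hs hio
    rcases s with s | s
    · show n + Sum.elim h h' s ≠ n + Sum.elim h h' (Sum.inr ⟨0, by omega⟩)
      intro heq
      have h3 : s ≠ Sum.inr ⟨0, by omega⟩ := fun h => hs (by rw [h])
      exact hdist s _ h3 hio (by omega)
    · show n' + Sum.elim h h' s ≠ n + Sum.elim h h' (Sum.inr ⟨0, by omega⟩)
      exact (hgd _ s).symm) (by
    refine le_trans (card_le_card ?_) (fib2 σ σ' hfib (ioJ σ σ' l0))
    exact filter_subset_filter _ (erase_subset _ _)) (gJ k l) (by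
    have hLam : ∀ v : ℤ, |(v : ℝ)| ≤ (H : ℝ) ^ 2 → |ArithmeticFunction.vonMangoldt v.natAbs| ≤ L ^ 2 := by
      intro v hv
      rw [abs_of_nonneg ArithmeticFunction.vonMangoldt_nonneg]
      refine ArithmeticFunction.vonMangoldt_le_log.trans ?_
      rcases Nat.eq_zero_or_pos v.natAbs with h0 | h0
      · rw [h0]; simp; positivity
      · have h9 : (v.natAbs : ℝ) ≤ (H : ℝ) ^ 2 := by
          rw [Nat.cast_natAbs]; push_cast; exact hv
        have h10 : (0 : ℝ) < v.natAbs := by exact_mod_cast h0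
        calc Real.log (v.natAbs : ℝ) ≤ Real.log ((H : ℝ) ^ 2) := Real.log_le_log h10 h9
          _ = 2 * L := by rw [Real.log_pow]; push_cast; ring
          _ ≤ L ^ 2 := by nlinarith
    have hlam : ∀ v : ℤ, |lamI v| ≤ L ^ 2 := by
      intro v
      refine (lamI_abs v).trans (one_le_pow₀ (by linarith))
    intro s v hv
    rcases s with (s | s) | (s | s)
    · exact hLam v hv
    · exact hlam v
    · exact hLam v hv
    · exact hlam v)
  refine le_trans (le_of_eq ?_) b1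
  congr 1
  refine sum_congr rfl fun a _ => ?_
  rw [← gJ_prod, ← mul_prod_erase univ (fun s => gJ k l s (ev (a (ioJ σ σ' s)) (tJ h h' n n' s))) (mem_univ l0)]
  rfl

/-- the sum over the arguments -/
noncomputable def SJ (σ : Fin k → Fin m) (h : Fin k → ℤ) (σ' : Fin l → Fin m) (h' : Fin l → ℤ) (T : Finset ℤ) (w : ℤ → ℝ)
    (a : Fin m → Fin (d + 1) → ℤ) : ℝ := ∑ n ∈ T, w n * PJ σ h σ' h' n a

lemma bad_count (σ : Fin k → Fin m) (h : Fin k → ℤ) (σ' : Fin l → Fin m) (h' : Fin l → ℤ) (T : Finset ℤ)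
    [DecidablePred (fun q : ℤ × ℤ => ¬ GdJ σ h σ' h' q.1 q.2)] :
    ((T ×ˢ T).filter (fun q => ¬ GdJ σ h σ' h' q.1 q.2)).card ≤ (k + l) ^ 2 * T.card := by
  classical
  have h1 : (T ×ˢ T).filter (fun q => ¬ GdJ σ h σ' h' q.1 q.2) ⊆
      (univ : Finset ((Fin k ⊕ Fin l) × (Fin k ⊕ Fin l))).biUnion (fun s =>
        T.image (fun n => (n, n + Sum.elim h h' s.1 - Sum.elim h h' s.2))) := by
    intro q hq
    rw [mem_filter, mem_product] at hq
    obtain ⟨⟨hq1, hq2⟩, hq3⟩ := hq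
    unfold GdJ at hq3
    push Not at hq3
    obtain ⟨s, s', hs⟩ := hq3
    rw [mem_biUnion]
    refine ⟨(s, s'), mem_univ _, mem_image.2 ⟨q.1, hq1, ?_⟩⟩
    ext
    · rfl
    · show q.1 + Sum.elim h h' s - Sum.elim h h' s' = q.2
      omega
  refine (card_le_card h1).trans (card_biUnion_le.trans ?_)
  refine (sum_le_sum fun s _ => card_image_le).trans ?_
  rw [sum_const, card_univ, Fintype.card_prod, Fintype.card_sum, Fintype.card_fin, Fintype.card_fin, smul_eq_mul]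
  apply le_of_eq
  ring

theorem jointJ (m d k l A : ℕ) (hl : 1 ≤ l) (ε : ℝ) (hε : 0 < ε) : ∃ η : ℝ, 0 < η ∧ ∃ H0 : ℕ, ∀ H : ℕ, H0 ≤ H →
    ∀ (σ : Fin k → Fin m) (h : Fin k → ℤ) (σ' : Fin l → Fin m) (h' : Fin l → ℤ),
    (∀ s, |((Sum.elim h h' s : ℤ) : ℝ)| ≤ Real.log H ^ A) →
    (∀ s s', s ≠ s' → Sum.elim σ σ' s = Sum.elim σ σ' s' → Sum.elim h h' s ≠ Sum.elim h h' s') →
    (∀ i, (univ.filter (fun s => Sum.elim σ σ' s = i)).card ≤ d) →
    ∀ T : Finset ℤ, (∀ n ∈ T, |(n : ℝ)| ≤ Real.log H ^ A) → Real.log H ^ ((k : ℝ) + ε) ≤ T.card →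
    ∀ w : ℤ → ℝ, (∀ n, |w n| ≤ 1) →
    (((Bx m d H).filter (fun a => T.card / Real.log H ^ η < |SJ σ h σ' h' T w a|)).card : ℝ) ≤
      (Bx m d H).card / Real.log H ^ η := by
  classical
  obtain ⟨H1, h1⟩ := pairJ m d k l A 4 hl
  obtain ⟨B, hB⟩ := meanW_le m d k (A + 1)
  obtain ⟨H2, h2⟩ := hB (B + 1)
  obtain ⟨H3, h3⟩ := V_LL3 (B + 1)
  set η : ℝ := min (ε / 8) 1 with hη
  have hη0 : 0 < η := by rw [hη]; positivity
  have hη1 : η ≤ ε / 8 := min_le_left _ _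
  have hη2 : η ≤ 1 := min_le_right _ _
  refine ⟨η, hη0, ?_⟩
  have hev : ∀ᶠ H : ℕ in atTop, H1 ≤ H ∧ H2 ≤ H ∧ H3 ≤ H ∧ 3 ≤ H ∧ 3 ≤ Real.log H ∧
      2 * ((((k + l) ^ 2 : ℕ) : ℝ) * (2 ^ k * (1 + k))) ≤ Real.log H ^ (ε / 8) ∧
      1 * (1 + Real.log (Real.log H)) ≤ Real.log H ^ (ε / (24 * (k + 1))) ∧
      ((d : ℝ) + 1) * Real.log H ^ ((A + 1) * d) ≤ H ∧ 2 ≤ Real.log (Real.log H) := by
    filter_upwards [eventually_ge_atTop H1, eventually_ge_atTop H2, eventually_ge_atTop H3, eventually_ge_atTop 3,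
      ev_log 3, ev_rpow (ε / 8) (by positivity) (2 * ((((k + l) ^ 2 : ℕ) : ℝ) * (2 ^ k * (1 + k)))),
      ev_loglog (ε / (24 * (k + 1))) (by positivity) 1, ev_pow ((A + 1) * d) ((d : ℝ) + 1),
      (Real.tendsto_log_atTop.comp tend_log).eventually_ge_atTop 2] with H a1 a2 a3 a4 a5 a6 a7 a8 a9
    exact ⟨a1, a2, a3, a4, a5, a6, a7, a8, a9⟩
  obtain ⟨H0, hH0⟩ := eventually_atTop.1 hev
  refine ⟨H0, fun H hH σ h σ' h' hb hdist hfib T hT hTc w hw => ?_⟩
  obtain ⟨a1, a2, a3, a4, a5, a6, a7, a8, a9⟩ := hH0 H hH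
  set L := Real.log H with hL
  have hL0 : 0 < L := by linarith
  have hL1 : 1 ≤ L := by linarith
  have hH1r : (1 : ℝ) ≤ H := by exact_mod_cast (by omega : 1 ≤ H)
  set z := ⌈L ^ B⌉₊ with hz
  have hz1 : L ^ B ≤ z := Nat.le_ceil _
  have hz2 : (z : ℝ) ≤ L ^ (B + 1) := by
    have h4 := Nat.ceil_lt_add_one (show 0 ≤ L ^ B by positivity)
    rw [← hz] at h4
    have h5 : 1 ≤ L ^ B := one_le_pow₀ hL1
    rw [pow_succ]
    nlinarith
  have hmean := h2 H a2 z hz1 hz2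
  have hV := (h3 H a3 z hz2).1
  have hV1 := one_le_Vinv z
  set LL := Real.log L with hLL
  set Q : ℝ := ((Bx m d H).card : ℝ) with hQ
  have hQ0 : 0 ≤ Q := Nat.cast_nonneg _
  have hTpos : (0 : ℝ) < T.card := lt_of_lt_of_le (Real.rpow_pos_of_pos hL0 _) hTc
  -- the bound of X
  have hLA : 0 ≤ L ^ A := by positivity
  have hpt : ∀ n ∈ T, ∀ i, |((n + h i : ℤ) : ℝ)| ≤ L ^ (A + 1) := by
    intro n hn i
    push_cast
    refine (abs_add_le _ _).trans ?_
    have q1 := hT n hn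
    have q2 := hb (Sum.inl i)
    simp only [Sum.elim_inl] at q2
    rw [pow_succ]
    nlinarith
  have hX1 : ∀ n ∈ T, ∀ a ∈ Bx m d H, XL σ h n a ≤ (2 * L) ^ k := by
    intro n hn a ha
    unfold XL
    calc ∏ i, ArithmeticFunction.vonMangoldt (ev (a (σ i)) (n + h i)).natAbs ≤ ∏ i : Fin k, 2 * L :=
          prod_le_prod (fun _ _ => ArithmeticFunction.vonMangoldt_nonneg) fun i _ =>
            Lam_bd (A + 1) H (by omega) hL1 a8 ha (σ i) (n + h i) (hpt n hn i)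
      _ = _ := by simp
  set κ : ℝ := (1 + k) * ((Vz z)⁻¹) ^ k with hκ
  have hκ0 : 0 ≤ κ := by rw [hκ]; positivity
  have hX2 : ∀ n ∈ T, ∑ a ∈ Bx m d H, XL σ h n a ≤ Q * κ := by
    intro n hn
    have q1 := hmean σ (fun i => n + h i) (fun i => hpt n hn i) (by
      intro i i' hi hs heq
      exact hdist (Sum.inl i) (Sum.inl i') (by simpa using hi) hs (by simpa using heq)) (by
      intro i
      have q2 : (univ.filter (fun j => σ j = i)).card ≤ (univ.filter (fun s => Sum.elim σ σ' s = i)).card := by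
        apply card_le_card_of_injOn (fun j => (Sum.inl j : Fin k ⊕ Fin l))
        · intro j hj
          rw [mem_coe, mem_filter] at hj ⊢
          exact ⟨mem_univ _, hj.2⟩
        · intro j _ j' _ heq
          exact Sum.inl_injective heq
      have := hfib i
      omega)
    exact q1
  have hX3 : ∀ n ∈ T, ∑ a ∈ Bx m d H, XL σ h n a ^ 2 ≤ Q * ((2 * L) ^ k * κ) := by
    intro n hn
    calc ∑ a ∈ Bx m d H, XL σ h n a ^ 2 ≤ ∑ a ∈ Bx m d H, (2 * L) ^ k * XL σ h n a := by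
          refine sum_le_sum fun a ha => ?_
          rw [sq]
          exact mul_le_mul_of_nonneg_right (hX1 n hn a ha) (XL_nonneg _ _ _ _)
      _ = (2 * L) ^ k * ∑ a ∈ Bx m d H, XL σ h n a := by rw [mul_sum]
      _ ≤ (2 * L) ^ k * (Q * κ) := mul_le_mul_of_nonneg_left (hX2 n hn) (by positivity)
      _ = _ := by ring
  -- the second moment
  have hsec : ∑ a ∈ Bx m d H, SJ σ h σ' h' T w a ^ 2 ≤
      Q * ((T.card : ℝ) ^ 2 / L ^ 4 + (((k + l) ^ 2 : ℕ) : ℝ) * T.card * ((2 * L) ^ k * κ)) := by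
    have e1 : ∀ a ∈ Bx m d H, SJ σ h σ' h' T w a ^ 2 = ∑ q ∈ T ×ˢ T, w q.1 * w q.2 * (PJ σ h σ' h' q.1 a * PJ σ h σ' h' q.2 a) := by
      intro a _
      unfold SJ
      rw [sq, sum_mul_sum, sum_product]
      refine sum_congr rfl fun n _ => sum_congr rfl fun n' _ => ?_
      ring
    rw [sum_congr rfl e1, sum_comm]
    rw [← sum_filter_add_sum_filter_not (T ×ˢ T) (fun q => GdJ σ h σ' h' q.1 q.2)]
    have hgood : ∑ q ∈ (T ×ˢ T).filter (fun q => GdJ σ h σ' h' q.1 q.2),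
        ∑ a ∈ Bx m d H, w q.1 * w q.2 * (PJ σ h σ' h' q.1 a * PJ σ h σ' h' q.2 a) ≤ Q * ((T.card : ℝ) ^ 2 / L ^ 4) := by
      have q1 : ∀ q ∈ (T ×ˢ T).filter (fun q => GdJ σ h σ' h' q.1 q.2),
          ∑ a ∈ Bx m d H, w q.1 * w q.2 * (PJ σ h σ' h' q.1 a * PJ σ h σ' h' q.2 a) ≤ Q / L ^ 4 := by
        intro q hq
        rw [mem_filter, mem_product] at hq
        have q2 := h1 H a1 σ h σ' h' hb hdist hfib q.1 q.2 (hT _ hq.1.1) (hT _ hq.1.2) hq.2
        rw [← mul_sum]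
        refine (le_abs_self _).trans ?_
        rw [abs_mul, abs_mul]
        have q3 : |w q.1| * |w q.2| ≤ 1 := by
          have := hw q.1
          have := hw q.2
          have := abs_nonneg (w q.1)
          have := abs_nonneg (w q.2)
          nlinarith
        calc |w q.1| * |w q.2| * |∑ a ∈ Bx m d H, PJ σ h σ' h' q.1 a * PJ σ h σ' h' q.2 a| ≤ 1 * (Q / L ^ 4) :=
              mul_le_mul q3 q2 (abs_nonneg _) zero_le_one
          _ = _ := one_mul _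
      refine (sum_le_sum q1).trans ?_
      rw [sum_const, nsmul_eq_mul]
      have q4 : (((T ×ˢ T).filter (fun q => GdJ σ h σ' h' q.1 q.2)).card : ℝ) ≤ (T.card : ℝ) ^ 2 := by
        have := card_filter_le (T ×ˢ T) (fun q => GdJ σ h σ' h' q.1 q.2)
        rw [card_product] at this
        calc (((T ×ˢ T).filter (fun q => GdJ σ h σ' h' q.1 q.2)).card : ℝ) ≤ ((T.card * T.card : ℕ) : ℝ) := by exact_mod_cast this
          _ = _ := by push_cast; ring
      calc (((T ×ˢ T).filter (fun q => GdJ σ h σ' h' q.1 q.2)).card : ℝ) * (Q / L ^ 4) ≤ (T.card : ℝ) ^ 2 * (Q / L ^ 4) :=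
            mul_le_mul_of_nonneg_right q4 (by positivity)
        _ = _ := by ring
    have hbad : ∑ q ∈ (T ×ˢ T).filter (fun q => ¬ GdJ σ h σ' h' q.1 q.2),
        ∑ a ∈ Bx m d H, w q.1 * w q.2 * (PJ σ h σ' h' q.1 a * PJ σ h σ' h' q.2 a) ≤
        Q * ((((k + l) ^ 2 : ℕ) : ℝ) * T.card * ((2 * L) ^ k * κ)) := by
      have q1 : ∀ q ∈ (T ×ˢ T).filter (fun q => ¬ GdJ σ h σ' h' q.1 q.2),
          ∑ a ∈ Bx m d H, w q.1 * w q.2 * (PJ σ h σ' h' q.1 a * PJ σ h σ' h' q.2 a) ≤ Q * ((2 * L) ^ k * κ) := by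
        intro q hq
        rw [mem_filter, mem_product] at hq
        calc ∑ a ∈ Bx m d H, w q.1 * w q.2 * (PJ σ h σ' h' q.1 a * PJ σ h σ' h' q.2 a) ≤
            ∑ a ∈ Bx m d H, (XL σ h q.1 a ^ 2 + XL σ h q.2 a ^ 2) / 2 := by
              refine sum_le_sum fun a _ => ?_
              refine (le_abs_self _).trans ?_
              rw [abs_mul, abs_mul, abs_mul]
              have r1 := PJ_abs σ h σ' h' q.1 a
              have r2 := PJ_abs σ h σ' h' q.2 a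
              have r3 := XL_nonneg σ h q.1 a
              have r4 := XL_nonneg σ h q.2 a
              have q3 : |w q.1| * |w q.2| ≤ 1 := by
                have := hw q.1
                have := hw q.2
                have := abs_nonneg (w q.1)
                have := abs_nonneg (w q.2)
                nlinarith
              have r5 : |PJ σ h σ' h' q.1 a| * |PJ σ h σ' h' q.2 a| ≤ XL σ h q.1 a * XL σ h q.2 a :=
                mul_le_mul r1 r2 (abs_nonneg _) r3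
              calc |w q.1| * |w q.2| * (|PJ σ h σ' h' q.1 a| * |PJ σ h σ' h' q.2 a|) ≤ 1 * (XL σ h q.1 a * XL σ h q.2 a) :=
                    mul_le_mul q3 r5 (by positivity) zero_le_one
                _ ≤ _ := by nlinarith [sq_nonneg (XL σ h q.1 a - XL σ h q.2 a)]
          _ = (∑ a ∈ Bx m d H, XL σ h q.1 a ^ 2 + ∑ a ∈ Bx m d H, XL σ h q.2 a ^ 2) / 2 := by
              rw [← sum_add_distrib, sum_div]
          _ ≤ _ := by
              have := hX3 q.1 hq.1.1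
              have := hX3 q.2 hq.1.2
              linarith
      refine (sum_le_sum q1).trans ?_
      rw [sum_const, nsmul_eq_mul]
      have q5 : (((T ×ˢ T).filter (fun q => ¬ GdJ σ h σ' h' q.1 q.2)).card : ℝ) ≤ (((k + l) ^ 2 : ℕ) : ℝ) * T.card := by
        have := bad_count σ h σ' h' T
        exact_mod_cast this
      calc (((T ×ˢ T).filter (fun q => ¬ GdJ σ h σ' h' q.1 q.2)).card : ℝ) * (Q * ((2 * L) ^ k * κ)) ≤
          ((((k + l) ^ 2 : ℕ) : ℝ) * T.card) * (Q * ((2 * L) ^ k * κ)) := mul_le_mul_of_nonneg_right q5 (by positivity)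
        _ = _ := by ring
    rw [mul_add]
    exact add_le_add hgood hbad
  -- Chebyshev
  have hLη : 0 < L ^ η := by positivity
  have hLη1 : 1 ≤ L ^ η := Real.one_le_rpow hL1 hη0.le
  have hM := markov_pow (Bx m d H) (fun a => SJ σ h σ' h' T w a) 1 (T.card / L ^ η)
    (Q * ((T.card : ℝ) ^ 2 / L ^ 4 + (((k + l) ^ 2 : ℕ) : ℝ) * T.card * ((2 * L) ^ k * κ))) (by positivity)
    (by rw [mul_one]; exact hsec)
  refine hM.trans ?_
  rw [mul_one, mul_div_assoc, div_eq_mul_one_div Q]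
  apply mul_le_mul_of_nonneg_left _ hQ0
  rw [div_pow, div_div_eq_mul_div, div_le_div_iff₀ (by positivity) hLη, one_mul, add_mul, add_mul]
  have hη3 : L ^ η ^ 1 = L ^ η := by rw [pow_one]
  have e3 : (L ^ η) ^ 2 * L ^ η = (L ^ η) ^ 3 := by ring
  have hη4 : (L ^ η) ^ 3 ≤ L ^ 3 := by
    have : L ^ η ≤ L ^ (1 : ℝ) := Real.rpow_le_rpow_of_exponent_le hL1 hη2
    rw [Real.rpow_one] at this
    exact pow_le_pow_left₀ hLη.le this 3
  have hT1 : (T.card : ℝ) ^ 2 / L ^ 4 * (L ^ η) ^ 2 * L ^ η ≤ (T.card : ℝ) ^ 2 / 2 := by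
    rw [mul_assoc, e3, div_mul_eq_mul_div, div_le_div_iff₀ (by positivity) (by norm_num)]
    have : (L ^ η) ^ 3 * 2 ≤ L ^ 4 := by
      calc (L ^ η) ^ 3 * 2 ≤ L ^ 3 * L := mul_le_mul hη4 (by linarith) (by norm_num) (by positivity)
        _ = _ := by ring
    calc (T.card : ℝ) ^ 2 * (L ^ η) ^ 3 * 2 = (T.card : ℝ) ^ 2 * ((L ^ η) ^ 3 * 2) := by ring
      _ ≤ (T.card : ℝ) ^ 2 * L ^ 4 := mul_le_mul_of_nonneg_left this (by positivity)
  have hVk : ((Vz z)⁻¹) ^ k ≤ L ^ (ε / 8) := by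
    have q1 : LL ≤ L ^ (ε / (24 * (k + 1))) := by
      have : (0 : ℝ) ≤ LL := by linarith
      linarith
    have q2 : (Vz z)⁻¹ ≤ (L ^ (ε / (24 * (k + 1)))) ^ 3 := by
      refine hV.trans ?_
      exact pow_le_pow_left₀ (by linarith) q1 3
    have q3 : 1 ≤ L ^ (ε / (24 * ((k : ℝ) + 1))) := Real.one_le_rpow hL1 (by positivity)
    calc ((Vz z)⁻¹) ^ k ≤ ((L ^ (ε / (24 * (k + 1)))) ^ 3) ^ k := pow_le_pow_left₀ (by linarith) q2 k
      _ ≤ ((L ^ (ε / (24 * (k + 1)))) ^ 3) ^ (k + 1) := pow_le_pow_right₀ (one_le_pow₀ q3) (by omega)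
      _ = L ^ (ε / 8) := by
          rw [← pow_mul, ← Real.rpow_natCast, ← Real.rpow_mul hL0.le]
          congr 1
          push_cast
          field_simp
          norm_num
  have hT2 : (((k + l) ^ 2 : ℕ) : ℝ) * T.card * ((2 * L) ^ k * κ) * (L ^ η) ^ 2 * L ^ η ≤ (T.card : ℝ) ^ 2 / 2 := by
    have q1 : (L ^ η) ^ 3 ≤ (L ^ (ε / 8)) ^ 3 :=
      pow_le_pow_left₀ hLη.le (Real.rpow_le_rpow_of_exponent_le hL1 hη1) 3
    have q2 : 2 * ((((k + l) ^ 2 : ℕ) : ℝ) * (2 ^ k * (1 + k))) * L ^ k * (L ^ (ε / 8) * (L ^ (ε / 8)) ^ 3) ≤ T.card := by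
      calc 2 * ((((k + l) ^ 2 : ℕ) : ℝ) * (2 ^ k * (1 + k))) * L ^ k * (L ^ (ε / 8) * (L ^ (ε / 8)) ^ 3) ≤
          L ^ (ε / 8) * L ^ k * (L ^ (ε / 8) * (L ^ (ε / 8)) ^ 3) := by gcongr
        _ = L ^ k * (L ^ (ε / 8)) ^ 5 := by ring
        _ ≤ L ^ k * (L ^ (ε / 8)) ^ 8 := by
            apply mul_le_mul_of_nonneg_left _ (by positivity)
            exact pow_le_pow_right₀ (Real.one_le_rpow hL1 (by positivity)) (by norm_num)
        _ = L ^ ((k : ℝ) + ε) := by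
            rw [← Real.rpow_natCast L k, ← Real.rpow_natCast (L ^ (ε / 8)) 8, ← Real.rpow_mul hL0.le, ← Real.rpow_add hL0]
            congr 1
            push_cast
            ring
        _ ≤ T.card := hTc
    calc (((k + l) ^ 2 : ℕ) : ℝ) * T.card * ((2 * L) ^ k * κ) * (L ^ η) ^ 2 * L ^ η =
        (((k + l) ^ 2 : ℕ) : ℝ) * T.card * (2 ^ k * L ^ k * ((1 + k) * ((Vz z)⁻¹) ^ k)) * (L ^ η) ^ 3 := by
          rw [hκ, mul_pow]; ring
      _ ≤ (((k + l) ^ 2 : ℕ) : ℝ) * T.card * (2 ^ k * L ^ k * ((1 + k) * L ^ (ε / 8))) * (L ^ (ε / 8)) ^ 3 := by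
          gcongr
      _ = (2 * ((((k + l) ^ 2 : ℕ) : ℝ) * (2 ^ k * (1 + k))) * L ^ k * (L ^ (ε / 8) * (L ^ (ε / 8)) ^ 3)) * (T.card / 2) := by
          ring
      _ ≤ T.card * (T.card / 2) := mul_le_mul_of_nonneg_right q2 (by positivity)
      _ = _ := by ring
  linarith

end Pool.Agent.TP975.LR
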